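import Pool.Agent.H574R2.D9.Defs
import Pool.Agent.H337R2.LZ.A3
import Pool.Agent.H337R2.LZ.A5

/-! Assembly of the archimedean part, with the statements of the other tasks as hypotheses. -/

open Polynomial Pool.Agent.H337R2 Filter Topology

namespace Pool.Agent.H574R2.D9

noncomputable section

namespace AM

/-- statement of `G0_zq_inj` -/
def SG0z : Prop := ∀ {n : ℕ} (_ : 3 ≤ n), Set.InjOn (zq n) (Finset.range (10 * n - 10))

/-- statement of `G0_nd_X` -/
def SG0X : Prop := ∀ {n i : ℕ} (_ : 3 ≤ n) (_ : 2 * n - 1 ≤ i) (_ : i < 5 * n - 5),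
    120 * n ≤ nd n i ∧ nd n i < 327 * n

/-- statement of `G0_nd_Y` -/
def SG0Y : Prop := ∀ {n i : ℕ} (_ : 3 ≤ n) (_ : 5 * n - 5 ≤ i) (_ : i < 10 * n - 10),
    0 ≤ nd n i ∧ nd n i < 35 * n

/-- statement of `G1_entryN` -/
def SG1 : Prop := ∀ {n : ℕ} (_ : 10 ≤ n) (α β : ℕ → ℚ) (θ : ℝ)
    (_ : ∀ i, Odd i → 3 ≤ i → i ≤ 9 → zr i = (α i : ℝ) + θ * (β i : ℝ)) (MM : ℝ) (_ : 0 ≤ MM)
    (_ : ∀ v : ℕ, 6 * n ≤ v →
      wv n v * Real.exp (Lp n (Finset.range (10 * n - 10)) (20 * v) + Lp n (Finset.range (5 * n - 5)) (20 * v)) ≤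
        MM / (v : ℝ) ^ 2)
    (i j : ℕ) (_ : i < 10 * n - 10) (_ : j < 5 * n - 5),
    |((AL n α (lag (Finset.range (10 * n - 10)) (zq n) i * lag (Finset.range (5 * n - 5)) (zq n) j) : ℚ) : ℝ) + θ *
      ((BL n β (lag (Finset.range (10 * n - 10)) (zq n) i * lag (Finset.range (5 * n - 5)) (zq n) j) : ℚ) : ℝ)| ≤
    (if j < 2 * n - 1 then wv n (4 * n + 1 + j) *
      Real.exp (Lp n (Finset.range (10 * n - 10)) (20 * (4 * n + 1 + j)) +
        Lp n (Finset.range (5 * n - 5)) (20 * (4 * n + 1 + j))) else 0) + 1000 * MM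

/-- statement of `G2_entryY` -/
def SG2 : Prop := ∀ (β : ℕ → ℚ), ∃ C : ℝ, 0 < C ∧ ∀ n : ℕ, 3 ≤ n → ∀ MY : ℝ,
    (∀ u : ℤ, |u| ≤ 2 * n → n * phi (20 * (u : ℝ) / n) + Lp n (Finset.range (10 * n - 10)) (20 * u) +
      Lp n (Finset.Ico (5 * n - 5) (10 * n - 10)) (20 * u) ≤ MY) →
    ∀ i < 10 * n - 10, ∀ j, 5 * n - 5 ≤ j → j < 10 * n - 10 →
    |((BL n β (lag (Finset.range (10 * n - 10)) (zq n) i *
      lag (Finset.Ico (5 * n - 5) (10 * n - 10)) (zq n) j) : ℚ) : ℝ)| ≤
      Real.exp (MY + C * Real.log n)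

/-- statement of `G3_Lp` -/
def SG3 : Prop := ∃ C : ℝ, 0 < C ∧ ∀ n : ℕ, 3 ≤ n → ∀ a b : ℕ, a ≤ b → b ≤ 10 → ∀ u : ℤ,
    |Lp n (Finset.Ico (a * (n - 1)) (b * (n - 1))) u -
      (n * ∑ g ∈ Finset.Ico a b, Ub g ((u : ℝ) / n) + 2 * (b - a) * n * Real.log n)| ≤ C * Real.log (n + |(u : ℝ)|)

/-- statement of `G4_weight` -/
def SG4 : Prop := ∃ C : ℝ, 0 < C ∧ ∀ n : ℕ, 3 ≤ n → ∀ v : ℕ, 4 * n < v →
    |Real.log (wv n v) - n * phi (20 * (v : ℝ) / n)| ≤ C * Real.log (n + v)

/-- statement of `G5_sat` -/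
def SG5 : Prop := ∃ C : ℝ, 0 < C ∧ ∀ n : ℕ, 3 ≤ n →
    ∑ i ∈ Finset.range (2 * n - 1), (Real.log (wv n (4 * n + 1 + i)) + Lp n (Finset.range (2 * n - 1)) (20 * (4 * n + 1 + i))) ≤
      eS * (n : ℝ) ^ 2 + 8 * (n : ℝ) ^ 2 * Real.log n + C * n * Real.log n

/-- statement of `G6_pair` -/
def SG6 : Prop := ∃ C : ℝ, 0 < C ∧ ∀ n : ℕ, 3 ≤ n → ∀ g < 10, ∀ h < 10,
    |∑ j ∈ Finset.range (n - 1), Lp n (Finset.Ico (h * (n - 1)) ((h + 1) * (n - 1))) (bb g * n + cc g * (j : ℤ)) -
      (en g h * (n : ℝ) ^ 2 + 2 * (n : ℝ) ^ 2 * Real.log n)| ≤ C * n * Real.log n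

/-- statement of `G6_cross` -/
def SG6c : Prop := ∀ {n : ℕ} (_ : 3 ≤ n),
    (Real.log (VD (Finset.range (10 * n - 10)) (zq n)) + Real.log (VD (Finset.range (5 * n - 5)) (zq n)) +
      Real.log (VD (Finset.Ico (5 * n - 5) (10 * n - 10)) (zq n))) / 2 ≥
    ∑ i ∈ Finset.range (2 * n - 1), (Lp n (Finset.range (10 * n - 10)) (nd n i) + Lp n (Finset.range (5 * n - 5)) (nd n i)
      - Lp n (Finset.range (2 * n - 1)) (nd n i)) +
    ∑ i ∈ Finset.Ico (2 * n - 1) (5 * n - 5), Lp n (Finset.Ico (2 * n - 1) (10 * n - 10)) (nd n i) +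
    ∑ i ∈ Finset.Ico (5 * n - 5) (10 * n - 10), Lp n (Finset.Ico (5 * n - 5) (10 * n - 10)) (nd n i)
      - 40 * n * Real.log (40 * n)

/-- statement of `V1_upper` -/
def SV1 : Prop := ∀ (w : ℝ) (_ : 120 ≤ w), FN w ≤ -(63 / 20)

/-- statement of `V1_tail` -/
def SV1t : Prop := ∀ (w : ℝ) (_ : 10000 ≤ w), FN w ≤ -(63 / 20) - 4 * (Real.log w - Real.log 10000)

/-- statement of `V2_lower` -/
def SV2 : Prop := ∀ (w : ℝ) (_ : 80 ≤ w) (_ : w ≤ 120), -(16 / 5) ≤ FN w

/-- statement of `V3_upperY` -/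
def SV3 : Prop := ∀ (w : ℝ) (_ : -40 ≤ w) (_ : w ≤ 40), FY w ≤ 165 / 4

/-- statement of `V4_eS` -/
def SV4 : Prop := eS ≤ -(759 / 10)

/-- statement of `V5_eN` -/
def SV5 : Prop := 393 / 5 ≤ eN

lemma wv_pos (n : ℕ) {v : ℕ} (hv : 0 < v) : 0 < wv n v := by
  unfold wv
  have : (0 : ℝ) < v := by exact_mod_cast hv
  positivity

lemma three_le {n : ℕ} (hn : 3 ≤ n) : (3 : ℝ) ≤ n := by exact_mod_cast hn

lemma log2_le {n : ℕ} (hn : 3 ≤ n) : Real.log 2 ≤ Real.log n :=
  Real.log_le_log (by norm_num) (by linarith [three_le hn])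

/-- any constant is `O(log n)` -/
lemma const_le (c : ℝ) : ∃ K : ℝ, 0 ≤ K ∧ ∀ n : ℕ, 3 ≤ n → c ≤ K * Real.log n := by
  have hl2 : 0 < Real.log 2 := Real.log_pos (by norm_num)
  refine ⟨|c| / Real.log 2, by positivity, fun n hn => ?_⟩
  calc c ≤ |c| := le_abs_self _
    _ = |c| / Real.log 2 * Real.log 2 := by field_simp
    _ ≤ _ := by
      have := log2_le hn
      gcongr

/-- `log (2^a y) ≤ (a+1) log y` if `log 2 ≤ log y` -/
lemma log_pow_mul {x y : ℝ} (a : ℕ) (hx : 0 < x) (hy : 0 < y) (h2 : Real.log 2 ≤ Real.log y)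
    (h : x ≤ 2 ^ a * y) : Real.log x ≤ (a + 1) * Real.log y := by
  have e1 : Real.log x ≤ Real.log (2 ^ a * y) := Real.log_le_log hx h
  rw [Real.log_mul (by positivity) hy.ne', Real.log_pow] at e1
  have : (a : ℝ) * Real.log 2 ≤ a * Real.log y := by gcongr
  linarith

lemma mul_sub_one (k : ℕ) (n : ℕ) : k * n - k = k * (n - 1) := by
  rw [Nat.mul_sub, Nat.mul_one]

lemma range_eq (n k : ℕ) : Finset.range (k * n - k) = Finset.Ico (0 * (n - 1)) (k * (n - 1)) := by
  rw [Nat.zero_mul, Finset.range_eq_Ico, mul_sub_one]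

/-- the total potential of the zeta part at the lattice points -/
lemma pot (G3 : SG3) (G4 : SG4) : ∃ C : ℝ, 0 < C ∧ ∀ n : ℕ, 3 ≤ n → ∀ v : ℕ, 4 * n < v →
    |Real.log (wv n v) + (Lp n (Finset.range (10 * n - 10)) (20 * v) + Lp n (Finset.range (5 * n - 5)) (20 * v)) -
      (n * FN (20 * (v : ℝ) / n) + 30 * n * Real.log n)| ≤ C * Real.log (n + v) := by
  obtain ⟨C3, hC3, h3⟩ := G3
  obtain ⟨C4, hC4, h4⟩ := G4
  refine ⟨C4 + 12 * C3, by positivity, fun n hn t ht => ?_⟩
  have hn' := three_le hn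
  have ht0 : (0 : ℝ) ≤ t := Nat.cast_nonneg t
  have hl2 : 0 < Real.log 2 := Real.log_pos (by norm_num)
  have hl : Real.log 2 ≤ Real.log (n + t) := Real.log_le_log (by norm_num) (by linarith)
  have a1 := abs_le.mp (h4 n hn t ht)
  have a2 := abs_le.mp (h3 n hn 0 10 (by norm_num) le_rfl (20 * (t : ℤ)))
  have a3 := abs_le.mp (h3 n hn 0 5 (by norm_num) (by norm_num) (20 * (t : ℤ)))
  rw [← range_eq] at a2 a3
  push_cast at a2 a3
  have habs : |20 * (t : ℝ)| = 20 * t := abs_of_nonneg (by positivity)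
  rw [habs] at a2 a3
  have hlog : Real.log ((n : ℝ) + 20 * t) ≤ 6 * Real.log (n + t) := by
    have := log_pow_mul (x := (n : ℝ) + 20 * t) (y := n + t) 5 (by linarith) (by linarith) hl
      (by linarith)
    push_cast at this
    linarith
  have hs : ∑ g ∈ Finset.Ico 0 10, Ub g (20 * (t : ℝ) / n) =
      ∑ g ∈ Finset.range 5, Ub g (20 * (t : ℝ) / n) + ∑ g ∈ Finset.Ico 5 10, Ub g (20 * (t : ℝ) / n) := by
    rw [Finset.range_eq_Ico, Finset.sum_Ico_consecutive _ (by norm_num) (by norm_num)]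
  rw [hs] at a2
  rw [← Finset.range_eq_Ico] at a3
  have hC3l : C3 * Real.log ((n : ℝ) + 20 * t) ≤ 6 * (C3 * Real.log (n + t)) := by
    calc C3 * Real.log ((n : ℝ) + 20 * t) ≤ C3 * (6 * Real.log (n + t)) := by gcongr
      _ = _ := by ring
  have e2 : (n : ℝ) * FN (20 * (t : ℝ) / n) + 30 * n * Real.log n =
      n * phi (20 * (t : ℝ) / n) +
      (n * (∑ g ∈ Finset.range 5, Ub g (20 * (t : ℝ) / n) + ∑ g ∈ Finset.Ico 5 10, Ub g (20 * (t : ℝ) / n)) +
        20 * n * Real.log n) +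
      (n * ∑ g ∈ Finset.range 5, Ub g (20 * (t : ℝ) / n) + 10 * n * Real.log n) := by
    unfold FN
    ring
  have e3 : (C4 + 12 * C3) * Real.log ((n : ℝ) + t) = C4 * Real.log (n + t) +
      6 * (C3 * Real.log (n + t)) + 6 * (C3 * Real.log (n + t)) := by ring
  rw [e2, e3, abs_le]
  simp only [sub_zero] at a2 a3
  constructor <;> linarith

/-- the total potential of the pole part at the poles -/
lemma potY (G3 : SG3) (V3 : SV3) : ∃ C : ℝ, 0 < C ∧ ∀ n : ℕ, 3 ≤ n → ∀ u : ℤ, |u| ≤ 2 * n →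
    n * phi (20 * (u : ℝ) / n) + Lp n (Finset.range (10 * n - 10)) (20 * u) +
      Lp n (Finset.Ico (5 * n - 5) (10 * n - 10)) (20 * u) ≤
      165 / 4 * n + 30 * n * Real.log n + C * Real.log n := by
  obtain ⟨C3, hC3, h3⟩ := G3
  refine ⟨14 * C3, by positivity, fun n hn u hu => ?_⟩
  have hn' := three_le hn
  have hn0 : (0 : ℝ) < n := by linarith
  have hl2 : 0 < Real.log 2 := Real.log_pos (by norm_num)
  have hl := log2_le hn
  have hu' : |(u : ℝ)| ≤ 2 * n := by exact_mod_cast hu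
  have hu1 := abs_le.mp hu'
  have a2 := (abs_le.mp (h3 n hn 0 10 (by norm_num) le_rfl (20 * u))).2
  have a3 := (abs_le.mp (h3 n hn 5 10 (by norm_num) le_rfl (20 * u))).2
  rw [← range_eq] at a2
  rw [← mul_sub_one, ← mul_sub_one] at a3
  push_cast at a2 a3
  have habs : |20 * (u : ℝ)| = 20 * |(u : ℝ)| := by rw [abs_mul]; norm_num
  rw [habs] at a2 a3
  have hab0 := abs_nonneg (u : ℝ)
  have hlog : Real.log ((n : ℝ) + 20 * |(u : ℝ)|) ≤ 7 * Real.log n := by
    have := log_pow_mul (x := (n : ℝ) + 20 * |(u : ℝ)|) (y := n) 6 (by linarith) hn0 hl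
      (by linarith)
    push_cast at this
    linarith
  have hs : ∑ g ∈ Finset.Ico 0 10, Ub g (20 * (u : ℝ) / n) =
      ∑ g ∈ Finset.range 5, Ub g (20 * (u : ℝ) / n) + ∑ g ∈ Finset.Ico 5 10, Ub g (20 * (u : ℝ) / n) := by
    rw [Finset.range_eq_Ico, Finset.sum_Ico_consecutive _ (by norm_num) (by norm_num)]
  rw [hs] at a2
  have hC3l : C3 * Real.log ((n : ℝ) + 20 * |(u : ℝ)|) ≤ 7 * (C3 * Real.log n) := by
    calc C3 * Real.log ((n : ℝ) + 20 * |(u : ℝ)|) ≤ C3 * (7 * Real.log n) := by gcongr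
      _ = _ := by ring
  have hw1 : -40 ≤ 20 * (u : ℝ) / n := by
    rw [le_div_iff₀ hn0]; linarith
  have hw2 : 20 * (u : ℝ) / n ≤ 40 := by
    rw [div_le_iff₀ hn0]; linarith
  have hF := mul_le_mul_of_nonneg_left (V3 _ hw1 hw2) hn0.le
  unfold FY at hF
  have e3 : 14 * C3 * Real.log n = 7 * (C3 * Real.log n) + 7 * (C3 * Real.log n) := by ring
  rw [e3]
  simp only [sub_zero] at a2 a3
  have e4 : (n : ℝ) * (phi (20 * (u : ℝ) / n) + ∑ g ∈ Finset.range 5, Ub g (20 * (u : ℝ) / n) +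
      2 * ∑ g ∈ Finset.Ico 5 10, Ub g (20 * (u : ℝ) / n)) = n * phi (20 * (u : ℝ) / n) +
      n * (∑ g ∈ Finset.range 5, Ub g (20 * (u : ℝ) / n) + ∑ g ∈ Finset.Ico 5 10, Ub g (20 * (u : ℝ) / n)) +
      n * ∑ g ∈ Finset.Ico 5 10, Ub g (20 * (u : ℝ) / n) := by ring
  rw [e4] at hF
  linarith

/-- the sup bound over the points outside of the saturated part -/
lemma supN (G3 : SG3) (G4 : SG4) (V1 : SV1) (V1t : SV1t) : ∃ K : ℝ, 0 ≤ K ∧ ∀ᶠ n : ℕ in atTop,
    ∀ v : ℕ, 6 * n ≤ v →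
    wv n v * Real.exp (Lp n (Finset.range (10 * n - 10)) (20 * v) + Lp n (Finset.range (5 * n - 5)) (20 * v)) ≤
      Real.exp (-(63 / 20) * n + 30 * n * Real.log n + K * Real.log n) / (v : ℝ) ^ 2 := by
  obtain ⟨C, hC, h⟩ := pot G3 G4
  obtain ⟨n0, hn0⟩ := exists_nat_ge (C + 2)
  obtain ⟨K1, hK1, hK⟩ := const_le ((C + 2) * Real.log 10000)
  refine ⟨(C + 2) + K1, by positivity, ?_⟩
  filter_upwards [eventually_ge_atTop 3, eventually_ge_atTop n0] with n hn hnn t ht
  have hn' := three_le hn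
  have hnp : (0 : ℝ) < n := by linarith
  have ht' : 6 * (n : ℝ) ≤ t := by exact_mod_cast ht
  have ht1 : (0 : ℝ) < t := by linarith
  have ht2 : 0 < t := by omega
  have hCn : C + 2 ≤ n := hn0.trans (by exact_mod_cast hnn)
  have hl2 : 0 < Real.log 2 := Real.log_pos (by norm_num)
  have hl := log2_le hn
  set L := Lp n (Finset.range (10 * n - 10)) (20 * t) + Lp n (Finset.range (5 * n - 5)) (20 * t) with hL
  rw [le_div_iff₀ (by positivity)]
  have hwp := wv_pos n ht2
  have e1 : wv n t * Real.exp L * (t : ℝ) ^ 2 =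
      Real.exp (Real.log (wv n t) + L + 2 * Real.log t) := by
    rw [Real.exp_add (Real.log (wv n t) + L), Real.exp_add (Real.log (wv n t)) L, Real.exp_log hwp,
      show 2 * Real.log (t : ℝ) = Real.log ((t : ℝ) ^ 2) by rw [Real.log_pow]; norm_num,
      Real.exp_log (by positivity)]
  rw [e1]
  apply Real.exp_le_exp.mpr
  have a1 := (abs_le.mp (h n hn t (by omega))).2
  rw [← hL] at a1
  have a2 : Real.log (t : ℝ) ≤ Real.log (n + t) := Real.log_le_log ht1 (by linarith)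
  set w : ℝ := 20 * (t : ℝ) / n with hw
  have htw : (t : ℝ) = n * w / 20 := by rw [hw]; field_simp
  have hw20 : 120 ≤ w := by rw [hw, le_div_iff₀ hnp]; linarith
  have hKn := hK n hn
  rcases le_total w 10000 with hw1 | hw1
  · have a3 := mul_le_mul_of_nonneg_left (V1 w hw20) hnp.le
    have a4 : Real.log ((n : ℝ) + t) ≤ Real.log n + Real.log 10000 := by
      rw [← Real.log_mul hnp.ne' (by norm_num)]
      apply Real.log_le_log (by linarith)
      rw [htw]
      nlinarith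
    have a5 : (C + 2) * Real.log ((n : ℝ) + t) ≤ (C + 2) * (Real.log n + Real.log 10000) := by gcongr
    nlinarith
  · have a3 := mul_le_mul_of_nonneg_left (V1t w hw1) hnp.le
    have hwp' : 0 < w := by linarith
    have a4 : Real.log ((n : ℝ) + t) ≤ Real.log n + Real.log w := by
      rw [← Real.log_mul hnp.ne' hwp'.ne']
      apply Real.log_le_log (by linarith)
      rw [htw]
      nlinarith
    have a5 : (C + 2) * Real.log ((n : ℝ) + t) ≤ (C + 2) * (Real.log n + Real.log w) := by gcongr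
    have a6 : 0 ≤ Real.log w - Real.log 10000 := by
      have := Real.log_le_log (by norm_num : (0 : ℝ) < 10000) hw1
      linarith
    have a7 : (C + 2) * (Real.log w - Real.log 10000) ≤ n * (Real.log w - Real.log 10000) := by gcongr
    have a8 : 0 ≤ (n : ℝ) * (Real.log w - Real.log 10000) := by positivity
    nlinarith

/-- lower bound at the saturated nodes -/
lemma lowN (G3 : SG3) (G4 : SG4) (V2 : SV2) : ∃ K : ℝ, 0 ≤ K ∧ ∀ n : ℕ, 3 ≤ n → ∀ v : ℕ, 4 * n < v →
    v < 6 * n → -(16 / 5) * n + 30 * n * Real.log n - K * Real.log n ≤ Real.log (wv n v) +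
      (Lp n (Finset.range (10 * n - 10)) (20 * v) + Lp n (Finset.range (5 * n - 5)) (20 * v)) := by
  obtain ⟨C, hC, h⟩ := pot G3 G4
  refine ⟨4 * C, by positivity, fun n hn t ht1 ht2 => ?_⟩
  have hn' := three_le hn
  have hnp : (0 : ℝ) < n := by linarith
  have ht' : (t : ℝ) ≤ 6 * n := by exact_mod_cast ht2.le
  have ht'' : 4 * (n : ℝ) ≤ t := by exact_mod_cast ht1.le
  have hl2 : 0 < Real.log 2 := Real.log_pos (by norm_num)
  have hl := log2_le hn
  have a1 := (abs_le.mp (h n hn t ht1)).1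
  have hw0 : 80 ≤ 20 * (t : ℝ) / n := by rw [le_div_iff₀ hnp]; linarith
  have hw1 : 20 * (t : ℝ) / n ≤ 120 := by rw [div_le_iff₀ hnp]; linarith
  have a2 := mul_le_mul_of_nonneg_left (V2 _ hw0 hw1) hnp.le
  have a3 : Real.log ((n : ℝ) + t) ≤ 4 * Real.log n := by
    have := log_pow_mul (x := (n : ℝ) + t) (y := n) 3 (by linarith) hnp hl (by linarith)
    push_cast at this
    linarith
  have a4 : C * Real.log ((n : ℝ) + t) ≤ C * (4 * Real.log n) := by gcongr
  linarith

lemma blocks (n : ℕ) (f : ℕ → ℝ) (a b : ℕ) (hab : a ≤ b) :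
    ∑ i ∈ Finset.Ico (a * n) (b * n), f i =
      ∑ g ∈ Finset.Ico a b, ∑ j ∈ Finset.range n, f (g * n + j) := by
  induction b, hab using Nat.le_induction with
  | base => simp
  | succ b hab ih =>
    rw [Finset.sum_Ico_succ_top hab, ← ih]
    rw [← Finset.sum_Ico_consecutive f (Nat.mul_le_mul_right n hab)
      (Nat.mul_le_mul_right n (Nat.le_succ b))]
    congr 1
    rw [Finset.sum_Ico_eq_sum_range]
    have : (b + 1) * n - b * n = n := by
      rw [Nat.succ_mul]; omega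
    rw [this]

/-- nodes of the bricks -/
def ndb (n i : ℕ) : ℤ := bb (i / (n - 1)) * n + cc (i / (n - 1)) * ((i % (n - 1) : ℕ) : ℤ)

lemma nd_eq_ndb {n i : ℕ} (h : 2 * n - 1 ≤ i) : nd n i = ndb n i := by
  unfold nd ndb
  rw [if_neg (by omega)]

lemma nd_sat {n i : ℕ} (h : i < 2 * n - 1) : nd n i = 20 * (4 * n + 1 + i) := by
  unfold nd
  rw [if_pos h]

lemma ndb_block {n g j : ℕ} (hj : j < n - 1) : ndb n (g * (n - 1) + j) = bb g * n + cc g * (j : ℤ) := by
  have hn0 : 0 < n - 1 := by omega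
  unfold ndb
  have h1 : (g * (n - 1) + j) / (n - 1) = g := by
    rw [Nat.mul_comm, Nat.mul_add_div hn0, Nat.div_eq_of_lt hj, add_zero]
  have h2 : (g * (n - 1) + j) % (n - 1) = j := by
    rw [Nat.mul_comm, Nat.mul_add_mod, Nat.mod_eq_of_lt hj]
  rw [h1, h2]

lemma Lp_blocks (n a b : ℕ) (hab : a ≤ b) (u : ℤ) :
    Lp n (Finset.Ico (a * (n - 1)) (b * (n - 1))) u =
      ∑ h ∈ Finset.Ico a b, Lp n (Finset.Ico (h * (n - 1)) ((h + 1) * (n - 1))) u := by
  unfold Lp
  rw [blocks (n - 1) _ a b hab]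
  apply Finset.sum_congr rfl
  intro h _
  rw [blocks (n - 1) _ h (h + 1) (by omega)]
  simp

/-- mutual energy of two families of bricks -/
lemma energy {C : ℝ} (hC : 0 < C) {n : ℕ} (hn : 3 ≤ n)
    (h6 : ∀ g < 10, ∀ h < 10,
      |∑ j ∈ Finset.range (n - 1), Lp n (Finset.Ico (h * (n - 1)) ((h + 1) * (n - 1))) (bb g * n + cc g * (j : ℤ)) -
      (en g h * (n : ℝ) ^ 2 + 2 * (n : ℝ) ^ 2 * Real.log n)| ≤ C * n * Real.log n)
    (a b c d : ℕ) (hab : a ≤ b) (hb : b ≤ 10) (hcd : c ≤ d) (hd : d ≤ 10) :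
    (∑ g ∈ Finset.Ico a b, ∑ h ∈ Finset.Ico c d, en g h) * (n : ℝ) ^ 2 +
      ((b - a : ℕ) : ℝ) * ((d - c : ℕ) : ℝ) * (2 * ((n : ℝ) ^ 2 * Real.log n)) - 100 * (C * n * Real.log n) ≤
    ∑ i ∈ Finset.Ico (a * (n - 1)) (b * (n - 1)), Lp n (Finset.Ico (c * (n - 1)) (d * (n - 1))) (ndb n i) := by
  have hl2 : 0 < Real.log 2 := Real.log_pos (by norm_num)
  have hl := log2_le hn
  have hE : 0 ≤ C * n * Real.log n := by positivity
  rw [blocks (n - 1) _ a b hab]
  have e1 : ∑ g ∈ Finset.Ico a b, ∑ j ∈ Finset.range (n - 1),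
        Lp n (Finset.Ico (c * (n - 1)) (d * (n - 1))) (ndb n (g * (n - 1) + j)) =
      ∑ g ∈ Finset.Ico a b, ∑ h ∈ Finset.Ico c d, ∑ j ∈ Finset.range (n - 1),
        Lp n (Finset.Ico (h * (n - 1)) ((h + 1) * (n - 1))) (bb g * n + cc g * (j : ℤ)) := by
    apply Finset.sum_congr rfl
    intro g _
    rw [Finset.sum_comm]
    apply Finset.sum_congr rfl
    intro j hj
    rw [ndb_block (Finset.mem_range.mp hj), Lp_blocks n c d hcd]
  rw [e1]
  have e2 : (∑ g ∈ Finset.Ico a b, ∑ h ∈ Finset.Ico c d, en g h) * (n : ℝ) ^ 2 +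
      ((b - a : ℕ) : ℝ) * ((d - c : ℕ) : ℝ) * (2 * ((n : ℝ) ^ 2 * Real.log n)) -
      ((b - a : ℕ) : ℝ) * ((d - c : ℕ) : ℝ) * (C * n * Real.log n) =
      ∑ g ∈ Finset.Ico a b, ∑ h ∈ Finset.Ico c d,
        (en g h * (n : ℝ) ^ 2 + 2 * (n : ℝ) ^ 2 * Real.log n - C * n * Real.log n) := by
    simp only [Finset.sum_sub_distrib, Finset.sum_add_distrib, Finset.sum_const, Nat.card_Ico, nsmul_eq_mul,
      Finset.sum_mul]
    ring
  have e3 : ((b - a : ℕ) : ℝ) * ((d - c : ℕ) : ℝ) * (C * n * Real.log n) ≤ 100 * (C * n * Real.log n) := by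
    apply mul_le_mul_of_nonneg_right _ hE
    have h1 : ((b - a : ℕ) : ℝ) ≤ 10 := by exact_mod_cast (by omega : b - a ≤ 10)
    have h2 : ((d - c : ℕ) : ℝ) ≤ 10 := by exact_mod_cast (by omega : d - c ≤ 10)
    calc ((b - a : ℕ) : ℝ) * ((d - c : ℕ) : ℝ) ≤ 10 * 10 := by gcongr
      _ = 100 := by norm_num
  have e4 : ∑ g ∈ Finset.Ico a b, ∑ h ∈ Finset.Ico c d,
        (en g h * (n : ℝ) ^ 2 + 2 * (n : ℝ) ^ 2 * Real.log n - C * n * Real.log n) ≤
      ∑ g ∈ Finset.Ico a b, ∑ h ∈ Finset.Ico c d, ∑ j ∈ Finset.range (n - 1),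
        Lp n (Finset.Ico (h * (n - 1)) ((h + 1) * (n - 1))) (bb g * n + cc g * (j : ℤ)) := by
    apply Finset.sum_le_sum
    intro g hg
    apply Finset.sum_le_sum
    intro h hh
    rw [Finset.mem_Ico] at hg hh
    have := (abs_le.mp (h6 g (by omega) h (by omega))).1
    linarith
  linarith

lemma log_le7 {n : ℕ} (hn : 3 ≤ n) {x : ℝ} (hx : |x| ≤ 37 * n) : Real.log x ≤ 7 * Real.log n := by
  have hn' := three_le hn
  have hl2 : 0 < Real.log 2 := Real.log_pos (by norm_num)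
  have hl := log2_le hn
  rw [← Real.log_abs]
  rcases eq_or_ne x 0 with h | h
  · rw [h, abs_zero, Real.log_zero]
    linarith
  · have := log_pow_mul (x := |x|) (y := n) 6 (abs_pos.mpr h) (by linarith) hl (by linarith)
    push_cast at this
    linarith

lemma nd_bound (G0X : SG0X) (G0Y : SG0Y) {n i : ℕ} (hn : 3 ≤ n) (hi : i < 10 * n - 10) :
    0 ≤ nd n i ∧ nd n i ≤ 327 * n := by
  by_cases h1 : i < 2 * n - 1
  · rw [nd_sat h1]
    constructor
    · positivity
    · have : (i : ℤ) ≤ 2 * n := by omega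
      have h3 : (3 : ℤ) ≤ n := by exact_mod_cast hn
      linarith
  · by_cases h2 : i < 5 * n - 5
    · have := G0X hn (by omega) h2
      constructor
      · have h3 : (0 : ℤ) ≤ n := by positivity
        linarith [this.1]
      · exact this.2.le
    · have := G0Y hn (by omega) hi
      have h3 : (0 : ℤ) ≤ n := by positivity
      constructor
      · exact this.1
      · linarith [this.2]

lemma term_le (G0X : SG0X) (G0Y : SG0Y) {n i : ℕ} (hn : 3 ≤ n) (hi : i < 10 * n - 10) {u : ℤ}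
    (hu0 : 0 ≤ u) (hu : u ≤ 400 * n) :
    Real.log (((u - nd n i : ℤ) : ℝ) / 20) + Real.log (((u + nd n i : ℤ) : ℝ) / 20) ≤ 14 * Real.log n := by
  obtain ⟨h1, h2⟩ := nd_bound G0X G0Y hn hi
  have h1' : (0 : ℝ) ≤ nd n i := by exact_mod_cast h1
  have h2' : (nd n i : ℝ) ≤ 327 * n := by exact_mod_cast h2
  have h3' : (0 : ℝ) ≤ u := by exact_mod_cast hu0
  have h4' : (u : ℝ) ≤ 400 * n := by exact_mod_cast hu
  have hn0 : (0 : ℝ) ≤ n := Nat.cast_nonneg n
  have a1 : Real.log (((u - nd n i : ℤ) : ℝ) / 20) ≤ 7 * Real.log n := by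
    apply log_le7 hn
    rw [abs_le]
    push_cast
    constructor <;> linarith
  have a2 : Real.log (((u + nd n i : ℤ) : ℝ) / 20) ≤ 7 * Real.log n := by
    apply log_le7 hn
    rw [abs_le]
    push_cast
    constructor <;> linarith
  linarith

/-- the energy of the first family, with the exact ranges -/
lemma energy1 (G0X : SG0X) (G0Y : SG0Y) {n : ℕ} (hn : 3 ≤ n) :
    ∑ i ∈ Finset.Ico (2 * (n - 1)) (5 * (n - 1)), Lp n (Finset.Ico (2 * (n - 1)) (10 * (n - 1))) (ndb n i) -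
      154 * (n * Real.log n) ≤
    ∑ i ∈ Finset.Ico (2 * n - 1) (5 * n - 5), Lp n (Finset.Ico (2 * n - 1) (10 * n - 10)) (nd n i) := by
  have hn' := three_le hn
  have hl2 : 0 < Real.log 2 := Real.log_pos (by norm_num)
  have hl := log2_le hn
  have hln : 0 < Real.log n := by linarith
  have c1 : 2 * (n - 1) + 1 = 2 * n - 1 := by omega
  have c2 : 5 * (n - 1) = 5 * n - 5 := by omega
  have c3 : 10 * (n - 1) = 10 * n - 10 := by omega
  have c4 : 2 * (n - 1) < 5 * (n - 1) := by omega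
  have c5 : 2 * (n - 1) < 10 * (n - 1) := by omega
  rw [Finset.sum_eq_sum_Ico_succ_bot c4, c1, c2]
  have hL : ∀ u : ℤ, Lp n (Finset.Ico (2 * (n - 1)) (10 * (n - 1))) u =
      (Real.log (((u - nd n (2 * (n - 1)) : ℤ) : ℝ) / 20) + Real.log (((u + nd n (2 * (n - 1)) : ℤ) : ℝ) / 20)) +
      Lp n (Finset.Ico (2 * n - 1) (10 * n - 10)) u := by
    intro u
    unfold Lp
    rw [Finset.sum_eq_sum_Ico_succ_bot c5, c1, c3]
  have hfirst : Lp n (Finset.Ico (2 * (n - 1)) (10 * (n - 1))) (ndb n (2 * (n - 1))) ≤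
      8 * n * (14 * Real.log n) := by
    have e0 : ndb n (2 * (n - 1)) = 120 * n := by
      have := ndb_block (n := n) (g := 2) (j := 0) (by omega)
      rw [add_zero] at this
      rw [this]
      simp [bb]
    rw [e0]
    unfold Lp
    calc _ ≤ ∑ i ∈ Finset.Ico (2 * (n - 1)) (10 * (n - 1)), 14 * Real.log n := by
          apply Finset.sum_le_sum
          intro i hi
          rw [Finset.mem_Ico] at hi
          apply term_le G0X G0Y hn (by omega) (by positivity)
          have : (0 : ℤ) ≤ n := by positivity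
          linarith
      _ = ((10 * (n - 1) - 2 * (n - 1) : ℕ) : ℝ) * (14 * Real.log n) := by
          rw [Finset.sum_const, Nat.card_Ico, nsmul_eq_mul]
      _ ≤ 8 * n * (14 * Real.log n) := by
          apply mul_le_mul_of_nonneg_right _ (by positivity)
          have : ((10 * (n - 1) - 2 * (n - 1) : ℕ) : ℝ) ≤ ((8 * n : ℕ) : ℝ) := by
            exact_mod_cast (by omega : 10 * (n - 1) - 2 * (n - 1) ≤ 8 * n)
          push_cast at this
          exact this
  have hrest : ∑ i ∈ Finset.Ico (2 * n - 1) (5 * n - 5), Lp n (Finset.Ico (2 * (n - 1)) (10 * (n - 1))) (ndb n i) ≤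
      ∑ i ∈ Finset.Ico (2 * n - 1) (5 * n - 5), Lp n (Finset.Ico (2 * n - 1) (10 * n - 10)) (nd n i) +
        3 * n * (14 * Real.log n) := by
    calc _ ≤ ∑ i ∈ Finset.Ico (2 * n - 1) (5 * n - 5),
          (Lp n (Finset.Ico (2 * n - 1) (10 * n - 10)) (nd n i) + 14 * Real.log n) := by
          apply Finset.sum_le_sum
          intro i hi
          rw [Finset.mem_Ico] at hi
          rw [← nd_eq_ndb hi.1, hL]
          have hb := G0X hn hi.1 hi.2
          have h0 : (0 : ℤ) ≤ n := by positivity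
          have := term_le G0X G0Y hn (i := 2 * (n - 1)) (u := nd n i) (by omega) (by linarith [hb.1])
            (by linarith [hb.2])
          linarith
      _ = ∑ i ∈ Finset.Ico (2 * n - 1) (5 * n - 5), Lp n (Finset.Ico (2 * n - 1) (10 * n - 10)) (nd n i) +
          ((5 * n - 5 - (2 * n - 1) : ℕ) : ℝ) * (14 * Real.log n) := by
          rw [Finset.sum_add_distrib, Finset.sum_const, Nat.card_Ico, nsmul_eq_mul]
      _ ≤ _ := by
          have h1 : ((5 * n - 5 - (2 * n - 1) : ℕ) : ℝ) ≤ 3 * n := by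
            have : ((5 * n - 5 - (2 * n - 1) : ℕ) : ℝ) ≤ ((3 * n : ℕ) : ℝ) := by
              exact_mod_cast (by omega : 5 * n - 5 - (2 * n - 1) ≤ 3 * n)
            push_cast at this
            exact this
          have h2 := mul_le_mul_of_nonneg_right h1 (show (0 : ℝ) ≤ 14 * Real.log n by positivity)
          linarith
  nlinarith

lemma energy2 {n : ℕ} (hn : 3 ≤ n) :
    ∑ i ∈ Finset.Ico (5 * (n - 1)) (10 * (n - 1)), Lp n (Finset.Ico (5 * (n - 1)) (10 * (n - 1))) (ndb n i) =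
    ∑ i ∈ Finset.Ico (5 * n - 5) (10 * n - 10), Lp n (Finset.Ico (5 * n - 5) (10 * n - 10)) (nd n i) := by
  have c2 : 5 * (n - 1) = 5 * n - 5 := by omega
  have c3 : 10 * (n - 1) = 10 * n - 10 := by omega
  rw [c2, c3]
  apply Finset.sum_congr rfl
  intro i hi
  rw [Finset.mem_Ico] at hi
  rw [nd_eq_ndb (by omega)]

lemma logfac {n : ℕ} (hn : 3 ≤ n) : Real.log ((10 * n - 10).factorial : ℝ) ≤ 10 * n * (5 * Real.log n) := by
  have hn' := three_le hn
  have hl2 : 0 < Real.log 2 := Real.log_pos (by norm_num)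
  have hl := log2_le hn
  have h2 : (((10 * n - 10).factorial : ℕ) : ℝ) ≤ ((10 * n : ℕ) : ℝ) ^ (10 * n) := by
    have h3 : (10 * n - 10).factorial ≤ (10 * n) ^ (10 * n) :=
      (Nat.factorial_le (by omega)).trans (Nat.factorial_le_pow (10 * n))
    exact_mod_cast h3
  calc Real.log ((10 * n - 10).factorial : ℝ) ≤ Real.log (((10 * n : ℕ) : ℝ) ^ (10 * n)) :=
        Real.log_le_log (by positivity) h2
    _ = 10 * n * Real.log (10 * n) := by rw [Real.log_pow]; push_cast; ring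
    _ ≤ 10 * n * (5 * Real.log n) := by
        have := log_pow_mul (x := 10 * (n : ℝ)) (y := n) 4 (by linarith) (by linarith) hl (by linarith)
        push_cast at this
        have h5 : Real.log (10 * (n : ℝ)) ≤ 5 * Real.log n := by linarith
        gcongr

lemma VD_pos (G0z : SG0z) {n : ℕ} (hn : 3 ≤ n) {s : Finset ℕ} (hs : s ⊆ Finset.range (10 * n - 10)) :
    0 < VD s (zq n) := by
  unfold VD Pool.Agent.LZ.VD
  apply Finset.prod_pos
  intro i hi
  apply Finset.prod_pos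
  intro j hj
  rw [Finset.mem_erase] at hj
  rw [abs_pos]
  intro h0
  have h1 : zq n i - zq n j = 0 := by exact_mod_cast h0
  have h2 : zq n i = zq n j := by linarith
  exact hj.1 (G0z hn (by simpa using hs hj.2) (by simpa using hs hi) h2.symm)

end AM

open AM in
/-- **the archimedean part**, with the statements of the other tasks as hypotheses -/
theorem A_main_of (G0z : AM.SG0z) (G0X : AM.SG0X) (G0Y : AM.SG0Y) (G1 : AM.SG1) (G2 : AM.SG2)
    (G3 : AM.SG3) (G4 : AM.SG4) (G5 : AM.SG5) (G6 : AM.SG6) (G6c : AM.SG6c) (V1 : AM.SV1) (V1t : AM.SV1t)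
    (V2 : AM.SV2) (V3 : AM.SV3) (V4 : AM.SV4) (V5 : AM.SV5)
    (α β : ℕ → ℚ) (θ : ℝ) (h : ∀ i, Odd i → 3 ≤ i → i ≤ 9 → zr i = (α i : ℝ) + θ * (β i : ℝ)) :
    ∀ᶠ n : ℕ in atTop, DD n α β ≠ 0 →
    Real.log |((DD n α β : ℚ) : ℝ)| ≤ 150 * (n : ℝ) ^ 2 * Real.log n + 85 / 2 * (n : ℝ) ^ 2 := by
  obtain ⟨K1, hK1, hsup⟩ := supN G3 G4 V1 V1t
  obtain ⟨K2, hK2, hlow⟩ := lowN G3 G4 V2
  obtain ⟨C2, hC2, hG2⟩ := G2 β
  obtain ⟨C3, hC3, hY⟩ := potY G3 V3
  obtain ⟨C5, hC5, hS⟩ := G5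
  obtain ⟨C6, hC6, hG6⟩ := G6
  obtain ⟨K7, hK7, h1000⟩ := const_le (Real.log 1000)
  obtain ⟨K8, hK8, h2000⟩ := const_le (Real.log 2000)
  set T : ℝ := 50 + 280 + 2 * (K1 + K2 + K8) + 3 * (K7 + K1) + 5 * (C3 + C2) + C5 + 200 * C6 + 154 with hT
  have key : ∀ᶠ n : ℕ in atTop, DD n α β ≠ 0 →
      Real.log |((DD n α β : ℚ) : ℝ)| ≤ 150 * ((n : ℝ) ^ 2 * Real.log n) + 424 / 10 * (n : ℝ) ^ 2 +
        T * (n * Real.log n) := by
    filter_upwards [hsup, eventually_ge_atTop 10] with n hsup hn10 hD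
    have hn : 3 ≤ n := by omega
    have hn' := three_le hn
    have hnp : (0 : ℝ) < n := by linarith
    have hl2 : 0 < Real.log 2 := Real.log_pos (by norm_num)
    have hl := log2_le hn
    have hln : 0 < Real.log n := by linarith
    have hlog2n : (1 / 2 : ℝ) ≤ Real.log n := by
      have := Real.log_two_gt_d9
      linarith
    set MM : ℝ := Real.exp (-(63 / 20) * n + 30 * n * Real.log n + K1 * Real.log n) with hMM
    have hMM0 : 0 < MM := Real.exp_pos _
    set L : ℕ → ℝ := fun j => Lp n (Finset.range (10 * n - 10)) (20 * (4 * n + 1 + j)) +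
      Lp n (Finset.range (5 * n - 5)) (20 * (4 * n + 1 + j)) with hL
    set b : ℕ → ℝ := fun j => if j < 2 * n - 1 then wv n (4 * n + 1 + j) * Real.exp (L j) + 1000 * MM
      else if j < 5 * n - 5 then 1000 * MM
      else Real.exp (165 / 4 * n + 30 * n * Real.log n + C3 * Real.log n + C2 * Real.log n) with hb
    have hbpos : ∀ j, 0 < b j := by
      intro j
      rw [hb]
      dsimp only
      have := wv_pos n (v := 4 * n + 1 + j) (by omega)
      split_ifs <;> positivity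
    -- the matrix
    have e14 : 2 * (5 * n - 5) = 10 * n - 10 := by omega
    have hinj : Set.InjOn (zq n) (Finset.range (2 * (5 * n - 5))) := by
      rw [e14]
      exact G0z hn
    have h5 := Pool.Agent.LZ.A5_lagrange (AL n α) (BL n β) θ (5 * n - 5) (zq n) hinj
    rw [e14] at h5
    change _ = ((DD n α β : ℚ) : ℝ) ^ 2 * (VD _ _ * VD _ _ * VD _ _) at h5
    set M : Matrix (Fin (10 * n - 10)) (Fin (10 * n - 10)) ℝ := (Matrix.of fun i j : Fin (10 * n - 10) =>
      if j.1 < 5 * n - 5 then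
        ((AL n α (lag (Finset.range (10 * n - 10)) (zq n) i.1 * lag (Finset.range (5 * n - 5)) (zq n) j.1) : ℚ) : ℝ) +
          θ * ((BL n β (lag (Finset.range (10 * n - 10)) (zq n) i.1 * lag (Finset.range (5 * n - 5)) (zq n) j.1) : ℚ) : ℝ)
      else ((BL n β (lag (Finset.range (10 * n - 10)) (zq n) i.1 *
        lag (Finset.Ico (5 * n - 5) (10 * n - 10)) (zq n) j.1) : ℚ) : ℝ)) with hM
    have hentry : ∀ i j : Fin (10 * n - 10), |M i j| ≤ b j := by
      intro i j
      rw [hM, hb]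
      simp only [Matrix.of_apply]
      by_cases hj7 : j.1 < 5 * n - 5
      · rw [if_pos hj7]
        have h1 := G1 hn10 α β θ h MM hMM0.le hsup i.1 j.1 i.2 hj7
        by_cases hj2 : j.1 < 2 * n - 1
        · rw [if_pos hj2]
          rw [if_pos hj2] at h1
          exact h1
        · rw [if_neg hj2, if_pos hj7]
          rw [if_neg hj2, zero_add] at h1
          exact h1
      · rw [if_neg hj7, if_neg (by omega), if_neg hj7]
        exact hG2 n hn _ (fun u hu => hY n hn u hu) i.1 i.2 j.1 (by omega) j.2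
    have hdet := Pool.Agent.LZ.A6_det_le (10 * n - 10) M b (fun j => (hbpos j).le) hentry
    -- logarithms
    have hDr : ((DD n α β : ℚ) : ℝ) ≠ 0 := by exact_mod_cast hD
    have v1 := VD_pos G0z hn (s := Finset.range (10 * n - 10)) (Finset.Subset.refl _)
    have v2 := VD_pos G0z hn (s := Finset.range (5 * n - 5))
      (Finset.range_subset_range.mpr (by omega))
    have v3 := VD_pos G0z hn (s := Finset.Ico (5 * n - 5) (10 * n - 10))
      (fun i hi => Finset.mem_range.mpr (Finset.mem_Ico.mp hi).2)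
    have hM0 : M.det ≠ 0 := by
      intro h0
      rw [h0] at h5
      have : (0 : ℝ) < ((DD n α β : ℚ) : ℝ) ^ 2 *
        (VD (Finset.range (10 * n - 10)) (zq n) * VD (Finset.range (5 * n - 5)) (zq n) *
          VD (Finset.Ico (5 * n - 5) (10 * n - 10)) (zq n)) := by positivity
      rw [← h5] at this
      norm_num at this
    have hlog1 : 2 * Real.log |M.det| = 2 * Real.log |((DD n α β : ℚ) : ℝ)| +
        (Real.log (VD (Finset.range (10 * n - 10)) (zq n)) + Real.log (VD (Finset.range (5 * n - 5)) (zq n)) +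
          Real.log (VD (Finset.Ico (5 * n - 5) (10 * n - 10)) (zq n))) := by
      have := congrArg Real.log h5
      rw [Real.log_pow, Real.log_mul (pow_ne_zero 2 hDr) (by positivity), Real.log_pow,
        Real.log_mul (by positivity) v3.ne', Real.log_mul v1.ne' v2.ne'] at this
      rw [Real.log_abs, Real.log_abs]
      push_cast at this
      exact this
    have hlog2 : Real.log |M.det| ≤ Real.log ((10 * n - 10).factorial : ℝ) +
        ∑ j ∈ Finset.range (10 * n - 10), Real.log (b j) := by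
      rw [← Real.log_prod (fun i _ => (hbpos i).ne'),
        ← Real.log_mul (by positivity) (Finset.prod_pos fun i _ => hbpos i).ne']
      exact Real.log_le_log (abs_pos.mpr hM0) hdet
    have hcross := G6c hn
    have hfac := logfac hn
    have h1000n := h1000 n hn
    have h2000n := h2000 n hn
    -- the three ranges
    have hb1 : ∀ j ∈ Finset.range (2 * n - 1), Real.log (b j) ≤ Real.log (wv n (4 * n + 1 + j)) + L j +
        (1 / 20 * (n : ℝ) + (K1 + K2 + K8) * Real.log n) := by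
      intro j hj
      rw [Finset.mem_range] at hj
      have hlo := hlow n hn (4 * n + 1 + j) (by omega) (by omega)
      rw [hb]
      dsimp only
      rw [if_pos hj]
      have hLe : Lp n (Finset.range (10 * n - 10)) (20 * ((4 * n + 1 + j : ℕ) : ℤ)) +
          Lp n (Finset.range (5 * n - 5)) (20 * ((4 * n + 1 + j : ℕ) : ℤ)) = L j := by
        rw [hL]
        push_cast
        rfl
      rw [hLe] at hlo
      have hW := wv_pos n (v := 4 * n + 1 + j) (by omega)
      have e1 : wv n (4 * n + 1 + j) * Real.exp (L j) = Real.exp (Real.log (wv n (4 * n + 1 + j)) + L j) := by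
        rw [Real.exp_add (Real.log (wv n (4 * n + 1 + j))) (L j), Real.exp_log hW]
      set A : ℝ := Real.log (wv n (4 * n + 1 + j)) + L j with hA
      set R : ℝ := 1 / 20 * (n : ℝ) + (K1 + K2) * Real.log n with hR
      have hR0 : 0 ≤ R := by rw [hR]; positivity
      have e2 : MM ≤ Real.exp (A + R) := by
        rw [hMM]
        apply Real.exp_le_exp.mpr
        rw [hR]
        linarith
      have e3 : Real.exp A ≤ Real.exp (A + R) := Real.exp_le_exp.mpr (by linarith)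
      have e4 : wv n (4 * n + 1 + j) * Real.exp (L j) + 1000 * MM ≤ 2000 * Real.exp (A + R) := by
        rw [e1]
        have := Real.exp_pos (A + R)
        linarith
      calc Real.log (wv n (4 * n + 1 + j) * Real.exp (L j) + 1000 * MM) ≤ Real.log (2000 * Real.exp (A + R)) :=
            Real.log_le_log (by positivity) e4
        _ = Real.log 2000 + (A + R) := by
            rw [Real.log_mul (by norm_num) (Real.exp_pos _).ne', Real.log_exp]
        _ ≤ _ := by
            rw [hR]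
            linarith
    have hb2 : ∀ j ∈ Finset.Ico (2 * n - 1) (5 * n - 5), Real.log (b j) ≤
        -(63 / 20) * n + 30 * n * Real.log n + (K7 + K1) * Real.log n := by
      intro j hj
      rw [Finset.mem_Ico] at hj
      rw [hb]
      dsimp only
      rw [if_neg (by omega), if_pos hj.2, Real.log_mul (by norm_num) hMM0.ne', hMM, Real.log_exp]
      linarith
    have hb3 : ∀ j ∈ Finset.Ico (5 * n - 5) (10 * n - 10), Real.log (b j) ≤
        165 / 4 * n + 30 * n * Real.log n + (C3 + C2) * Real.log n := by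
      intro j hj
      rw [Finset.mem_Ico] at hj
      rw [hb]
      dsimp only
      rw [if_neg (by omega), if_neg (by omega), Real.log_exp]
      linarith
    have hs1 := Finset.sum_le_sum hb1
    have hs2 := Finset.sum_le_sum hb2
    have hs3 := Finset.sum_le_sum hb3
    rw [Finset.sum_add_distrib, Finset.sum_const, Finset.card_range, nsmul_eq_mul] at hs1
    rw [Finset.sum_const, Nat.card_Ico, nsmul_eq_mul] at hs2 hs3
    have c1 : ((2 * n - 1 : ℕ) : ℝ) ≤ 2 * n := by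
      have : ((2 * n - 1 : ℕ) : ℝ) ≤ ((2 * n : ℕ) : ℝ) := by exact_mod_cast (by omega : 2 * n - 1 ≤ 2 * n)
      push_cast at this
      exact this
    have c2 : ((5 * n - 5 - (2 * n - 1) : ℕ) : ℝ) ≤ 3 * n := by
      have : ((5 * n - 5 - (2 * n - 1) : ℕ) : ℝ) ≤ ((3 * n : ℕ) : ℝ) := by
        exact_mod_cast (by omega : 5 * n - 5 - (2 * n - 1) ≤ 3 * n)
      push_cast at this
      exact this
    have c3 : ((10 * n - 10 - (5 * n - 5) : ℕ) : ℝ) ≤ 5 * n := by
      have : ((10 * n - 10 - (5 * n - 5) : ℕ) : ℝ) ≤ ((5 * n : ℕ) : ℝ) := by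
        exact_mod_cast (by omega : 10 * n - 10 - (5 * n - 5) ≤ 5 * n)
      push_cast at this
      exact this
    have m1 := mul_le_mul_of_nonneg_right c1
      (show 0 ≤ 1 / 20 * (n : ℝ) + (K1 + K2 + K8) * Real.log n by positivity)
    have m2 := mul_le_mul_of_nonneg_right c2
      (show 0 ≤ -(63 / 20) * (n : ℝ) + 30 * n * Real.log n + (K7 + K1) * Real.log n by
        have t1 : 0 ≤ (K7 + K1) * Real.log n := by positivity
        have t2 : (n : ℝ) * (1 / 2) ≤ n * Real.log n := mul_le_mul_of_nonneg_left hlog2n hnp.le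
        linarith)
    have m3 := mul_le_mul_of_nonneg_right c3
      (show 0 ≤ 165 / 4 * (n : ℝ) + 30 * n * Real.log n + (C3 + C2) * Real.log n by positivity)
    have hsplit : ∑ j ∈ Finset.range (10 * n - 10), Real.log (b j) =
        ∑ j ∈ Finset.range (2 * n - 1), Real.log (b j) + ∑ j ∈ Finset.Ico (2 * n - 1) (5 * n - 5), Real.log (b j) +
          ∑ j ∈ Finset.Ico (5 * n - 5) (10 * n - 10), Real.log (b j) := by
      rw [Finset.sum_range_add_sum_Ico _ (by omega), Finset.sum_range_add_sum_Ico _ (by omega)]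
    -- energies
    have hSn := hS n hn
    have hE1 := energy hC6 hn (hG6 n hn) 2 5 2 10 (by norm_num) (by norm_num) (by norm_num) (by norm_num)
    have hE2 := energy hC6 hn (hG6 n hn) 5 10 5 10 (by norm_num) (by norm_num) (by norm_num) (by norm_num)
    have hE1' := energy1 G0X G0Y hn
    rw [energy2 hn] at hE2
    have hcr1 : ∑ i ∈ Finset.range (2 * n - 1), (Lp n (Finset.range (10 * n - 10)) (nd n i) +
        Lp n (Finset.range (5 * n - 5)) (nd n i) - Lp n (Finset.range (2 * n - 1)) (nd n i)) =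
        ∑ i ∈ Finset.range (2 * n - 1), (Real.log (wv n (4 * n + 1 + i)) + L i) -
        ∑ i ∈ Finset.range (2 * n - 1), (Real.log (wv n (4 * n + 1 + i)) +
          Lp n (Finset.range (2 * n - 1)) (20 * (4 * n + 1 + i))) := by
      rw [← Finset.sum_sub_distrib]
      apply Finset.sum_congr rfl
      intro i hi
      rw [nd_sat (Finset.mem_range.mp hi), hL]
      dsimp only
      ring
    rw [hcr1] at hcross
    have heN : eN = ∑ g ∈ Finset.Ico 2 5, ∑ h ∈ Finset.Ico 2 10, en g h +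
        ∑ g ∈ Finset.Ico 5 10, ∑ h ∈ Finset.Ico 5 10, en g h := by
      unfold eN
      rw [← Finset.sum_add_distrib]
      congr 1
      apply Finset.sum_congr rfl
      intro g _
      rw [Finset.sum_Ico_consecutive _ (by norm_num) (by norm_num)]
    have hV4 : eS * (n : ℝ) ^ 2 ≤ -(759 / 10) * (n : ℝ) ^ 2 :=
      mul_le_mul_of_nonneg_right V4 (by positivity)
    have hV5 : 393 / 5 * (n : ℝ) ^ 2 ≤ eN * (n : ℝ) ^ 2 :=
      mul_le_mul_of_nonneg_right V5 (by positivity)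
    rw [heN, add_mul] at hV5
    rw [hsplit] at hlog2
    norm_num at hE1 hE2
    have h40 : 40 * (n : ℝ) * Real.log (40 * n) ≤ 280 * (n * Real.log n) := by
      have := log_pow_mul (x := 40 * (n : ℝ)) (y := n) 6 (by linarith) hnp hl (by linarith)
      push_cast at this
      have h6 : Real.log (40 * (n : ℝ)) ≤ 7 * Real.log n := by linarith
      calc 40 * (n : ℝ) * Real.log (40 * n) ≤ 40 * n * (7 * Real.log n) := by gcongr
        _ = _ := by ring
    have t1 : 2 * (n : ℝ) * (1 / 20 * (n : ℝ) + (K1 + K2 + K8) * Real.log n) =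
      1 / 10 * (n : ℝ) ^ 2 + 2 * (K1 + K2 + K8) * (n * Real.log n) := by ring
    have t2 : 3 * (n : ℝ) * (-(63 / 20) * n + 30 * n * Real.log n + (K7 + K1) * Real.log n) =
      -(189 / 20) * (n : ℝ) ^ 2 + 90 * ((n : ℝ) ^ 2 * Real.log n) + 3 * (K7 + K1) * (n * Real.log n) := by ring
    have t3 : 5 * (n : ℝ) * (165 / 4 * n + 30 * n * Real.log n + (C3 + C2) * Real.log n) =
      825 / 4 * (n : ℝ) ^ 2 + 150 * ((n : ℝ) ^ 2 * Real.log n) + 5 * (C3 + C2) * (n * Real.log n) := by ring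
    have t4 : 10 * (n : ℝ) * (5 * Real.log n) = 50 * (n * Real.log n) := by ring
    have t5 : T * (n * Real.log n) = 50 * (n * Real.log n) + 280 * (n * Real.log n) +
      2 * (K1 + K2 + K8) * (n * Real.log n) +
      3 * (K7 + K1) * (n * Real.log n) + 5 * (C3 + C2) * (n * Real.log n) + C5 * n * Real.log n +
      200 * (C6 * n * Real.log n) + 154 * (n * Real.log n) := by rw [hT]; ring
    have t6 : 8 * (n : ℝ) ^ 2 * Real.log n = 8 * ((n : ℝ) ^ 2 * Real.log n) := by ring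
    rw [t1] at m1
    rw [t2] at m2
    rw [t3] at m3
    rw [t4] at hfac
    rw [t6] at hSn
    rw [t5]
    linarith
  -- conclude
  have hlim : ∀ᶠ n : ℕ in atTop, T * (n * Real.log n) ≤ 1 / 10 * (n : ℝ) ^ 2 := by
    have h1 : Tendsto (fun n : ℕ => Real.log n / (n : ℝ)) atTop (𝓝 0) := by
      have := (Real.isLittleO_log_id_atTop.tendsto_div_nhds_zero).comp tendsto_natCast_atTop_atTop
      simpa [Function.comp_def] using this
    have h2 : Tendsto (fun n : ℕ => T * (Real.log n / (n : ℝ))) atTop (𝓝 (T * 0)) := h1.const_mul _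
    rw [mul_zero] at h2
    filter_upwards [h2.eventually (gt_mem_nhds (show (0 : ℝ) < 1 / 10 by norm_num)), eventually_ge_atTop 1]
      with n h3 h4
    have hn0 : (0 : ℝ) < n := by exact_mod_cast h4
    have h5 : T * (n * Real.log n) = (T * (Real.log n / (n : ℝ))) * (n : ℝ) ^ 2 := by
      field_simp
    rw [h5]
    gcongr
  filter_upwards [hlim, key] with n h1 h2 hD
  have := h2 hD
  linarith

end

end Pool.Agent.H574R2.D9
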