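import Pool.Agent.H574R2.D9.Defs

open Polynomial Pool.Agent.H337R2

namespace Pool.Agent.H574R2.D9

noncomputable section

/-- the statement of `B1_hasSum` -/
def G1_B1St : Prop := ∀ {n : ℕ}, 6 ≤ n → ∀ (α β : ℕ → ℚ) (θ : ℝ),
    (∀ i, Odd i → 3 ≤ i → i ≤ 9 → zr i = (α i : ℝ) + θ * (β i : ℝ)) →
    ∀ (Q : ℚ[X]), Q.natDegree ≤ 15 * n →
    HasSum (fun t : ℕ => wv n (4 * n + 1 + t) * ((Q.eval (((4 * n + 1 + t : ℕ) : ℚ) ^ 2) : ℚ) : ℝ))
      (((AL n α Q : ℚ) : ℝ) + θ * ((BL n β Q : ℚ) : ℝ))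

private theorem g1_wv_nonneg (n v : ℕ) : 0 ≤ wv n v := by
  unfold wv
  positivity

private theorem g1_nd {n k : ℕ} (hk : k < 2 * n - 1) : nd n k = 20 * (4 * n + 1 + k) := by
  unfold nd
  rw [if_pos hk]

private theorem g1_bb (g : ℕ) : 0 ≤ bb g := by
  unfold bb
  split <;> norm_num

private theorem g1_nd_nonneg (n k : ℕ) : 0 ≤ nd n k := by
  unfold nd
  split_ifs
  · positivity
  · have := g1_bb (k / (n - 1))
    positivity

private theorem g1_eval_lag (n : ℕ) (s : Finset ℕ) (i v : ℕ) :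
    (((lag s (zq n) i).eval ((v : ℚ) ^ 2) : ℚ) : ℝ) =
      ∏ k ∈ s.erase i, ((((20 * v - nd n k : ℤ) : ℝ) / 20) * (((20 * v + nd n k : ℤ) : ℝ) / 20)) := by
  unfold lag Pool.Agent.LZ.lag
  rw [Polynomial.eval_prod]
  push_cast
  apply Finset.prod_congr rfl
  intro k _
  simp only [eval_sub, eval_X, eval_C, zq]
  push_cast
  ring

private theorem g1_deg_lag (n : ℕ) (s : Finset ℕ) (i : ℕ) :
    (lag s (zq n) i).natDegree ≤ (s.erase i).card := by
  unfold lag Pool.Agent.LZ.lag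
  refine (Polynomial.natDegree_prod_le _ _).trans ?_
  refine (Finset.sum_le_sum (g := fun _ => 1) fun k _ => ?_).trans ?_
  · simp
  · simp

private theorem g1_zero (n : ℕ) (s : Finset ℕ) (i : ℕ) (u : ℤ) (k : ℕ) (hk : k ∈ s) (hki : k ≠ i)
    (h : u - nd n k = 0) :
    ∏ k ∈ s.erase i, ((((u - nd n k : ℤ) : ℝ) / 20) * (((u + nd n k : ℤ) : ℝ) / 20)) = 0 := by
  apply Finset.prod_eq_zero (Finset.mem_erase.mpr ⟨hki, hk⟩)
  rw [h]; simp

private theorem g1_pos (n : ℕ) (u : ℤ) (hu : 20 ≤ u) (k : ℕ) :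
    1 ≤ (((u + nd n k : ℤ) : ℝ) / 20) := by
  have h1 := g1_nd_nonneg n k
  have h2 : (20 : ℤ) ≤ u + nd n k := by omega
  have h3 : (20 : ℝ) ≤ ((u + nd n k : ℤ) : ℝ) := by exact_mod_cast h2
  rw [le_div_iff₀ (by norm_num)]
  linarith

private theorem g1_prod (n : ℕ) (s : Finset ℕ) (i : ℕ) (hi : i ∈ s) (u : ℤ) (hu : 20 ≤ u)
    (h : ∀ k ∈ s.erase i, u - nd n k ≠ 0) :
    |∏ k ∈ s.erase i, ((((u - nd n k : ℤ) : ℝ) / 20) * (((u + nd n k : ℤ) : ℝ) / 20))| =
      Real.exp (Lp n s u) * (Real.exp (-Real.log (((u - nd n i : ℤ) : ℝ) / 20)) *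
        Real.exp (-Real.log (((u + nd n i : ℤ) : ℝ) / 20))) := by
  rw [← Real.exp_add, ← Real.exp_add, Finset.abs_prod]
  unfold Lp
  rw [← Finset.sum_erase_add _ _ hi]
  have e1 : ∑ x ∈ s.erase i, (Real.log (((u - nd n x : ℤ) : ℝ) / 20) +
      Real.log (((u + nd n x : ℤ) : ℝ) / 20)) +
      (Real.log (((u - nd n i : ℤ) : ℝ) / 20) + Real.log (((u + nd n i : ℤ) : ℝ) / 20)) +
      (-Real.log (((u - nd n i : ℤ) : ℝ) / 20) + -Real.log (((u + nd n i : ℤ) : ℝ) / 20)) =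
      ∑ x ∈ s.erase i, (Real.log (((u - nd n x : ℤ) : ℝ) / 20) +
      Real.log (((u + nd n x : ℤ) : ℝ) / 20)) := by ring
  rw [e1, Real.exp_sum]
  apply Finset.prod_congr rfl
  intro k hk
  have h1 : (((u - nd n k : ℤ) : ℝ) / 20) ≠ 0 := by
    have := h k hk
    have h2 : ((u - nd n k : ℤ) : ℝ) ≠ 0 := by exact_mod_cast this
    exact div_ne_zero h2 (by norm_num)
  have h2 : (((u + nd n k : ℤ) : ℝ) / 20) ≠ 0 := by
    have := g1_pos n u hu k
    linarith
  rw [abs_mul, Real.exp_add, Real.exp_log_eq_abs h1, Real.exp_log_eq_abs h2]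

private theorem g1_exp_le_one (n : ℕ) (u : ℤ) (hu : 20 ≤ u) (k : ℕ) :
    Real.exp (-Real.log (((u + nd n k : ℤ) : ℝ) / 20)) ≤ 1 := by
  rw [Real.exp_le_one_iff]
  have := Real.log_nonneg (g1_pos n u hu k)
  linarith

private theorem g1_exp_le_20 (n : ℕ) (u : ℤ) (k : ℕ) :
    Real.exp (-Real.log (((u - nd n k : ℤ) : ℝ) / 20)) ≤ 20 := by
  by_cases h0 : u - nd n k = 0
  · rw [h0]; simp
  · have h2 : ((u - nd n k : ℤ) : ℝ) ≠ 0 := by exact_mod_cast h0
    have h1 : (((u - nd n k : ℤ) : ℝ) / 20) ≠ 0 := div_ne_zero h2 (by norm_num)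
    rw [Real.exp_neg, Real.exp_log_eq_abs h1, inv_le_comm₀ (abs_pos.mpr h1) (by norm_num),
      abs_div]
    have h3 : (1 : ℤ) ≤ |u - nd n k| := Int.one_le_abs h0
    have h4 : (1 : ℝ) ≤ |((u - nd n k : ℤ) : ℝ)| := by
      rw [← Int.cast_abs]
      exact_mod_cast h3
    have h5 : |(20 : ℝ)| = 20 := by norm_num
    rw [h5, inv_eq_one_div]
    exact div_le_div_of_nonneg_right h4 (by norm_num)

private theorem g1_le (n : ℕ) (s : Finset ℕ) (i : ℕ) (hi : i ∈ s) (u : ℤ) (hu : 20 ≤ u) :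
    |∏ k ∈ s.erase i, ((((u - nd n k : ℤ) : ℝ) / 20) * (((u + nd n k : ℤ) : ℝ) / 20))| ≤
      20 * Real.exp (Lp n s u) := by
  by_cases h : ∀ k ∈ s.erase i, u - nd n k ≠ 0
  · rw [g1_prod n s i hi u hu h, mul_comm]
    apply mul_le_mul_of_nonneg_right _ (Real.exp_pos _).le
    have a1 := g1_exp_le_20 n u i
    have a2 := g1_exp_le_one n u hu i
    calc _ ≤ (20 : ℝ) * 1 := mul_le_mul a1 a2 (Real.exp_pos _).le (by norm_num)
      _ = 20 := by norm_num
  · push Not at h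
    obtain ⟨k, hk, hk0⟩ := h
    rw [Finset.mem_erase] at hk
    rw [g1_zero n s i u k hk.2 hk.1 hk0, abs_zero]
    positivity

private theorem g1_le_one (n : ℕ) (s : Finset ℕ) (i : ℕ) (hi : i ∈ s) (u : ℤ) (hu : 20 ≤ u)
    (h0 : u - nd n i = 0) :
    |∏ k ∈ s.erase i, ((((u - nd n k : ℤ) : ℝ) / 20) * (((u + nd n k : ℤ) : ℝ) / 20))| ≤
      Real.exp (Lp n s u) := by
  by_cases h : ∀ k ∈ s.erase i, u - nd n k ≠ 0
  · rw [g1_prod n s i hi u hu h, h0]
    have a2 := g1_exp_le_one n u hu i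
    simp only [Int.cast_zero, zero_div, Real.log_zero, neg_zero, Real.exp_zero, one_mul]
    exact mul_le_of_le_one_right (Real.exp_pos _).le a2
  · push Not at h
    obtain ⟨k, hk, hk0⟩ := h
    rw [Finset.mem_erase] at hk
    rw [g1_zero n s i u k hk.2 hk.1 hk0, abs_zero]
    positivity

private theorem g1_hasSum : HasSum (fun t : ℕ => 1 / (1 + (t : ℝ)) ^ 2) (Real.pi ^ 2 / 6) := by
  have h := (hasSum_nat_add_iff' (f := fun n : ℕ => 1 / (n : ℝ) ^ 2) 1).mpr hasSum_zeta_two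
  simp only [Finset.range_one, Finset.sum_singleton, Nat.cast_zero] at h
  have e : (1 : ℝ) / 0 ^ 2 = 0 := by norm_num
  rw [e, sub_zero] at h
  have e2 : (fun t : ℕ => 1 / (1 + (t : ℝ)) ^ 2) = fun t : ℕ => 1 / ((t + 1 : ℕ) : ℝ) ^ 2 := by
    funext t
    rw [Nat.cast_add, Nat.cast_one, add_comm]
  rw [e2]
  exact h

private theorem g1_pi : Real.pi ^ 2 / 6 ≤ 2 := by
  have h1 := Real.pi_lt_d2
  have h2 := Real.pi_pos
  nlinarith

/-- entries of the zeta part, with `B1_hasSum` as a hypothesis -/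
theorem G1_entryN_of (B1 : G1_B1St) {n : ℕ} (hn : 10 ≤ n) (α β : ℕ → ℚ) (θ : ℝ)
    (h : ∀ i, Odd i → 3 ≤ i → i ≤ 9 → zr i = (α i : ℝ) + θ * (β i : ℝ)) (MM : ℝ) (hM : 0 ≤ MM)
    (hsup : ∀ v : ℕ, 6 * n ≤ v →
      wv n v * Real.exp (Lp n (Finset.range (10 * n - 10)) (20 * v) + Lp n (Finset.range (5 * n - 5)) (20 * v)) ≤
        MM / (v : ℝ) ^ 2)
    (i j : ℕ) (hi : i < 10 * n - 10) (hj : j < 5 * n - 5) :
    |((AL n α (lag (Finset.range (10 * n - 10)) (zq n) i * lag (Finset.range (5 * n - 5)) (zq n) j) : ℚ) : ℝ) + θ *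
      ((BL n β (lag (Finset.range (10 * n - 10)) (zq n) i * lag (Finset.range (5 * n - 5)) (zq n) j) : ℚ) : ℝ)| ≤
    (if j < 2 * n - 1 then wv n (4 * n + 1 + j) *
      Real.exp (Lp n (Finset.range (10 * n - 10)) (20 * (4 * n + 1 + j)) +
        Lp n (Finset.range (5 * n - 5)) (20 * (4 * n + 1 + j))) else 0) + 1000 * MM := by
  classical
  set Q : ℚ[X] := lag (Finset.range (10 * n - 10)) (zq n) i * lag (Finset.range (5 * n - 5)) (zq n) j
    with hQ
  have hi' : i ∈ Finset.range (10 * n - 10) := Finset.mem_range.mpr hi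
  have hj' : j ∈ Finset.range (5 * n - 5) := Finset.mem_range.mpr hj
  have hdeg : Q.natDegree ≤ 15 * n := by
    refine (Polynomial.natDegree_mul_le).trans ?_
    have h1 := g1_deg_lag n (Finset.range (10 * n - 10)) i
    have h2 := g1_deg_lag n (Finset.range (5 * n - 5)) j
    rw [Finset.card_erase_of_mem hi', Finset.card_range] at h1
    rw [Finset.card_erase_of_mem hj', Finset.card_range] at h2
    omega
  have hS := B1 (by omega) α β θ h Q hdeg
  set T : ℝ := (if j < 2 * n - 1 then wv n (4 * n + 1 + j) *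
      Real.exp (Lp n (Finset.range (10 * n - 10)) (20 * (4 * n + 1 + j)) +
        Lp n (Finset.range (5 * n - 5)) (20 * (4 * n + 1 + j))) else 0)
    with hT
  have hT0 : 0 ≤ T := by
    rw [hT]
    split_ifs
    · exact mul_nonneg (g1_wv_nonneg _ _) (Real.exp_pos _).le
    · exact le_rfl
  have hG : HasSum (fun t : ℕ => (if t = j then T else 0) + 400 * MM * (1 / (1 + (t : ℝ)) ^ 2))
      (T + 400 * MM * (Real.pi ^ 2 / 6)) :=
    (hasSum_ite_eq j T).add (g1_hasSum.mul_left (400 * MM))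
  have hb : ∀ t : ℕ, ‖wv n (4 * n + 1 + t) *
      ((Q.eval (((4 * n + 1 + t : ℕ) : ℚ) ^ 2) : ℚ) : ℝ)‖ ≤
      (if t = j then T else 0) + 400 * MM * (1 / (1 + (t : ℝ)) ^ 2) := by
    intro t
    have hev : ((Q.eval (((4 * n + 1 + t : ℕ) : ℚ) ^ 2) : ℚ) : ℝ) =
        (∏ k ∈ (Finset.range (10 * n - 10)).erase i,
          ((((20 * (4 * n + 1 + t : ℕ) - nd n k : ℤ) : ℝ) / 20) *
            (((20 * (4 * n + 1 + t : ℕ) + nd n k : ℤ) : ℝ) / 20))) *
        (∏ k ∈ (Finset.range (5 * n - 5)).erase j,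
          ((((20 * (4 * n + 1 + t : ℕ) - nd n k : ℤ) : ℝ) / 20) *
            (((20 * (4 * n + 1 + t : ℕ) + nd n k : ℤ) : ℝ) / 20))) := by
      rw [hQ, Polynomial.eval_mul, Rat.cast_mul, g1_eval_lag, g1_eval_lag]
    have hW := g1_wv_nonneg n (4 * n + 1 + t)
    have hpos2 : 0 ≤ 400 * MM * (1 / (1 + (t : ℝ)) ^ 2) := by positivity
    have hu : (20 : ℤ) ≤ 20 * ((4 * n + 1 + t : ℕ) : ℤ) := by
      push_cast
      omega
    rw [Real.norm_eq_abs, hev, abs_mul, abs_of_nonneg hW, abs_mul]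
    rcases Nat.lt_or_ge t (2 * n - 1) with ht | ht
    · have h0 : (20 * ((4 * n + 1 + t : ℕ) : ℤ)) - nd n t = 0 := by
        rw [g1_nd ht]
        push_cast
        ring
      have ht14 : t ∈ Finset.range (10 * n - 10) := Finset.mem_range.mpr (by omega)
      have ht7 : t ∈ Finset.range (5 * n - 5) := Finset.mem_range.mpr (by omega)
      by_cases hti : t = i
      · by_cases htj : t = j
        · subst hti
          subst htj
          rw [if_pos rfl, hT, if_pos ht]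
          have a1 := g1_le_one n _ t hi' (20 * ((4 * n + 1 + t : ℕ) : ℤ)) hu h0
          have a2 := g1_le_one n _ t hj' (20 * ((4 * n + 1 + t : ℕ) : ℤ)) hu h0
          have a3 := mul_le_mul a1 a2 (abs_nonneg _) (Real.exp_pos _).le
          rw [← Real.exp_add] at a3
          have a4 := mul_le_mul_of_nonneg_left a3 hW
          have e3 : (20 * ((4 * n + 1 + t : ℕ) : ℤ)) = 20 * (4 * (n : ℤ) + 1 + (t : ℤ)) := by
            push_cast
            ring
          rw [e3] at a4 ⊢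
          linarith
        · rw [g1_zero n _ j (20 * ((4 * n + 1 + t : ℕ) : ℤ)) t ht7 htj h0, abs_zero, mul_zero,
            mul_zero]
          rw [if_neg htj]
          linarith
      · rw [g1_zero n _ i (20 * ((4 * n + 1 + t : ℕ) : ℤ)) t ht14 hti h0, abs_zero, zero_mul,
          mul_zero]
        split_ifs <;> linarith
    · have a1 := g1_le n _ i hi' (20 * ((4 * n + 1 + t : ℕ) : ℤ)) hu
      have a2 := g1_le n _ j hj' (20 * ((4 * n + 1 + t : ℕ) : ℤ)) hu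
      have a3 := mul_le_mul a1 a2 (abs_nonneg _) (by positivity)
      have a4 := mul_le_mul_of_nonneg_left a3 hW
      have a5 := hsup (4 * n + 1 + t) (by omega)
      rw [Real.exp_add] at a5
      have a8 : MM / (((4 * n + 1 + t : ℕ) : ℝ)) ^ 2 ≤ MM / (1 + (t : ℝ)) ^ 2 := by
        apply div_le_div_of_nonneg_left hM (by positivity)
        apply pow_le_pow_left₀ (by positivity)
        push_cast
        have : (0 : ℝ) ≤ (n : ℝ) := by positivity
        linarith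
      have a6 : wv n (4 * n + 1 + t) *
          (20 * Real.exp (Lp n (Finset.range (10 * n - 10)) (20 * ((4 * n + 1 + t : ℕ) : ℤ))) *
          (20 * Real.exp (Lp n (Finset.range (5 * n - 5)) (20 * ((4 * n + 1 + t : ℕ) : ℤ))))) =
          400 * (wv n (4 * n + 1 + t) *
          (Real.exp (Lp n (Finset.range (10 * n - 10)) (20 * ((4 * n + 1 + t : ℕ) : ℤ))) *
            Real.exp (Lp n (Finset.range (5 * n - 5)) (20 * ((4 * n + 1 + t : ℕ) : ℤ))))) := by ring
      rw [a6] at a4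
      have a7 : 400 * MM * (1 / (1 + (t : ℝ)) ^ 2) = 400 * (MM / (1 + (t : ℝ)) ^ 2) := by ring
      rw [a7]
      have a9 := a5.trans a8
      split_ifs <;> linarith
  have hfin := hS.norm_le_of_bounded hG hb
  rw [Real.norm_eq_abs] at hfin
  refine hfin.trans ?_
  have := g1_pi
  nlinarith

end

end Pool.Agent.H574R2.D9
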