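import Pool.Agent.H574R2.D9.Defs
import Pool.Agent.H574R2.D3.G3p
import Pool.Agent.H337R2.LZ.G2
import Pool.Agent.H574R2.D9.G0

/-!
# G2: entries of the pole part
-/

open Polynomial Pool.Agent.H337R2

namespace Pool.Agent.H574R2.D9

noncomputable section

/-- the truncated norm, as a real number -/
def G2r (f : PowerSeries ℚ) : ℝ := ((Pool.Agent.H574R2.D3.nrm f : ℚ) : ℝ)

lemma G2r_nonneg (f : PowerSeries ℚ) : 0 ≤ G2r f := by
  unfold G2r
  exact_mod_cast Pool.Agent.H574R2.D3.nrm_nonneg f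

lemma G2r_mul (f g : PowerSeries ℚ) : G2r (f * g) ≤ G2r f * G2r g := by
  unfold G2r
  exact_mod_cast Pool.Agent.H574R2.D3.nrm_mul f g

lemma G2r_one : G2r 1 = 1 := by
  unfold G2r
  rw [Pool.Agent.H574R2.D3.nrm_one]
  norm_num

lemma G2r_mul_exp {f g : PowerSeries ℚ} {a b : ℝ} (hf : G2r f ≤ Real.exp a) (hg : G2r g ≤ Real.exp b) :
    G2r (f * g) ≤ Real.exp (a + b) := by
  rw [Real.exp_add]
  exact (G2r_mul f g).trans (mul_le_mul hf hg (G2r_nonneg _) (Real.exp_pos _).le)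

lemma G2r_prod_exp {ι : Type*} (s : Finset ι) (f : ι → PowerSeries ℚ) (g : ι → ℝ)
    (h : ∀ i ∈ s, G2r (f i) ≤ Real.exp (g i)) : G2r (∏ i ∈ s, f i) ≤ Real.exp (∑ i ∈ s, g i) := by
  classical
  induction s using Finset.induction_on with
  | empty => rw [Finset.prod_empty, Finset.sum_empty, G2r_one]; simp
  | insert a s ha ih =>
    rw [Finset.prod_insert ha, Finset.sum_insert ha]
    exact G2r_mul_exp (h a (Finset.mem_insert_self a s))
      (ih fun i hi => h i (Finset.mem_insert_of_mem hi))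

lemma G2r_lin (a : ℚ) : G2r (PowerSeries.X + PowerSeries.C a) ≤ |(a : ℝ)| + 1 := by
  have h := Pool.Agent.H574R2.D3.nrm_X_add_C a
  have h2 : ((Pool.Agent.H574R2.D3.nrm (PowerSeries.X + PowerSeries.C a) : ℚ) : ℝ) ≤ ((|a| + 1 / 2 : ℚ) : ℝ) := by
    exact_mod_cast h
  unfold G2r
  push_cast at h2
  linarith

/-! ### the nodes -/

lemma G2_TSnode (n k : ℕ) (a : ℚ) :
    TS (-(k : ℚ)) ((X - C (a ^ 2)).comp (xM n)) =
      (PowerSeries.X + PowerSeries.C ((((4 * n : ℕ) : ℚ) - k) - a)) *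
        (PowerSeries.X + PowerSeries.C ((((4 * n : ℕ) : ℚ) - k) + a)) := by
  unfold xM
  rw [Polynomial.sub_comp, Polynomial.X_comp, Polynomial.C_comp, map_sub, map_pow, TS_lin, TS_C]
  have h1 : (-(k : ℚ) + ((4 * n : ℕ) : ℚ)) = (((4 * n : ℕ) : ℚ) - k) := by ring
  rw [h1]
  simp only [map_sub, map_add, map_pow]
  ring

/-- one linear factor in terms of the integer `e = 20 (u ∓ z)` -/
lemma G2_loge (e : ℤ) : Real.log (|(e : ℝ) / 20| + 1) =
    Real.log ((e : ℝ) / 20) + Real.log (1 + 20 / |(e : ℝ)|) := by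
  generalize (e : ℝ) = u
  rcases eq_or_ne u 0 with rfl | hu
  · simp
  · have hu' : 0 < |u| := abs_pos.2 hu
    rw [← Real.log_abs (u / 20), ← Real.log_mul (by positivity) (by positivity)]
    congr 1
    rw [abs_div, abs_of_pos (by norm_num : (0 : ℝ) < 20)]
    field_simp

lemma G2_log20 (x : ℝ) (hx : 0 ≤ x) : Real.log (1 + 20 / x) ≤ 2 * Real.log (1 + 10 / x) := by
  have h1 : (0 : ℝ) ≤ 10 / x := by positivity
  have h2 : 2 * Real.log (1 + 10 / x) = Real.log ((1 + 10 / x) ^ 2) := by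
    rw [Real.log_pow]; norm_num
  rw [h2]
  apply Real.log_le_log
  · have : (0 : ℝ) ≤ 20 / x := by positivity
    linarith
  · have e : (20 : ℝ) / x = 2 * (10 / x) := by ring
    rw [e]
    nlinarith [sq_nonneg (10 / x)]

lemma G2_sum20 {ι : Type*} (s : Finset ι) (u : ι → ℤ) (hinj : Set.InjOn u s) (M : ℕ) (hM : 1 ≤ M)
    (hu : ∀ l ∈ s, |u l| ≤ M) :
    ∑ l ∈ s, Real.log (1 + 20 / |(u l : ℝ)|) ≤ 40 * (1 + Real.log M) := by
  have h := Pool.Agent.LZ.G2_sum s u hinj M hM hu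
  have h2 : ∑ l ∈ s, Real.log (1 + 20 / |(u l : ℝ)|) ≤ ∑ l ∈ s, 2 * Real.log (1 + 10 / |(u l : ℝ)|) :=
    Finset.sum_le_sum fun l _ => G2_log20 _ (abs_nonneg _)
  rw [← Finset.mul_sum] at h2
  linarith

/-- the nodes -/
lemma G2_nodes {n : ℕ} (hn : 3 ≤ n) (hinj : Set.InjOn (nd n) (Finset.range (10 * n - 10)))
    (hbd : ∀ i < 10 * n - 10, |nd n i| ≤ 327 * n) {k : ℕ} (hk : k ∈ sM n) (s : Finset ℕ)
    (hs : s ⊆ Finset.range (10 * n - 10)) (i : ℕ) :
    G2r (TS (-(k : ℚ)) ((lag s (zq n) i).comp (xM n))) ≤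
      Real.exp (Lp n s (20 * ((4 * n : ℤ) - k)) + 80 * (1 + Real.log ((400 * n : ℕ) : ℝ))) := by
  classical
  obtain ⟨hk1, hk2⟩ := Finset.mem_Icc.1 hk
  unfold lag Pool.Agent.LZ.lag
  rw [Polynomial.prod_comp, map_prod]
  have h0 : ∀ l ∈ s.erase i, G2r (TS (-(k : ℚ)) ((X - C (zq n l)).comp (xM n))) ≤
      Real.exp (Real.log (|((20 * ((4 * n : ℤ) - k) - nd n l : ℤ) : ℝ) / 20| + 1) +
        Real.log (|((20 * ((4 * n : ℤ) - k) + nd n l : ℤ) : ℝ) / 20| + 1)) := by
    intro l _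
    unfold zq
    rw [G2_TSnode]
    apply G2r_mul_exp
    · rw [Real.exp_log (by positivity)]
      refine (G2r_lin _).trans (le_of_eq ?_)
      congr 2
      push_cast
      ring
    · rw [Real.exp_log (by positivity)]
      refine (G2r_lin _).trans (le_of_eq ?_)
      congr 2
      push_cast
      ring
  refine (G2r_prod_exp _ _ _ h0).trans (Real.exp_le_exp.2 ?_)
  have h1 : ∑ l ∈ s.erase i, (Real.log (|((20 * ((4 * n : ℤ) - k) - nd n l : ℤ) : ℝ) / 20| + 1) +
        Real.log (|((20 * ((4 * n : ℤ) - k) + nd n l : ℤ) : ℝ) / 20| + 1)) ≤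
      ∑ l ∈ s, (Real.log (|((20 * ((4 * n : ℤ) - k) - nd n l : ℤ) : ℝ) / 20| + 1) +
        Real.log (|((20 * ((4 * n : ℤ) - k) + nd n l : ℤ) : ℝ) / 20| + 1)) := by
    apply Finset.sum_le_sum_of_subset_of_nonneg (Finset.erase_subset _ _)
    intro l _ _
    apply add_nonneg
    · exact Real.log_nonneg (by
        linarith [abs_nonneg (((20 * ((4 * n : ℤ) - k) - nd n l : ℤ) : ℝ) / 20)])
    · exact Real.log_nonneg (by
        linarith [abs_nonneg (((20 * ((4 * n : ℤ) - k) + nd n l : ℤ) : ℝ) / 20)])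
  refine h1.trans ?_
  simp only [G2_loge]
  have hM : 1 ≤ 400 * n := by omega
  have h3 := G2_sum20 s (fun l => 20 * ((4 * n : ℤ) - k) - nd n l) (by
    intro a ha b hb hab
    apply hinj (hs ha) (hs hb)
    simp only at hab
    omega) (400 * n) hM (by
    intro l hl
    have h4 := hbd l (Finset.mem_range.1 (hs hl))
    rw [abs_le] at h4 ⊢
    push_cast
    have h5 : (k : ℤ) ≤ 6 * n := by exact_mod_cast hk2
    have h6 : (2 * n : ℤ) ≤ k := by exact_mod_cast hk1
    constructor <;> omega)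
  have h4 := G2_sum20 s (fun l => 20 * ((4 * n : ℤ) - k) + nd n l) (by
    intro a ha b hb hab
    apply hinj (hs ha) (hs hb)
    simp only at hab
    omega) (400 * n) hM (by
    intro l hl
    have h4 := hbd l (Finset.mem_range.1 (hs hl))
    rw [abs_le] at h4 ⊢
    push_cast
    have h5 : (k : ℤ) ≤ 6 * n := by exact_mod_cast hk2
    have h6 : (2 * n : ℤ) ≤ k := by exact_mod_cast hk1
    constructor <;> omega)
  unfold Lp
  rw [Finset.sum_add_distrib] at *
  simp only [Finset.sum_add_distrib]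
  linarith

/-! ### the zeros, the poles, the constant -/

lemma G2_Z {n k : ℕ} (hk : k ∈ sM n) : Pool.Agent.H574R2.D3.nrm (TS (-(k : ℚ)) (ZM n)) ≤
    (6 * n + 1) ^ 2 * (((k.factorial : ℚ) * (8 * n - k).factorial) /
      (((k - 2 * n).factorial : ℚ) * (6 * n - k).factorial)) := by
  obtain ⟨hk1, hk2⟩ := Finset.mem_Icc.1 hk
  unfold ZM
  rw [map_mul, map_prod, map_prod]
  refine (Pool.Agent.H574R2.D3.nrm_mul _ _).trans ?_
  have h1 : Pool.Agent.H574R2.D3.nrm (∏ m ∈ Finset.range (2 * n), TS (-(k : ℚ)) (X + C (m : ℚ))) ≤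
      (6 * n + 1) * ((k.factorial : ℚ) / (k - 2 * n).factorial) := by
    refine (Pool.Agent.H574R2.D3.nrm_prod _ _).trans ?_
    rw [← Finset.prod_range_reflect]
    have h2 := Pool.Agent.H574R2.D3.g3p_P (k - 2 * n) (2 * n)
    have h3 : k - 2 * n + 2 * n = k := by omega
    rw [h3] at h2
    refine le_trans (Finset.prod_le_prod (fun _ _ => Pool.Agent.H574R2.D3.nrm_nonneg _) ?_) (h2.trans ?_)
    · intro l hl
      rw [Finset.mem_range] at hl
      refine (Pool.Agent.H574R2.D3.nrm_TS_lin _ _).trans (le_of_eq ?_)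
      have h4 : ((2 * n - 1 - l : ℕ) : ℚ) = 2 * n - 1 - l := by
        rw [Nat.cast_sub (by omega), Nat.cast_sub (by omega)]
        push_cast
        ring
      have h5 : ((k - 2 * n : ℕ) : ℚ) = k - 2 * n := by
        rw [Nat.cast_sub (by omega)]
        push_cast
        ring
      rw [h4, h5]
      have h6 : (l : ℚ) + 1 ≤ 2 * n := by exact_mod_cast (by omega : l + 1 ≤ 2 * n)
      have h7 : (2 : ℚ) * n ≤ k := by exact_mod_cast hk1
      rw [abs_of_nonpos (by linarith [Nat.cast_nonneg (α := ℚ) l])]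
      ring
    · apply mul_le_mul_of_nonneg_right _ (by positivity)
      have h5 : ((k - 2 * n : ℕ) : ℚ) = k - 2 * n := by
        rw [Nat.cast_sub (by omega)]
        push_cast
        ring
      rw [h5]
      have h7 : (k : ℚ) ≤ 6 * n := by exact_mod_cast hk2
      push_cast
      linarith
  have h2 : Pool.Agent.H574R2.D3.nrm (∏ m ∈ Finset.Icc (6 * n + 1) (8 * n), TS (-(k : ℚ)) (X + C (m : ℚ))) ≤
      (6 * n + 1) * (((8 * n - k).factorial : ℚ) / (6 * n - k).factorial) := by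
    refine (Pool.Agent.H574R2.D3.nrm_prod _ _).trans ?_
    have e0 : Finset.Icc (6 * n + 1) (8 * n) = Finset.Ico (6 * n + 1) (8 * n + 1) := by
      ext x
      simp only [Finset.mem_Icc, Finset.mem_Ico]
      omega
    rw [e0, Finset.prod_Ico_eq_prod_range]
    have e1 : 8 * n + 1 - (6 * n + 1) = 2 * n := by omega
    rw [e1]
    have h2 := Pool.Agent.H574R2.D3.g3p_P (6 * n - k) (2 * n)
    have h3 : 6 * n - k + 2 * n = 8 * n - k := by omega
    rw [h3] at h2
    have h5 : ((6 * n - k : ℕ) : ℚ) = 6 * n - k := by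
      rw [Nat.cast_sub (by omega)]
      push_cast
      ring
    have h7 : (k : ℚ) ≤ 6 * n := by exact_mod_cast hk2
    have h8 : (2 : ℚ) * n ≤ k := by exact_mod_cast hk1
    refine le_trans (Finset.prod_le_prod (fun _ _ => Pool.Agent.H574R2.D3.nrm_nonneg _) ?_) (h2.trans ?_)
    · intro l hl
      refine (Pool.Agent.H574R2.D3.nrm_TS_lin _ _).trans (le_of_eq ?_)
      rw [h5]
      push_cast
      rw [abs_of_nonneg (by linarith [Nat.cast_nonneg (α := ℚ) l])]
      ring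
    · apply mul_le_mul_of_nonneg_right _ (by positivity)
      rw [h5]
      push_cast
      linarith
  calc _ ≤ ((6 * n + 1) * ((k.factorial : ℚ) / (k - 2 * n).factorial)) *
      ((6 * n + 1) * (((8 * n - k).factorial : ℚ) / (6 * n - k).factorial)) :=
        mul_le_mul h1 h2 (Pool.Agent.H574R2.D3.nrm_nonneg _) (by positivity)
    _ = _ := by ring

lemma G2_V {n k : ℕ} (hk : k ∈ sM n) : Pool.Agent.H574R2.D3.nrm (VV ((sM n).erase k) mM (-(k : ℚ))) ≤
    ((2 * (4 * n + 1)) ^ 2 * (1 / (((k - 2 * n).factorial : ℚ) * (6 * n - k).factorial))) ^ 10 := by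
  obtain ⟨hk1, hk2⟩ := Finset.mem_Icc.1 hk
  unfold VV
  refine (Pool.Agent.H574R2.D3.nrm_prod _ _).trans ?_
  have habs : ∀ m ∈ (sM n).erase k, (1 : ℚ) ≤ |-(k : ℚ) + m| := by
    intro m hm
    have hne : m ≠ k := Finset.ne_of_mem_erase hm
    have h2 : (1 : ℤ) ≤ |-(k : ℤ) + m| := by
      apply Int.one_le_abs
      omega
    exact_mod_cast h2
  have h0 : ∀ m ∈ (sM n).erase k, Pool.Agent.H574R2.D3.nrm (iv (-(k : ℚ) + m) ^ mM m) ≤
      (1 / (|-(k : ℚ) + m| - 1 / 2)) ^ 10 := by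
    intro m hm
    refine (Pool.Agent.H574R2.D3.nrm_pow _ _).trans
      (pow_le_pow_left₀ (Pool.Agent.H574R2.D3.nrm_nonneg _) (Pool.Agent.H574R2.D3.nrm_iv ?_) 10)
    have h1 := habs m hm
    linarith
  refine (Finset.prod_le_prod (fun _ _ => Pool.Agent.H574R2.D3.nrm_nonneg _) h0).trans ?_
  rw [Finset.prod_pow]
  have hpos : ∀ m ∈ (sM n).erase k, (0 : ℚ) ≤ 1 / (|-(k : ℚ) + m| - 1 / 2) := by
    intro m hm
    have h1 := habs m hm
    apply one_div_nonneg.2
    linarith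
  apply pow_le_pow_left₀ (Finset.prod_nonneg hpos)
  have hset : (sM n).erase k = Finset.Ico (2 * n) k ∪ Finset.Ico (k + 1) (6 * n + 1) := by
    ext x
    simp only [Finset.mem_erase, Finset.mem_Icc, Finset.mem_union, Finset.mem_Ico]
    omega
  have hdisj : Disjoint (Finset.Ico (2 * n) k) (Finset.Ico (k + 1) (6 * n + 1)) := by
    rw [Finset.disjoint_left]
    intro x
    simp only [Finset.mem_Ico]
    omega
  rw [hset, Finset.prod_union hdisj]
  have h1 : ∏ m ∈ Finset.Ico (2 * n) k, (1 / (|-(k : ℚ) + m| - 1 / 2)) ≤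
      2 * (4 * n + 1) / ((k - 2 * n).factorial : ℚ) := by
    rw [Finset.prod_Ico_eq_prod_range, ← Finset.prod_range_reflect]
    refine le_trans (le_of_eq ?_) ((Pool.Agent.H574R2.D3.g3p_Q (k - 2 * n)).trans ?_)
    · refine Finset.prod_congr rfl fun l hl => ?_
      rw [Finset.mem_range] at hl
      have h3 : 2 * n + (k - 2 * n - 1 - l) = k - 1 - l := by omega
      rw [h3]
      have h4 : ((k - 1 - l : ℕ) : ℚ) = k - 1 - l := by
        rw [Nat.cast_sub (by omega), Nat.cast_sub (by omega)]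
        push_cast
        ring
      rw [h4, abs_of_nonpos (by linarith [Nat.cast_nonneg (α := ℚ) l])]
      congr 1
      ring
    · apply div_le_div_of_nonneg_right _ (by positivity)
      have h5 : ((k - 2 * n : ℕ) : ℚ) ≤ 4 * n := by exact_mod_cast (by omega : k - 2 * n ≤ 4 * n)
      linarith
  have h2 : ∏ m ∈ Finset.Ico (k + 1) (6 * n + 1), (1 / (|-(k : ℚ) + m| - 1 / 2)) ≤
      2 * (4 * n + 1) / ((6 * n - k).factorial : ℚ) := by
    rw [Finset.prod_Ico_eq_prod_range]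
    have h3 : 6 * n + 1 - (k + 1) = 6 * n - k := by omega
    rw [h3]
    refine le_trans (le_of_eq ?_) ((Pool.Agent.H574R2.D3.g3p_Q (6 * n - k)).trans ?_)
    · refine Finset.prod_congr rfl fun l _ => ?_
      push_cast
      rw [abs_of_nonneg (by linarith [Nat.cast_nonneg (α := ℚ) l])]
      congr 1
      ring
    · apply div_le_div_of_nonneg_right _ (by positivity)
      have h5 : ((6 * n - k : ℕ) : ℚ) ≤ 4 * n := by exact_mod_cast (by omega : 6 * n - k ≤ 4 * n)
      linarith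
  have hpos2 : (0 : ℚ) ≤ ∏ m ∈ Finset.Ico (k + 1) (6 * n + 1), (1 / (|-(k : ℚ) + m| - 1 / 2)) := by
    apply Finset.prod_nonneg
    intro m hm
    apply hpos
    rw [hset]
    exact Finset.mem_union_right _ hm
  calc _ ≤ (2 * (4 * n + 1) / ((k - 2 * n).factorial : ℚ)) * (2 * (4 * n + 1) / ((6 * n - k).factorial : ℚ)) :=
        mul_le_mul h1 h2 hpos2 (by positivity)
    _ = _ := by ring

lemma G2_kap {n k : ℕ} (hk : k ∈ sM n) : |(((4 * n : ℕ) : ℚ) - k)| ≤ 2 * n := by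
  obtain ⟨hk1, hk2⟩ := Finset.mem_Icc.1 hk
  have h7 : (k : ℚ) ≤ 6 * n := by exact_mod_cast hk2
  have h8 : (2 : ℚ) * n ≤ k := by exact_mod_cast hk1
  push_cast
  rw [abs_le]
  constructor <;> linarith

lemma G2_linf {n k : ℕ} (hn : 3 ≤ n) (hk : k ∈ sM n) :
    Pool.Agent.H574R2.D3.nrm (TS (-(k : ℚ)) (2 * X + C ((8 * n : ℕ) : ℚ))) ≤ 5 * n := by
  have e : (2 * X + C ((8 * n : ℕ) : ℚ) : ℚ[X]) = C 2 * (X + C ((4 * n : ℕ) : ℚ)) := by
    rw [mul_add, ← C_mul, show (C 2 : ℚ[X]) = 2 from rfl]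
    congr 2
    push_cast
    ring
  rw [e, map_mul, TS_C, Pool.Agent.H574R2.D3.nrm_C_mul]
  have h1 := Pool.Agent.H574R2.D3.nrm_TS_lin (-(k : ℚ)) ((4 * n : ℕ) : ℚ)
  have h2 := G2_kap hk
  have h3 : (-(k : ℚ) + ((4 * n : ℕ) : ℚ)) = ((4 * n : ℕ) : ℚ) - k := by ring
  rw [h3] at h1
  have h10 : (3 : ℚ) ≤ n := by exact_mod_cast hn
  rw [abs_of_pos (by norm_num : (0 : ℚ) < 2)]
  linarith

lemma G2_x20 {n k : ℕ} (hn : 3 ≤ n) (hk : k ∈ sM n) :
    Pool.Agent.H574R2.D3.nrm (TS (-(k : ℚ)) (xM n ^ 20)) ≤ (3 * n) ^ 40 := by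
  unfold xM
  rw [← pow_mul, map_pow, TS_lin]
  refine (Pool.Agent.H574R2.D3.nrm_pow _ _).trans ?_
  apply pow_le_pow_left₀ (Pool.Agent.H574R2.D3.nrm_nonneg _)
  have h1 := Pool.Agent.H574R2.D3.nrm_X_add_C (-(k : ℚ) + ((4 * n : ℕ) : ℚ))
  have h2 := G2_kap hk
  have h3 : (-(k : ℚ) + ((4 * n : ℕ) : ℚ)) = ((4 * n : ℕ) : ℚ) - k := by ring
  rw [h3] at h1 ⊢
  have h10 : (3 : ℚ) ≤ n := by exact_mod_cast hn
  linarith

/-- everything except the nodes -/
lemma G2_rat {n k i : ℕ} (hn : 3 ≤ n) (hk : k ∈ sM n) (hi : i ∈ Finset.Icc 1 10) (Q : ℚ[X]) :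
    |pa (sM n) mM (PM n * EM n Q) k i| ≤ 2 ^ 20 * ((((4 * n).factorial : ℚ) ^ 10 / ((2 * n).factorial : ℚ) ^ 2 *
      (5 * n) *
      ((7 * n) ^ 2 * (((k.factorial : ℚ) * (8 * n - k).factorial) /
      (((k - 2 * n).factorial : ℚ) * (6 * n - k).factorial)))) *
      ((3 * n) ^ 40 * Pool.Agent.H574R2.D3.nrm (TS (-(k : ℚ)) (Q.comp (xM n)))) *
      ((10 * n) ^ 2 * (1 / (((k - 2 * n).factorial : ℚ) * (6 * n - k).factorial))) ^ 10) := by
  have hi' := Finset.mem_Icc.1 hi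
  have h10 : (3 : ℚ) ≤ n := by exact_mod_cast hn
  have hd : pa (sM n) mM (PM n * EM n Q) k i = pfc (sM n) mM (PM n * EM n Q) k (10 - i) := by
    unfold pa
    rw [if_pos hi'.2]
  rw [hd]
  unfold pfc
  refine (Pool.Agent.H574R2.D3.coeff_le_nrm _ (by omega)).trans ?_
  apply mul_le_mul_of_nonneg_left _ (by norm_num)
  refine (Pool.Agent.H574R2.D3.nrm_mul _ _).trans ?_
  apply mul_le_mul
  · rw [map_mul]
    refine (Pool.Agent.H574R2.D3.nrm_mul _ _).trans ?_
    apply mul_le_mul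
    · unfold PM
      rw [map_mul, map_mul, TS_C]
      refine (Pool.Agent.H574R2.D3.nrm_mul _ _).trans ?_
      apply mul_le_mul
      · rw [Pool.Agent.H574R2.D3.nrm_C_mul]
        unfold cM
        rw [abs_of_nonneg (by positivity)]
        exact mul_le_mul_of_nonneg_left (G2_linf hn hk) (by positivity)
      · refine (G2_Z hk).trans ?_
        apply mul_le_mul_of_nonneg_right _ (by positivity)
        exact pow_le_pow_left₀ (by positivity) (by linarith) 2
      · exact Pool.Agent.H574R2.D3.nrm_nonneg _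
      · positivity
    · unfold EM
      rw [Polynomial.mul_comp, Polynomial.X_pow_comp, map_mul]
      refine (Pool.Agent.H574R2.D3.nrm_mul _ _).trans ?_
      exact mul_le_mul_of_nonneg_right (G2_x20 hn hk) (Pool.Agent.H574R2.D3.nrm_nonneg _)
    · exact Pool.Agent.H574R2.D3.nrm_nonneg _
    · positivity
  · refine (G2_V hk).trans ?_
    apply pow_le_pow_left₀ (by positivity)
    apply mul_le_mul_of_nonneg_right _ (by positivity)
    exact pow_le_pow_left₀ (by positivity) (by linarith) 2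
  · exact Pool.Agent.H574R2.D3.nrm_nonneg _
  · have := Pool.Agent.H574R2.D3.nrm_nonneg (TS (-(k : ℚ)) (Q.comp (xM n)))
    positivity

lemma G2_phi9 {n : ℕ} (hn : 1 ≤ n) (u : ℝ) :
    10 * Psi (4 * n) - 2 * Psi (2 * n) + Psi (4 * n + u) + Psi (4 * n - u) - 11 * Psi (2 * n + u) -
      11 * Psi (2 * n - u) = n * phi (20 * u / n) := by
  have hn0 : (0 : ℝ) < n := by exact_mod_cast hn
  have hc : (20 / n : ℝ) ≠ 0 := by positivity
  unfold phi
  have e1 : 20 * u / n + 80 = (20 / n) * (4 * n + u) := by field_simp; ring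
  have e2 : 20 * u / n + 40 = (20 / n) * (2 * n + u) := by field_simp; ring
  have e3 : 20 * u / n - 40 = -((20 / n) * (2 * n - u)) := by field_simp; ring
  have e4 : 20 * u / n - 80 = -((20 / n) * (4 * n - u)) := by field_simp; ring
  rw [e1, e2, e3, e4, Pool.Agent.LZ.G2_Psi_neg, Pool.Agent.LZ.G2_Psi_neg, Pool.Agent.LZ.G2_Psi_scale hc,
    Pool.Agent.LZ.G2_Psi_scale hc, Pool.Agent.LZ.G2_Psi_scale hc, Pool.Agent.LZ.G2_Psi_scale hc]
  have f4 : Psi (4 * n) = 4 * Psi n + 4 * n * Real.log 4 := Pool.Agent.LZ.G2_Psi_scale (by norm_num) _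
  have f2 : Psi (2 * n) = 2 * Psi n + 2 * n * Real.log 2 := Pool.Agent.LZ.G2_Psi_scale (by norm_num) _
  have l4 : Real.log 4 = 2 * Real.log 2 := by
    rw [show (4 : ℝ) = 2 ^ 2 by norm_num, Real.log_pow]; norm_num
  have lc : Real.log (20 / n) = 2 * Real.log 2 + Real.log 5 - Real.log n := by
    rw [Real.log_div (by norm_num) hn0.ne', show (20 : ℝ) = 4 * 5 by norm_num,
      Real.log_mul (by norm_num) (by norm_num), l4]
  have fn : Psi n = n * Real.log n - n := rfl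
  rw [f4, f2, l4, lc, fn]
  generalize Psi (4 * n + u) = P1
  generalize Psi (4 * n - u) = P2
  generalize Psi (2 * n + u) = P3
  generalize Psi (2 * n - u) = P4
  generalize Real.log 5 = L5
  generalize Real.log 2 = L2
  generalize Real.log (n : ℝ) = Ln
  field_simp
  ring

lemma G2_ln1 {n : ℕ} (hn : 3 ≤ n) : 1 ≤ Real.log n := by
  have h1 : (3 : ℝ) ≤ n := by exact_mod_cast hn
  have h2 := Real.exp_one_lt_d9
  rw [Real.le_log_iff_exp_le (by linarith)]
  linarith

lemma G2_ln8 {n : ℕ} (hn : 3 ≤ n) : Real.log (8 * n + 1) ≤ 4 * Real.log n := by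
  have h1 : (3 : ℝ) ≤ n := by exact_mod_cast hn
  have : 4 * Real.log n = Real.log ((n : ℝ) ^ 4) := by rw [Real.log_pow]; norm_num
  rw [this]
  apply Real.log_le_log (by positivity)
  have h2 : (27 : ℝ) ≤ (n : ℝ) ^ 3 := by
    calc (27 : ℝ) = 3 ^ 3 := by norm_num
      _ ≤ _ := pow_le_pow_left₀ (by norm_num) h1 3
  have h3 : (n : ℝ) ^ 4 = n ^ 3 * n := by ring
  rw [h3]
  nlinarith

lemma G2_ln400 {n : ℕ} (hn : 3 ≤ n) : Real.log ((400 * n : ℕ) : ℝ) ≤ 7 * Real.log n := by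
  have h1 : (3 : ℝ) ≤ n := by exact_mod_cast hn
  have : 7 * Real.log n = Real.log ((n : ℝ) ^ 7) := by rw [Real.log_pow]; norm_num
  rw [this]
  push_cast
  apply Real.log_le_log (by positivity)
  have h2 : (729 : ℝ) ≤ (n : ℝ) ^ 6 := by
    calc (729 : ℝ) = 3 ^ 6 := by norm_num
      _ ≤ _ := pow_le_pow_left₀ (by norm_num) h1 6
  have h3 : (n : ℝ) ^ 7 = n ^ 6 * n := by ring
  rw [h3]
  nlinarith

/-- the numerical constant -/
def G2K : ℝ := 2 ^ 20 * 5 * 49 * 3 ^ 40 * 10 ^ 20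

lemma G2K_pos : 0 < G2K := by unfold G2K; norm_num

lemma G2K_one : 1 ≤ G2K := by unfold G2K; norm_num

/-- the factorials -/
lemma G2_fact {n k : ℕ} (hn : 3 ≤ n) (hk : k ∈ sM n) :
    10 * Real.log ((4 * n).factorial : ℝ) - 2 * Real.log ((2 * n).factorial : ℝ) +
      Real.log (k.factorial : ℝ) + Real.log ((8 * n - k).factorial : ℝ) -
      11 * Real.log ((k - 2 * n).factorial : ℝ) - 11 * Real.log ((6 * n - k).factorial : ℝ) ≤
    n * phi (20 * (((4 * n : ℤ) - k : ℤ) : ℝ) / n) + 60 * Real.log n := by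
  obtain ⟨hk1, hk2⟩ := Finset.mem_Icc.1 hk
  have h1 := Pool.Agent.LZ.G2_lf_up (4 * n)
  have h2 := Pool.Agent.LZ.G2_lf_low (2 * n)
  have h3 := Pool.Agent.LZ.G2_lf_up k
  have h4 := Pool.Agent.LZ.G2_lf_up (8 * n - k)
  have h5 := Pool.Agent.LZ.G2_lf_low (k - 2 * n)
  have h6 := Pool.Agent.LZ.G2_lf_low (6 * n - k)
  rw [Nat.cast_sub (by omega)] at h4 h5 h6
  push_cast at h1 h2 h3 h4 h5 h6
  have h7 := G2_phi9 (by omega : 1 ≤ n) ((4 * n : ℝ) - k)
  have e1 : 4 * (n : ℝ) + ((4 * n : ℝ) - k) = 8 * n - k := by ring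
  have e2 : 4 * (n : ℝ) - ((4 * n : ℝ) - k) = k := by ring
  have e3 : 2 * (n : ℝ) + ((4 * n : ℝ) - k) = 6 * n - k := by ring
  have e4 : 2 * (n : ℝ) - ((4 * n : ℝ) - k) = k - 2 * n := by ring
  rw [e1, e2, e3, e4] at h7
  have e5 : (((4 * n : ℤ) - k : ℤ) : ℝ) = (4 * n : ℝ) - k := by push_cast; ring
  rw [e5, ← h7]
  have h8 := G2_ln8 hn
  have h9 := G2_ln1 hn
  have hk1' : (2 * n : ℝ) ≤ k := by exact_mod_cast hk1
  have hk2' : (k : ℝ) ≤ 6 * n := by exact_mod_cast hk2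
  have hn0 : (0 : ℝ) ≤ n := Nat.cast_nonneg n
  have l1 : Real.log (4 * (n : ℝ) + 1) ≤ Real.log (8 * n + 1) := Real.log_le_log (by positivity) (by linarith)
  have l2 : Real.log ((k : ℝ) + 1) ≤ Real.log (8 * n + 1) := Real.log_le_log (by positivity) (by linarith)
  have l3 : Real.log ((8 * n : ℝ) - k + 1) ≤ Real.log (8 * n + 1) := Real.log_le_log (by linarith) (by linarith)
  linarith

/-- one pole -/
lemma G2_one {n k r : ℕ} (hn : 3 ≤ n) (hk : k ∈ sM n) (hr : r ∈ Finset.Icc 1 10) (i j : ℕ)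
    (hbd : ∀ i < 10 * n - 10, |nd n i| ≤ 327 * n) :
    |((pa (sM n) mM (PM n * EM n (lag (Finset.range (10 * n - 10)) (zq n) i *
      lag (Finset.Ico (5 * n - 5) (10 * n - 10)) (zq n) j)) k r : ℚ) : ℝ)| ≤
    Real.exp (n * phi (20 * (((4 * n : ℤ) - k : ℤ) : ℝ) / n) +
      Lp n (Finset.range (10 * n - 10)) (20 * ((4 * n : ℤ) - k)) +
      Lp n (Finset.Ico (5 * n - 5) (10 * n - 10)) (20 * ((4 * n : ℤ) - k)) +
      (1403 + Real.log G2K) * Real.log n) := by
  set Q : ℚ[X] := lag (Finset.range (10 * n - 10)) (zq n) i *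
      lag (Finset.Ico (5 * n - 5) (10 * n - 10)) (zq n) j with hQ
  have h1 : ((|pa (sM n) mM (PM n * EM n Q) k r| : ℚ) : ℝ) ≤ _ := Rat.cast_le.2 (G2_rat hn hk hr Q)
  rw [Rat.cast_abs] at h1
  refine h1.trans ?_
  push_cast
  have hD : ((Pool.Agent.H574R2.D3.nrm (TS (-(k : ℚ)) (Q.comp (xM n))) : ℚ) : ℝ) ≤
      Real.exp ((Lp n (Finset.range (10 * n - 10)) (20 * ((4 * n : ℤ) - k)) +
        80 * (1 + Real.log ((400 * n : ℕ) : ℝ))) +
      (Lp n (Finset.Ico (5 * n - 5) (10 * n - 10)) (20 * ((4 * n : ℤ) - k)) +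
        80 * (1 + Real.log ((400 * n : ℕ) : ℝ)))) := by
    have h2 := G2_nodes hn (G0_nd_inj hn) hbd hk (Finset.range (10 * n - 10)) (Finset.Subset.refl _) i
    have h3 := G2_nodes hn (G0_nd_inj hn) hbd hk (Finset.Ico (5 * n - 5) (10 * n - 10)) (by
      intro x hx
      rw [Finset.mem_Ico] at hx
      exact Finset.mem_range.2 hx.2) j
    have h4 := G2r_mul_exp h2 h3
    rw [← map_mul, ← Polynomial.mul_comp] at h4
    exact h4
  have hD0 : (0 : ℝ) ≤ ((Pool.Agent.H574R2.D3.nrm (TS (-(k : ℚ)) (Q.comp (xM n))) : ℚ) : ℝ) := by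
    exact_mod_cast Pool.Agent.H574R2.D3.nrm_nonneg _
  have hn0 : (0 : ℝ) < n := by
    have : (3 : ℝ) ≤ n := by exact_mod_cast hn
    linarith
  have hF := G2_fact hn hk
  set D : ℝ := ((Pool.Agent.H574R2.D3.nrm (TS (-(k : ℚ)) (Q.comp (xM n))) : ℚ) : ℝ)
  have p1 : (0 : ℝ) < ((4 * n).factorial : ℝ) := by positivity
  have p2 : (0 : ℝ) < ((2 * n).factorial : ℝ) := by positivity
  have p3 : (0 : ℝ) < (k.factorial : ℝ) := by positivity
  have p4 : (0 : ℝ) < ((8 * n - k).factorial : ℝ) := by positivity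
  have p5 : (0 : ℝ) < ((k - 2 * n).factorial : ℝ) := by positivity
  have p6 : (0 : ℝ) < ((6 * n - k).factorial : ℝ) := by positivity
  have hE : ((4 * n).factorial : ℝ) ^ 10 / ((2 * n).factorial : ℝ) ^ 2 *
      ((k.factorial : ℝ) * ((8 * n - k).factorial : ℝ) / (((k - 2 * n).factorial : ℝ) * ((6 * n - k).factorial : ℝ))) *
      (1 / (((k - 2 * n).factorial : ℝ) * ((6 * n - k).factorial : ℝ))) ^ 10 =
      Real.exp (10 * Real.log ((4 * n).factorial : ℝ) - 2 * Real.log ((2 * n).factorial : ℝ) +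
      Real.log (k.factorial : ℝ) + Real.log ((8 * n - k).factorial : ℝ) -
      11 * Real.log ((k - 2 * n).factorial : ℝ) - 11 * Real.log ((6 * n - k).factorial : ℝ)) := by
    have q1 : Real.exp (10 * Real.log ((4 * n).factorial : ℝ)) = ((4 * n).factorial : ℝ) ^ 10 := by
      have := Real.exp_nat_mul (Real.log ((4 * n).factorial : ℝ)) 10
      rw [Real.exp_log p1] at this
      exact_mod_cast this
    have q2 : Real.exp (2 * Real.log ((2 * n).factorial : ℝ)) = ((2 * n).factorial : ℝ) ^ 2 := by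
      have := Real.exp_nat_mul (Real.log ((2 * n).factorial : ℝ)) 2
      rw [Real.exp_log p2] at this
      exact_mod_cast this
    have q5 : Real.exp (11 * Real.log ((k - 2 * n).factorial : ℝ)) = ((k - 2 * n).factorial : ℝ) ^ 11 := by
      have := Real.exp_nat_mul (Real.log ((k - 2 * n).factorial : ℝ)) 11
      rw [Real.exp_log p5] at this
      exact_mod_cast this
    have q6 : Real.exp (11 * Real.log ((6 * n - k).factorial : ℝ)) = ((6 * n - k).factorial : ℝ) ^ 11 := by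
      have := Real.exp_nat_mul (Real.log ((6 * n - k).factorial : ℝ)) 11
      rw [Real.exp_log p6] at this
      exact_mod_cast this
    rw [Real.exp_sub, Real.exp_sub, Real.exp_add, Real.exp_add, Real.exp_sub, q1, q2, q5, q6, Real.exp_log p3,
      Real.exp_log p4]
    field_simp
  have hpow : (n : ℝ) ^ 63 = Real.exp (63 * Real.log n) := by
    have := Real.exp_nat_mul (Real.log (n : ℝ)) 63
    rw [Real.exp_log hn0] at this
    exact_mod_cast this.symm
  have hln := G2_ln1 hn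
  have hln4 := G2_ln400 hn
  have hKl : 0 ≤ Real.log G2K := Real.log_nonneg G2K_one
  calc _ = G2K * (n : ℝ) ^ 63 * (((4 * n).factorial : ℝ) ^ 10 / ((2 * n).factorial : ℝ) ^ 2 *
      ((k.factorial : ℝ) * ((8 * n - k).factorial : ℝ) / (((k - 2 * n).factorial : ℝ) * ((6 * n - k).factorial : ℝ))) *
      (1 / (((k - 2 * n).factorial : ℝ) * ((6 * n - k).factorial : ℝ))) ^ 10) * D := by
        unfold G2K
        ring
    _ ≤ Real.exp (Real.log G2K) * Real.exp (63 * Real.log n) *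
        Real.exp (n * phi (20 * (((4 * n : ℤ) - k : ℤ) : ℝ) / n) + 60 * Real.log n) *
        Real.exp ((Lp n (Finset.range (10 * n - 10)) (20 * ((4 * n : ℤ) - k)) +
          80 * (1 + Real.log ((400 * n : ℕ) : ℝ))) +
          (Lp n (Finset.Ico (5 * n - 5) (10 * n - 10)) (20 * ((4 * n : ℤ) - k)) +
          80 * (1 + Real.log ((400 * n : ℕ) : ℝ)))) := by
        rw [hE, hpow, Real.exp_log G2K_pos]
        apply mul_le_mul _ hD hD0 (by have := G2K_pos; positivity)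
        apply mul_le_mul_of_nonneg_left (Real.exp_le_exp.2 hF)
        have := G2K_pos
        positivity
    _ ≤ _ := by
        rw [← Real.exp_add, ← Real.exp_add, ← Real.exp_add]
        apply Real.exp_le_exp.2
        have h5 : Real.log G2K * 1 ≤ Real.log G2K * Real.log n := mul_le_mul_of_nonneg_left hln hKl
        have e5 : (((4 * n : ℤ) - k : ℤ) : ℝ) = (4 * n : ℝ) - k := by push_cast; ring
        rw [e5]
        linarith

lemma G2_bd {n : ℕ} (hn : 3 ≤ n) : ∀ i < 10 * n - 10, |nd n i| ≤ 327 * n := by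
  intro i hi
  rw [abs_le]
  rcases Nat.lt_or_ge i (2 * n - 1) with h | h
  · rw [G0_nd_sat h]
    constructor <;> omega
  · rcases Nat.lt_or_ge i (5 * n - 5) with h2 | h2
    · have := G0_nd_X hn h h2
      constructor <;> omega
    · have := G0_nd_Y hn h2 hi
      constructor <;> omega

/-- entries of the pole part -/
theorem G2_entryY (β : ℕ → ℚ) : ∃ C : ℝ, 0 < C ∧ ∀ n : ℕ, 3 ≤ n → ∀ MY : ℝ,
    (∀ u : ℤ, |u| ≤ 2 * n → n * phi (20 * (u : ℝ) / n) + Lp n (Finset.range (10 * n - 10)) (20 * u) +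
      Lp n (Finset.Ico (5 * n - 5) (10 * n - 10)) (20 * u) ≤ MY) →
    ∀ i < 10 * n - 10, ∀ j, 5 * n - 5 ≤ j → j < 10 * n - 10 →
    |((BL n β (lag (Finset.range (10 * n - 10)) (zq n) i *
      lag (Finset.Ico (5 * n - 5) (10 * n - 10)) (zq n) j) : ℚ) : ℝ)| ≤
      Real.exp (MY + C * Real.log n) := by
  set S : ℝ := ∑ r ∈ Finset.Icc 1 10, |(β r : ℝ)| with hS
  have hS0 : 0 ≤ S := Finset.sum_nonneg fun _ _ => abs_nonneg _
  have hlS : 0 ≤ Real.log (1 + S) := Real.log_nonneg (by linarith)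
  have hKl : 0 ≤ Real.log G2K := Real.log_nonneg G2K_one
  refine ⟨1407 + Real.log G2K + Real.log (1 + S), by linarith, ?_⟩
  intro n hn MY hM i _ j _ _
  rw [BL_apply]
  set Q : ℚ[X] := lag (Finset.range (10 * n - 10)) (zq n) i *
      lag (Finset.Ico (5 * n - 5) (10 * n - 10)) (zq n) j with hQ
  have hln := G2_ln1 hn
  have hln8 := G2_ln8 hn
  have hrho : ∀ r ∈ Finset.Icc 1 10, |((rho n (PM n * EM n Q) r : ℚ) : ℝ)| ≤
      Real.exp (MY + (1407 + Real.log G2K) * Real.log n) := by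
    intro r hr
    unfold rho
    rw [Rat.cast_sum]
    refine (Finset.abs_sum_le_sum_abs _ _).trans ?_
    have h2 : ∀ k ∈ sM n, |((pa (sM n) mM (PM n * EM n Q) k r : ℚ) : ℝ)| ≤
        Real.exp (MY + (1403 + Real.log G2K) * Real.log n) := by
      intro k hk
      refine (G2_one hn hk hr i j (G2_bd hn)).trans (Real.exp_le_exp.2 ?_)
      obtain ⟨hk1, hk2⟩ := Finset.mem_Icc.1 hk
      have h3 := hM ((4 * n : ℤ) - k) (by
        rw [abs_le]
        constructor <;> omega)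
      linarith
    refine (Finset.sum_le_sum h2).trans ?_
    rw [Finset.sum_const, nsmul_eq_mul]
    have h3 : ((sM n).card : ℝ) ≤ Real.exp (4 * Real.log n) := by
      have h5 : (0 : ℝ) < 8 * n + 1 := by positivity
      have h6 : (8 * n + 1 : ℝ) ≤ Real.exp (4 * Real.log n) := by
        rw [← Real.exp_log h5]
        exact Real.exp_le_exp.2 hln8
      refine le_trans ?_ h6
      have h7 : (sM n).card ≤ 8 * n + 1 := by
        rw [Nat.card_Icc]; omega
      exact_mod_cast h7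
    calc ((sM n).card : ℝ) * Real.exp (MY + (1403 + Real.log G2K) * Real.log n) ≤
          Real.exp (4 * Real.log n) * Real.exp (MY + (1403 + Real.log G2K) * Real.log n) :=
          mul_le_mul_of_nonneg_right h3 (Real.exp_pos _).le
      _ = _ := by rw [← Real.exp_add]; congr 1; ring
  unfold xb
  rw [Rat.cast_sum]
  calc |∑ r ∈ Finset.Icc 1 10, ((rho n (PM n * EM n Q) r * β r : ℚ) : ℝ)|
      ≤ ∑ r ∈ Finset.Icc 1 10, |((rho n (PM n * EM n Q) r * β r : ℚ) : ℝ)| := Finset.abs_sum_le_sum_abs _ _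
    _ ≤ ∑ r ∈ Finset.Icc 1 10, Real.exp (MY + (1407 + Real.log G2K) * Real.log n) * |(β r : ℝ)| := by
        apply Finset.sum_le_sum
        intro r hr
        rw [Rat.cast_mul, abs_mul]
        exact mul_le_mul_of_nonneg_right (hrho r hr) (abs_nonneg _)
    _ = Real.exp (MY + (1407 + Real.log G2K) * Real.log n) * S := by rw [← Finset.mul_sum]
    _ ≤ Real.exp (MY + (1407 + Real.log G2K) * Real.log n) * (1 + S) :=
        mul_le_mul_of_nonneg_left (by linarith) (Real.exp_pos _).le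
    _ = Real.exp (MY + (1407 + Real.log G2K) * Real.log n) * Real.exp (Real.log (1 + S)) := by
        rw [Real.exp_log (by linarith)]
    _ ≤ _ := by
        rw [← Real.exp_add]
        apply Real.exp_le_exp.2
        have h5 : Real.log (1 + S) * 1 ≤ Real.log (1 + S) * Real.log n := mul_le_mul_of_nonneg_left hln hlS
        linarith

end

end Pool.Agent.H574R2.D9
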