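import Pool.Agent.H574R2.D9.Defs
import Pool.Agent.H102R2.Z5.Brick

/-! G3: potential of one brick (with its mirror image) and of several bricks (helper348; after
LZ/G3 by helper708). -/

open Polynomial Pool.Agent.H337R2

namespace Pool.Agent.H574R2.D9

private theorem G3_Psi_div (x : ℝ) (n : ℝ) (hn : 0 < n) :
    n * Psi (x / n) = Pool.Agent.H102R2.Z5.Psi x - x * Real.log n := by
  unfold Psi Pool.Agent.H102R2.Z5.Psi
  rcases eq_or_ne x 0 with h | h
  · subst h; simp
  · rw [Real.log_div h hn.ne']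
    field_simp
    ring

private theorem G3_Psi_neg (x : ℝ) : Psi (-x) = -Psi x := by
  unfold Psi
  rw [Real.log_neg_eq_log]
  ring

private theorem G3_bb (g : ℕ) (hg : g < 10) : |((bb g : ℤ) : ℝ)| ≤ 184 ∧ 1 ≤ cc g ∧ (cc g : ℝ) ≤ 143 := by
  have h : |bb g| ≤ 184 ∧ 1 ≤ cc g ∧ cc g ≤ 143 := by
    interval_cases g <;> decide
  refine ⟨?_, h.2.1, by exact_mod_cast h.2.2⟩
  have := h.1
  rw [← Int.cast_abs]
  exact_mod_cast this

/-- sums of logarithms divided by `20` -/
private theorem G3_ten (v : ℤ) (c : ℕ) (hc : 1 ≤ c) (n : ℕ) :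
    |∑ j ∈ Finset.range n, Real.log (((v : ℝ) - c * j) / 20) -
      (∑ j ∈ Finset.range n, Real.log ((v : ℝ) - c * j) - n * Real.log 20)| ≤ Real.log 20 := by
  classical
  have hl : 0 < Real.log 20 := Real.log_pos (by norm_num)
  have h1 : ∀ j : ℕ, Real.log (((v : ℝ) - c * j) / 20) =
      (Real.log ((v : ℝ) - c * j) - Real.log 20) + (if v = c * (j : ℤ) then Real.log 20 else 0) := by
    intro j
    by_cases h : v = c * (j : ℤ)
    · rw [if_pos h]
      have : (v : ℝ) - c * j = 0 := by rw [h]; push_cast; ring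
      rw [this]; simp
    · rw [if_neg h, add_zero]
      have : (v : ℝ) - c * j ≠ 0 := by
        intro h0
        apply h
        have : (v : ℝ) = ((c * (j : ℤ) : ℤ) : ℝ) := by push_cast; linarith
        exact_mod_cast this
      rw [Real.log_div this (by norm_num)]
  rw [Finset.sum_congr rfl (fun j _ => h1 j), Finset.sum_add_distrib, Finset.sum_sub_distrib,
    Finset.sum_const, Finset.card_range, nsmul_eq_mul]
  have h2 : ∑ j ∈ Finset.range n, (if v = c * (j : ℤ) then Real.log 20 else 0) =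
      ((Finset.range n).filter (fun j : ℕ => v = c * (j : ℤ))).card * Real.log 20 := by
    rw [← Finset.sum_filter, Finset.sum_const, nsmul_eq_mul]
  have h3 : ((Finset.range n).filter (fun j : ℕ => v = c * (j : ℤ))).card ≤ 1 := by
    rw [Finset.card_le_one]
    intro a ha b hb
    rw [Finset.mem_filter] at ha hb
    have h4 : (c : ℤ) * a = c * b := by rw [← ha.2, ← hb.2]
    have h5 : (c : ℤ) ≠ 0 := by
      have : (0:ℤ) < c := by exact_mod_cast hc
      exact this.ne'
    exact_mod_cast mul_left_cancel₀ h5 h4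
  have h4 : ((((Finset.range n).filter (fun j : ℕ => v = c * (j : ℤ))).card : ℕ) : ℝ) ≤ 1 := by
    exact_mod_cast h3
  rw [h2]
  have h5 : (0:ℝ) ≤ (((Finset.range n).filter (fun j : ℕ => v = c * (j : ℤ))).card : ℝ) :=
    Nat.cast_nonneg _
  rw [abs_le]
  constructor <;> nlinarith

/-- one logarithm of an integer divided by `20` -/
private theorem G3_one (k : ℤ) (W : ℝ) (hW1 : 1 ≤ W) (hk : |(k : ℝ)| ≤ W) :
    |Real.log ((k : ℝ) / 20)| ≤ Real.log W + Real.log 20 := by
  have hl : 0 < Real.log 20 := Real.log_pos (by norm_num)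
  have hlW : 0 ≤ Real.log W := Real.log_nonneg hW1
  rcases eq_or_ne k 0 with h | h
  · subst h
    simp
    linarith
  · have hkr : (k : ℝ) ≠ 0 := by exact_mod_cast h
    rw [Real.log_div hkr (by norm_num)]
    have h1 : (1 : ℝ) ≤ |(k : ℝ)| := by
      rw [← Int.cast_abs]
      exact_mod_cast Int.one_le_abs h
    have h2 : 0 ≤ Real.log (k : ℝ) := by
      rw [← Real.log_abs]
      exact Real.log_nonneg h1
    have h3 : Real.log (k : ℝ) ≤ Real.log W := by
      rw [← Real.log_abs]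
      exact Real.log_le_log (by linarith) hk
    rw [abs_le]
    constructor <;> linarith

/-- the sum over `j < n - 1` of one half of a brick -/
private theorem G3_half (v : ℤ) (c n : ℕ) (hc : 1 ≤ c) (hn : 1 ≤ n) (W : ℝ)
    (hW : |(v : ℝ)| + c * n + c + 1 ≤ W) :
    |∑ j ∈ Finset.range (n - 1), Real.log (((v : ℝ) - c * j) / 20) -
      ((Pool.Agent.H102R2.Z5.Psi v - Pool.Agent.H102R2.Z5.Psi ((v : ℝ) - c * n)) / c -
        n * Real.log 20)| ≤ 5 * Real.log W + 3 + 2 * Real.log 20 := by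
  have h1 := Pool.Agent.H102R2.Z5.brick v c hc n W hW
  have h2 := G3_ten v c hc n
  have hcn : (0 : ℝ) ≤ (c : ℝ) * n := by positivity
  have hcr : (0 : ℝ) ≤ (c : ℝ) := by positivity
  have hva := abs_nonneg (v : ℝ)
  have hW1 : 1 ≤ W := by linarith
  have h3 : |Real.log (((v - c * ((n - 1 : ℕ) : ℤ) : ℤ) : ℝ) / 20)| ≤ Real.log W + Real.log 20 := by
    refine G3_one _ W hW1 ?_
    push_cast
    refine (abs_sub _ _).trans ?_
    have h4 : |(c : ℝ) * ((n - 1 : ℕ) : ℝ)| ≤ c * n := by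
      rw [abs_of_nonneg (by positivity)]
      refine mul_le_mul_of_nonneg_left ?_ hcr
      have : n - 1 ≤ n := Nat.sub_le _ _
      exact_mod_cast this
    linarith
  have e0 : ∑ j ∈ Finset.range n, Real.log (((v : ℝ) - c * j) / 20) =
      ∑ j ∈ Finset.range (n - 1), Real.log (((v : ℝ) - c * j) / 20) +
        Real.log (((v - c * ((n - 1 : ℕ) : ℤ) : ℤ) : ℝ) / 20) := by
    obtain ⟨k, rfl⟩ : ∃ k, n = k + 1 := ⟨n - 1, by omega⟩
    rw [Finset.sum_range_succ, Nat.add_sub_cancel]
    congr 2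
    push_cast
    ring
  have e1 : ∑ j ∈ Finset.range (n - 1), Real.log (((v : ℝ) - c * j) / 20) -
      ((Pool.Agent.H102R2.Z5.Psi v - Pool.Agent.H102R2.Z5.Psi ((v : ℝ) - c * n)) / c -
        n * Real.log 20) =
      (∑ j ∈ Finset.range n, Real.log ((v : ℝ) - c * j) -
        (Pool.Agent.H102R2.Z5.Psi v - Pool.Agent.H102R2.Z5.Psi ((v : ℝ) - c * n)) / c) +
      (∑ j ∈ Finset.range n, Real.log (((v : ℝ) - c * j) / 20) -
        (∑ j ∈ Finset.range n, Real.log ((v : ℝ) - c * j) - n * Real.log 20)) -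
      Real.log (((v - c * ((n - 1 : ℕ) : ℤ) : ℤ) : ℝ) / 20) := by
    rw [e0]
    ring
  rw [e1]
  refine (abs_sub _ _).trans ?_
  have h5 := abs_add_le (∑ j ∈ Finset.range n, Real.log ((v : ℝ) - c * j) -
        (Pool.Agent.H102R2.Z5.Psi v - Pool.Agent.H102R2.Z5.Psi ((v : ℝ) - c * n)) / c)
      (∑ j ∈ Finset.range n, Real.log (((v : ℝ) - c * j) / 20) -
        (∑ j ∈ Finset.range n, Real.log ((v : ℝ) - c * j) - n * Real.log 20))
  linarith

private theorem G3_brick_aux (n : ℕ) (hn : 3 ≤ n) (g : ℕ) (hg : g < 10) (u : ℤ) :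
    |∑ j ∈ Finset.range (n - 1), (Real.log (((u - (bb g * n + cc g * (j : ℤ)) : ℤ) : ℝ) / 20) +
        Real.log (((u + (bb g * n + cc g * (j : ℤ)) : ℤ) : ℝ) / 20)) -
      (n * Ub g ((u : ℝ) / n) + 2 * n * Real.log n)| ≤ 200 * Real.log (n + |(u : ℝ)|) := by
  obtain ⟨hb, hc1, hc2⟩ := G3_bb g hg
  have hn2 : (3:ℝ) ≤ n := by exact_mod_cast hn
  have hn0 : (0:ℝ) < n := by linarith
  have hu0 := abs_nonneg (u : ℝ)
  have hcc : (0:ℝ) < (cc g : ℝ) := by
    have : 0 < cc g := hc1
    exact_mod_cast this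
  set v : ℤ := u - bb g * n with hv
  set v' : ℤ := -u - bb g * n with hv'
  set W : ℝ := 512 * (n + |(u : ℝ)|) with hW
  have hvr : (v : ℝ) = u - bb g * n := by rw [hv]; push_cast; ring
  have hvr' : (v' : ℝ) = -u - bb g * n := by rw [hv']; push_cast; ring
  have hbn : |((bb g : ℤ) : ℝ) * n| ≤ 184 * n := by
    rw [abs_mul, abs_of_pos hn0]
    exact mul_le_mul_of_nonneg_right hb hn0.le
  have h3 : (cc g : ℝ) * n ≤ 143 * n := mul_le_mul_of_nonneg_right hc2 hn0.le
  have hWv : |(v : ℝ)| + cc g * n + cc g + 1 ≤ W := by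
    have : |(v : ℝ)| ≤ |(u : ℝ)| + 184 * n := by
      rw [hvr]
      exact (abs_sub _ _).trans (by linarith)
    rw [hW]
    nlinarith
  have hWv' : |(v' : ℝ)| + cc g * n + cc g + 1 ≤ W := by
    have : |(v' : ℝ)| ≤ |(u : ℝ)| + 184 * n := by
      rw [hvr']
      refine (abs_sub _ _).trans ?_
      rw [abs_neg]
      linarith
    rw [hW]
    nlinarith
  have h1 := G3_half v (cc g) n hc1 (by omega) W hWv
  have h2 := G3_half v' (cc g) n hc1 (by omega) W hWv'
  have e1 : ∑ j ∈ Finset.range (n - 1), (Real.log (((u - (bb g * n + cc g * (j : ℤ)) : ℤ) : ℝ) / 20) +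
        Real.log (((u + (bb g * n + cc g * (j : ℤ)) : ℤ) : ℝ) / 20)) =
      ∑ j ∈ Finset.range (n - 1), Real.log (((v : ℝ) - cc g * j) / 20) +
      ∑ j ∈ Finset.range (n - 1), Real.log (((v' : ℝ) - cc g * j) / 20) := by
    rw [← Finset.sum_add_distrib]
    refine Finset.sum_congr rfl fun j _ => ?_
    congr 1
    · congr 2
      rw [hv]
      push_cast
      ring
    · rw [← Real.log_neg_eq_log]
      congr 1
      rw [hv']
      push_cast
      ring
  have e2 : n * Ub g ((u : ℝ) / n) + 2 * n * Real.log n =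
      ((Pool.Agent.H102R2.Z5.Psi v - Pool.Agent.H102R2.Z5.Psi ((v : ℝ) - cc g * n)) / cc g -
        n * Real.log 20) +
      ((Pool.Agent.H102R2.Z5.Psi v' - Pool.Agent.H102R2.Z5.Psi ((v' : ℝ) - cc g * n)) / cc g -
        n * Real.log 20) := by
    unfold Ub
    have a1 : (u : ℝ) / n - bb g = (v : ℝ) / n := by rw [hvr]; field_simp
    have a2 : (v : ℝ) / n - cc g = ((v : ℝ) - cc g * n) / n := by field_simp
    have a3 : (u : ℝ) / n + bb g = -((v' : ℝ) / n) := by rw [hvr']; field_simp; ring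
    have a4 : -((v' : ℝ) / n) + cc g = -(((v' : ℝ) - cc g * n) / n) := by field_simp; ring
    rw [a1, a2, a3, a4, G3_Psi_neg, G3_Psi_neg]
    have b1 := G3_Psi_div (v : ℝ) n hn0
    have b2 := G3_Psi_div ((v : ℝ) - cc g * n) n hn0
    have b3 := G3_Psi_div (v' : ℝ) n hn0
    have b4 := G3_Psi_div ((v' : ℝ) - cc g * n) n hn0
    have b5 : (n : ℝ) * ((Psi ((v : ℝ) / n) - Psi (((v : ℝ) - cc g * n) / n) +
        (-Psi (((v' : ℝ) - cc g * n) / n) - -Psi ((v' : ℝ) / n))) / cc g - 2 * Real.log 20) =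
        ((n * Psi ((v : ℝ) / n) - n * Psi (((v : ℝ) - cc g * n) / n)) +
        (n * Psi ((v' : ℝ) / n) - n * Psi (((v' : ℝ) - cc g * n) / n))) / cc g -
          2 * n * Real.log 20 := by
      ring
    rw [b5, b1, b2, b3, b4]
    field_simp
    ring
  rw [e1, e2]
  -- the size of `W`
  have hW1 : 1 ≤ W := by
    rw [hW]
    nlinarith
  have hL2 : Real.log 2 ≤ Real.log (n + |(u : ℝ)|) := Real.log_le_log (by norm_num) (by linarith)
  have hlog2 := Real.log_two_gt_d9
  have hWlog : Real.log W ≤ 9 * Real.log 2 + Real.log (n + |(u : ℝ)|) := by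
    rw [hW, Real.log_mul (by norm_num) (by positivity)]
    have : (512:ℝ) = 2^9 := by norm_num
    rw [this, Real.log_pow]
    push_cast
    linarith
  have h10 : Real.log 20 ≤ 5 * Real.log 2 := by
    have : (5:ℝ) * Real.log 2 = Real.log (2^5) := by rw [Real.log_pow]; norm_num
    rw [this]
    exact Real.log_le_log (by norm_num) (by norm_num)
  set S1 : ℝ := ∑ j ∈ Finset.range (n - 1), Real.log (((v : ℝ) - cc g * j) / 20) with hS1
  set S2 : ℝ := ∑ j ∈ Finset.range (n - 1), Real.log (((v' : ℝ) - cc g * j) / 20) with hS2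
  set T1 : ℝ := (Pool.Agent.H102R2.Z5.Psi v - Pool.Agent.H102R2.Z5.Psi ((v : ℝ) - cc g * n)) / cc g -
        n * Real.log 20 with hT1
  set T2 : ℝ := (Pool.Agent.H102R2.Z5.Psi v' - Pool.Agent.H102R2.Z5.Psi ((v' : ℝ) - cc g * n)) / cc g -
        n * Real.log 20 with hT2
  have e3 : S1 + S2 - (T1 + T2) = (S1 - T1) + (S2 - T2) := by ring
  rw [e3]
  refine (abs_add_le _ _).trans ((add_le_add h1 h2).trans ?_)
  nlinarith

/-- potential of one brick -/
theorem G3_brick : ∃ C : ℝ, 0 < C ∧ ∀ n : ℕ, 3 ≤ n → ∀ g < 10, ∀ u : ℤ,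
    |∑ j ∈ Finset.range (n - 1), (Real.log (((u - (bb g * n + cc g * (j : ℤ)) : ℤ) : ℝ) / 20) +
        Real.log (((u + (bb g * n + cc g * (j : ℤ)) : ℤ) : ℝ) / 20)) -
      (n * Ub g ((u : ℝ) / n) + 2 * n * Real.log n)| ≤ C * Real.log (n + |(u : ℝ)|) :=
  ⟨200, by norm_num, fun n hn g hg u => G3_brick_aux n hn g hg u⟩

private theorem G3_blocks (n : ℕ) (f : ℕ → ℝ) (a b : ℕ) (hab : a ≤ b) :
    ∑ i ∈ Finset.Ico (a * n) (b * n), f i =
      ∑ g ∈ Finset.Ico a b, ∑ j ∈ Finset.range n, f (g * n + j) := by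
  induction b, hab using Nat.le_induction with
  | base => simp
  | succ b hab ih =>
    rw [Finset.sum_Ico_succ_top hab, ← ih]
    rw [← Finset.sum_Ico_consecutive f (Nat.mul_le_mul_right n hab)
      (Nat.mul_le_mul_right n (Nat.le_succ b))]
    congr 1
    rw [Finset.sum_Ico_eq_sum_range]
    have : (b + 1) * n - b * n = n := by
      rw [Nat.succ_mul]; omega
    rw [this]

/-- the two logarithms at a node -/
private noncomputable def G3_f (u x : ℤ) : ℝ :=
  Real.log (((u - x : ℤ) : ℝ) / 20) + Real.log (((u + x : ℤ) : ℝ) / 20)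

private theorem G3_f_bound (n : ℕ) (hn : 3 ≤ n) (u x : ℤ) (hx : |(x : ℝ)| ≤ 120 * n) :
    |G3_f u x| ≤ 40 * Real.log (n + |(u : ℝ)|) := by
  have hn2 : (3:ℝ) ≤ n := by exact_mod_cast hn
  have hu0 := abs_nonneg (u : ℝ)
  set W : ℝ := 128 * (n + |(u : ℝ)|) with hW
  have hW1 : 1 ≤ W := by
    rw [hW]
    nlinarith
  have h1 : |Real.log (((u - x : ℤ) : ℝ) / 20)| ≤ Real.log W + Real.log 20 := by
    refine G3_one _ W hW1 ?_
    push_cast
    refine (abs_sub _ _).trans ?_
    rw [hW]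
    nlinarith
  have h2 : |Real.log (((u + x : ℤ) : ℝ) / 20)| ≤ Real.log W + Real.log 20 := by
    refine G3_one _ W hW1 ?_
    push_cast
    refine (abs_add_le _ _).trans ?_
    rw [hW]
    nlinarith
  have hL2 : Real.log 2 ≤ Real.log (n + |(u : ℝ)|) := Real.log_le_log (by norm_num) (by linarith)
  have hlog2 := Real.log_two_gt_d9
  have hWlog : Real.log W ≤ 7 * Real.log 2 + Real.log (n + |(u : ℝ)|) := by
    rw [hW, Real.log_mul (by norm_num) (by positivity)]
    have : (128:ℝ) = 2^7 := by norm_num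
    rw [this, Real.log_pow]
    push_cast
    linarith
  have h10 : Real.log 20 ≤ 5 * Real.log 2 := by
    have : (5:ℝ) * Real.log 2 = Real.log (2^5) := by rw [Real.log_pow]; norm_num
    rw [this]
    exact Real.log_le_log (by norm_num) (by norm_num)
  unfold G3_f
  refine (abs_add_le _ _).trans ((add_le_add h1 h2).trans ?_)
  linarith

/-- the nodes of one brick against the ideal nodes -/
private theorem G3_nodes (n : ℕ) (hn : 3 ≤ n) (g : ℕ) (u : ℤ) :
    |∑ j ∈ Finset.range (n - 1), G3_f u (nd n (g * (n - 1) + j)) -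
      ∑ j ∈ Finset.range (n - 1), G3_f u (bb g * n + cc g * (j : ℤ))| ≤
      80 * Real.log (n + |(u : ℝ)|) := by
  have hn2 : (3:ℝ) ≤ n := by exact_mod_cast hn
  have hn1 : 0 < n - 1 := by omega
  have hL : 0 ≤ Real.log (n + |(u : ℝ)|) := by
    apply Real.log_nonneg
    have := abs_nonneg (u : ℝ)
    linarith
  have hdiv : ∀ g j : ℕ, j < n - 1 → (g * (n - 1) + j) / (n - 1) = g := by
    intro g j hj
    rw [Nat.mul_comm, Nat.mul_add_div hn1, Nat.div_eq_of_lt hj, add_zero]
  have hmod : ∀ g j : ℕ, j < n - 1 → (g * (n - 1) + j) % (n - 1) = j := by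
    intro g j hj
    rw [Nat.mul_comm, Nat.mul_add_mod, Nat.mod_eq_of_lt hj]
  have hgen : ∀ j : ℕ, j < n - 1 → ¬ (g * (n - 1) + j < 2 * n - 1) →
      nd n (g * (n - 1) + j) = bb g * n + cc g * (j : ℤ) := by
    intro j hj h
    unfold nd
    rw [if_neg h, hdiv g j hj, hmod g j hj]
  rcases Nat.lt_or_ge g 3 with hg | hg
  · interval_cases g
    · -- brick 0
      have e1 : ∀ j ∈ Finset.range (n - 1), G3_f u (nd n (0 * (n - 1) + j)) =
          G3_f u (80 * n + 20 * ((j + 1 : ℕ) : ℤ)) := by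
        intro j hj
        rw [Finset.mem_range] at hj
        congr 1
        unfold nd
        rw [if_pos (by omega)]
        push_cast
        ring
      have e2 : ∀ j ∈ Finset.range (n - 1), G3_f u (bb 0 * n + cc 0 * (j : ℤ)) =
          G3_f u (80 * n + 20 * ((j : ℕ) : ℤ)) := by
        intro j _
        congr 1
      rw [Finset.sum_congr rfl e1, Finset.sum_congr rfl e2, ← Finset.sum_sub_distrib,
        Finset.sum_range_sub (fun j : ℕ => G3_f u (80 * n + 20 * (j : ℤ)))]
      refine (abs_sub _ _).trans ?_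
      have h1 := G3_f_bound n hn u (80 * n + 20 * ((n - 1 : ℕ) : ℤ)) (by
        push_cast
        have h2 : ((n - 1 : ℕ) : ℝ) ≤ n := by exact_mod_cast Nat.sub_le n 1
        have h3 : (0 : ℝ) ≤ ((n - 1 : ℕ) : ℝ) := by positivity
        rw [abs_of_nonneg (by positivity)]
        linarith)
      have h2 := G3_f_bound n hn u (80 * n + 20 * ((0 : ℕ) : ℤ)) (by
        push_cast
        rw [abs_of_nonneg (by positivity)]
        linarith)
      linarith
    · -- brick 1
      have e1 : ∀ j ∈ Finset.range (n - 1), G3_f u (nd n (1 * (n - 1) + j)) =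
          G3_f u (bb 1 * n + cc 1 * (j : ℤ)) := by
        intro j hj
        rw [Finset.mem_range] at hj
        congr 1
        unfold nd
        rw [if_pos (by omega)]
        have h1 : ((1 * (n - 1) + j : ℕ) : ℤ) = (n : ℤ) - 1 + j := by
          push_cast [Nat.cast_sub (by omega : 1 ≤ n)]
          ring
        rw [h1]
        simp only [bb, cc]
        push_cast
        ring
      rw [Finset.sum_congr rfl e1, sub_self, abs_zero]
      positivity
    · -- brick 2
      obtain ⟨m, hm⟩ : ∃ m, n - 1 = m + 1 := ⟨n - 2, by omega⟩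
      have e1 : ∑ j ∈ Finset.range (n - 1), G3_f u (nd n (2 * (n - 1) + j)) -
          ∑ j ∈ Finset.range (n - 1), G3_f u (bb 2 * n + cc 2 * (j : ℤ)) =
          G3_f u (nd n (2 * (n - 1) + 0)) - G3_f u (bb 2 * n + cc 2 * ((0 : ℕ) : ℤ)) := by
        rw [← Finset.sum_sub_distrib]
        refine Finset.sum_eq_single 0 (fun j hj hj0 => ?_) (fun h => ?_)
        · rw [Finset.mem_range] at hj
          rw [hgen j hj (by omega), sub_self]
        · exact absurd (Finset.mem_range.2 hn1) h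
      rw [e1]
      refine (abs_sub _ _).trans ?_
      have h1 := G3_f_bound n hn u (nd n (2 * (n - 1) + 0)) (by
        unfold nd
        rw [if_pos (by omega)]
        have h2 : ((2 * (n - 1) + 0 : ℕ) : ℤ) = 2 * (n : ℤ) - 2 := by
          push_cast [Nat.cast_sub (by omega : 1 ≤ n)]
          ring
        rw [h2]
        push_cast
        rw [abs_of_nonneg (by linarith)]
        linarith)
      have h2 := G3_f_bound n hn u (bb 2 * n + cc 2 * ((0 : ℕ) : ℤ)) (by
        simp only [bb, cc]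
        push_cast
        rw [abs_of_nonneg (by positivity)]
        linarith)
      linarith
  · have e1 : ∀ j ∈ Finset.range (n - 1), G3_f u (nd n (g * (n - 1) + j)) =
        G3_f u (bb g * n + cc g * (j : ℤ)) := by
      intro j hj
      rw [Finset.mem_range] at hj
      rw [hgen j hj ?_]
      have : 3 * (n - 1) ≤ g * (n - 1) := Nat.mul_le_mul_right _ hg
      omega
    rw [Finset.sum_congr rfl e1, sub_self, abs_zero]
    positivity

theorem G3_Lp : ∃ C : ℝ, 0 < C ∧ ∀ n : ℕ, 3 ≤ n → ∀ a b : ℕ, a ≤ b → b ≤ 10 → ∀ u : ℤ,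
    |Lp n (Finset.Ico (a * (n - 1)) (b * (n - 1))) u -
      (n * ∑ g ∈ Finset.Ico a b, Ub g ((u : ℝ) / n) + 2 * (b - a) * n * Real.log n)| ≤ C * Real.log (n + |(u : ℝ)|) := by
  refine ⟨2800, by norm_num, fun n hn a b hab hb u => ?_⟩
  have hn0 : 0 < n := by omega
  have hL : 0 ≤ Real.log (n + |(u : ℝ)|) := by
    apply Real.log_nonneg
    have : (3:ℝ) ≤ n := by exact_mod_cast hn
    have := abs_nonneg (u : ℝ)
    linarith
  unfold Lp
  rw [G3_blocks (n - 1) _ a b hab]
  have e2 : (n : ℝ) * ∑ g ∈ Finset.Ico a b, Ub g ((u : ℝ) / n) + 2 * (b - a) * n * Real.log n =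
      ∑ g ∈ Finset.Ico a b, (n * Ub g ((u : ℝ) / n) + 2 * n * Real.log n) := by
    rw [Finset.sum_add_distrib, ← Finset.mul_sum, Finset.sum_const, Nat.card_Ico, nsmul_eq_mul,
      Nat.cast_sub hab]
    ring
  rw [e2, ← Finset.sum_sub_distrib]
  refine (Finset.abs_sum_le_sum_abs _ _).trans ?_
  calc _ ≤ ∑ g ∈ Finset.Ico a b, 280 * Real.log (n + |(u : ℝ)|) := by
        refine Finset.sum_le_sum fun g hg => ?_
        rw [Finset.mem_Ico] at hg
        have h1 := G3_brick_aux n hn g (by omega) u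
        have h2 := G3_nodes n hn g u
        have e3 : ∑ j ∈ Finset.range (n - 1), (Real.log (((u - nd n (g * (n - 1) + j) : ℤ) : ℝ) / 20) +
            Real.log (((u + nd n (g * (n - 1) + j) : ℤ) : ℝ) / 20)) -
            (n * Ub g ((u : ℝ) / n) + 2 * n * Real.log n) =
            (∑ j ∈ Finset.range (n - 1), G3_f u (nd n (g * (n - 1) + j)) -
              ∑ j ∈ Finset.range (n - 1), G3_f u (bb g * n + cc g * (j : ℤ))) +
            (∑ j ∈ Finset.range (n - 1), (Real.log (((u - (bb g * n + cc g * (j : ℤ)) : ℤ) : ℝ) / 20) +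
              Real.log (((u + (bb g * n + cc g * (j : ℤ)) : ℤ) : ℝ) / 20)) -
            (n * Ub g ((u : ℝ) / n) + 2 * n * Real.log n)) := by
          unfold G3_f
          ring
        rw [e3]
        refine (abs_add_le _ _).trans ((add_le_add h2 h1).trans ?_)
        linarith
    _ = ((b - a : ℕ) : ℝ) * (280 * Real.log (n + |(u : ℝ)|)) := by
        rw [Finset.sum_const, Nat.card_Ico, nsmul_eq_mul]
    _ ≤ 10 * (280 * Real.log (n + |(u : ℝ)|)) := by
        refine mul_le_mul_of_nonneg_right ?_ (by positivity)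
        have : b - a ≤ 10 := by omega
        exact_mod_cast this
    _ = 2800 * Real.log (n + |(u : ℝ)|) := by ring

end Pool.Agent.H574R2.D9
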