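import Pool.Agent.H574R2.D9.Defs
import Pool.Agent.H337R2.LZ.G5

/-!
# G5: the saturated part of the energy
-/

open Polynomial Pool.Agent.H337R2

namespace Pool.Agent.H574R2.D9

noncomputable section

namespace G5

open Finset Pool.Agent.LZ.G5

lemma lf_nonneg (m : ℕ) : 0 ≤ lf m := by
  unfold lf
  exact Real.log_nonneg (by exact_mod_cast Nat.succ_le_of_lt m.factorial_pos)

lemma SF_succ (m : ℕ) : SF (m + 1) = SF m + lf m := by
  unfold SF
  rw [Finset.sum_range_succ]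

lemma sum_sh (a m : ℕ) : ∑ t ∈ range m, lf (a + t) = SF (a + m) - SF a := by
  have h := Finset.sum_range_add lf a m
  unfold SF
  rw [h, add_sub_cancel_left]

lemma lf_up (a m : ℕ) : ∑ t ∈ range m, Real.log ((a : ℝ) + 1 + (t : ℝ)) = lf (a + m) - lf a := by
  induction m with
  | zero => simp
  | succ m ih =>
    rw [Finset.sum_range_succ, ih, ← Nat.add_assoc, lf_succ]
    push_cast
    rw [show (a : ℝ) + 1 + m = a + m + 1 by ring]
    ring

lemma nd_sat {n i : ℕ} (hi : i < 2 * n - 1) : nd n i = 20 * (4 * n + 1 + i) := by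
  unfold nd
  rw [if_pos hi]

lemma Lp_sat {n i : ℕ} (hi : i < 2 * n - 1) :
    Lp n (range (2 * n - 1)) (20 * (4 * n + 1 + i)) =
      lf i + lf (2 * n - 1 - 1 - i) + (lf (10 * n + i) - lf (8 * n + 1 + i)) := by
  unfold Lp
  have h := lf_row i (2 * n - 1 - 1 - i)
  rw [show i + 1 + (2 * n - 1 - 1 - i) = 2 * n - 1 by omega] at h
  have h2 := lf_up (8 * n + 1 + i) (2 * n - 1)
  rw [show 8 * n + 1 + i + (2 * n - 1) = 10 * n + i by omega] at h2
  rw [← h, ← h2, ← Finset.sum_add_distrib]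
  apply Finset.sum_congr rfl
  intro j hj
  rw [nd_sat (Finset.mem_range.1 hj)]
  congr 1
  · congr 1
    push_cast
    ring
  · congr 1
    push_cast
    ring

lemma log_wv (n i : ℕ) : Real.log (wv n (4 * n + 1 + i)) =
    (10 * lf (4 * n) - 2 * lf (2 * n)) + (Real.log (2 * ((4 * n + 1 + i : ℕ) : ℝ)) +
      40 * Real.log ((4 * n + 1 + i : ℕ) : ℝ)) + (lf (8 * n + 1 + i) - 11 * lf (6 * n + 1 + i) +
      11 * lf (2 * n + i) - lf i) := by
  unfold wv
  rw [show 4 * n + 1 + i + 4 * n = 8 * n + 1 + i by omega,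
    show 4 * n + 1 + i + 2 * n = 6 * n + 1 + i by omega,
    show 4 * n + 1 + i - 2 * n - 1 = 2 * n + i by omega,
    show 4 * n + 1 + i - 4 * n - 1 = i by omega]
  unfold lf
  have p : ∀ m : ℕ, ((m.factorial : ℕ) : ℝ) ≠ 0 := fun m => by positivity
  have pv : ((4 * n + 1 + i : ℕ) : ℝ) ≠ 0 := by positivity
  have p2v : 2 * ((4 * n + 1 + i : ℕ) : ℝ) ≠ 0 := by positivity
  have q1 : ((4 * n).factorial : ℝ) ^ 10 / ((2 * n).factorial : ℝ) ^ 2 ≠ 0 :=
    div_ne_zero (pow_ne_zero _ (p _)) (pow_ne_zero _ (p _))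
  have q3 : ((8 * n + 1 + i).factorial : ℝ) / ((6 * n + 1 + i).factorial : ℝ) ≠ 0 :=
    div_ne_zero (p _) (p _)
  have q4 : ((2 * n + i).factorial : ℝ) / (i.factorial : ℝ) ≠ 0 := div_ne_zero (p _) (p _)
  have q5 : (((2 * n + i).factorial : ℝ) / ((6 * n + 1 + i).factorial : ℝ)) ^ 10 ≠ 0 :=
    pow_ne_zero _ (div_ne_zero (p _) (p _))
  have q6 : (((4 * n + 1 + i : ℕ) : ℝ)) ^ 40 ≠ 0 := pow_ne_zero _ pv
  rw [Real.log_mul (mul_ne_zero (mul_ne_zero (mul_ne_zero (mul_ne_zero q1 p2v) q3) q4) q5) q6,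
    Real.log_mul (mul_ne_zero (mul_ne_zero (mul_ne_zero q1 p2v) q3) q4) q5,
    Real.log_mul (mul_ne_zero (mul_ne_zero q1 p2v) q3) q4,
    Real.log_mul (mul_ne_zero q1 p2v) q3, Real.log_mul q1 p2v,
    Real.log_div (pow_ne_zero _ (p _)) (pow_ne_zero _ (p _)),
    Real.log_div (p _) (p _), Real.log_div (p _) (p _), Real.log_pow, Real.log_pow, Real.log_pow,
    Real.log_pow, Real.log_div (p _) (p _)]
  push_cast
  ring

end G5

open G5 Pool.Agent.LZ.G5 in
/-- saturated part -/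
theorem G5_sat : ∃ C : ℝ, 0 < C ∧ ∀ n : ℕ, 3 ≤ n →
    ∑ i ∈ Finset.range (2 * n - 1), (Real.log (wv n (4 * n + 1 + i)) + Lp n (Finset.range (2 * n - 1)) (20 * (4 * n + 1 + i))) ≤
      eS * (n : ℝ) ^ 2 + 8 * (n : ℝ) ^ 2 * Real.log n + C * n * Real.log n := by
  refine ⟨100000, by norm_num, fun n hn => ?_⟩
  have hn2 : 2 ≤ n := by omega
  have hn0 : (0 : ℝ) < n := by positivity
  have hn3 : (3 : ℝ) ≤ n := by exact_mod_cast hn
  -- the sum in terms of superfactorials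
  have hsum : ∑ i ∈ Finset.range (2 * n - 1), (Real.log (wv n (4 * n + 1 + i)) +
        Lp n (Finset.range (2 * n - 1)) (20 * (4 * n + 1 + i))) =
      ((2 * n - 1 : ℕ) : ℝ) * (10 * lf (4 * n) - 2 * lf (2 * n)) +
      ∑ i ∈ Finset.range (2 * n - 1), (Real.log (2 * ((4 * n + 1 + i : ℕ) : ℝ)) +
        40 * Real.log ((4 * n + 1 + i : ℕ) : ℝ)) +
      (11 * (SF (4 * n - 1) - SF (2 * n)) - 11 * (SF (8 * n) - SF (6 * n + 1)) +
        SF (2 * n - 1) + (SF (12 * n - 1) - SF (10 * n))) := by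
    have h1 : ∀ i ∈ Finset.range (2 * n - 1), (Real.log (wv n (4 * n + 1 + i)) +
        Lp n (Finset.range (2 * n - 1)) (20 * (4 * n + 1 + i))) =
        (10 * lf (4 * n) - 2 * lf (2 * n)) + (Real.log (2 * ((4 * n + 1 + i : ℕ) : ℝ)) +
        40 * Real.log ((4 * n + 1 + i : ℕ) : ℝ)) + (11 * lf (2 * n + i) - 11 * lf (6 * n + 1 + i) +
        lf (2 * n - 1 - 1 - i) + lf (10 * n + i)) := by
      intro i hi
      rw [log_wv, Lp_sat (Finset.mem_range.1 hi)]
      ring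
    have h3 : ∑ i ∈ Finset.range (2 * n - 1), (11 * lf (2 * n + i) - 11 * lf (6 * n + 1 + i) +
        lf (2 * n - 1 - 1 - i) + lf (10 * n + i)) =
        (11 * (SF (4 * n - 1) - SF (2 * n)) - 11 * (SF (8 * n) - SF (6 * n + 1)) +
        SF (2 * n - 1) + (SF (12 * n - 1) - SF (10 * n))) := by
      have e1 : 2 * n + (2 * n - 1) = 4 * n - 1 := by omega
      have e2 : 6 * n + 1 + (2 * n - 1) = 8 * n := by omega
      have e3 : 10 * n + (2 * n - 1) = 12 * n - 1 := by omega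
      rw [Finset.sum_add_distrib, Finset.sum_add_distrib, Finset.sum_sub_distrib, ← Finset.mul_sum,
        ← Finset.mul_sum, sum_sh, sum_sh, sum_sh, Finset.sum_range_reflect lf, e1, e2, e3]
      rfl
    rw [Finset.sum_congr rfl h1, Finset.sum_add_distrib, h3, Finset.sum_add_distrib,
      Finset.sum_const, Finset.card_range, nsmul_eq_mul]
  rw [hsum]
  have m4 : SF (4 * n - 1) ≤ SF (4 * n) := by
    have h := SF_succ (4 * n - 1)
    rw [show 4 * n - 1 + 1 = 4 * n by omega] at h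
    linarith [lf_nonneg (4 * n - 1)]
  have m2 : SF (2 * n - 1) ≤ SF (2 * n) := by
    have h := SF_succ (2 * n - 1)
    rw [show 2 * n - 1 + 1 = 2 * n by omega] at h
    linarith [lf_nonneg (2 * n - 1)]
  have m12 : SF (12 * n - 1) ≤ SF (12 * n) := by
    have h := SF_succ (12 * n - 1)
    rw [show 12 * n - 1 + 1 = 12 * n by omega] at h
    linarith [lf_nonneg (12 * n - 1)]
  have m6 : SF (6 * n + 1) = SF (6 * n) + lf (6 * n) := SF_succ _
  have l4 := abs_le.1 (lf_an hn2 (a := 4) (by norm_num))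
  have l6 := abs_le.1 (lf_an hn2 (a := 6) (by norm_num))
  have l2 := abs_le.1 (lf_an hn2 (a := 2) (by norm_num))
  have s2 := abs_le.1 (SF_an hn2 (a := 2) (by norm_num))
  have s4 := abs_le.1 (SF_an hn2 (a := 4) (by norm_num))
  have s6 := abs_le.1 (SF_an hn2 (a := 6) (by norm_num))
  have s8 := abs_le.1 (SF_an hn2 (a := 8) (by norm_num))
  have s10 := abs_le.1 (SF_an hn2 (a := 10) (by norm_num))
  have s12 := abs_le.1 (SF_an hn2 (a := 12) (by norm_num))
  push_cast at l4 l6 l2 s2 s4 s6 s8 s10 s12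
  -- the constant
  have h4 : Real.log 4 = 2 * Real.log 2 := by
    rw [show (4 : ℝ) = 2 ^ 2 by norm_num, Real.log_pow]; norm_num
  have h20 : Real.log 20 = 2 * Real.log 2 + Real.log 5 := by
    rw [show (20 : ℝ) = 4 * 5 by norm_num, Real.log_mul (by norm_num) (by norm_num), h4]
  have g : ∀ x : ℝ, Pool.Agent.LZ.GG (x * 20) = 400 * Pool.Agent.LZ.GG x + 200 * x ^ 2 * Real.log 20 := by
    intro x
    rw [GG_sc (n := 20) (by norm_num)]
    ring
  have gneg : ∀ x : ℝ, Pool.Agent.LZ.GG (-x) = Pool.Agent.LZ.GG x := by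
    intro x
    unfold Pool.Agent.LZ.GG
    rw [Real.log_neg_eq_log]
    ring
  have g0 : Pool.Agent.LZ.GG 0 = 0 := by unfold Pool.Agent.LZ.GG; simp
  have i40 : Pool.Agent.LZ.GG 40 = 400 * Pool.Agent.LZ.GG 2 + 200 * 2 ^ 2 * Real.log 20 := by rw [← g]; norm_num
  have i80 : Pool.Agent.LZ.GG 80 = 400 * Pool.Agent.LZ.GG 4 + 200 * 4 ^ 2 * Real.log 20 := by rw [← g]; norm_num
  have i120 : Pool.Agent.LZ.GG 120 = 400 * Pool.Agent.LZ.GG 6 + 200 * 6 ^ 2 * Real.log 20 := by rw [← g]; norm_num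
  have i160 : Pool.Agent.LZ.GG 160 = 400 * Pool.Agent.LZ.GG 8 + 200 * 8 ^ 2 * Real.log 20 := by rw [← g]; norm_num
  have i200 : Pool.Agent.LZ.GG 200 = 400 * Pool.Agent.LZ.GG 10 + 200 * 10 ^ 2 * Real.log 20 := by rw [← g]; norm_num
  have i240 : Pool.Agent.LZ.GG 240 = 400 * Pool.Agent.LZ.GG 12 + 200 * 12 ^ 2 * Real.log 20 := by rw [← g]; norm_num
  have heS : eS = 11 * (Pool.Agent.LZ.GG 4 - Pool.Agent.LZ.GG 2) - 11 * (Pool.Agent.LZ.GG 8 - Pool.Agent.LZ.GG 6) + Pool.Agent.LZ.GG 2 + (Pool.Agent.LZ.GG 12 - Pool.Agent.LZ.GG 10) +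
      2 * (10 * Psi 4 - 2 * Psi 2) := by
    have hen : ∑ a ∈ Finset.range 2, ∑ b ∈ Finset.range 2, en a b =
        2 * Pool.Agent.LZ.GG 2 + Pool.Agent.LZ.GG 12 - 2 * Pool.Agent.LZ.GG 10 + Pool.Agent.LZ.GG 8 := by
      rw [Finset.sum_range_succ, Finset.sum_range_one, Finset.sum_range_succ,
        Finset.sum_range_one, Finset.sum_range_succ, Finset.sum_range_one]
      unfold en GG
      simp only [bb, cc]
      norm_num
      rw [gneg 20, gneg 40, i40, i160, i200, i240, g0]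
      ring
    unfold eS iphi GG
    rw [hen, i40, i80, i120, i160, i200]
    unfold Psi
    rw [h4, h20]
    ring
  rw [heS]
  set P4 := Psi 4
  set P2 := Psi 2
  set L := Real.log n with hL
  have hL1 := one_bd hn2
  have hL0 : 0 ≤ L := by
    have := one_bd hn2
    linarith
  -- the logarithms
  have hlog : ∑ i ∈ Finset.range (2 * n - 1), (Real.log (2 * ((4 * n + 1 + i : ℕ) : ℝ)) +
        40 * Real.log ((4 * n + 1 + i : ℕ) : ℝ)) ≤ 574 * (n * L) := by
    have h1 : ∀ i ∈ Finset.range (2 * n - 1), (Real.log (2 * ((4 * n + 1 + i : ℕ) : ℝ)) +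
        40 * Real.log ((4 * n + 1 + i : ℕ) : ℝ)) ≤ 287 * L := by
      intro i hi
      have hi' := Finset.mem_range.1 hi
      have b1 := log_bd hn2 (a := 6) (by norm_num)
      have hle : ((4 * n + 1 + i : ℕ) : ℝ) ≤ ((6 * n : ℕ) : ℝ) := by
        exact_mod_cast (by omega : 4 * n + 1 + i ≤ 6 * n)
      have hpos : (0 : ℝ) < ((4 * n + 1 + i : ℕ) : ℝ) := by positivity
      have c1 : Real.log (2 * ((4 * n + 1 + i : ℕ) : ℝ)) ≤ 7 * L :=
        (Real.log_le_log (by positivity) (by linarith)).trans b1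
      have c2 : Real.log ((4 * n + 1 + i : ℕ) : ℝ) ≤ 7 * L :=
        (Real.log_le_log (by positivity) (by linarith)).trans b1
      linarith
    refine (Finset.sum_le_sum h1).trans ?_
    rw [Finset.sum_const, Finset.card_range, nsmul_eq_mul]
    have h2 : ((2 * n - 1 : ℕ) : ℝ) ≤ 2 * n := by
      exact_mod_cast (by omega : 2 * n - 1 ≤ 2 * n)
    nlinarith [mul_le_mul_of_nonneg_right h2 (show 0 ≤ 287 * L by linarith)]
  have hcast : ((2 * n - 1 : ℕ) : ℝ) = 2 * n - 1 := by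
    rw [Nat.cast_sub (by omega)]
    push_cast
    ring
  rw [hcast]
  have hlin : 10 * lf (4 * n) - 2 * lf (2 * n) ≤
      n * (10 * P4 - 2 * P2) + 36 * n * L + 408 * L := by
    linarith [l4.2, l2.1]
  have hlin2 := mul_le_mul_of_nonneg_left hlin (show (0 : ℝ) ≤ 2 * n by positivity)
  have hl2 : lf (2 * n) ≤ n * P2 + 2 * n * L + 34 * L := by linarith [l2.2]
  have hl6 : lf (6 * n) ≤ n * Psi 6 + 6 * n * L + 34 * L := by linarith [l6.2]
  have hP2 : P2 ≤ 1 := by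
    show Psi 2 ≤ 1
    unfold Psi
    have := Real.log_two_lt_d9
    linarith
  have hP6 : Psi 6 ≤ 12 := by
    unfold Psi
    have h6 : Real.log 6 ≤ 3 := by
      have := Real.log_le_sub_one_of_pos (show (0 : ℝ) < 6 / 2.7182818283 by norm_num)
      have h7 : Real.log (6 / 2.7182818283) = Real.log 6 - Real.log 2.7182818283 :=
        Real.log_div (by norm_num) (by norm_num)
      have h8 : Real.log 2.7182818283 ≤ 1 := by
        have h9 : (2.7182818283 : ℝ) ≤ Real.exp 1 := Real.exp_one_gt_d9.le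
        calc Real.log 2.7182818283 ≤ Real.log (Real.exp 1) := Real.log_le_log (by norm_num) h9
          _ = 1 := Real.log_exp 1
      norm_num at this h7 h8 ⊢
      linarith
    linarith
  have h4n := lf_nonneg (4 * n)
  have hnL : 0 ≤ (n : ℝ) * L := by positivity
  have hL_nL : L ≤ n * L := by nlinarith
  have hn_nL : (n : ℝ) ≤ 2 * (n * L) := by nlinarith
  have hb2 : lf (2 * n) ≤ 38 * (n * L) := by nlinarith
  have hb6 : lf (6 * n) ≤ 64 * (n * L) := by nlinarith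
  have hfin : (2 * (n : ℝ) - 1) * (10 * lf (4 * n) - 2 * lf (2 * n)) ≤
      2 * n * (10 * P4 - 2 * P2) * n + 72 * n ^ 2 * L + 816 * (n * L) + 76 * (n * L) := by
    have e : (2 * (n : ℝ) - 1) * (10 * lf (4 * n) - 2 * lf (2 * n)) =
      2 * n * (10 * lf (4 * n) - 2 * lf (2 * n)) - 10 * lf (4 * n) + 2 * lf (2 * n) := by ring
    have e' : 2 * (n : ℝ) * (n * (10 * P4 - 2 * P2) + 36 * n * L + 408 * L) =
      2 * n * (10 * P4 - 2 * P2) * n + 72 * n ^ 2 * L + 816 * (n * L) := by ring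
    rw [e]
    rw [e'] at hlin2
    linarith
  have t2 := s2.1
  have t2' := s2.2
  have t4 := s4.2
  have t6 := s6.2
  have t8 := s8.1
  have t10 := s10.1
  have t12 := s12.2
  have eC : (11 * (Pool.Agent.LZ.GG 4 - Pool.Agent.LZ.GG 2) - 11 * (Pool.Agent.LZ.GG 8 - Pool.Agent.LZ.GG 6) +
      Pool.Agent.LZ.GG 2 + (Pool.Agent.LZ.GG 12 - Pool.Agent.LZ.GG 10) + 2 * (10 * P4 - 2 * P2)) * (n : ℝ) ^ 2 =
      11 * (n ^ 2 * Pool.Agent.LZ.GG 4) - 11 * (n ^ 2 * Pool.Agent.LZ.GG 2) - 11 * (n ^ 2 * Pool.Agent.LZ.GG 8) +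
      11 * (n ^ 2 * Pool.Agent.LZ.GG 6) + n ^ 2 * Pool.Agent.LZ.GG 2 + n ^ 2 * Pool.Agent.LZ.GG 12 -
      n ^ 2 * Pool.Agent.LZ.GG 10 + 2 * n * (10 * P4 - 2 * P2) * n := by ring
  rw [eC]
  have eL : (100000 : ℝ) * n * L = 100000 * (n * L) := by ring
  rw [eL]
  rw [m6]
  norm_num at t2 t2' t4 t6 t8 t10 t12
  linarith

end

end Pool.Agent.H574R2.D9
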