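import Pool.Agent.H574R2.D9.Defs
import Pool.Agent.H102R2.Z5.Brick

/-! Task G6: mutual energy of two bricks (`G6_pair`), from the statement of `G3_Lp` (helper913, after
`Pool.Agent.H337R2.LZ.G6`). -/

open Polynomial Pool.Agent.H337R2 Filter Topology

namespace Pool.Agent.H574R2.D9

noncomputable section

/-- statement of `G3_Lp` -/
def G6_G3LpSt : Prop := ∃ C : ℝ, 0 < C ∧ ∀ n : ℕ, 3 ≤ n → ∀ a b : ℕ, a ≤ b → b ≤ 10 → ∀ u : ℤ,
    |Lp n (Finset.Ico (a * (n - 1)) (b * (n - 1))) u -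
      (n * ∑ g ∈ Finset.Ico a b, Ub g ((u : ℝ) / n) + 2 * (b - a) * n * Real.log n)| ≤ C * Real.log (n + |(u : ℝ)|)

lemma G6_bd : ∀ g < 10, 0 ≤ bb g ∧ bb g ≤ 184 ∧ 1 ≤ cc g ∧ cc g ≤ 143 := by decide

lemma G6_Psi_scale {r : ℝ} (hr : 0 < r) (x : ℝ) :
    r * Psi x = Pool.Agent.H102R2.Z5.Psi (r * x) - r * x * Real.log r := by
  unfold Psi Pool.Agent.H102R2.Z5.Psi
  rcases eq_or_ne x 0 with h | h
  · subst h; simp
  · rw [Real.log_mul hr.ne' h]; ring

lemma G6_G_scale {r : ℝ} (hr : 0 < r) (z : ℝ) :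
    Pool.Agent.H102R2.Z5.G2 (r * z) = r ^ 2 * GG z + r ^ 2 * z ^ 2 / 2 * Real.log r := by
  unfold GG Pool.Agent.LZ.GG Pool.Agent.H102R2.Z5.G2
  rcases eq_or_ne z 0 with h | h
  · subst h; simp
  · rw [Real.log_mul hr.ne' h]; ring

/-- energy of two bricks -/
theorem G6_pair_of (hG3 : G6_G3LpSt) : ∃ C : ℝ, 0 < C ∧ ∀ n : ℕ, 3 ≤ n → ∀ g < 10, ∀ h < 10,
    |∑ j ∈ Finset.range (n - 1), Lp n (Finset.Ico (h * (n - 1)) ((h + 1) * (n - 1))) (bb g * n + cc g * (j : ℤ)) -
      (en g h * (n : ℝ) ^ 2 + 2 * (n : ℝ) ^ 2 * Real.log n)| ≤ C * n * Real.log n := by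
  obtain ⟨C3, hC3, h3⟩ := hG3
  refine ⟨11 * C3 + 200000, by positivity, ?_⟩
  intro n hn g hg h hh
  have hn3 : (3 : ℝ) ≤ n := by exact_mod_cast hn
  have hn0 : (0 : ℝ) < n := by linarith
  have hl2 : (0.69 : ℝ) < Real.log 2 := by
    have := Real.log_two_gt_d9
    linarith
  have hL2 : Real.log 2 ≤ Real.log n := Real.log_le_log (by norm_num) (by linarith)
  set L := Real.log n with hL
  have hL0 : 0 < L := by linarith
  obtain ⟨g1, g2, g3, g4⟩ := G6_bd g hg
  obtain ⟨k1, k2, k3, k4⟩ := G6_bd h hh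
  have G1 : (0 : ℝ) ≤ (bb g : ℝ) := by exact_mod_cast g1
  have G2' : (bb g : ℝ) ≤ 184 := by exact_mod_cast g2
  have G3 : (1 : ℝ) ≤ (cc g : ℝ) := by exact_mod_cast g3
  have G4 : (cc g : ℝ) ≤ 143 := by exact_mod_cast g4
  have K1 : (0 : ℝ) ≤ (bb h : ℝ) := by exact_mod_cast k1
  have K2 : (bb h : ℝ) ≤ 184 := by exact_mod_cast k2
  have K3 : (1 : ℝ) ≤ (cc h : ℝ) := by exact_mod_cast k3
  have K4 : (cc h : ℝ) ≤ 143 := by exact_mod_cast k4
  set b : ℝ := (bb g : ℝ) with hb
  set c : ℝ := (cc g : ℝ) with hc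
  set b' : ℝ := (bb h : ℝ) with hb'
  set c' : ℝ := (cc h : ℝ) with hc'
  have hc0 : 0 < c := by linarith
  have hc'0 : 0 < c' := by linarith
  have hN1 : ((n - 1 : ℕ) : ℝ) = (n : ℝ) - 1 := by
    rw [Nat.cast_sub (by omega)]
    simp
  -- inner sums
  have step1 : ∀ j ∈ Finset.range (n - 1),
      |Lp n (Finset.Ico (h * (n - 1)) ((h + 1) * (n - 1))) (bb g * n + cc g * (j : ℤ)) -
        ((Pool.Agent.H102R2.Z5.Psi (n * (b - b') + c * j) -
          Pool.Agent.H102R2.Z5.Psi (n * (b - b' - c') + c * j) +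
          (Pool.Agent.H102R2.Z5.Psi (n * (b + b' + c') + c * j) -
          Pool.Agent.H102R2.Z5.Psi (n * (b + b') + c * j))) / c' - 2 * n * Real.log 20)| ≤
      C3 * (11 * L) := by
    intro j hj
    rw [Finset.mem_range] at hj
    have hjn : (j : ℝ) ≤ n := by exact_mod_cast (show j ≤ n by omega)
    have hj0 : (0 : ℝ) ≤ j := Nat.cast_nonneg j
    have h4 := h3 n hn h (h + 1) (by omega) (by omega) (bb g * n + cc g * (j : ℤ))
    have hu : ((bb g * n + cc g * (j : ℤ) : ℤ) : ℝ) = b * n + c * j := by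
      push_cast
      rw [hb, hc]
    rw [hu, Nat.Ico_succ_singleton, Finset.sum_singleton] at h4
    have e1 : (n : ℝ) * Ub h ((b * n + c * j) / n) + 2 * (((h + 1 : ℕ) : ℝ) - h) * n * L =
        (Pool.Agent.H102R2.Z5.Psi (n * (b - b') + c * j) -
          Pool.Agent.H102R2.Z5.Psi (n * (b - b' - c') + c * j) +
          (Pool.Agent.H102R2.Z5.Psi (n * (b + b' + c') + c * j) -
          Pool.Agent.H102R2.Z5.Psi (n * (b + b') + c * j))) / c' - 2 * n * Real.log 20 := by
      unfold Ub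
      rw [← hb', ← hc']
      have e2 := G6_Psi_scale hn0 ((b * n + c * j) / n - b')
      have e3 := G6_Psi_scale hn0 ((b * n + c * j) / n - b' - c')
      have e2' := G6_Psi_scale hn0 ((b * n + c * j) / n + b' + c')
      have e3' := G6_Psi_scale hn0 ((b * n + c * j) / n + b')
      have e4 : (n : ℝ) * ((b * n + c * j) / n - b') = n * (b - b') + c * j := by
        field_simp
        ring
      have e5 : (n : ℝ) * ((b * n + c * j) / n - b' - c') = n * (b - b' - c') + c * j := by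
        field_simp
        ring
      have e4' : (n : ℝ) * ((b * n + c * j) / n + b' + c') = n * (b + b' + c') + c * j := by
        field_simp
        ring
      have e5' : (n : ℝ) * ((b * n + c * j) / n + b') = n * (b + b') + c * j := by
        field_simp
        ring
      rw [e4] at e2
      rw [e5] at e3
      rw [e4'] at e2'
      rw [e5'] at e3'
      have e6 : (n : ℝ) * (((Psi ((b * n + c * j) / n - b') - Psi ((b * n + c * j) / n - b' - c')) +
          (Psi ((b * n + c * j) / n + b' + c') - Psi ((b * n + c * j) / n + b'))) / c' -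
          2 * Real.log 20) = ((n * Psi ((b * n + c * j) / n - b') - n * Psi ((b * n + c * j) / n - b' - c')) +
          (n * Psi ((b * n + c * j) / n + b' + c') - n * Psi ((b * n + c * j) / n + b'))) / c' -
          2 * n * Real.log 20 := by
        field_simp
      rw [e6, e2, e3, e2', e3', ← hL]
      push_cast
      field_simp
      ring
    rw [e1] at h4
    refine h4.trans ?_
    refine mul_le_mul_of_nonneg_left ?_ hC3.le
    have h5 : |b * n + c * j| ≤ 972 * n := by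
      rw [abs_le]
      constructor <;> nlinarith
    have h6 : Real.log (n + |b * n + c * j|) ≤ Real.log (2 ^ 10 * n) :=
      Real.log_le_log (by positivity) (by linarith)
    rw [Real.log_mul (by norm_num) hn0.ne', Real.log_pow, ← hL] at h6
    push_cast at h6
    linarith
  -- outer sums
  have hlogW : Real.log (2048 * n) ≤ 12 * L := by
    rw [show (2048 : ℝ) = 2 ^ 11 by norm_num, Real.log_mul (by norm_num) hn0.ne', Real.log_pow, ← hL]
    push_cast
    linarith
  have hnL : 2 ≤ (n : ℝ) * L := by nlinarith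
  have outer : ∀ a : ℝ, |a| ≤ 1088 →
      |∑ j ∈ Finset.range (n - 1), Pool.Agent.H102R2.Z5.Psi (n * a + c * j) -
        (n : ℝ) ^ 2 * (GG (a + c) - GG a) / c - (n : ℝ) ^ 2 * ((a + c) ^ 2 - a ^ 2) / (2 * c) * L| ≤
      30000 * (n * L) := by
    intro a ha
    have h4 := Pool.Agent.H102R2.Z5.outer (n * a) c hc0 n (2048 * n) (by
      rw [abs_mul, abs_of_pos hn0]
      nlinarith) (by linarith)
    rw [show (n : ℝ) * a + c * n = n * (a + c) by ring, G6_G_scale hn0, G6_G_scale hn0, ← hL] at h4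
    have hsplit : ∑ j ∈ Finset.range n, Pool.Agent.H102R2.Z5.Psi (n * a + c * j) =
        ∑ j ∈ Finset.range (n - 1), Pool.Agent.H102R2.Z5.Psi (n * a + c * j) +
          Pool.Agent.H102R2.Z5.Psi (n * a + c * (n - 1 : ℕ)) := by
      conv_lhs => rw [show n = (n - 1) + 1 by omega]
      rw [Finset.sum_range_succ]
      rw [show n - 1 + 1 = n by omega]
    have hlast : |Pool.Agent.H102R2.Z5.Psi (n * a + c * (n - 1 : ℕ))| ≤ 2048 * n * (12 * L) + 2 := by
      have hW : |(n : ℝ) * a + c * (n - 1 : ℕ)| ≤ 2048 * n := by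
        rw [hN1]
        refine (abs_add_le _ _).trans ?_
        rw [abs_mul, abs_of_pos hn0, abs_mul, abs_of_pos hc0, abs_of_nonneg (by linarith : (0 : ℝ) ≤ (n : ℝ) - 1)]
        nlinarith
      have h7 := Pool.Agent.H102R2.Z5.abs_Psi_sub_le (x := 0) (y := (n : ℝ) * a + c * (n - 1 : ℕ))
        (W := 2048 * n) (by linarith) (by simp) hW
      rw [Pool.Agent.H102R2.Z5.Psi_zero, sub_zero, sub_zero] at h7
      have h8 : |(n : ℝ) * a + c * (n - 1 : ℕ)| * Real.log (2048 * n) ≤ 2048 * n * (12 * L) :=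
        mul_le_mul hW hlogW (Real.log_nonneg (by linarith)) (by positivity)
      linarith
    have e1 : ∑ j ∈ Finset.range (n - 1), Pool.Agent.H102R2.Z5.Psi (n * a + c * j) -
        (n : ℝ) ^ 2 * (GG (a + c) - GG a) / c - (n : ℝ) ^ 2 * ((a + c) ^ 2 - a ^ 2) / (2 * c) * L =
        (∑ j ∈ Finset.range n, Pool.Agent.H102R2.Z5.Psi (n * a + c * j) -
        ((n : ℝ) ^ 2 * GG (a + c) + n ^ 2 * (a + c) ^ 2 / 2 * L - (n ^ 2 * GG a + n ^ 2 * a ^ 2 / 2 * L)) / c) -
        Pool.Agent.H102R2.Z5.Psi (n * a + c * (n - 1 : ℕ)) := by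
      rw [hsplit]
      field_simp
      ring
    rw [e1]
    refine (abs_sub _ _).trans ?_
    have h5 : c * Real.log (2048 * n) ≤ 143 * (12 * L) := by
      have h7 : 0 ≤ Real.log (2048 * n) := Real.log_nonneg (by linarith)
      exact mul_le_mul G4 hlogW h7 (by norm_num)
    have h9 : (n : ℝ) * (c * Real.log (2048 * n) + 2) ≤ n * (143 * (12 * L) + 3 * L) :=
      mul_le_mul_of_nonneg_left (by linarith) hn0.le
    have h10 := h4.trans h9
    have h11 : (n : ℝ) * (143 * (12 * L) + 3 * L) = 1719 * (n * L) := by ring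
    have h12 : (2048 : ℝ) * n * (12 * L) = 24576 * (n * L) := by ring
    rw [h11] at h10
    rw [h12] at hlast
    linarith
  have o1 := outer (b - b') (by rw [abs_le]; constructor <;> linarith)
  have o2 := outer (b - b' - c') (by rw [abs_le]; constructor <;> linarith)
  have o3 := outer (b + b' + c') (by rw [abs_le]; constructor <;> linarith)
  have o4 := outer (b + b') (by rw [abs_le]; constructor <;> linarith)
  -- combination
  have e7 : ∑ j ∈ Finset.range (n - 1), Lp n (Finset.Ico (h * (n - 1)) ((h + 1) * (n - 1))) (bb g * n + cc g * (j : ℤ)) -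
      (en g h * (n : ℝ) ^ 2 + 2 * (n : ℝ) ^ 2 * L) =
      ∑ j ∈ Finset.range (n - 1), (Lp n (Finset.Ico (h * (n - 1)) ((h + 1) * (n - 1))) (bb g * n + cc g * (j : ℤ)) -
        ((Pool.Agent.H102R2.Z5.Psi (n * (b - b') + c * j) -
          Pool.Agent.H102R2.Z5.Psi (n * (b - b' - c') + c * j) +
          (Pool.Agent.H102R2.Z5.Psi (n * (b + b' + c') + c * j) -
          Pool.Agent.H102R2.Z5.Psi (n * (b + b') + c * j))) / c' - 2 * n * Real.log 20)) +
      ((∑ j ∈ Finset.range (n - 1), Pool.Agent.H102R2.Z5.Psi (n * (b - b') + c * j) -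
        (n : ℝ) ^ 2 * (GG (b - b' + c) - GG (b - b')) / c -
          (n : ℝ) ^ 2 * ((b - b' + c) ^ 2 - (b - b') ^ 2) / (2 * c) * L) -
      (∑ j ∈ Finset.range (n - 1), Pool.Agent.H102R2.Z5.Psi (n * (b - b' - c') + c * j) -
        (n : ℝ) ^ 2 * (GG (b - b' - c' + c) - GG (b - b' - c')) / c -
          (n : ℝ) ^ 2 * ((b - b' - c' + c) ^ 2 - (b - b' - c') ^ 2) / (2 * c) * L) +
      ((∑ j ∈ Finset.range (n - 1), Pool.Agent.H102R2.Z5.Psi (n * (b + b' + c') + c * j) -
        (n : ℝ) ^ 2 * (GG (b + b' + c' + c) - GG (b + b' + c')) / c -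
          (n : ℝ) ^ 2 * ((b + b' + c' + c) ^ 2 - (b + b' + c') ^ 2) / (2 * c) * L) -
      (∑ j ∈ Finset.range (n - 1), Pool.Agent.H102R2.Z5.Psi (n * (b + b') + c * j) -
        (n : ℝ) ^ 2 * (GG (b + b' + c) - GG (b + b')) / c -
          (n : ℝ) ^ 2 * ((b + b' + c) ^ 2 - (b + b') ^ 2) / (2 * c) * L))) / c' +
      2 * n * Real.log 20 := by
    rw [Finset.sum_sub_distrib (f := fun j : ℕ =>
      Lp n (Finset.Ico (h * (n - 1)) ((h + 1) * (n - 1))) (bb g * n + cc g * (j : ℤ)))]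
    rw [Finset.sum_sub_distrib (f := fun j : ℕ => (Pool.Agent.H102R2.Z5.Psi (n * (b - b') + c * j) -
          Pool.Agent.H102R2.Z5.Psi (n * (b - b' - c') + c * j) +
          (Pool.Agent.H102R2.Z5.Psi (n * (b + b' + c') + c * j) -
          Pool.Agent.H102R2.Z5.Psi (n * (b + b') + c * j))) / c')]
    rw [← Finset.sum_div, Finset.sum_add_distrib, Finset.sum_sub_distrib, Finset.sum_sub_distrib,
      Finset.sum_const, Finset.card_range, nsmul_eq_mul, hN1]
    have e8 : en g h = ((GG (b - b' + c) - GG (b - b' - c' + c) - GG (b - b') + GG (b - b' - c')) +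
        (GG (b + b' + c' + c) - GG (b + b' + c) - GG (b + b' + c') + GG (b + b'))) / (c * c')
        - 2 * Real.log 20 := by
      unfold en
      rw [← hb, ← hb', ← hc, ← hc', show b + c - b' = b - b' + c by ring,
        show b - b' + c - c' = b - b' - c' + c by ring, show b + c + b' + c' = b + b' + c' + c by ring,
        show b + c + b' = b + b' + c by ring]
    rw [e8]
    field_simp
    ring
  rw [e7]
  have s1 : |∑ j ∈ Finset.range (n - 1), (Lp n (Finset.Ico (h * (n - 1)) ((h + 1) * (n - 1))) (bb g * n + cc g * (j : ℤ)) -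
        ((Pool.Agent.H102R2.Z5.Psi (n * (b - b') + c * j) -
          Pool.Agent.H102R2.Z5.Psi (n * (b - b' - c') + c * j) +
          (Pool.Agent.H102R2.Z5.Psi (n * (b + b' + c') + c * j) -
          Pool.Agent.H102R2.Z5.Psi (n * (b + b') + c * j))) / c' - 2 * n * Real.log 20))| ≤
      n * (C3 * (11 * L)) := by
    refine (Finset.abs_sum_le_sum_abs _ _).trans ?_
    refine (Finset.sum_le_card_nsmul _ _ _ step1).trans ?_
    rw [Finset.card_range, nsmul_eq_mul, hN1]
    have : 0 ≤ C3 * (11 * L) := by positivity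
    nlinarith
  have s2 : ∀ A1 A2 A3 A4 : ℝ, |A1| ≤ 30000 * (n * L) → |A2| ≤ 30000 * (n * L) → |A3| ≤ 30000 * (n * L) →
      |A4| ≤ 30000 * (n * L) → |(A1 - A2 + (A3 - A4)) / c'| ≤ 120000 * (n * L) := by
    intro A1 A2 A3 A4 a1 a2 a3 a4
    rw [abs_div, abs_of_pos hc'0]
    refine (div_le_self (abs_nonneg _) K3).trans ?_
    refine (abs_add_le _ _).trans ?_
    have b1 := abs_sub A1 A2
    have b2 := abs_sub A3 A4
    linarith
  have s3 : |2 * (n : ℝ) * Real.log 20| ≤ 10 * (n * L) := by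
    have hl20 : Real.log 20 ≤ 5 * L := by
      have h1 : Real.log 20 ≤ Real.log (2 ^ 5) := Real.log_le_log (by norm_num) (by norm_num)
      rw [Real.log_pow] at h1
      push_cast at h1
      linarith
    have hl0 : 0 ≤ Real.log 20 := Real.log_nonneg (by norm_num)
    rw [abs_of_nonneg (by positivity)]
    nlinarith
  have s4 := s2 _ _ _ _ o1 o2 o3 o4
  refine (abs_add_le _ _).trans ?_
  have s5 := abs_add_le (∑ j ∈ Finset.range (n - 1), (Lp n (Finset.Ico (h * (n - 1)) ((h + 1) * (n - 1))) (bb g * n + cc g * (j : ℤ)) -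
        ((Pool.Agent.H102R2.Z5.Psi (n * (b - b') + c * j) -
          Pool.Agent.H102R2.Z5.Psi (n * (b - b' - c') + c * j) +
          (Pool.Agent.H102R2.Z5.Psi (n * (b + b' + c') + c * j) -
          Pool.Agent.H102R2.Z5.Psi (n * (b + b') + c * j))) / c' - 2 * n * Real.log 20)))
      (((∑ j ∈ Finset.range (n - 1), Pool.Agent.H102R2.Z5.Psi (n * (b - b') + c * j) -
        (n : ℝ) ^ 2 * (GG (b - b' + c) - GG (b - b')) / c -
          (n : ℝ) ^ 2 * ((b - b' + c) ^ 2 - (b - b') ^ 2) / (2 * c) * L) -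
      (∑ j ∈ Finset.range (n - 1), Pool.Agent.H102R2.Z5.Psi (n * (b - b' - c') + c * j) -
        (n : ℝ) ^ 2 * (GG (b - b' - c' + c) - GG (b - b' - c')) / c -
          (n : ℝ) ^ 2 * ((b - b' - c' + c) ^ 2 - (b - b' - c') ^ 2) / (2 * c) * L) +
      ((∑ j ∈ Finset.range (n - 1), Pool.Agent.H102R2.Z5.Psi (n * (b + b' + c') + c * j) -
        (n : ℝ) ^ 2 * (GG (b + b' + c' + c) - GG (b + b' + c')) / c -
          (n : ℝ) ^ 2 * ((b + b' + c' + c) ^ 2 - (b + b' + c') ^ 2) / (2 * c) * L) -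
      (∑ j ∈ Finset.range (n - 1), Pool.Agent.H102R2.Z5.Psi (n * (b + b') + c * j) -
        (n : ℝ) ^ 2 * (GG (b + b' + c) - GG (b + b')) / c -
          (n : ℝ) ^ 2 * ((b + b' + c) ^ 2 - (b + b') ^ 2) / (2 * c) * L))) / c')
  have : 0 ≤ (n : ℝ) * L := by positivity
  have s6 : (11 * C3 + 200000) * (n : ℝ) * L = n * (C3 * (11 * L)) + 200000 * (n * L) := by ring
  rw [s6]
  linarith

end

end Pool.Agent.H574R2.D9
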