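import Pool.Agent.H574R2.D9.Defs

/-! Task G6c (helper85, adapted from helper652): the cross energies cancel. -/

open Polynomial Pool.Agent.H337R2 Filter Topology

namespace Pool.Agent.H574R2.D9

noncomputable section

namespace G6c

theorem sep : ∀ g < 10, ∀ h < 10, g ≠ h → bb g + cc g ≤ bb h ∨ bb h + cc h ≤ bb g := by
  decide

theorem sep2 : ∀ g < 10, 2 ≤ g → bb g + cc g ≤ 80 ∨ 120 ≤ bb g := by
  decide

theorem bd : ∀ g < 10, 0 ≤ bb g ∧ bb g + cc g ≤ 327 := by
  decide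

theorem cc_pos (g : ℕ) : 0 < cc g := by
  unfold cc
  split <;> norm_num

theorem div_lt {n i : ℕ} (hn : 3 ≤ n) (hi : i < 10 * n - 10) : i / (n - 1) < 10 :=
  (Nat.div_lt_iff_lt_mul (by omega)).2 (by omega)

theorem le_div {n i : ℕ} (hn : 3 ≤ n) (hi : ¬ i < 2 * n - 1) : 2 ≤ i / (n - 1) :=
  (Nat.le_div_iff_mul_le (by omega)).2 (by omega)

theorem nd_lt {n i : ℕ} (hn : 3 ≤ n) (hi : ¬ i < 2 * n - 1) :
    nd n i < (bb (i / (n - 1)) + cc (i / (n - 1))) * n := by
  unfold nd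
  rw [if_neg hi]
  have h0 : i % (n - 1) < n - 1 := Nat.mod_lt _ (by omega)
  have h1 : ((i % (n - 1) : ℕ) : ℤ) < n := by exact_mod_cast (by omega : i % (n - 1) < n)
  have h2 : (0 : ℤ) < cc (i / (n - 1)) := by exact_mod_cast cc_pos _
  nlinarith

theorem le_nd {n i : ℕ} (hi : ¬ i < 2 * n - 1) : bb (i / (n - 1)) * n ≤ nd n i := by
  unfold nd
  rw [if_neg hi]
  have h1 : (0 : ℤ) ≤ ((i % (n - 1) : ℕ) : ℤ) := Nat.cast_nonneg _
  have h2 : (0 : ℤ) ≤ cc (i / (n - 1)) := Nat.cast_nonneg _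
  nlinarith

theorem nd_sat {n i : ℕ} (hn : 3 ≤ n) (hi : i < 2 * n - 1) :
    nd n i = 20 * (4 * n + 1 + i) ∧ 80 * (n : ℤ) < nd n i ∧ nd n i < 120 * n := by
  have h1 : nd n i = 20 * (4 * n + 1 + i) := by
    unfold nd
    rw [if_pos hi]
  refine ⟨h1, ?_, ?_⟩
  · rw [h1]
    have : (0 : ℤ) ≤ i := Nat.cast_nonneg _
    linarith
  · rw [h1]
    have h2 : (i : ℤ) + 1 < 2 * n := by exact_mod_cast (by omega : i + 1 < 2 * n)
    linarith

theorem nd_nonneg {n i : ℕ} (hn : 3 ≤ n) (hi : i < 10 * n - 10) : 0 ≤ nd n i := by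
  by_cases h : i < 2 * n - 1
  · have h1 := (nd_sat hn h).2.1
    have : (0 : ℤ) ≤ n := Nat.cast_nonneg _
    linarith
  · have h1 := le_nd h
    have h2 := (bd _ (div_lt hn hi)).1
    have h3 : (0 : ℤ) ≤ n := Nat.cast_nonneg _
    have h4 := mul_nonneg h2 h3
    linarith

theorem nd_le {n i : ℕ} (hn : 3 ≤ n) (hi : i < 10 * n - 10) : nd n i ≤ 327 * n := by
  have h3 : (0 : ℤ) ≤ n := Nat.cast_nonneg _
  by_cases h : i < 2 * n - 1
  · have h1 := (nd_sat hn h).2.2
    linarith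
  · have h1 := nd_lt hn h
    have h2 := (bd _ (div_lt hn hi)).2
    have h4 := mul_le_mul_of_nonneg_right h2 h3
    linarith

theorem nd_inj1 {n i j : ℕ} (hn : 3 ≤ n) (hi : i < 2 * n - 1) (hj : j < 10 * n - 10)
    (hj' : ¬ j < 2 * n - 1) : nd n i ≠ nd n j := by
  intro hij
  have h1 := nd_sat hn hi
  have h2 := nd_lt hn hj'
  have h3 := le_nd hj'
  have h5 : (0 : ℤ) ≤ n := Nat.cast_nonneg _
  rcases sep2 _ (div_lt hn hj) (le_div hn hj') with h | h
  · have := mul_le_mul_of_nonneg_right h h5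
    linarith [h1.2.1]
  · have := mul_le_mul_of_nonneg_right h h5
    linarith [h1.2.2]

theorem nd_inj {n : ℕ} (hn : 3 ≤ n) {i j : ℕ} (hi : i < 10 * n - 10) (hj : j < 10 * n - 10)
    (hij : nd n i = nd n j) : i = j := by
  have hnZ : (0 : ℤ) < n := by exact_mod_cast (by omega : 0 < n)
  by_cases h1 : i < 2 * n - 1
  · by_cases h2 : j < 2 * n - 1
    · have e1 := (nd_sat hn h1).1
      have e2 := (nd_sat hn h2).1
      omega
    · exact absurd hij (nd_inj1 hn h1 hj h2)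
  · by_cases h2 : j < 2 * n - 1
    · exact absurd hij.symm (nd_inj1 hn h2 hi h1)
    · by_cases hg : i / (n - 1) = j / (n - 1)
      · have h0 := hij
        unfold nd at h0
        rw [if_neg h1, if_neg h2, hg] at h0
        have h3 : (cc (j / (n - 1)) : ℤ) * ((i % (n - 1) : ℕ) : ℤ) =
            cc (j / (n - 1)) * ((j % (n - 1) : ℕ) : ℤ) := by
          linarith
        have hc : (cc (j / (n - 1)) : ℤ) ≠ 0 := by exact_mod_cast (cc_pos _).ne'
        have h4 : ((i % (n - 1) : ℕ) : ℤ) = ((j % (n - 1) : ℕ) : ℤ) := mul_left_cancel₀ hc h3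
        have h5 : i % (n - 1) = j % (n - 1) := by exact_mod_cast h4
        rw [← Nat.div_add_mod i (n - 1), ← Nat.div_add_mod j (n - 1), hg, h5]
      · exfalso
        have e1 := nd_lt hn h1
        have e2 := nd_lt hn h2
        have e3 := le_nd h1
        have e4 := le_nd h2
        rcases sep _ (div_lt hn hi) _ (div_lt hn hj) hg with h | h
        · have := mul_le_mul_of_nonneg_right h hnZ.le
          linarith
        · have := mul_le_mul_of_nonneg_right h hnZ.le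
          linarith

/-- the pair energy -/
def a (n i j : ℕ) : ℝ := Real.log (((nd n i - nd n j : ℤ) : ℝ) / 20) +
  Real.log (((nd n i + nd n j : ℤ) : ℝ) / 20)

theorem a_symm (n i j : ℕ) : a n i j = a n j i := by
  unfold a
  rw [add_comm (nd n i) (nd n j)]
  congr 1
  rw [← Real.log_abs, ← Real.log_abs (((nd n j - nd n i : ℤ) : ℝ) / 20)]
  congr 1
  push_cast
  rw [← abs_neg]
  congr 1
  ring

theorem Lp_eq (n : ℕ) (s : Finset ℕ) (i : ℕ) : Lp n s (nd n i) = ∑ j ∈ s, a n i j := rfl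

theorem zq_sub (n i j : ℕ) : |((zq n i - zq n j : ℚ) : ℝ)| =
    |(((nd n i - nd n j : ℤ) : ℝ) / 20) * (((nd n i + nd n j : ℤ) : ℝ) / 20)| := by
  unfold zq
  push_cast
  congr 1
  ring

theorem a_self_le {n : ℕ} (hn : 3 ≤ n) {i : ℕ} (hi : i < 10 * n - 10) :
    a n i i ≤ Real.log (40 * n) := by
  unfold a
  rw [sub_self, Int.cast_zero, zero_div, Real.log_zero, zero_add]
  have h1 := nd_nonneg hn hi
  have h2 := nd_le hn hi
  have hnR : (3 : ℝ) ≤ n := by exact_mod_cast hn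
  rcases h1.eq_or_lt with h | h
  · rw [← h]
    simp only [add_zero, Int.cast_zero, zero_div, Real.log_zero]
    exact Real.log_nonneg (by linarith)
  · have h3 : (0 : ℝ) < nd n i := by exact_mod_cast h
    have h4 : (nd n i : ℝ) ≤ 327 * n := by exact_mod_cast h2
    refine Real.log_le_log ?_ ?_
    · push_cast
      linarith
    · push_cast
      linarith

theorem log_VD {n : ℕ} (hn : 3 ≤ n) {s : Finset ℕ} (hs : ∀ i ∈ s, i < 10 * n - 10) :
    Real.log (VD s (zq n)) = ∑ i ∈ s, ∑ j ∈ s, a n i j - ∑ i ∈ s, a n i i := by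
  have hne0 : ∀ i ∈ s, ∀ j ∈ s.erase i, ((nd n i - nd n j : ℤ) : ℝ) / 20 ≠ 0 ∧
      ((nd n i + nd n j : ℤ) : ℝ) / 20 ≠ 0 := by
    intro i hi j hj
    have hj' := Finset.mem_of_mem_erase hj
    have h0 : nd n i ≠ nd n j := fun h =>
      (Finset.mem_erase.1 hj).1 (nd_inj hn (hs i hi) (hs j hj') h).symm
    have h1 := nd_nonneg hn (hs i hi)
    have h2 := nd_nonneg hn (hs j hj')
    constructor
    · refine div_ne_zero ?_ (by norm_num)
      intro h
      have h3 : nd n i - nd n j = 0 := by exact_mod_cast h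
      omega
    · refine div_ne_zero ?_ (by norm_num)
      intro h
      have h3 : nd n i + nd n j = 0 := by exact_mod_cast h
      omega
  have hne : ∀ i ∈ s, ∀ j ∈ s.erase i, |((zq n i - zq n j : ℚ) : ℝ)| ≠ 0 := by
    intro i hi j hj
    rw [zq_sub]
    exact abs_ne_zero.2 (mul_ne_zero (hne0 i hi j hj).1 (hne0 i hi j hj).2)
  have hVD : VD s (zq n) = ∏ i ∈ s, ∏ j ∈ s.erase i, |((zq n i - zq n j : ℚ) : ℝ)| := rfl
  rw [hVD, Real.log_prod fun i hi => Finset.prod_ne_zero_iff.2 (hne i hi),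
    ← Finset.sum_sub_distrib]
  refine Finset.sum_congr rfl fun i hi => ?_
  rw [Real.log_prod (hne i hi)]
  have h1 : ∑ j ∈ s, a n i j = ∑ j ∈ s.erase i, a n i j + a n i i :=
    (Finset.sum_erase_add s (fun j => a n i j) hi).symm
  rw [h1, add_sub_cancel_right]
  refine Finset.sum_congr rfl fun j hj => ?_
  rw [zq_sub, Real.log_abs, Real.log_mul (hne0 i hi j hj).1 (hne0 i hi j hj).2]
  rfl

end G6c

open G6c in
/-- cross energies cancel: `½ log` of the three products -/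
theorem G6_cross {n : ℕ} (hn : 3 ≤ n) :
    (Real.log (VD (Finset.range (10 * n - 10)) (zq n)) + Real.log (VD (Finset.range (5 * n - 5)) (zq n)) +
      Real.log (VD (Finset.Ico (5 * n - 5) (10 * n - 10)) (zq n))) / 2 ≥
    ∑ i ∈ Finset.range (2 * n - 1), (Lp n (Finset.range (10 * n - 10)) (nd n i) + Lp n (Finset.range (5 * n - 5)) (nd n i)
      - Lp n (Finset.range (2 * n - 1)) (nd n i)) +
    ∑ i ∈ Finset.Ico (2 * n - 1) (5 * n - 5), Lp n (Finset.Ico (2 * n - 1) (10 * n - 10)) (nd n i) +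
    ∑ i ∈ Finset.Ico (5 * n - 5) (10 * n - 10), Lp n (Finset.Ico (5 * n - 5) (10 * n - 10)) (nd n i)
      - 40 * n * Real.log (40 * n) := by
  rw [log_VD hn (fun i hi => Finset.mem_range.1 hi),
    log_VD hn (fun i hi => by have := Finset.mem_range.1 hi; omega),
    log_VD hn (fun i hi => (Finset.mem_Ico.1 hi).2)]
  simp only [Lp_eq]
  have hd : ∑ i ∈ Finset.range (10 * n - 10), a n i i ≤ 40 * n * Real.log (40 * n) := by
    have hnR : (3 : ℝ) ≤ n := by exact_mod_cast hn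
    have hL : 0 ≤ Real.log (40 * (n : ℝ)) := Real.log_nonneg (by linarith)
    calc ∑ i ∈ Finset.range (10 * n - 10), a n i i
        ≤ ∑ _i ∈ Finset.range (10 * n - 10), Real.log (40 * n) :=
          Finset.sum_le_sum fun i hi => a_self_le hn (Finset.mem_range.1 hi)
      _ = ((10 * n - 10 : ℕ) : ℝ) * Real.log (40 * n) := by
          rw [Finset.sum_const, Finset.card_range, nsmul_eq_mul]
      _ ≤ 40 * n * Real.log (40 * n) := by
          refine mul_le_mul_of_nonneg_right ?_ hL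
          have : ((10 * n - 10 : ℕ) : ℝ) ≤ ((40 * n : ℕ) : ℝ) := by
            exact_mod_cast (by omega : 10 * n - 10 ≤ 40 * n)
          push_cast at this
          exact this
  have hU14 : ∀ f : ℕ → ℝ, ∑ i ∈ Finset.range (10 * n - 10), f i =
      ∑ i ∈ Finset.range (2 * n - 1), f i +
      ∑ i ∈ Finset.Ico (2 * n - 1) (5 * n - 5), f i +
      ∑ i ∈ Finset.Ico (5 * n - 5) (10 * n - 10), f i := by
    intro f
    rw [Finset.sum_range_add_sum_Ico f (by omega : 2 * n - 1 ≤ 5 * n - 5),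
      Finset.sum_range_add_sum_Ico f (by omega : 5 * n - 5 ≤ 10 * n - 10)]
  have hU7 : ∀ f : ℕ → ℝ, ∑ i ∈ Finset.range (5 * n - 5), f i =
      ∑ i ∈ Finset.range (2 * n - 1), f i +
      ∑ i ∈ Finset.Ico (2 * n - 1) (5 * n - 5), f i := by
    intro f
    rw [Finset.sum_range_add_sum_Ico f (by omega : 2 * n - 1 ≤ 5 * n - 5)]
  have hUI : ∀ f : ℕ → ℝ, ∑ i ∈ Finset.Ico (2 * n - 1) (10 * n - 10), f i =
      ∑ i ∈ Finset.Ico (2 * n - 1) (5 * n - 5), f i +
        ∑ i ∈ Finset.Ico (5 * n - 5) (10 * n - 10), f i := by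
    intro f
    rw [Finset.sum_Ico_consecutive f (by omega) (by omega)]
  have hsw : ∀ s t : Finset ℕ, ∑ i ∈ s, ∑ j ∈ t, a n i j = ∑ i ∈ t, ∑ j ∈ s, a n i j := by
    intro s t
    rw [Finset.sum_comm]
    exact Finset.sum_congr rfl fun i _ => Finset.sum_congr rfl fun j _ => a_symm n _ _
  have hd2 := hd
  rw [hU14] at hd2
  simp only [hU14, hU7, hUI, Finset.sum_add_distrib, Finset.sum_sub_distrib]
  rw [hsw (Finset.Ico (2 * n - 1) (5 * n - 5)) (Finset.range (2 * n - 1)),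
    hsw (Finset.Ico (5 * n - 5) (10 * n - 10)) (Finset.range (2 * n - 1)),
    hsw (Finset.Ico (5 * n - 5) (10 * n - 10)) (Finset.Ico (2 * n - 1) (5 * n - 5))]
  linarith

end

end Pool.Agent.H574R2.D9
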