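import Pool.Agent.H574R2.D9.Defs

/-! Certificates for the potential `FN`, `w ≥ 120`. -/

open Polynomial Pool.Agent.H337R2

namespace Pool.Agent.H574R2.D9

namespace V1

/-- the list of the potential, step `1/4`, denominator `300300` -/
def lF : List (ℤ × ℤ) :=
  [(4200, -1308), (7812, -736), (30888, -536), (-12870, -480), (-15015, -320), (-165165, -160), (30030, -140), (12870, -100), (7150, -72), (-7150, 72), (-12870, 100), (-30030, 140), (165165, 160), (15015, 320), (12870, 480), (-30888, 536), (-7812, 736), (-4200, 1308)]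

lemma FN_eq (w : ℝ) : FN w = (88 * Real.log 2 + 6 * Real.log 5 - 36) +
    EF 300300 4 lF w := by
  have h20 : Real.log 20 = 2 * Real.log 2 + Real.log 5 := by
    rw [show (20 : ℝ) = 2 ^ 2 * 5 by norm_num, Real.log_mul (by norm_num) (by norm_num), Real.log_pow]
    norm_num
  unfold FN phi
  rw [Finset.sum_Ico_eq_sum_range]
  simp only [Finset.sum_range_succ, Finset.sum_range_zero, Ub, bb, cc, h20, EF, lF, List.map_cons, List.map_nil, List.sum_cons, List.sum_nil]
  norm_num
  ring_nf

lemma const_bounds : 34653 / 1000 ≤ 88 * Real.log 2 + 6 * Real.log 5 - 36 ∧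
    88 * Real.log 2 + 6 * Real.log 5 - 36 ≤ 34654 / 1000 := by
  have h2 := abs_le.mp (lnA_spec 2 (by norm_num) (by norm_num))
  have h5 := abs_le.mp (lnA_spec 5 (by norm_num) (by norm_num))
  have e2 : lnA 2 = 693147180560 := by decide +kernel
  have e5 : lnA 5 = 1609437912428 := by decide +kernel
  rw [e2] at h2
  rw [e5] at h5
  push_cast at h2 h5
  constructor <;> linarith [h2.1, h2.2, h5.1, h5.2]

lemma E_up (v : ℝ) (h1 : 120 ≤ v) (h2 : v ≤ 10000) : EF 300300 4 lF v ≤ ((-37804 : ℝ) / 1000) := by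
  have s0 : v ≤ (496 : ℝ) / 4 → (480 : ℝ) / 4 ≤ v → EF 300300 4 lF v ≤ ((-37804 : ℝ) / 1000) := fun ha hb =>
    EF_le (Dc := 300300) (M := 4) (l := lF) (A := -45410164800000000000) (by norm_num) (by norm_num) (by norm_num) _ (by norm_num) (st := 16) (c := 1)
      (by norm_num) (x0 := 480) (by decide +kernel) v (by norm_num; linarith) (by norm_num; linarith)
  have s1 : v ≤ (528 : ℝ) / 4 → (496 : ℝ) / 4 ≤ v → EF 300300 4 lF v ≤ ((-37804 : ℝ) / 1000) := fun ha hb =>
    EF_le (Dc := 300300) (M := 4) (l := lF) (A := -45410164800000000000) (by norm_num) (by norm_num) (by norm_num) _ (by norm_num) (st := 32) (c := 1)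
      (by norm_num) (x0 := 496) (by decide +kernel) v (by norm_num; linarith) (by norm_num; linarith)
  have s2 : v ≤ (536 : ℝ) / 4 → (528 : ℝ) / 4 ≤ v → EF 300300 4 lF v ≤ ((-37804 : ℝ) / 1000) := fun ha hb =>
    EF_le (Dc := 300300) (M := 4) (l := lF) (A := -45410164800000000000) (by norm_num) (by norm_num) (by norm_num) _ (by norm_num) (st := 8) (c := 1)
      (by norm_num) (x0 := 528) (by decide +kernel) v (by norm_num; linarith) (by norm_num; linarith)
  have s3 : v ≤ (552 : ℝ) / 4 → (536 : ℝ) / 4 ≤ v → EF 300300 4 lF v ≤ ((-37804 : ℝ) / 1000) := fun ha hb =>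
    EF_le (Dc := 300300) (M := 4) (l := lF) (A := -45410164800000000000) (by norm_num) (by norm_num) (by norm_num) _ (by norm_num) (st := 16) (c := 1)
      (by norm_num) (x0 := 536) (by decide +kernel) v (by norm_num; linarith) (by norm_num; linarith)
  have s4 : v ≤ (560 : ℝ) / 4 → (552 : ℝ) / 4 ≤ v → EF 300300 4 lF v ≤ ((-37804 : ℝ) / 1000) := fun ha hb =>
    EF_le (Dc := 300300) (M := 4) (l := lF) (A := -45410164800000000000) (by norm_num) (by norm_num) (by norm_num) _ (by norm_num) (st := 8) (c := 1)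
      (by norm_num) (x0 := 552) (by decide +kernel) v (by norm_num; linarith) (by norm_num; linarith)
  have s5 : v ≤ (608 : ℝ) / 4 → (560 : ℝ) / 4 ≤ v → EF 300300 4 lF v ≤ ((-37804 : ℝ) / 1000) := fun ha hb =>
    EF_le (Dc := 300300) (M := 4) (l := lF) (A := -45410164800000000000) (by norm_num) (by norm_num) (by norm_num) _ (by norm_num) (st := 16) (c := 3)
      (by norm_num) (x0 := 560) (by decide +kernel) v (by norm_num; linarith) (by norm_num; linarith)
  have s6 : v ≤ (736 : ℝ) / 4 → (608 : ℝ) / 4 ≤ v → EF 300300 4 lF v ≤ ((-37804 : ℝ) / 1000) := fun ha hb =>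
    EF_le (Dc := 300300) (M := 4) (l := lF) (A := -45410164800000000000) (by norm_num) (by norm_num) (by norm_num) _ (by norm_num) (st := 32) (c := 4)
      (by norm_num) (x0 := 608) (by decide +kernel) v (by norm_num; linarith) (by norm_num; linarith)
  have s7 : v ≤ (832 : ℝ) / 4 → (736 : ℝ) / 4 ≤ v → EF 300300 4 lF v ≤ ((-37804 : ℝ) / 1000) := fun ha hb =>
    EF_le (Dc := 300300) (M := 4) (l := lF) (A := -45410164800000000000) (by norm_num) (by norm_num) (by norm_num) _ (by norm_num) (st := 16) (c := 6)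
      (by norm_num) (x0 := 736) (by decide +kernel) v (by norm_num; linarith) (by norm_num; linarith)
  have s8 : v ≤ (896 : ℝ) / 4 → (832 : ℝ) / 4 ≤ v → EF 300300 4 lF v ≤ ((-37804 : ℝ) / 1000) := fun ha hb =>
    EF_le (Dc := 300300) (M := 4) (l := lF) (A := -45410164800000000000) (by norm_num) (by norm_num) (by norm_num) _ (by norm_num) (st := 32) (c := 2)
      (by norm_num) (x0 := 832) (by decide +kernel) v (by norm_num; linarith) (by norm_num; linarith)
  have s9 : v ≤ (1088 : ℝ) / 4 → (896 : ℝ) / 4 ≤ v → EF 300300 4 lF v ≤ ((-37804 : ℝ) / 1000) := fun ha hb =>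
    EF_le (Dc := 300300) (M := 4) (l := lF) (A := -45410164800000000000) (by norm_num) (by norm_num) (by norm_num) _ (by norm_num) (st := 64) (c := 3)
      (by norm_num) (x0 := 896) (by decide +kernel) v (by norm_num; linarith) (by norm_num; linarith)
  have s10 : v ≤ (1216 : ℝ) / 4 → (1088 : ℝ) / 4 ≤ v → EF 300300 4 lF v ≤ ((-37804 : ℝ) / 1000) := fun ha hb =>
    EF_le (Dc := 300300) (M := 4) (l := lF) (A := -45410164800000000000) (by norm_num) (by norm_num) (by norm_num) _ (by norm_num) (st := 128) (c := 1)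
      (by norm_num) (x0 := 1088) (by decide +kernel) v (by norm_num; linarith) (by norm_num; linarith)
  have s11 : v ≤ (1280 : ℝ) / 4 → (1216 : ℝ) / 4 ≤ v → EF 300300 4 lF v ≤ ((-37804 : ℝ) / 1000) := fun ha hb =>
    EF_le (Dc := 300300) (M := 4) (l := lF) (A := -45410164800000000000) (by norm_num) (by norm_num) (by norm_num) _ (by norm_num) (st := 64) (c := 1)
      (by norm_num) (x0 := 1216) (by decide +kernel) v (by norm_num; linarith) (by norm_num; linarith)
  have s12 : v ≤ (1296 : ℝ) / 4 → (1280 : ℝ) / 4 ≤ v → EF 300300 4 lF v ≤ ((-37804 : ℝ) / 1000) := fun ha hb =>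
    EF_le (Dc := 300300) (M := 4) (l := lF) (A := -45410164800000000000) (by norm_num) (by norm_num) (by norm_num) _ (by norm_num) (st := 16) (c := 1)
      (by norm_num) (x0 := 1280) (by decide +kernel) v (by norm_num; linarith) (by norm_num; linarith)
  have s13 : v ≤ (1304 : ℝ) / 4 → (1296 : ℝ) / 4 ≤ v → EF 300300 4 lF v ≤ ((-37804 : ℝ) / 1000) := fun ha hb =>
    EF_le (Dc := 300300) (M := 4) (l := lF) (A := -45410164800000000000) (by norm_num) (by norm_num) (by norm_num) _ (by norm_num) (st := 8) (c := 1)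
      (by norm_num) (x0 := 1296) (by decide +kernel) v (by norm_num; linarith) (by norm_num; linarith)
  have s14 : v ≤ (1308 : ℝ) / 4 → (1304 : ℝ) / 4 ≤ v → EF 300300 4 lF v ≤ ((-37804 : ℝ) / 1000) := fun ha hb =>
    EF_le (Dc := 300300) (M := 4) (l := lF) (A := -45410164800000000000) (by norm_num) (by norm_num) (by norm_num) _ (by norm_num) (st := 4) (c := 1)
      (by norm_num) (x0 := 1304) (by decide +kernel) v (by norm_num; linarith) (by norm_num; linarith)
  have s15 : v ≤ (1692 : ℝ) / 4 → (1308 : ℝ) / 4 ≤ v → EF 300300 4 lF v ≤ ((-37804 : ℝ) / 1000) := fun ha hb =>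
    EF_le (Dc := 300300) (M := 4) (l := lF) (A := -45410164800000000000) (by norm_num) (by norm_num) (by norm_num) _ (by norm_num) (st := 32) (c := 12)
      (by norm_num) (x0 := 1308) (by decide +kernel) v (by norm_num; linarith) (by norm_num; linarith)
  have s16 : v ≤ (1948 : ℝ) / 4 → (1692 : ℝ) / 4 ≤ v → EF 300300 4 lF v ≤ ((-37804 : ℝ) / 1000) := fun ha hb =>
    EF_le (Dc := 300300) (M := 4) (l := lF) (A := -45410164800000000000) (by norm_num) (by norm_num) (by norm_num) _ (by norm_num) (st := 64) (c := 4)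
      (by norm_num) (x0 := 1692) (by decide +kernel) v (by norm_num; linarith) (by norm_num; linarith)
  have s17 : v ≤ (2588 : ℝ) / 4 → (1948 : ℝ) / 4 ≤ v → EF 300300 4 lF v ≤ ((-37804 : ℝ) / 1000) := fun ha hb =>
    EF_le (Dc := 300300) (M := 4) (l := lF) (A := -45410164800000000000) (by norm_num) (by norm_num) (by norm_num) _ (by norm_num) (st := 128) (c := 5)
      (by norm_num) (x0 := 1948) (by decide +kernel) v (by norm_num; linarith) (by norm_num; linarith)
  have s18 : v ≤ (4124 : ℝ) / 4 → (2588 : ℝ) / 4 ≤ v → EF 300300 4 lF v ≤ ((-37804 : ℝ) / 1000) := fun ha hb =>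
    EF_le (Dc := 300300) (M := 4) (l := lF) (A := -45410164800000000000) (by norm_num) (by norm_num) (by norm_num) _ (by norm_num) (st := 256) (c := 6)
      (by norm_num) (x0 := 2588) (by decide +kernel) v (by norm_num; linarith) (by norm_num; linarith)
  have s19 : v ≤ (8220 : ℝ) / 4 → (4124 : ℝ) / 4 ≤ v → EF 300300 4 lF v ≤ ((-37804 : ℝ) / 1000) := fun ha hb =>
    EF_le (Dc := 300300) (M := 4) (l := lF) (A := -45410164800000000000) (by norm_num) (by norm_num) (by norm_num) _ (by norm_num) (st := 512) (c := 8)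
      (by norm_num) (x0 := 4124) (by decide +kernel) v (by norm_num; linarith) (by norm_num; linarith)
  have s20 : v ≤ (19484 : ℝ) / 4 → (8220 : ℝ) / 4 ≤ v → EF 300300 4 lF v ≤ ((-37804 : ℝ) / 1000) := fun ha hb =>
    EF_le (Dc := 300300) (M := 4) (l := lF) (A := -45410164800000000000) (by norm_num) (by norm_num) (by norm_num) _ (by norm_num) (st := 1024) (c := 11)
      (by norm_num) (x0 := 8220) (by decide +kernel) v (by norm_num; linarith) (by norm_num; linarith)
  have s21 : v ≤ (42012 : ℝ) / 4 → (19484 : ℝ) / 4 ≤ v → EF 300300 4 lF v ≤ ((-37804 : ℝ) / 1000) := fun ha hb =>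
    EF_le (Dc := 300300) (M := 4) (l := lF) (A := -45410164800000000000) (by norm_num) (by norm_num) (by norm_num) _ (by norm_num) (st := 2048) (c := 11)
      (by norm_num) (x0 := 19484) (by decide +kernel) v (by norm_num; linarith) (by norm_num; linarith)
  rcases le_total v ((496 : ℝ) / 4) with k0 | k0
  · exact s0 k0 (by linarith)
  rcases le_total v ((528 : ℝ) / 4) with k1 | k1
  · exact s1 k1 (by linarith)
  rcases le_total v ((536 : ℝ) / 4) with k2 | k2
  · exact s2 k2 (by linarith)
  rcases le_total v ((552 : ℝ) / 4) with k3 | k3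
  · exact s3 k3 (by linarith)
  rcases le_total v ((560 : ℝ) / 4) with k4 | k4
  · exact s4 k4 (by linarith)
  rcases le_total v ((608 : ℝ) / 4) with k5 | k5
  · exact s5 k5 (by linarith)
  rcases le_total v ((736 : ℝ) / 4) with k6 | k6
  · exact s6 k6 (by linarith)
  rcases le_total v ((832 : ℝ) / 4) with k7 | k7
  · exact s7 k7 (by linarith)
  rcases le_total v ((896 : ℝ) / 4) with k8 | k8
  · exact s8 k8 (by linarith)
  rcases le_total v ((1088 : ℝ) / 4) with k9 | k9
  · exact s9 k9 (by linarith)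
  rcases le_total v ((1216 : ℝ) / 4) with k10 | k10
  · exact s10 k10 (by linarith)
  rcases le_total v ((1280 : ℝ) / 4) with k11 | k11
  · exact s11 k11 (by linarith)
  rcases le_total v ((1296 : ℝ) / 4) with k12 | k12
  · exact s12 k12 (by linarith)
  rcases le_total v ((1304 : ℝ) / 4) with k13 | k13
  · exact s13 k13 (by linarith)
  rcases le_total v ((1308 : ℝ) / 4) with k14 | k14
  · exact s14 k14 (by linarith)
  rcases le_total v ((1692 : ℝ) / 4) with k15 | k15
  · exact s15 k15 (by linarith)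
  rcases le_total v ((1948 : ℝ) / 4) with k16 | k16
  · exact s16 k16 (by linarith)
  rcases le_total v ((2588 : ℝ) / 4) with k17 | k17
  · exact s17 k17 (by linarith)
  rcases le_total v ((4124 : ℝ) / 4) with k18 | k18
  · exact s18 k18 (by linarith)
  rcases le_total v ((8220 : ℝ) / 4) with k19 | k19
  · exact s19 k19 (by linarith)
  rcases le_total v ((19484 : ℝ) / 4) with k20 | k20
  · exact s20 k20 (by linarith)
  exact s21 (by linarith) (by linarith)

lemma Psi_up (w k : ℝ) (hw : 0 < w) (hk : 0 < w - k) :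
    Psi (w - k) ≤ Psi w - k * Real.log w + k ^ 2 * (1 / w) := by
  have h1 : Real.log ((w - k) / w) ≤ (w - k) / w - 1 :=
    Real.log_le_sub_one_of_pos (div_pos hk hw)
  rw [Real.log_div hk.ne' hw.ne'] at h1
  have h2 := mul_le_mul_of_nonneg_left h1 hk.le
  have h3 : (w - k) * ((w - k) / w - 1) = -k + k ^ 2 * (1 / w) := by
    field_simp
    ring
  rw [h3] at h2
  unfold Psi
  linarith [h2, mul_sub (w - k) (Real.log (w - k)) (Real.log w)]

lemma Psi_lo (w k : ℝ) (hw : 0 < w) (hk : 0 < w - k) :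
    Psi w - k * Real.log w ≤ Psi (w - k) := by
  have h1 : Real.log (w / (w - k)) ≤ w / (w - k) - 1 :=
    Real.log_le_sub_one_of_pos (div_pos hw hk)
  rw [Real.log_div hw.ne' hk.ne'] at h1
  have h2 := mul_le_mul_of_nonneg_left h1 hk.le
  have h3 : (w - k) * (w / (w - k) - 1) = k := by
    field_simp
    ring
  rw [h3] at h2
  unfold Psi
  linarith [h2, mul_sub (w - k) (Real.log w) (Real.log (w - k))]

lemma E_tail (w : ℝ) (h1 : 10000 ≤ w) : EF 300300 4 lF w + 6 * Real.log w ≤ 3 := by
  have hw : 0 < w := by linarith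
  have hiw : 1 / w ≤ 1 / 10000 := one_div_le_one_div_of_le (by norm_num) h1
  have t0 := Psi_up w (-327) hw (by linarith)
  have t1 := Psi_up w (-184) hw (by linarith)
  have t2 := Psi_up w (-134) hw (by linarith)
  have t3 := Psi_lo w (-120) hw (by linarith)
  have t4 := Psi_lo w (-80) hw (by linarith)
  have t5 := Psi_lo w (-40) hw (by linarith)
  have t6 := Psi_up w (-35) hw (by linarith)
  have t7 := Psi_up w (-25) hw (by linarith)
  have t8 := Psi_up w (-18) hw (by linarith)
  have t9 := Psi_lo w (18) hw (by linarith)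
  have t10 := Psi_lo w (25) hw (by linarith)
  have t11 := Psi_lo w (35) hw (by linarith)
  have t12 := Psi_up w (40) hw (by linarith)
  have t13 := Psi_up w (80) hw (by linarith)
  have t14 := Psi_up w (120) hw (by linarith)
  have t15 := Psi_lo w (134) hw (by linarith)
  have t16 := Psi_lo w (184) hw (by linarith)
  have t17 := Psi_lo w (327) hw (by linarith)
  have e : EF 300300 4 lF w = ((4200 : ℝ) / 300300) * Psi (w - (-327)) +
    ((7812 : ℝ) / 300300) * Psi (w - (-184)) +
    ((30888 : ℝ) / 300300) * Psi (w - (-134)) +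
    ((-12870 : ℝ) / 300300) * Psi (w - (-120)) +
    ((-15015 : ℝ) / 300300) * Psi (w - (-80)) +
    ((-165165 : ℝ) / 300300) * Psi (w - (-40)) +
    ((30030 : ℝ) / 300300) * Psi (w - (-35)) +
    ((12870 : ℝ) / 300300) * Psi (w - (-25)) +
    ((7150 : ℝ) / 300300) * Psi (w - (-18)) +
    ((-7150 : ℝ) / 300300) * Psi (w - (18)) +
    ((-12870 : ℝ) / 300300) * Psi (w - (25)) +
    ((-30030 : ℝ) / 300300) * Psi (w - (35)) +
    ((165165 : ℝ) / 300300) * Psi (w - (40)) +
    ((15015 : ℝ) / 300300) * Psi (w - (80)) +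
    ((12870 : ℝ) / 300300) * Psi (w - (120)) +
    ((-30888 : ℝ) / 300300) * Psi (w - (134)) +
    ((-7812 : ℝ) / 300300) * Psi (w - (184)) +
    ((-4200 : ℝ) / 300300) * Psi (w - (327)) := by
    simp only [EF, lF, List.map_cons, List.map_nil, List.sum_cons, List.sum_nil]
    norm_num
    ring
  rw [e]
  have m0 := mul_le_mul_of_nonneg_left t0 (by norm_num : (0 : ℝ) ≤ 4200 / 300300)
  have m1 := mul_le_mul_of_nonneg_left t1 (by norm_num : (0 : ℝ) ≤ 7812 / 300300)
  have m2 := mul_le_mul_of_nonneg_left t2 (by norm_num : (0 : ℝ) ≤ 30888 / 300300)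
  have m3 := mul_le_mul_of_nonneg_left t3 (by norm_num : (0 : ℝ) ≤ 12870 / 300300)
  have m4 := mul_le_mul_of_nonneg_left t4 (by norm_num : (0 : ℝ) ≤ 15015 / 300300)
  have m5 := mul_le_mul_of_nonneg_left t5 (by norm_num : (0 : ℝ) ≤ 165165 / 300300)
  have m6 := mul_le_mul_of_nonneg_left t6 (by norm_num : (0 : ℝ) ≤ 30030 / 300300)
  have m7 := mul_le_mul_of_nonneg_left t7 (by norm_num : (0 : ℝ) ≤ 12870 / 300300)
  have m8 := mul_le_mul_of_nonneg_left t8 (by norm_num : (0 : ℝ) ≤ 7150 / 300300)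
  have m9 := mul_le_mul_of_nonneg_left t9 (by norm_num : (0 : ℝ) ≤ 7150 / 300300)
  have m10 := mul_le_mul_of_nonneg_left t10 (by norm_num : (0 : ℝ) ≤ 12870 / 300300)
  have m11 := mul_le_mul_of_nonneg_left t11 (by norm_num : (0 : ℝ) ≤ 30030 / 300300)
  have m12 := mul_le_mul_of_nonneg_left t12 (by norm_num : (0 : ℝ) ≤ 165165 / 300300)
  have m13 := mul_le_mul_of_nonneg_left t13 (by norm_num : (0 : ℝ) ≤ 15015 / 300300)
  have m14 := mul_le_mul_of_nonneg_left t14 (by norm_num : (0 : ℝ) ≤ 12870 / 300300)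
  have m15 := mul_le_mul_of_nonneg_left t15 (by norm_num : (0 : ℝ) ≤ 30888 / 300300)
  have m16 := mul_le_mul_of_nonneg_left t16 (by norm_num : (0 : ℝ) ≤ 7812 / 300300)
  have m17 := mul_le_mul_of_nonneg_left t17 (by norm_num : (0 : ℝ) ≤ 4200 / 300300)
  linarith [m0, m1, m2, m3, m4, m5, m6, m7, m8, m9, m10, m11, m12, m13, m14, m15, m16, m17]

end V1

open V1

/-- decay -/
theorem V1_tail (w : ℝ) (h1 : 10000 ≤ w) : FN w ≤ -(63 / 20) - 4 * (Real.log w - Real.log 10000) := by
  rw [FN_eq]
  have h := E_tail w h1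
  have hc := const_bounds
  have h2 := abs_le.mp (lnA_spec 2 (by norm_num) (by norm_num))
  have h5 := abs_le.mp (lnA_spec 5 (by norm_num) (by norm_num))
  have e2 : lnA 2 = 693147180560 := by decide +kernel
  have e5 : lnA 5 = 1609437912428 := by decide +kernel
  rw [e2] at h2
  rw [e5] at h5
  push_cast at h2 h5
  have h10 : Real.log 10000 = 4 * Real.log 2 + 4 * Real.log 5 := by
    rw [show (10000 : ℝ) = 2 ^ 4 * 5 ^ 4 by norm_num, Real.log_mul (by norm_num) (by norm_num), Real.log_pow, Real.log_pow]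
    norm_num
  have h3 : Real.log 10000 ≤ Real.log w := Real.log_le_log (by norm_num) h1
  rw [h10] at h3 ⊢
  linarith [h2.1, h2.2, h5.1, h5.2, hc.1, hc.2]

theorem V1_upper (w : ℝ) (h1 : 120 ≤ w) : FN w ≤ -(63 / 20) := by
  rcases le_total w 10000 with h | h
  · rw [FN_eq]
    linarith [E_up w h1 h, const_bounds.2]
  · have h2 := V1_tail w h
    have h3 : Real.log 10000 ≤ Real.log w := Real.log_le_log (by norm_num) h
    linarith

end Pool.Agent.H574R2.D9
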