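import Pool.Agent.H574R2.D9.Defs

/-! # The lower bound for `FN` on `[80, 120]` (adapted from `Pool.Agent.H337R2.LZ.V2`) -/

open Polynomial Pool.Agent.H337R2

namespace Pool.Agent.H574R2.D9

namespace V2

/-- the list of `-FN` -/
def vl : List (ℤ × ℤ) := [(-4200, -32700), (-7812, -18400), (-30888, -13400), (12870, -12000), (15015, -8000), (165165, -4000), (-30030, -3500), (-12870, -2500), (-7150, -1800), (7150, 1800), (12870, 2500), (30030, 3500), (-165165, 4000), (-15015, 8000), (-12870, 12000), (30888, 13400), (7812, 18400), (4200, 32700)]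

/-- the integer bound -/
def vA : ℤ := 1136737602000000000000

theorem FN_eq (w : ℝ) : FN w = - EF 300300 100 vl w +
    (88 * Real.log 2 + 6 * Real.log 5 - 36) := by
  have l20 : Real.log 20 = 2 * Real.log 2 + Real.log 5 := by
    rw [show (20 : ℝ) = 2 ^ 2 * 5 by norm_num, Real.log_mul (by norm_num) (by norm_num),
      Real.log_pow]
    push_cast; ring
  have u0 : Ub 0 w = ((Psi (w - 80) - Psi (w - 100)) + (Psi (w + 100) - Psi (w + 80))) / 20 -
      2 * Real.log 20 := by
    unfold Ub bb cc; norm_num [sub_sub, add_assoc]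
  have u1 : Ub 1 w = ((Psi (w - 100) - Psi (w - 120)) + (Psi (w + 120) - Psi (w + 100))) / 20 -
      2 * Real.log 20 := by
    unfold Ub bb cc; norm_num [sub_sub, add_assoc]
  have u2 : Ub 2 w = ((Psi (w - 120) - Psi (w - 134)) + (Psi (w + 134) - Psi (w + 120))) / 14 -
      2 * Real.log 20 := by
    unfold Ub bb cc; norm_num [sub_sub, add_assoc]
  have u3 : Ub 3 w = ((Psi (w - 134) - Psi (w - 184)) + (Psi (w + 184) - Psi (w + 134))) / 50 -
      2 * Real.log 20 := by
    unfold Ub bb cc; norm_num [sub_sub, add_assoc]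
  have u4 : Ub 4 w = ((Psi (w - 184) - Psi (w - 327)) + (Psi (w + 327) - Psi (w + 184))) / 143 -
      2 * Real.log 20 := by
    unfold Ub bb cc; norm_num [sub_sub, add_assoc]
  have u5 : Ub 5 w = ((Psi w - Psi (w - 6)) + (Psi (w + 6) - Psi w)) / 6 -
      2 * Real.log 20 := by
    unfold Ub bb cc; norm_num [sub_sub, add_assoc]
  have u6 : Ub 6 w = ((Psi (w - 6) - Psi (w - 12)) + (Psi (w + 12) - Psi (w + 6))) / 6 -
      2 * Real.log 20 := by
    unfold Ub bb cc; norm_num [sub_sub, add_assoc]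
  have u7 : Ub 7 w = ((Psi (w - 12) - Psi (w - 18)) + (Psi (w + 18) - Psi (w + 12))) / 6 -
      2 * Real.log 20 := by
    unfold Ub bb cc; norm_num [sub_sub, add_assoc]
  have u8 : Ub 8 w = ((Psi (w - 18) - Psi (w - 25)) + (Psi (w + 25) - Psi (w + 18))) / 7 -
      2 * Real.log 20 := by
    unfold Ub bb cc; norm_num [sub_sub, add_assoc]
  have u9 : Ub 9 w = ((Psi (w - 25) - Psi (w - 35)) + (Psi (w + 35) - Psi (w + 25))) / 10 -
      2 * Real.log 20 := by
    unfold Ub bb cc; norm_num [sub_sub, add_assoc]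
  have hI : ∑ g ∈ Finset.Ico 5 10, Ub g w = Ub 5 w + Ub 6 w + Ub 7 w + Ub 8 w + Ub 9 w := by
    simp [Finset.sum_Ico_succ_top]
  have hR : ∑ g ∈ Finset.range 5, Ub g w = Ub 0 w + Ub 1 w + Ub 2 w + Ub 3 w + Ub 4 w := by
    simp [Finset.sum_range_succ]
  have hE : EF 300300 100 vl w = ((-4200) * Psi (w + 327) + (-7812) * Psi (w + 184) + (-30888) * Psi (w + 134) + (12870) * Psi (w + 120) + (15015) * Psi (w + 80) + (165165) * Psi (w + 40) + (-30030) * Psi (w + 35) + (-12870) * Psi (w + 25) + (-7150) * Psi (w + 18) + (7150) * Psi (w - 18) + (12870) * Psi (w - 25) + (30030) * Psi (w - 35) + (-165165) * Psi (w - 40) + (-15015) * Psi (w - 80) + (-12870) * Psi (w - 120) + (30888) * Psi (w - 134) + (7812) * Psi (w - 184) + (4200) * Psi (w - 327)) / 300300 := by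
    unfold EF vl
    simp only [List.map_cons, List.map_nil, List.sum_cons, List.sum_nil]
    push_cast
    norm_num
    ring
  unfold FN phi
  rw [hI, hR, hE, u0, u1, u2, u3, u4, u5, u6, u7, u8, u9, l20]
  ring

theorem c1 : cellOK 100 vl vA 8000 10580 = true := by decide +kernel
theorem c2 : cellOK 100 vl vA 10580 11769 = true := by decide +kernel
theorem c3 : cellOK 100 vl vA 11769 11998 = true := by decide +kernel
theorem c4 : cellOK 100 vl vA 11998 12000 = true := by decide +kernel

theorem cell {x0 x1 : ℤ} (h : cellOK 100 vl vA x0 x1 = true) (w : ℝ) (h0 : (x0 : ℝ) ≤ 100 * w)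
    (h1 : 100 * w ≤ x1) : EF 300300 100 vl w ≤ 189267 / 5000 := by
  have := cellOK_spec (Dc := 300300) (by norm_num) (by norm_num) (by norm_num) h
    (189267 / 5000) (by unfold vA; norm_num) (100 * w) h0 h1
  have e : 100 * w / ((100 : ℕ) : ℝ) = w := by push_cast; ring
  rwa [e] at this

theorem EF_bound (w : ℝ) (h0 : 80 ≤ w) (h1 : w ≤ 120) :
    EF 300300 100 vl w ≤ 189267 / 5000 := by
  rcases le_or_gt (100 * w) 10580 with k1 | k1
  · exact cell c1 w (by push_cast; linarith) (by push_cast; linarith)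
  rcases le_or_gt (100 * w) 11769 with k2 | k2
  · exact cell c2 w (by push_cast; linarith) (by push_cast; linarith)
  rcases le_or_gt (100 * w) 11998 with k3 | k3
  · exact cell c3 w (by push_cast; linarith) (by push_cast; linarith)
  · exact cell c4 w (by push_cast; linarith) (by push_cast; linarith)

theorem log_low (j : ℕ) (hj : 1 ≤ j) (hj2 : j < 2 ^ 20) (v : ℤ) (h : lnA j = v) :
    (v : ℝ) - 20000 ≤ 10 ^ 12 * Real.log j := by
  have := lnA_spec j hj hj2
  rw [abs_le, h] at this
  simp only [lnE] at this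
  push_cast at this
  linarith [this.1]

end V2

theorem V2_lower (w : ℝ) (h0 : 80 ≤ w) (h1 : w ≤ 120) : -(16 / 5) ≤ FN w := by
  have hE := V2.EF_bound w h0 h1
  have l2 := V2.log_low 2 (by norm_num) (by norm_num) 693147180560 (by decide +kernel)
  have l5 := V2.log_low 5 (by norm_num) (by norm_num) 1609437912428 (by decide +kernel)
  push_cast at l2 l5
  rw [V2.FN_eq]
  linarith

end Pool.Agent.H574R2.D9
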