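import Pool.Agent.H574R2.D9.Defs

/-! Task V3: certificate for the potential `FY` on `[-40, 40]`. -/

open Polynomial Pool.Agent.H337R2

namespace Pool.Agent.H574R2.D9

namespace TV3

/-- the list of the potential, step `1/2`, denominator `300300` -/
def lY : List (ℤ × ℤ) :=
  [(2100, -654), (3906, -368), (15444, -268), (-6435, -240), (-165165, -80), (60060, -70), (25740, -50), (14300, -36), (-14300, 36), (-25740, 50), (-60060, 70), (165165, 80), (6435, 240), (-15444, 268), (-3906, 368), (-2100, 654)]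

lemma FY_eq (w : ℝ) : FY w = (148 * Real.log 2 + 36 * Real.log 5 - 36 - 30 * Real.log 20) +
    EF 300300 2 lY w := by
  unfold FY phi Ub
  simp only [EF, lY, List.map_cons, List.map_nil, List.sum_cons, List.sum_nil,
    Finset.sum_range_succ, Finset.sum_range_zero, Finset.sum_Ico_eq_sum_range, bb, cc]
  norm_num
  ring_nf

lemma const_bound : 148 * Real.log 2 + 36 * Real.log 5 - 36 - 30 * Real.log 20 ≤ 346536 / 10000 := by
  have h2 := abs_le.mp (lnA_spec 2 (by norm_num) (by norm_num))
  have h5 := abs_le.mp (lnA_spec 5 (by norm_num) (by norm_num))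
  have h20 := abs_le.mp (lnA_spec 20 (by norm_num) (by norm_num))
  have e2 : lnA 2 = 693147180560 := by decide +kernel
  have e5 : lnA 5 = 1609437912428 := by decide +kernel
  have e20 : lnA 20 = 2995732273548 := by decide +kernel
  rw [e2] at h2
  rw [e5] at h5
  rw [e20] at h20
  push_cast at h2 h5 h20
  linarith [h2.1, h2.2, h5.1, h5.2, h20.1, h20.2]

lemma E_up (v : ℝ) (h1 : -40 ≤ v) (h2 : v ≤ 40) : EF 300300 2 lY v ≤ ((6596 : ℝ) / 1000) := by
  have s0 : v ≤ (-72 : ℝ) / 2 → (-80 : ℝ) / 2 ≤ v → EF 300300 2 lY v ≤ ((6596 : ℝ) / 1000) := fun ha hb =>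
    EF_le (Dc := 300300) (M := 2) (l := lY) (A := 3961557600000000000) (by norm_num) (by norm_num) (by norm_num) _ (by norm_num) (st := 8) (c := 1)
      (by norm_num) (x0 := -80) (by decide +kernel) v (by norm_num; linarith) (by norm_num; linarith)
  have s1 : v ≤ (-70 : ℝ) / 2 → (-72 : ℝ) / 2 ≤ v → EF 300300 2 lY v ≤ ((6596 : ℝ) / 1000) := fun ha hb =>
    EF_le (Dc := 300300) (M := 2) (l := lY) (A := 3961557600000000000) (by norm_num) (by norm_num) (by norm_num) _ (by norm_num) (st := 2) (c := 1)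
      (by norm_num) (x0 := -72) (by decide +kernel) v (by norm_num; linarith) (by norm_num; linarith)
  have s2 : v ≤ (-62 : ℝ) / 2 → (-70 : ℝ) / 2 ≤ v → EF 300300 2 lY v ≤ ((6596 : ℝ) / 1000) := fun ha hb =>
    EF_le (Dc := 300300) (M := 2) (l := lY) (A := 3961557600000000000) (by norm_num) (by norm_num) (by norm_num) _ (by norm_num) (st := 8) (c := 1)
      (by norm_num) (x0 := -70) (by decide +kernel) v (by norm_num; linarith) (by norm_num; linarith)
  have s3 : v ≤ (-54 : ℝ) / 2 → (-62 : ℝ) / 2 ≤ v → EF 300300 2 lY v ≤ ((6596 : ℝ) / 1000) := fun ha hb =>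
    EF_le (Dc := 300300) (M := 2) (l := lY) (A := 3961557600000000000) (by norm_num) (by norm_num) (by norm_num) _ (by norm_num) (st := 4) (c := 2)
      (by norm_num) (x0 := -62) (by decide +kernel) v (by norm_num; linarith) (by norm_num; linarith)
  have s4 : v ≤ (-52 : ℝ) / 2 → (-54 : ℝ) / 2 ≤ v → EF 300300 2 lY v ≤ ((6596 : ℝ) / 1000) := fun ha hb =>
    EF_le (Dc := 300300) (M := 2) (l := lY) (A := 3961557600000000000) (by norm_num) (by norm_num) (by norm_num) _ (by norm_num) (st := 2) (c := 1)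
      (by norm_num) (x0 := -54) (by decide +kernel) v (by norm_num; linarith) (by norm_num; linarith)
  have s5 : v ≤ (-50 : ℝ) / 2 → (-52 : ℝ) / 2 ≤ v → EF 300300 2 lY v ≤ ((6596 : ℝ) / 1000) := fun ha hb =>
    EF_le (Dc := 300300) (M := 2) (l := lY) (A := 3961557600000000000) (by norm_num) (by norm_num) (by norm_num) _ (by norm_num) (st := 1) (c := 2)
      (by norm_num) (x0 := -52) (by decide +kernel) v (by norm_num; linarith) (by norm_num; linarith)
  have s6 : v ≤ (-38 : ℝ) / 2 → (-50 : ℝ) / 2 ≤ v → EF 300300 2 lY v ≤ ((6596 : ℝ) / 1000) := fun ha hb =>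
    EF_le (Dc := 300300) (M := 2) (l := lY) (A := 3961557600000000000) (by norm_num) (by norm_num) (by norm_num) _ (by norm_num) (st := 4) (c := 3)
      (by norm_num) (x0 := -50) (by decide +kernel) v (by norm_num; linarith) (by norm_num; linarith)
  have s7 : v ≤ (-36 : ℝ) / 2 → (-38 : ℝ) / 2 ≤ v → EF 300300 2 lY v ≤ ((6596 : ℝ) / 1000) := fun ha hb =>
    EF_le (Dc := 300300) (M := 2) (l := lY) (A := 3961557600000000000) (by norm_num) (by norm_num) (by norm_num) _ (by norm_num) (st := 2) (c := 1)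
      (by norm_num) (x0 := -38) (by decide +kernel) v (by norm_num; linarith) (by norm_num; linarith)
  have s8 : v ≤ (-20 : ℝ) / 2 → (-36 : ℝ) / 2 ≤ v → EF 300300 2 lY v ≤ ((6596 : ℝ) / 1000) := fun ha hb =>
    EF_le (Dc := 300300) (M := 2) (l := lY) (A := 3961557600000000000) (by norm_num) (by norm_num) (by norm_num) _ (by norm_num) (st := 8) (c := 2)
      (by norm_num) (x0 := -36) (by decide +kernel) v (by norm_num; linarith) (by norm_num; linarith)
  have s9 : v ≤ (16 : ℝ) / 2 → (-20 : ℝ) / 2 ≤ v → EF 300300 2 lY v ≤ ((6596 : ℝ) / 1000) := fun ha hb =>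
    EF_le (Dc := 300300) (M := 2) (l := lY) (A := 3961557600000000000) (by norm_num) (by norm_num) (by norm_num) _ (by norm_num) (st := 4) (c := 9)
      (by norm_num) (x0 := -20) (by decide +kernel) v (by norm_num; linarith) (by norm_num; linarith)
  have s10 : v ≤ (32 : ℝ) / 2 → (16 : ℝ) / 2 ≤ v → EF 300300 2 lY v ≤ ((6596 : ℝ) / 1000) := fun ha hb =>
    EF_le (Dc := 300300) (M := 2) (l := lY) (A := 3961557600000000000) (by norm_num) (by norm_num) (by norm_num) _ (by norm_num) (st := 8) (c := 2)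
      (by norm_num) (x0 := 16) (by decide +kernel) v (by norm_num; linarith) (by norm_num; linarith)
  have s11 : v ≤ (48 : ℝ) / 2 → (32 : ℝ) / 2 ≤ v → EF 300300 2 lY v ≤ ((6596 : ℝ) / 1000) := fun ha hb =>
    EF_le (Dc := 300300) (M := 2) (l := lY) (A := 3961557600000000000) (by norm_num) (by norm_num) (by norm_num) _ (by norm_num) (st := 4) (c := 4)
      (by norm_num) (x0 := 32) (by decide +kernel) v (by norm_num; linarith) (by norm_num; linarith)
  have s12 : v ≤ (50 : ℝ) / 2 → (48 : ℝ) / 2 ≤ v → EF 300300 2 lY v ≤ ((6596 : ℝ) / 1000) := fun ha hb =>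
    EF_le (Dc := 300300) (M := 2) (l := lY) (A := 3961557600000000000) (by norm_num) (by norm_num) (by norm_num) _ (by norm_num) (st := 2) (c := 1)
      (by norm_num) (x0 := 48) (by decide +kernel) v (by norm_num; linarith) (by norm_num; linarith)
  have s13 : v ≤ (52 : ℝ) / 2 → (50 : ℝ) / 2 ≤ v → EF 300300 2 lY v ≤ ((6596 : ℝ) / 1000) := fun ha hb =>
    EF_le (Dc := 300300) (M := 2) (l := lY) (A := 3961557600000000000) (by norm_num) (by norm_num) (by norm_num) _ (by norm_num) (st := 1) (c := 2)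
      (by norm_num) (x0 := 50) (by decide +kernel) v (by norm_num; linarith) (by norm_num; linarith)
  have s14 : v ≤ (54 : ℝ) / 2 → (52 : ℝ) / 2 ≤ v → EF 300300 2 lY v ≤ ((6596 : ℝ) / 1000) := fun ha hb =>
    EF_le (Dc := 300300) (M := 2) (l := lY) (A := 3961557600000000000) (by norm_num) (by norm_num) (by norm_num) _ (by norm_num) (st := 2) (c := 1)
      (by norm_num) (x0 := 52) (by decide +kernel) v (by norm_num; linarith) (by norm_num; linarith)
  have s15 : v ≤ (58 : ℝ) / 2 → (54 : ℝ) / 2 ≤ v → EF 300300 2 lY v ≤ ((6596 : ℝ) / 1000) := fun ha hb =>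
    EF_le (Dc := 300300) (M := 2) (l := lY) (A := 3961557600000000000) (by norm_num) (by norm_num) (by norm_num) _ (by norm_num) (st := 4) (c := 1)
      (by norm_num) (x0 := 54) (by decide +kernel) v (by norm_num; linarith) (by norm_num; linarith)
  have s16 : v ≤ (66 : ℝ) / 2 → (58 : ℝ) / 2 ≤ v → EF 300300 2 lY v ≤ ((6596 : ℝ) / 1000) := fun ha hb =>
    EF_le (Dc := 300300) (M := 2) (l := lY) (A := 3961557600000000000) (by norm_num) (by norm_num) (by norm_num) _ (by norm_num) (st := 8) (c := 1)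
      (by norm_num) (x0 := 58) (by decide +kernel) v (by norm_num; linarith) (by norm_num; linarith)
  have s17 : v ≤ (78 : ℝ) / 2 → (66 : ℝ) / 2 ≤ v → EF 300300 2 lY v ≤ ((6596 : ℝ) / 1000) := fun ha hb =>
    EF_le (Dc := 300300) (M := 2) (l := lY) (A := 3961557600000000000) (by norm_num) (by norm_num) (by norm_num) _ (by norm_num) (st := 4) (c := 3)
      (by norm_num) (x0 := 66) (by decide +kernel) v (by norm_num; linarith) (by norm_num; linarith)
  have s18 : v ≤ (80 : ℝ) / 2 → (78 : ℝ) / 2 ≤ v → EF 300300 2 lY v ≤ ((6596 : ℝ) / 1000) := fun ha hb =>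
    EF_le (Dc := 300300) (M := 2) (l := lY) (A := 3961557600000000000) (by norm_num) (by norm_num) (by norm_num) _ (by norm_num) (st := 2) (c := 1)
      (by norm_num) (x0 := 78) (by decide +kernel) v (by norm_num; linarith) (by norm_num; linarith)
  rcases le_total v ((-72 : ℝ) / 2) with k0 | k0
  · exact s0 k0 (by norm_num; linarith)
  rcases le_total v ((-70 : ℝ) / 2) with k1 | k1
  · exact s1 k1 (by linarith)
  rcases le_total v ((-62 : ℝ) / 2) with k2 | k2
  · exact s2 k2 (by linarith)
  rcases le_total v ((-54 : ℝ) / 2) with k3 | k3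
  · exact s3 k3 (by linarith)
  rcases le_total v ((-52 : ℝ) / 2) with k4 | k4
  · exact s4 k4 (by linarith)
  rcases le_total v ((-50 : ℝ) / 2) with k5 | k5
  · exact s5 k5 (by linarith)
  rcases le_total v ((-38 : ℝ) / 2) with k6 | k6
  · exact s6 k6 (by linarith)
  rcases le_total v ((-36 : ℝ) / 2) with k7 | k7
  · exact s7 k7 (by linarith)
  rcases le_total v ((-20 : ℝ) / 2) with k8 | k8
  · exact s8 k8 (by linarith)
  rcases le_total v ((16 : ℝ) / 2) with k9 | k9
  · exact s9 k9 (by linarith)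
  rcases le_total v ((32 : ℝ) / 2) with k10 | k10
  · exact s10 k10 (by linarith)
  rcases le_total v ((48 : ℝ) / 2) with k11 | k11
  · exact s11 k11 (by linarith)
  rcases le_total v ((50 : ℝ) / 2) with k12 | k12
  · exact s12 k12 (by linarith)
  rcases le_total v ((52 : ℝ) / 2) with k13 | k13
  · exact s13 k13 (by linarith)
  rcases le_total v ((54 : ℝ) / 2) with k14 | k14
  · exact s14 k14 (by linarith)
  rcases le_total v ((58 : ℝ) / 2) with k15 | k15
  · exact s15 k15 (by linarith)
  rcases le_total v ((66 : ℝ) / 2) with k16 | k16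
  · exact s16 k16 (by linarith)
  rcases le_total v ((78 : ℝ) / 2) with k17 | k17
  · exact s17 k17 (by linarith)
  exact s18 (by norm_num; linarith) (by linarith)

end TV3

theorem V3_upperY (w : ℝ) (h0 : -40 ≤ w) (h1 : w ≤ 40) : FY w ≤ 165 / 4 := by
  rw [TV3.FY_eq]
  linarith [TV3.E_up w h0 h1, TV3.const_bound]

end Pool.Agent.H574R2.D9
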