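import Pool.Agent.H574R2.D9.AM
import Pool.Agent.H574R2.D9.B1
import Pool.Agent.H574R2.D9.G0
import Pool.Agent.H574R2.D9.G1
import Pool.Agent.H574R2.D9.G2
import Pool.Agent.H574R2.D9.G3
import Pool.Agent.H574R2.D9.G4
import Pool.Agent.H574R2.D9.G5
import Pool.Agent.H574R2.D9.G6
import Pool.Agent.H574R2.D9.G6c
import Pool.Agent.H574R2.D9.V1
import Pool.Agent.H574R2.D9.V2
import Pool.Agent.H574R2.D9.V3
import Pool.Agent.H574R2.D9.V4

/-! The archimedean part, all tasks glued. -/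

open Polynomial Pool.Agent.H337R2 Filter Topology

namespace Pool.Agent.H574R2.D9

noncomputable section

/-- **the archimedean part** -/
theorem A_main (α β : ℕ → ℚ) (θ : ℝ) (h : ∀ i, Odd i → 3 ≤ i → i ≤ 9 → zr i = (α i : ℝ) + θ * (β i : ℝ)) :
    ∀ᶠ n : ℕ in atTop, DD n α β ≠ 0 →
    Real.log |((DD n α β : ℚ) : ℝ)| ≤ 150 * (n : ℝ) ^ 2 * Real.log n + 85 / 2 * (n : ℝ) ^ 2 :=
  A_main_of (fun hn => G0_zq_inj hn) (fun hn h1 h2 => G0_nd_X hn h1 h2) (fun hn h1 h2 => G0_nd_Y hn h1 h2)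
    (fun hn α β θ h MM hM hsup i j hi hj =>
      G1_entryN_of (fun hn α β θ h Q hQ => B1_hasSum hn α β θ h Q hQ) hn α β θ h MM hM hsup i j hi hj)
    G2_entryY G3_Lp G4_weight G5_sat (G6_pair_of G3_Lp) (fun hn => G6_cross hn) V1_upper V1_tail V2_lower V3_upperY
    V4_eS V5_eN α β θ h

end

end Pool.Agent.H574R2.D9
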