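import Pool.Agent.H574R2.D9.C1

/-!
Task C2: p-adic size of the linear forms for medium and large primes.
-/

open Polynomial Pool.Agent.H337R2

namespace Pool.Agent.H574R2.D9

noncomputable section

section C2

variable {p : ℕ} [hp : Fact p.Prime]

/-- integrality of `q u i` -/
lemma C2_int {q : ℕ} {u : ℕ → ℚ} (hu : UInt q u) (i : ℕ) : padicNorm p ((q : ℚ) * u i) ≤ 1 := by
  obtain ⟨z, hz⟩ := hu.2 i
  rw [hz]
  exact padicNorm.of_int z

/-- estimate of `q * xa` from the estimates of its terms -/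
lemma C2_aux (n : ℕ) (q : ℕ) (u : ℕ → ℚ) (hu : UInt q u) (P : ℚ[X]) (W : ℚ) (hW : 0 ≤ W)
    (h1 : ∀ i, 1 ≤ i → ∀ k ∈ sM n, padicNorm p (pa (sM n) mM P k i) ≤ W)
    (h2 : ∀ i, 1 ≤ i → ∀ k ∈ sM n, padicNorm p (pa (sM n) mM P k i) *
      padicNorm p (hs i (k - 2 * n)) ≤ W) :
    padicNorm p ((q : ℚ) * xa n u P) ≤ W := by
  have hq1 : padicNorm p (q : ℚ) ≤ 1 := padicNorm.of_nat q
  unfold xa
  rw [Finset.mul_sum]
  apply padicNorm.sum_le' _ hW
  intro i hi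
  rw [Finset.mem_Icc] at hi
  have e : (q : ℚ) * (rho n P i * u i - ∑ k ∈ sM n, pa (sM n) mM P k i * hs i (k - 2 * n)) =
      (∑ k ∈ sM n, pa (sM n) mM P k i * ((q : ℚ) * u i)) -
        ∑ k ∈ sM n, (q : ℚ) * (pa (sM n) mM P k i * hs i (k - 2 * n)) := by
    unfold rho
    rw [← Finset.sum_mul, ← Finset.mul_sum]
    ring
  rw [e]
  refine padicNorm.sub.trans (max_le ?_ ?_)
  · apply padicNorm.sum_le' _ hW
    intro k hk
    rw [padicNorm.mul]
    calc _ ≤ W * 1 := mul_le_mul (h1 i hi.1 k hk) (C2_int hu i) (padicNorm.nonneg _) hW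
      _ = W := mul_one W
  · apply padicNorm.sum_le' _ hW
    intro k hk
    rw [padicNorm.mul, padicNorm.mul]
    calc _ ≤ 1 * W := mul_le_mul hq1 (h2 i hi.1 k hk)
          (mul_nonneg (padicNorm.nonneg _) (padicNorm.nonneg _)) zero_le_one
      _ = W := one_mul W

end C2

theorem C2_xa {n p : ℕ} [Fact p.Prime] (hn : 1 ≤ n) (hp2 : 8 * n < p ^ 2) (q : ℕ) (α : ℕ → ℚ) (hα : UInt q α)
    (E : ℚ[X]) (W : ℚ) (hW : 0 ≤ W) (A : ℕ → ℚ) (hA : ∀ k, 0 ≤ A k)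
    (hE : ∀ k ∈ sM n, PB p (p : ℚ) (A k) (TS (-(k : ℚ)) E))
    (hE1 : ∀ k ∈ sM n, PB p 1 1 (TS (-(k : ℚ)) E))
    (h : ∀ k ∈ sM n, (p : ℚ) ^ (eM n p k) * A k ≤ W ∨
      (padicNorm p (cM n) ≤ W ∧ k < 2 * n + p ∧ ∀ k' ∈ sM n, k' ≠ k → ¬ (p : ℤ) ∣ (k' : ℤ) - k)) :
    padicNorm p ((q : ℚ) * xa n α (PM n * E)) ≤ W := by
  have hp0 : (p : ℚ) ≠ 0 := p_pos'.ne'
  have hp1 : (1 : ℚ) ≤ p := p_one'
  have key : ∀ i, 1 ≤ i → ∀ k ∈ sM n,
      padicNorm p (pa (sM n) mM (PM n * E) k i) ≤ W ∧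
      padicNorm p (pa (sM n) mM (PM n * E) k i) * padicNorm p (hs i (k - 2 * n)) ≤ W := by
    intro i hi k hk
    have hkI := Finset.mem_Icc.1 hk
    rcases h k hk with h3 | ⟨hc, h3, h4⟩
    · have hpa := C1_pa hn hp2 E hk (A k) (hA k) (hE k hk) i
      constructor
      · refine hpa.trans (le_trans ?_ h3)
        apply mul_le_mul_of_nonneg_right _ (hA k)
        apply zpow_le_zpow_right₀ hp1
        have : (0 : ℤ) ≤ i := by positivity
        linarith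
      · have h4 := hs_norm_med (p := p) i (k - 2 * n) (by omega)
        refine (mul_le_mul hpa h4 (padicNorm.nonneg _)
          (mul_nonneg (by positivity) (hA k))).trans (le_trans (le_of_eq ?_) h3)
        rw [← zpow_natCast (p : ℚ) i, mul_right_comm, ← zpow_add₀ hp0]
        congr 2
        ring
    · have hpa : padicNorm p (pa (sM n) mM (PM n * E) k i) ≤ W := by
        refine (C1_pa_int hn E hk 1 zero_le_one (hE1 k hk) i h4).trans ?_
        rw [mul_one]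
        exact hc
      refine ⟨hpa, ?_⟩
      have hp' : 0 < p := (Fact.out : p.Prime).pos
      have h5 := hs_norm_small (p := p) i (k - 2 * n) (by omega)
      calc _ ≤ W * 1 := mul_le_mul hpa h5 (padicNorm.nonneg _) hW
        _ = W := mul_one W
  exact C2_aux n q α hα _ W hW (fun i hi k hk => (key i hi k hk).1)
    (fun i hi k hk => (key i hi k hk).2)

theorem C2_xb {n p : ℕ} [Fact p.Prime] (hn : 1 ≤ n) (hp2 : 8 * n < p ^ 2) (q : ℕ) (β : ℕ → ℚ) (hβ : UInt q β)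
    (hβ3 : ∀ i < 3, β i = 0)
    (E : ℚ[X]) (W : ℚ) (hW : 0 ≤ W) (A : ℕ → ℚ) (hA : ∀ k, 0 ≤ A k)
    (hE : ∀ k ∈ sM n, PB p (p : ℚ) (A k) (TS (-(k : ℚ)) E))
    (hE1 : ∀ k ∈ sM n, PB p 1 1 (TS (-(k : ℚ)) E))
    (h : ∀ k ∈ sM n, (p : ℚ) ^ (eM n p k - 3) * A k ≤ W ∨
      (padicNorm p (cM n) ≤ W ∧ ∀ k' ∈ sM n, k' ≠ k → ¬ (p : ℤ) ∣ (k' : ℤ) - k)) :
    padicNorm p ((q : ℚ) * xb n β (PM n * E)) ≤ W := by
  have hp1 : (1 : ℚ) ≤ p := p_one'
  unfold xb
  rw [Finset.mul_sum]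
  apply padicNorm.sum_le' _ hW
  intro i hi
  by_cases hi3 : i < 3
  · rw [hβ3 i hi3]
    simpa using hW
  · have e : (q : ℚ) * (rho n (PM n * E) i * β i) =
        ∑ k ∈ sM n, pa (sM n) mM (PM n * E) k i * ((q : ℚ) * β i) := by
      unfold rho
      rw [← Finset.sum_mul]
      ring
    rw [e]
    apply padicNorm.sum_le' _ hW
    intro k hk
    rw [padicNorm.mul]
    have hpa : padicNorm p (pa (sM n) mM (PM n * E) k i) ≤ W := by
      rcases h k hk with h3 | ⟨hc, h4⟩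
      · refine (C1_pa hn hp2 E hk (A k) (hA k) (hE k hk) i).trans (le_trans ?_ h3)
        apply mul_le_mul_of_nonneg_right _ (hA k)
        apply zpow_le_zpow_right₀ hp1
        omega
      · refine (C1_pa_int hn E hk 1 zero_le_one (hE1 k hk) i h4).trans ?_
        rw [mul_one]
        exact hc
    calc _ ≤ W * 1 := mul_le_mul hpa (C2_int hβ i) (padicNorm.nonneg _) hW
      _ = W := mul_one W

end

end Pool.Agent.H574R2.D9
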