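import Mathlib

/-!
# Cauchy-Binet type p-adic bound (helper299)

If `M i j = ∑_l ∑_l' U l i * K l l' * V l' j` with `|U l i| ≤ p^(x l)`, `|V l j| ≤ p^(y l)` and `K` integral, then
`|det M| ≤ p^(∑ x + ∑ y)`.
-/

set_option autoImplicit false

namespace Pool.Agent.H574R2.D9.CB

variable {p : ℕ} [hp : Fact p.Prime]

lemma norm_prod {ι : Type*} (s : Finset ι) (f : ι → ℚ) :
    padicNorm p (∏ i ∈ s, f i) = ∏ i ∈ s, padicNorm p (f i) :=
  map_prod (⟨⟨fun x => padicNorm p x, padicNorm.one⟩, fun x y => padicNorm.mul x y⟩ : ℚ →* ℚ) f s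

lemma norm_sign {ι : Type*} [Fintype ι] [DecidableEq ι] (σ : Equiv.Perm ι) :
    padicNorm p (((Equiv.Perm.sign σ : ℤˣ) : ℤ) : ℚ) ≤ 1 := padicNorm.of_int _

/-- integral determinant -/
lemma det_le_one {ι : Type*} [Fintype ι] [DecidableEq ι] (M : Matrix ι ι ℚ)
    (h : ∀ i j, padicNorm p (M i j) ≤ 1) : padicNorm p M.det ≤ 1 := by
  rw [Matrix.det_apply']
  apply padicNorm.sum_le' _ zero_le_one
  intro σ _
  rw [padicNorm.mul, norm_prod]
  refine mul_le_one₀ (norm_sign σ) (Finset.prod_nonneg fun i _ => padicNorm.nonneg _) ?_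
  exact Finset.prod_le_one (fun i _ => padicNorm.nonneg _) fun i _ => h _ _

/-- multilinear expansion of the rows -/
lemma det_expand {ι L : Type*} [Fintype ι] [DecidableEq ι] [Fintype L] (a W : L → ι → ℚ) :
    (Matrix.of fun i j : ι => ∑ l, a l i * W l j).det =
      ∑ f : ι → L, (∏ i, a (f i) i) * (Matrix.of fun i j : ι => W (f i) j).det := by
  classical
  have h1 : (Matrix.of fun i j : ι => ∑ l, a l i * W l j).det =
      (Matrix.detRowAlternating (n := ι) (R := ℚ)).toMultilinearMap fun i => ∑ l, a l i • W l := by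
    show (Matrix.of fun i j : ι => ∑ l, a l i * W l j).det = Matrix.det fun i => ∑ l, a l i • W l
    congr 1
    ext i j
    simp [Finset.sum_apply]
  rw [h1, MultilinearMap.map_sum]
  refine Finset.sum_congr rfl fun f _ => ?_
  have h2 := (Matrix.detRowAlternating (n := ι) (R := ℚ)).toMultilinearMap.map_smul_univ
    (fun i => a (f i) i) (fun i => W (f i))
  rw [smul_eq_mul] at h2
  exact h2

/-- one side -/
theorem one_side {ι L : Type*} [Fintype ι] [DecidableEq ι] [Fintype L] (x : L → ℕ)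
    (a W : L → ι → ℚ) (c : ℚ) (hc : 0 ≤ c) (ha : ∀ l i, padicNorm p (a l i) ≤ (p : ℚ) ^ (x l))
    (hW : ∀ f : ι → L, Function.Injective f →
      padicNorm p (Matrix.of fun i j : ι => W (f i) j).det ≤ c) :
    padicNorm p (Matrix.of fun i j : ι => ∑ l, a l i * W l j).det ≤ (p : ℚ) ^ (∑ l, x l) * c := by
  classical
  have hp1 : (1 : ℚ) ≤ p := by exact_mod_cast hp.out.one_lt.le
  rw [det_expand]
  apply padicNorm.sum_le' _ (by positivity)
  intro f _
  by_cases hf : Function.Injective f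
  · rw [padicNorm.mul, norm_prod]
    refine mul_le_mul ?_ (hW f hf) (padicNorm.nonneg _) (by positivity)
    calc ∏ i, padicNorm p (a (f i) i) ≤ ∏ i, (p : ℚ) ^ (x (f i)) :=
          Finset.prod_le_prod (fun i _ => padicNorm.nonneg _) fun i _ => ha _ _
      _ = (p : ℚ) ^ (∑ i, x (f i)) := Finset.prod_pow_eq_pow_sum _ _ _
      _ ≤ (p : ℚ) ^ (∑ l, x l) := by
          apply pow_le_pow_right₀ hp1
          have h1 : ∑ i, x (f i) = ∑ l ∈ Finset.univ.image f, x l := by
            rw [Finset.sum_image fun i _ j _ h => hf h]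
          rw [h1]
          exact Finset.sum_le_sum_of_subset (Finset.subset_univ _)
  · have h0 : (Matrix.of fun i j : ι => W (f i) j).det = 0 := by
      unfold Function.Injective at hf
      push Not at hf
      obtain ⟨i, j, hij, hne⟩ := hf
      apply Matrix.det_zero_of_row_eq hne
      funext k
      simp only [Matrix.of_apply]
      rw [hij]
    rw [h0, mul_zero, padicNorm.zero]
    positivity

/-- **the Cauchy-Binet bound** -/
theorem bound {ι L L' : Type*} [Fintype ι] [DecidableEq ι] [Fintype L] [Fintype L'] (x : L → ℕ) (y : L' → ℕ)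
    (U : L → ι → ℚ) (V : L' → ι → ℚ) (K : L → L' → ℚ) (hU : ∀ l i, padicNorm p (U l i) ≤ (p : ℚ) ^ (x l))
    (hV : ∀ l i, padicNorm p (V l i) ≤ (p : ℚ) ^ (y l)) (hK : ∀ l l', padicNorm p (K l l') ≤ 1) :
    padicNorm p (Matrix.of fun i j : ι => ∑ l, ∑ l', U l i * K l l' * V l' j).det ≤
      (p : ℚ) ^ (∑ l, x l + ∑ l, y l) := by
  have h1 : (Matrix.of fun i j : ι => ∑ l, ∑ l', U l i * K l l' * V l' j) =
      Matrix.of fun i j : ι => ∑ l, U l i * (∑ l', K l l' * V l' j) := by
    ext i j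
    simp only [Matrix.of_apply]
    refine Finset.sum_congr rfl fun l _ => ?_
    rw [Finset.mul_sum]
    exact Finset.sum_congr rfl fun l' _ => by ring
  rw [h1, pow_add]
  apply one_side x U (fun l j => ∑ l', K l l' * V l' j) _ (by positivity) hU
  intro f _
  rw [← Matrix.det_transpose]
  have h2 : (Matrix.of fun i j : ι => ∑ l', K (f i) l' * V l' j).transpose =
      Matrix.of fun i j : ι => ∑ l', V l' i * K (f j) l' := by
    ext i j
    simp only [Matrix.transpose_apply, Matrix.of_apply]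
    exact Finset.sum_congr rfl fun l' _ => by ring
  rw [h2]
  have h3 := one_side (p := p) y V (fun l' j => K (f j) l') 1 zero_le_one hV fun g _ =>
    det_le_one (p := p) _ fun i j => hK _ _
  rwa [mul_one] at h3

/-- version with scaled kernel `|K l l'| ≤ p^(x l + y l')` and integral `U`, `V` -/
theorem bound' {ι L L' : Type*} [Fintype ι] [DecidableEq ι] [Fintype L] [Fintype L'] (x : L → ℕ) (y : L' → ℕ)
    (U : L → ι → ℚ) (V : L' → ι → ℚ) (K : L → L' → ℚ) (hU : ∀ l i, padicNorm p (U l i) ≤ 1)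
    (hV : ∀ l i, padicNorm p (V l i) ≤ 1) (hK : ∀ l l', padicNorm p (K l l') ≤ (p : ℚ) ^ (x l + y l')) :
    padicNorm p (Matrix.of fun i j : ι => ∑ l, ∑ l', U l i * K l l' * V l' j).det ≤
      (p : ℚ) ^ (∑ l, x l + ∑ l, y l) := by
  have hp0 : (p : ℚ) ≠ 0 := by exact_mod_cast hp.out.ne_zero
  have hpp : (0 : ℚ) < p := by exact_mod_cast hp.out.pos
  have hn : ∀ k : ℕ, padicNorm p ((p : ℚ)⁻¹ ^ k) = (p : ℚ) ^ k := by
    intro k
    have h : padicNorm p ((p : ℚ)⁻¹) = p := by
      rw [← one_div, padicNorm.div, padicNorm.one, padicNorm.padicNorm_p_of_prime, one_div, inv_inv]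
    induction k with
    | zero => simp
    | succ k ih => rw [pow_succ, padicNorm.mul, ih, h, pow_succ]
  have hn' : ∀ k : ℕ, padicNorm p ((p : ℚ) ^ k) = ((p : ℚ) ^ k)⁻¹ := by
    intro k
    induction k with
    | zero => simp
    | succ k ih => rw [pow_succ, padicNorm.mul, ih, padicNorm.padicNorm_p_of_prime, mul_inv]
  have h1 : (Matrix.of fun i j : ι => ∑ l, ∑ l', U l i * K l l' * V l' j) =
      Matrix.of fun i j : ι => ∑ l, ∑ l', ((p : ℚ)⁻¹ ^ x l * U l i) *
        ((p : ℚ) ^ (x l + y l') * K l l') * ((p : ℚ)⁻¹ ^ y l' * V l' j) := by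
    ext i j
    simp only [Matrix.of_apply]
    refine Finset.sum_congr rfl fun l _ => Finset.sum_congr rfl fun l' _ => ?_
    have e1 : (p : ℚ)⁻¹ ^ x l * (p : ℚ) ^ x l = 1 := by
      rw [← mul_pow, inv_mul_cancel₀ hp0, one_pow]
    have e2 : (p : ℚ)⁻¹ ^ y l' * (p : ℚ) ^ y l' = 1 := by
      rw [← mul_pow, inv_mul_cancel₀ hp0, one_pow]
    calc U l i * K l l' * V l' j
        = ((p : ℚ)⁻¹ ^ x l * (p : ℚ) ^ x l) * ((p : ℚ)⁻¹ ^ y l' * (p : ℚ) ^ y l') *
          (U l i * K l l' * V l' j) := by rw [e1, e2, one_mul, one_mul]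
      _ = _ := by rw [pow_add]; ring
  rw [h1]
  apply bound x y
  · intro l i
    rw [padicNorm.mul, hn]
    exact mul_le_of_le_one_right (by positivity) (hU l i)
  · intro l i
    rw [padicNorm.mul, hn]
    exact mul_le_of_le_one_right (by positivity) (hV l i)
  · intro l l'
    rw [padicNorm.mul, hn']
    have hpos : (0 : ℚ) < (p : ℚ) ^ (x l + y l') := by positivity
    rw [inv_mul_le_iff₀ hpos, mul_one]
    exact hK l l'

end Pool.Agent.H574R2.D9.CB
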