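import Pool.Agent.H574R2.D9.Defs
import Pool.Agent.H574R2.D3.D2

/-! Task D2 (helper131): class pairs and the exponent `e_p`. -/

open Polynomial Pool.Agent.H337R2

namespace Pool.Agent.H574R2.D9

noncomputable section

theorem D2_kap_mem {n p k : ℕ} (hp : 0 < p) (hk : k ≤ 8 * n) : kap n p k ∈ Kset n p := by
  unfold kap Kset
  rw [Finset.mem_filter, Finset.mem_range]
  refine ⟨(min_le_left _ _).trans_lt (Nat.mod_lt _ hp), ?_⟩
  rcases le_total (k % p) ((8 * n - k) % p) with h | h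
  · rw [min_eq_left h, Pool.Agent.H574R2.D3.D2_mod1 hk]
    exact h
  · rw [min_eq_right h, Pool.Agent.H574R2.D3.D2_mod2 hk]
    exact h

lemma D2_eM_congr {n p k k' : ℕ} (h : k % p = k' % p) : eM n p k = eM n p k' := by
  unfold eM Np Zp
  simp only [Pool.Agent.H574R2.D3.D2_cnt_congr h]

lemma D2_eM_refl {n p k : ℕ} (hn : 1 ≤ n) (hk : k ≤ 8 * n) : eM n p (8 * n - k) = eM n p k := by
  unfold eM Np Zp
  rw [Pool.Agent.H574R2.D3.D2_cnt_refl (A := 2 * n) (B := 6 * n) (by omega) (by omega) hk,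
    Pool.Agent.H574R2.D3.D2_cnt_refl (A := 0) (B := 2 * n - 1) (by omega) (by omega) hk,
    Pool.Agent.H574R2.D3.D2_cnt_refl (A := 6 * n + 1) (B := 8 * n) (by omega) (by omega) hk]
  have h1 : 8 * n - 6 * n = 2 * n := by omega
  have h2 : 8 * n - 2 * n = 6 * n := by omega
  have h3 : 8 * n - (2 * n - 1) = 6 * n + 1 := by omega
  have h4 : 8 * n - 0 = 8 * n := by omega
  have h5 : 8 * n - 8 * n = 0 := by omega
  have h6 : 8 * n - (6 * n + 1) = 2 * n - 1 := by omega
  rw [h1, h2, h3, h4, h5, h6, add_comm (cnt p (6 * n + 1) (8 * n) k)]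

theorem D2_eM_kap {n p k : ℕ} (hn : 1 ≤ n) (hp : 0 < p) (hk : k ≤ 8 * n) : eM n p (kap n p k) = eM n p k := by
  unfold kap
  rcases le_total (k % p) ((8 * n - k) % p) with h | h
  · rw [min_eq_left h]
    exact D2_eM_congr (Nat.mod_mod _ _)
  · rw [min_eq_right h, D2_eM_congr (Nat.mod_mod _ _), D2_eM_refl hn hk]

end

end Pool.Agent.H574R2.D9
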