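import Pool.Agent.H574R2.D9.D3pre
import Pool.Agent.H574R2.D3.A1
import Pool.Agent.H574R2.D3.A3
import Pool.Agent.H574R2.D3.D1
import Pool.Agent.H574R2.D9.C2
import Pool.Agent.H574R2.D9.D2

/-!
# p-adic size of the determinant
-/

open Polynomial Pool.Agent.H337R2

namespace Pool.Agent.H574R2.D9

/-- p-adic bound, version I -/
theorem D3_det_padic {n p : ℕ} [Fact p.Prime] (hn : 1 ≤ n) (hp2 : 8 * n < p ^ 2) (q : ℕ) (α β : ℕ → ℚ)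
    (hα : UInt q α) (hβ : UInt q β) (hβ3 : ∀ i < 3, β i = 0) (m : ℕ) (a : ℤ) (S : Finset ℕ) (hS : S ⊆ Kset n p)
    (h : ∀ k ∈ sM n, kap n p k ∈ S ∨
      (padicNorm p (cM n) ≤ (p : ℚ) ^ (a - 3) ∧ k < 2 * n + p ∧
        ∀ k' ∈ sM n, k' ≠ k → ¬ (p : ℤ) ∣ (k' : ℤ) - k)) :
    padicNorm p ((q : ℚ) ^ (2 * m) * MD (AL n α) (BL n β) m) ≤
      (p : ℚ) ^ ((m : ℤ) * (2 * a - 3) + ∑ κ ∈ S, T3 (eM n p κ - a)) :=
  D3_det_padic_of Pool.Agent.H574R2.D3.A1_MD_monic Pool.Agent.H574R2.D3.A3_padic_det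
    C2_xa C2_xb (fun S hS c μ m => Pool.Agent.H574R2.D3.D1_greedy S hS c μ m)
    Pool.Agent.H574R2.D3.D1_split D2_eM_kap
    hn hp2 q α β hα hβ hβ3 m a S h

/-- large primes -/
theorem D3_large {n p : ℕ} [Fact p.Prime] (hn : 1 ≤ n) (hp2 : 8 * n < p ^ 2) (hp : 4 * n < p) (q : ℕ) (α β : ℕ → ℚ)
    (hα : UInt q α) (hβ : UInt q β) (hβ3 : ∀ i < 3, β i = 0) (m : ℕ) :
    padicNorm p ((q : ℚ) ^ (2 * m) * MD (AL n α) (BL n β) m) ≤ 1 :=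
  D3_large_of Pool.Agent.H574R2.D3.A1_MD_monic Pool.Agent.H574R2.D3.A3_padic_det
    C2_xa C2_xb hn hp2 hp q α β hα hβ hβ3 m

end Pool.Agent.H574R2.D9
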