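import Pool.Agent.H574R2.D9.Defs

/-!
# p-adic size of the determinant (from the statements of tasks A1, A3, C2, D1, D2)
-/

open Polynomial Pool.Agent.H337R2

namespace Pool.Agent.H574R2.D9

noncomputable section

/-! ### the statements used -/

def D3St_A1 : Prop := ∀ (A B : ℚ[X] →ₗ[ℚ] ℚ) (m : ℕ) (Q P P' : ℕ → ℚ[X])
    (_ : ∀ i < 2 * m, (Q i).Monic ∧ (Q i).natDegree = i)
    (_ : ∀ i < m, (P i).Monic ∧ (P i).natDegree = i)
    (_ : ∀ i < m, (P' i).Monic ∧ (P' i).natDegree = i),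
    (Matrix.of fun i j : Fin (2 * m) =>
      if j.1 < m then A (Q i.1 * P j.1) else B (Q i.1 * P' (j.1 - m))).det = MD A B m

def D3St_A3 : Prop := ∀ (p : ℕ) [Fact p.Prime] (N : ℕ) (M : Matrix (Fin N) (Fin N) ℚ) (r c : ℕ → ℚ)
    (_ : ∀ i, 0 ≤ r i) (_ : ∀ i, 0 ≤ c i) (_ : ∀ i j : Fin N, padicNorm p (M i j) ≤ r i * c j),
    padicNorm p M.det ≤ (∏ i ∈ Finset.range N, r i) * ∏ j ∈ Finset.range N, c j

def D3St_C2a : Prop := ∀ {n p : ℕ} [Fact p.Prime] (_ : 1 ≤ n) (_ : 8 * n < p ^ 2) (q : ℕ)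
    (α : ℕ → ℚ) (_ : UInt q α)
    (E : ℚ[X]) (W : ℚ) (_ : 0 ≤ W) (A : ℕ → ℚ) (_ : ∀ k, 0 ≤ A k)
    (_ : ∀ k ∈ sM n, PB p (p : ℚ) (A k) (TS (-(k : ℚ)) E))
    (_ : ∀ k ∈ sM n, PB p 1 1 (TS (-(k : ℚ)) E))
    (_ : ∀ k ∈ sM n, (p : ℚ) ^ (eM n p k) * A k ≤ W ∨
      (padicNorm p (cM n) ≤ W ∧ k < 2 * n + p ∧ ∀ k' ∈ sM n, k' ≠ k → ¬ (p : ℤ) ∣ (k' : ℤ) - k)),
    padicNorm p ((q : ℚ) * xa n α (PM n * E)) ≤ W

def D3St_C2b : Prop := ∀ {n p : ℕ} [Fact p.Prime] (_ : 1 ≤ n) (_ : 8 * n < p ^ 2) (q : ℕ)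
    (β : ℕ → ℚ) (_ : UInt q β) (_ : ∀ i < 3, β i = 0)
    (E : ℚ[X]) (W : ℚ) (_ : 0 ≤ W) (A : ℕ → ℚ) (_ : ∀ k, 0 ≤ A k)
    (_ : ∀ k ∈ sM n, PB p (p : ℚ) (A k) (TS (-(k : ℚ)) E))
    (_ : ∀ k ∈ sM n, PB p 1 1 (TS (-(k : ℚ)) E))
    (_ : ∀ k ∈ sM n, (p : ℚ) ^ (eM n p k - 3) * A k ≤ W ∨
      (padicNorm p (cM n) ≤ W ∧ ∀ k' ∈ sM n, k' ≠ k → ¬ (p : ℤ) ∣ (k' : ℤ) - k)),
    padicNorm p ((q : ℚ) * xb n β (PM n * E)) ≤ W

def D3St_D1g : Prop := ∀ (S : Finset ℕ) (_ : S.Nonempty) (c : ℕ → ℤ) (μ : ℤ) (m : ℕ),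
    ∃ (κ : ℕ → ℕ) (s : ℕ → ℤ), (∀ i, κ i ∈ S) ∧ (∀ i, μ ≤ s i) ∧
      (∑ i ∈ Finset.range m, s i ≤ m * μ + ∑ k ∈ S, T1 (c k - μ)) ∧
      ∀ k ∈ S, ∀ i, c k - (((Finset.range i).filter fun l => κ l = k).card : ℤ) ≤ s i

def D3St_D1s : Prop := ∀ y : ℤ, ∃ z : ℤ, T1 z + 2 * T1 (y - z) ≤ T3 y

def D3St_D2 : Prop := ∀ {n p k : ℕ} (_ : 1 ≤ n) (_ : 0 < p) (_ : k ≤ 8 * n),
    eM n p (kap n p k) = eM n p k

/-! ### node polynomials -/

/-- node polynomials -/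
def D3_ND (n : ℕ) (κ : ℕ → ℕ) (i : ℕ) : ℚ[X] := ∏ l ∈ Finset.range i, XN n (κ l)

lemma D3_XN_eq (n r : ℕ) : XN n r = X - C ((((4 * n : ℕ) : ℚ) - r) ^ 2) := by
  unfold XN
  rw [map_pow]

lemma D3_ND_monic (n : ℕ) (κ : ℕ → ℕ) (i : ℕ) : (D3_ND n κ i).Monic ∧ (D3_ND n κ i).natDegree = i := by
  unfold D3_ND
  simp only [D3_XN_eq]
  refine ⟨Polynomial.monic_prod_of_monic _ _ fun l _ => Polynomial.monic_X_sub_C _, ?_⟩
  rw [Polynomial.natDegree_prod_of_monic _ _ fun l _ => Polynomial.monic_X_sub_C _]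
  simp only [Polynomial.natDegree_X_sub_C, Finset.sum_const, Finset.card_range, smul_eq_mul, mul_one]

lemma D3_XN_comp (n r : ℕ) :
    (XN n r).comp (xM n) = (X + C (r : ℚ)) * (X + C ((8 * n : ℕ) - r : ℚ)) := by
  unfold XN xM
  rw [Polynomial.sub_comp, Polynomial.X_comp, Polynomial.pow_comp, Polynomial.C_comp]
  simp only [Polynomial.C_mul, Polynomial.C_sub, Nat.cast_mul, Nat.cast_ofNat]
  have h6 : (C (8 : ℚ) : ℚ[X]) = 2 * C 4 := by
    rw [show (2 : ℚ[X]) = C 2 from (map_ofNat C 2).symm, ← C_mul]; norm_num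
  rw [h6]
  ring

lemma D3_norm_int (p : ℕ) [Fact p.Prime] (z : ℤ) : padicNorm p (z : ℚ) ≤ 1 := padicNorm.of_int z

lemma D3_lin (p : ℕ) [Fact p.Prime] (ρ : ℚ) (hρ : 1 ≤ ρ) (z : ℤ) (a : ℚ) (ha : a = (z : ℚ)) :
    PB p ρ 1 (PowerSeries.X + PowerSeries.C a) := by
  refine PB.linX (by linarith) zero_le_one ?_ (by linarith)
  rw [ha]
  exact D3_norm_int p z

lemma D3_lin_dvd (p : ℕ) [hp : Fact p.Prime] (z : ℤ) (hz : (p : ℤ) ∣ z) (a : ℚ) (ha : a = (z : ℚ)) :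
    PB p (p : ℚ) (p : ℚ)⁻¹ (PowerSeries.X + PowerSeries.C a) := by
  have hp0 : (0 : ℚ) < p := by exact_mod_cast hp.1.pos
  refine PB.linX hp0.le (inv_nonneg.2 hp0.le) ?_ (by rw [inv_mul_cancel₀ hp0.ne'])
  rw [ha]
  have := (padicNorm.dvd_iff_norm_le (p := p) (n := 1) (z := z)).1 (by simpa using hz)
  simpa using this

lemma D3_xp (p : ℕ) [Fact p.Prime] (ρ : ℚ) (hρ : 1 ≤ ρ) (n k : ℕ) :
    PB p ρ 1 (TS (-(k : ℚ)) (xM n)) := by
  unfold xM
  rw [map_pow, TS_lin]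
  have h2 := D3_lin p ρ hρ (-(k : ℤ) + (4 * n : ℕ)) (-(k : ℚ) + ((4 * n : ℕ) : ℚ)) (by push_cast; ring)
  have := PB.pow (by linarith : (0 : ℚ) ≤ ρ) zero_le_one h2 2
  simpa using this

lemma D3_XN (p : ℕ) [Fact p.Prime] (ρ : ℚ) (hρ : 1 ≤ ρ) (n k r : ℕ) :
    PB p ρ 1 (TS (-(k : ℚ)) ((XN n r).comp (xM n))) := by
  rw [D3_XN_comp, map_mul, TS_lin, TS_lin]
  have h1 := D3_lin p ρ hρ (-(k : ℤ) + r) (-(k : ℚ) + (r : ℚ)) (by push_cast; ring)
  have h2 := D3_lin p ρ hρ (-(k : ℤ) + ((8 * n : ℕ) - r)) (-(k : ℚ) + (((8 * n : ℕ) : ℚ) - (r : ℚ)))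
    (by push_cast; ring)
  have := PB.mul (by linarith) zero_le_one zero_le_one h1 h2
  simpa using this

lemma D3_XN_zero (p : ℕ) [hp : Fact p.Prime] (n k r : ℕ)
    (h : (p : ℤ) ∣ -(k : ℤ) + r ∨ (p : ℤ) ∣ -(k : ℤ) + ((8 * n : ℕ) - r)) :
    PB p (p : ℚ) (p : ℚ)⁻¹ (TS (-(k : ℚ)) ((XN n r).comp (xM n))) := by
  have hp0 : (0 : ℚ) < p := by exact_mod_cast hp.1.pos
  have hp1 : (1 : ℚ) ≤ p := by exact_mod_cast hp.1.one_le
  rw [D3_XN_comp, map_mul, TS_lin, TS_lin]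
  have e1 : (-(k : ℚ) + (r : ℚ)) = ((-(k : ℤ) + r : ℤ) : ℚ) := by push_cast; ring
  have e2 : (-(k : ℚ) + (((8 * n : ℕ) : ℚ) - (r : ℚ))) = ((-(k : ℤ) + ((8 * n : ℕ) - r) : ℤ) : ℚ) := by
    push_cast; ring
  rcases h with h | h
  · have h1 := D3_lin_dvd p _ h _ e1
    have h2 := D3_lin p (p : ℚ) hp1 _ _ e2
    have := PB.mul hp0.le (inv_nonneg.2 hp0.le) zero_le_one h1 h2
    simpa using this
  · have h1 := D3_lin p (p : ℚ) hp1 _ _ e1
    have h2 := D3_lin_dvd p _ h _ e2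
    have := PB.mul hp0.le zero_le_one (inv_nonneg.2 hp0.le) h1 h2
    simpa using this

/-- if `kap n p k = r` then `p` divides one of the two differences -/
lemma D3_kap_dvd {n p k r : ℕ} (hk : k ≤ 8 * n) (h : r = kap n p k) :
    (p : ℤ) ∣ -(k : ℤ) + r ∨ (p : ℤ) ∣ -(k : ℤ) + ((8 * n : ℕ) - r) := by
  have h1 : (p : ℤ) ∣ (k : ℤ) - (k % p : ℕ) := by
    rw [Int.natCast_mod]
    exact Int.dvd_self_sub_emod
  have h2 : (p : ℤ) ∣ ((8 * n - k : ℕ) : ℤ) - ((8 * n - k) % p : ℕ) := by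
    rw [Int.natCast_mod]
    exact Int.dvd_self_sub_emod
  unfold kap at h
  rcases min_choice (k % p) ((8 * n - k) % p) with h' | h'
  · left
    rw [h, h', neg_add_eq_sub, ← dvd_neg, neg_sub]
    exact h1
  · right
    rw [h, h']
    have e : -(k : ℤ) + ((8 * n : ℕ) - (((8 * n - k) % p : ℕ) : ℤ)) =
        ((8 * n - k : ℕ) : ℤ) - ((8 * n - k) % p : ℕ) := by
      rw [Nat.cast_sub hk]
      ring
    rw [e]
    exact h2

lemma D3_ND_PB1 (p : ℕ) [Fact p.Prime] (ρ : ℚ) (hρ : 1 ≤ ρ) (n k : ℕ) (κ : ℕ → ℕ) (i : ℕ) :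
    PB p ρ 1 (TS (-(k : ℚ)) ((D3_ND n κ i).comp (xM n))) := by
  unfold D3_ND
  rw [Polynomial.prod_comp, map_prod]
  have := PB.prod (p := p) (Finset.range i) (fun _ => (1 : ℚ))
    (fun l => TS (-(k : ℚ)) ((XN n (κ l)).comp (xM n))) (by linarith : (0 : ℚ) ≤ ρ)
    (fun _ _ => zero_le_one) (fun l _ => D3_XN p ρ hρ n k (κ l))
  simpa using this

lemma D3_ND_PB (p : ℕ) [hp : Fact p.Prime] (n k : ℕ) (hk : k ≤ 8 * n) (κ : ℕ → ℕ) (i : ℕ) :
    PB p (p : ℚ) ((p : ℚ)⁻¹ ^ ((Finset.range i).filter fun l => κ l = kap n p k).card)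
      (TS (-(k : ℚ)) ((D3_ND n κ i).comp (xM n))) := by
  have hp0 : (0 : ℚ) < p := by exact_mod_cast hp.1.pos
  have hp1 : (1 : ℚ) ≤ p := by exact_mod_cast hp.1.one_le
  unfold D3_ND
  rw [Polynomial.prod_comp, map_prod]
  have h := PB.prod (p := p) (Finset.range i) (fun l => if κ l = kap n p k then (p : ℚ)⁻¹ else 1)
    (fun l => TS (-(k : ℚ)) ((XN n (κ l)).comp (xM n))) hp0.le
    (fun l _ => by split_ifs <;> positivity) (fun l _ => by
      show PB p (p : ℚ) (if κ l = kap n p k then (p : ℚ)⁻¹ else 1) _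
      split_ifs with hl
      · exact D3_XN_zero p n k (κ l) (D3_kap_dvd hk hl)
      · exact D3_XN p (p : ℚ) hp1 n k (κ l))
  rw [Finset.prod_ite, Finset.prod_const, Finset.prod_const_one, mul_one] at h
  exact h

lemma D3_EM (n : ℕ) (Q Q' : ℚ[X]) : EM n (Q * Q') = xM n ^ 20 * (Q.comp (xM n) * Q'.comp (xM n)) := by
  unfold EM
  rw [Polynomial.mul_comp, Polynomial.mul_comp, Polynomial.X_pow_comp]

/-- bounds for the power series of the product of two node polynomials -/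
lemma D3_EM_PB (p : ℕ) [hp : Fact p.Prime] (n k : ℕ) (hk : k ≤ 8 * n) (κ κ' : ℕ → ℕ) (i j : ℕ) :
    PB p (p : ℚ) ((p : ℚ)⁻¹ ^ ((Finset.range i).filter fun l => κ l = kap n p k).card *
          (p : ℚ)⁻¹ ^ ((Finset.range j).filter fun l => κ' l = kap n p k).card)
      (TS (-(k : ℚ)) (EM n (D3_ND n κ i * D3_ND n κ' j))) := by
  have hp0 : (0 : ℚ) < p := by exact_mod_cast hp.1.pos
  have hp1 : (1 : ℚ) ≤ p := by exact_mod_cast hp.1.one_le
  rw [D3_EM, map_mul, map_pow, map_mul]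
  have h1 := PB.pow hp0.le zero_le_one (D3_xp p (p : ℚ) hp1 n k) 20
  have h2 := PB.mul hp0.le (by positivity) (by positivity) (D3_ND_PB p n k hk κ i)
    (D3_ND_PB p n k hk κ' j)
  have h3 := PB.mul hp0.le (by positivity) (by positivity) h1 h2
  simpa using h3

lemma D3_EM_PB1 (p : ℕ) [hp : Fact p.Prime] (ρ : ℚ) (hρ : 1 ≤ ρ) (n k : ℕ) (κ κ' : ℕ → ℕ) (i j : ℕ) :
    PB p ρ 1 (TS (-(k : ℚ)) (EM n (D3_ND n κ i * D3_ND n κ' j))) := by
  have hρ0 : 0 ≤ ρ := by linarith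
  rw [D3_EM, map_mul, map_pow, map_mul]
  have h1 := PB.pow hρ0 zero_le_one (D3_xp p ρ hρ n k) 20
  have h2 := PB.mul hρ0 zero_le_one zero_le_one (D3_ND_PB1 p ρ hρ n k κ i)
    (D3_ND_PB1 p ρ hρ n k κ' j)
  have h3 := PB.mul hρ0 (by norm_num) (by norm_num) h1 h2
  simpa using h3

lemma D3_prod_zpow (p : ℚ) (hp : p ≠ 0) (s : ℕ → ℤ) (m : ℕ) :
    ∏ i ∈ Finset.range m, p ^ (s i) = p ^ (∑ i ∈ Finset.range m, s i) := by
  induction m with
  | zero => simp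
  | succ m ih => rw [Finset.prod_range_succ, Finset.sum_range_succ, zpow_add₀ hp, ih]

/-- the determinant with the common denominators -/
lemma D3_det (hA1 : D3St_A1) (A B : ℚ[X] →ₗ[ℚ] ℚ) (n m : ℕ) (q : ℚ) (κ κ' : ℕ → ℕ) :
    (Matrix.of fun i j : Fin (2 * m) => q * (if j.1 < m then A (D3_ND n κ i.1 * D3_ND n κ' j.1)
      else B (D3_ND n κ i.1 * D3_ND n κ' (j.1 - m)))).det = q ^ (2 * m) * MD A B m := by
  have h1 : (Matrix.of fun i j : Fin (2 * m) => q * (if j.1 < m then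
      A (D3_ND n κ i.1 * D3_ND n κ' j.1) else B (D3_ND n κ i.1 * D3_ND n κ' (j.1 - m)))) =
      q • (Matrix.of fun i j : Fin (2 * m) => if j.1 < m then
      A (D3_ND n κ i.1 * D3_ND n κ' j.1) else B (D3_ND n κ i.1 * D3_ND n κ' (j.1 - m))) := by
    ext i j
    simp
  rw [h1, Matrix.det_smul, Fintype.card_fin, hA1 A B m (D3_ND n κ) (D3_ND n κ') (D3_ND n κ')
    (fun i _ => D3_ND_monic n κ i) (fun i _ => D3_ND_monic n κ' i) (fun i _ => D3_ND_monic n κ' i)]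

theorem D3_det_padic_of (hA1 : D3St_A1) (hA3 : D3St_A3) (hC2a : D3St_C2a) (hC2b : D3St_C2b)
    (hD1g : D3St_D1g) (hD1s : D3St_D1s) (hD2 : D3St_D2)
    {n p : ℕ} [Fact p.Prime] (hn : 1 ≤ n) (hp2 : 8 * n < p ^ 2) (q : ℕ) (α β : ℕ → ℚ)
    (hα : UInt q α) (hβ : UInt q β) (hβ3 : ∀ i < 3, β i = 0) (m : ℕ) (a : ℤ) (S : Finset ℕ)
    (h : ∀ k ∈ sM n, kap n p k ∈ S ∨
      (padicNorm p (cM n) ≤ (p : ℚ) ^ (a - 3) ∧ k < 2 * n + p ∧
        ∀ k' ∈ sM n, k' ≠ k → ¬ (p : ℤ) ∣ (k' : ℤ) - k)) :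
    padicNorm p ((q : ℚ) ^ (2 * m) * MD (AL n α) (BL n β) m) ≤
      (p : ℚ) ^ ((m : ℤ) * (2 * a - 3) + ∑ κ ∈ S, T3 (eM n p κ - a)) := by
  have hpp : p.Prime := Fact.out
  have hp0 : (0 : ℚ) < p := by exact_mod_cast hpp.pos
  have hp1 : (1 : ℚ) ≤ p := by exact_mod_cast hpp.one_le
  choose z hz using fun k : ℕ => hD1s (eM n p k - a)
  -- rows
  have hrow : ∃ (κ : ℕ → ℕ) (s : ℕ → ℤ), (∀ i, 0 ≤ s i) ∧
      (∑ i ∈ Finset.range (2 * m), s i ≤ ∑ k ∈ S, T1 (z k)) ∧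
      ∀ k ∈ S, ∀ i, z k - (((Finset.range i).filter fun l => κ l = k).card : ℤ) ≤ s i := by
    rcases S.eq_empty_or_nonempty with hS0 | hS0
    · refine ⟨fun _ => 0, fun _ => 0, fun _ => le_rfl, ?_, ?_⟩
      · rw [hS0, Finset.sum_empty]; simp
      · intro k hk
        rw [hS0] at hk
        exact absurd hk (Finset.notMem_empty k)
    · obtain ⟨κ, s, -, h2, h3, h4⟩ := hD1g S hS0 z 0 (2 * m)
      refine ⟨κ, s, h2, ?_, h4⟩
      simpa using h3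
  -- columns
  have hcol : ∃ (κ : ℕ → ℕ) (s : ℕ → ℤ), (∀ i, a ≤ s i) ∧
      (∑ i ∈ Finset.range m, s i ≤ m * a + ∑ k ∈ S, T1 (eM n p k - z k - a)) ∧
      ∀ k ∈ S, ∀ i, eM n p k - z k - (((Finset.range i).filter fun l => κ l = k).card : ℤ) ≤ s i := by
    rcases S.eq_empty_or_nonempty with hS0 | hS0
    · refine ⟨fun _ => 0, fun _ => a, fun _ => le_rfl, ?_, ?_⟩
      · rw [hS0, Finset.sum_empty, add_zero, Finset.sum_const, Finset.card_range, nsmul_eq_mul]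
      · intro k hk
        rw [hS0] at hk
        exact absurd hk (Finset.notMem_empty k)
    · obtain ⟨κ, s, -, h2, h3, h4⟩ := hD1g S hS0 (fun k => eM n p k - z k) a m
      exact ⟨κ, s, h2, h3, h4⟩
  obtain ⟨κ, s, hs1, hs2, hs3⟩ := hrow
  obtain ⟨κ', s', hs1', hs2', hs3'⟩ := hcol
  -- the exponent of one entry
  have hexp : ∀ (i j : ℕ) (k : ℕ), k ∈ sM n → kap n p k ∈ S → ∀ b : ℤ,
      (p : ℚ) ^ (eM n p k - b) *
        ((p : ℚ)⁻¹ ^ ((Finset.range i).filter fun l => κ l = kap n p k).card *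
          (p : ℚ)⁻¹ ^ ((Finset.range j).filter fun l => κ' l = kap n p k).card) ≤
      (p : ℚ) ^ (s i + s' j - b) := by
    intro i j k hk h1 b
    have hk6 : k ≤ 8 * n := by
      have := (Finset.mem_Icc.1 hk).2
      omega
    have h2 := hs3 _ h1 i
    have h3 := hs3' _ h1 j
    rw [hD2 hn hpp.pos hk6] at h3
    set c := ((Finset.range i).filter fun l => κ l = kap n p k).card
    set d := ((Finset.range j).filter fun l => κ' l = kap n p k).card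
    have e : (p : ℚ) ^ (eM n p k - b) * ((p : ℚ)⁻¹ ^ c * (p : ℚ)⁻¹ ^ d) =
        (p : ℚ) ^ (eM n p k - b - c - d : ℤ) := by
      generalize eM n p k - b = y
      rw [zpow_sub₀ hp0.ne', zpow_sub₀ hp0.ne', zpow_natCast, zpow_natCast,
        inv_pow, inv_pow, div_eq_mul_inv, div_eq_mul_inv, mul_assoc]
    rw [e]
    refine zpow_le_zpow_right₀ hp1 ?_
    linarith
  have hmat := hA3 p (2 * m) (Matrix.of fun i j : Fin (2 * m) => (q : ℚ) *
      (if j.1 < m then AL n α (D3_ND n κ i.1 * D3_ND n κ' j.1)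
      else BL n β (D3_ND n κ i.1 * D3_ND n κ' (j.1 - m))))
    (fun i => (p : ℚ) ^ (s i)) (fun j => if j < m then (p : ℚ) ^ (s' j) else (p : ℚ) ^ (s' (j - m) - 3))
    (fun i => by positivity) (fun j => by split_ifs <;> positivity) (by
      intro i j
      rw [Matrix.of_apply]
      by_cases hj : j.1 < m
      · rw [if_pos hj]
        simp only [if_pos hj]
        rw [AL_apply, ← zpow_add₀ hp0.ne']
        refine hC2a hn hp2 q α hα _ _ (by positivity)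
          (fun k => (p : ℚ)⁻¹ ^ ((Finset.range i.1).filter fun l => κ l = kap n p k).card *
            (p : ℚ)⁻¹ ^ ((Finset.range j.1).filter fun l => κ' l = kap n p k).card)
          (fun k => by positivity) (fun k hk => ?_) (fun k hk => ?_) (fun k hk => ?_)
        · exact D3_EM_PB p n k (by have := (Finset.mem_Icc.1 hk).2; omega) κ κ' i.1 j.1
        · exact D3_EM_PB1 p 1 le_rfl n k κ κ' i.1 j.1
        · rcases h k hk with h1 | h1
          · left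
            have := hexp i.1 j.1 k hk h1 0
            simpa using this
          · right
            refine ⟨h1.1.trans (zpow_le_zpow_right₀ hp1 ?_), h1.2⟩
            have h2 := hs1 i.1
            have h3 := hs1' j.1
            linarith
      · rw [if_neg hj]
        simp only [if_neg hj]
        rw [BL_apply, ← zpow_add₀ hp0.ne']
        refine hC2b hn hp2 q β hβ hβ3 _ _ (by positivity)
          (fun k => (p : ℚ)⁻¹ ^ ((Finset.range i.1).filter fun l => κ l = kap n p k).card *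
            (p : ℚ)⁻¹ ^ ((Finset.range (j.1 - m)).filter fun l => κ' l = kap n p k).card)
          (fun k => by positivity) (fun k hk => ?_) (fun k hk => ?_) (fun k hk => ?_)
        · exact D3_EM_PB p n k (by have := (Finset.mem_Icc.1 hk).2; omega) κ κ' i.1 (j.1 - m)
        · exact D3_EM_PB1 p 1 le_rfl n k κ κ' i.1 (j.1 - m)
        · rcases h k hk with h1 | h1
          · left
            have := hexp i.1 (j.1 - m) k hk h1 3
            rw [show s i.1 + (s' (j.1 - m) - 3) = s i.1 + s' (j.1 - m) - 3 by ring]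
            exact this
          · right
            refine ⟨h1.1.trans (zpow_le_zpow_right₀ hp1 ?_), h1.2.2⟩
            have h2 := hs1 i.1
            have h3 := hs1' (j.1 - m)
            linarith)
  rw [D3_det hA1] at hmat
  refine le_trans hmat ?_
  have hcprod : ∏ j ∈ Finset.range (2 * m), (if j < m then (p : ℚ) ^ (s' j) else
      (p : ℚ) ^ (s' (j - m) - 3)) = (p : ℚ) ^ (∑ j ∈ Finset.range m, s' j) *
      (p : ℚ) ^ (∑ j ∈ Finset.range m, (s' j - 3)) := by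
    rw [two_mul, Finset.prod_range_add, ← D3_prod_zpow (p : ℚ) hp0.ne' s' m,
      ← D3_prod_zpow (p : ℚ) hp0.ne' (fun j => s' j - 3) m]
    congr 1
    · exact Finset.prod_congr rfl fun j hj => if_pos (Finset.mem_range.1 hj)
    · refine Finset.prod_congr rfl fun j _ => ?_
      rw [if_neg (by omega), Nat.add_sub_cancel_left]
  rw [hcprod, D3_prod_zpow (p : ℚ) hp0.ne' s (2 * m), ← zpow_add₀ hp0.ne', ← zpow_add₀ hp0.ne']
  refine zpow_le_zpow_right₀ hp1 ?_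
  rw [Finset.sum_sub_distrib, Finset.sum_const, Finset.card_range, nsmul_eq_mul]
  have hsum : ∑ k ∈ S, T1 (z k) + 2 * ∑ k ∈ S, T1 (eM n p k - z k - a) ≤
      ∑ k ∈ S, T3 (eM n p k - a) := by
    rw [Finset.mul_sum, ← Finset.sum_add_distrib]
    refine Finset.sum_le_sum fun k _ => ?_
    have := hz k
    rw [show eM n p k - a - z k = eM n p k - z k - a by ring] at this
    exact this
  linarith

theorem D3_large_of (hA1 : D3St_A1) (hA3 : D3St_A3) (hC2a : D3St_C2a) (hC2b : D3St_C2b)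
    {n p : ℕ} [Fact p.Prime] (hn : 1 ≤ n) (hp2 : 8 * n < p ^ 2) (hp : 4 * n < p)
    (q : ℕ) (α β : ℕ → ℚ)
    (hα : UInt q α) (hβ : UInt q β) (hβ3 : ∀ i < 3, β i = 0) (m : ℕ) :
    padicNorm p ((q : ℚ) ^ (2 * m) * MD (AL n α) (BL n β) m) ≤ 1 := by
  have hpp : p.Prime := Fact.out
  have hp0 : (0 : ℚ) < p := by exact_mod_cast hpp.pos
  have hp1 : (1 : ℚ) ≤ p := by exact_mod_cast hpp.one_le
  have hc : padicNorm p (cM n) ≤ 1 := by
    obtain ⟨d, hd⟩ := Nat.factorial_dvd_factorial (show 2 * n ≤ 4 * n by omega)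
    have h0 : (((2 * n).factorial : ℕ) : ℚ) ≠ 0 := by exact_mod_cast (2 * n).factorial_ne_zero
    have : cM n = (((((4 * n).factorial : ℕ) : ℤ) ^ 8 * (d : ℤ) ^ 2 : ℤ) : ℚ) := by
      unfold cM
      have hd' : (((4 * n).factorial : ℕ) : ℚ) = ((2 * n).factorial : ℕ) * (d : ℚ) := by
        exact_mod_cast hd
      push_cast
      rw [div_eq_iff (pow_ne_zero 2 h0)]
      calc (((4 * n).factorial : ℕ) : ℚ) ^ 10 = (((4 * n).factorial : ℕ) : ℚ) ^ 8 *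
            (((4 * n).factorial : ℕ) : ℚ) ^ 2 := by ring
        _ = (((4 * n).factorial : ℕ) : ℚ) ^ 8 * (((2 * n).factorial : ℕ) * (d : ℚ)) ^ 2 := by
            rw [← hd']
        _ = _ := by ring
    rw [this]
    exact D3_norm_int p _
  have hno : ∀ k ∈ sM n, k < 2 * n + p ∧ ∀ k' ∈ sM n, k' ≠ k → ¬ (p : ℤ) ∣ (k' : ℤ) - k := by
    intro k hk
    have h1 := Finset.mem_Icc.1 hk
    refine ⟨by omega, fun k' hk' hne hd => ?_⟩
    have h2 := Finset.mem_Icc.1 hk'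
    have h3 : ((k' : ℤ) - k) ≠ 0 := by omega
    have h4 := Int.le_of_dvd (by positivity : 0 < |(k' : ℤ) - k|) ((dvd_abs _ _).2 hd)
    rcases abs_cases ((k' : ℤ) - k) with ⟨h5, -⟩ | ⟨h5, -⟩
    · rw [h5] at h4; omega
    · rw [h5] at h4; omega
  have hmat := hA3 p (2 * m) (Matrix.of fun i j : Fin (2 * m) => (q : ℚ) *
      (if j.1 < m then AL n α (D3_ND n (fun _ => 0) i.1 * D3_ND n (fun _ => 0) j.1)
      else BL n β (D3_ND n (fun _ => 0) i.1 * D3_ND n (fun _ => 0) (j.1 - m))))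
    (fun _ => 1) (fun _ => 1) (fun _ => zero_le_one) (fun _ => zero_le_one) (by
      intro i j
      rw [Matrix.of_apply, mul_one]
      by_cases hj : j.1 < m
      · rw [if_pos hj, AL_apply]
        refine hC2a hn hp2 q α hα _ 1 zero_le_one (fun _ => 1) (fun _ => zero_le_one)
          (fun k _ => D3_EM_PB1 p (p : ℚ) hp1 n k _ _ i.1 j.1)
          (fun k _ => D3_EM_PB1 p 1 le_rfl n k _ _ i.1 j.1) (fun k hk => Or.inr ⟨hc, hno k hk⟩)
      · rw [if_neg hj, BL_apply]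
        refine hC2b hn hp2 q β hβ hβ3 _ 1 zero_le_one (fun _ => 1) (fun _ => zero_le_one)
          (fun k _ => D3_EM_PB1 p (p : ℚ) hp1 n k _ _ i.1 (j.1 - m))
          (fun k _ => D3_EM_PB1 p 1 le_rfl n k _ _ i.1 (j.1 - m))
          (fun k hk => Or.inr ⟨hc, (hno k hk).2⟩))
  rw [D3_det hA1] at hmat
  simpa using hmat

end

end Pool.Agent.H574R2.D9
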