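import Pool.Agent.H574R2.D9.TwoC
import Pool.Agent.H574R2.D9.D2
import Pool.Agent.H574R2.D9.B1

/-!
# D3_two, parts P2a, P2b, P3 (helper324): symmetrisation, splitting of the sum over the poles, class pairs
-/

open Polynomial Pool.Agent.H337R2

namespace Pool.Agent.H574R2.D9.Two

noncomputable section

lemma TwoP_Es (k : ℕ) (c : ℚ) : Es k c = -∑ i ∈ Finset.Icc 1 10, C ((c⁻¹) ^ i) * sit k ^ (i - 1) := by
  have e : ∑ i ∈ Finset.Icc 1 10, C ((c⁻¹) ^ i) * sit k ^ (i - 1) =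
      ∑ i ∈ Finset.range 10, C ((c⁻¹) ^ (i + 1)) * sit k ^ i := by
    rw [show (Finset.Icc 1 10 : Finset ℕ) = Finset.Ico (0 + 1) (10 + 1) from rfl,
      ← Finset.sum_Ico_add' (fun i => C ((c⁻¹) ^ i) * sit k ^ (i - 1)) 0 10 1, Finset.range_eq_Ico]
    refine Finset.sum_congr rfl fun i _ => ?_
    rw [Nat.add_sub_cancel]
  rw [e]
  have e2 : C c⁻¹ * ∑ i ∈ Finset.range 10, (C c⁻¹ * sit k) ^ i = ∑ i ∈ Finset.range 10, C ((c⁻¹) ^ (i + 1)) * sit k ^ i := by
    rw [Finset.mul_sum]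
    refine Finset.sum_congr rfl fun i _ => ?_
    rw [mul_pow, ← C_pow, pow_succ, C_mul]
    ring
  rw [← e2]
  rfl

lemma TwoP_low (n k : ℕ) : ∑ s ∈ Finset.Ico (2 * n) k, Es k ((k : ℚ) - s) =
    -∑ i ∈ Finset.Icc 1 10, C (hs i (k - 2 * n)) * sit k ^ (i - 1) := by
  have h1 : ∑ s ∈ Finset.Ico (2 * n) k, Es k ((k : ℚ) - s) =
      ∑ l ∈ Finset.range (k - 2 * n), Es k ((l : ℚ) + 1) := by
    refine Finset.sum_nbij' (fun s => k - s - 1) (fun l => k - (l + 1)) ?_ ?_ ?_ ?_ ?_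
    · intro s hs; rw [Finset.mem_Ico] at hs; rw [Finset.mem_range]; omega
    · intro l hl; rw [Finset.mem_range] at hl; rw [Finset.mem_Ico]; omega
    · intro s hs; rw [Finset.mem_Ico] at hs; omega
    · intro l hl; rw [Finset.mem_range] at hl; omega
    · intro s hs
      rw [Finset.mem_Ico] at hs
      congr 1
      rw [Nat.cast_sub (by omega), Nat.cast_sub (by omega)]
      push_cast; ring
  rw [h1]
  unfold hs
  simp only [TwoP_Es]
  rw [Finset.sum_neg_distrib, Finset.sum_comm]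
  congr 1
  refine Finset.sum_congr rfl fun i _ => ?_
  rw [map_sum, Finset.sum_mul]
  refine Finset.sum_congr rfl fun l _ => ?_
  rw [inv_pow, one_div]

lemma TwoP_high (n k : ℕ) : ∑ s ∈ Finset.Ioc k (6 * n), -Es k ((k : ℚ) - s) =
    -∑ i ∈ Finset.Icc 1 10, C ((-1) ^ (i + 1) * hs i (6 * n - k)) * sit k ^ (i - 1) := by
  have h1 : ∑ s ∈ Finset.Ioc k (6 * n), -Es k ((k : ℚ) - s) =
      ∑ l ∈ Finset.range (6 * n - k), -Es k (-((l : ℚ) + 1)) := by
    refine Finset.sum_nbij' (fun s => s - k - 1) (fun l => k + (l + 1)) ?_ ?_ ?_ ?_ ?_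
    · intro s hs; rw [Finset.mem_Ioc] at hs; rw [Finset.mem_range]; omega
    · intro l hl; rw [Finset.mem_range] at hl; rw [Finset.mem_Ioc]; omega
    · intro s hs; rw [Finset.mem_Ioc] at hs; omega
    · intro l hl; rw [Finset.mem_range] at hl; omega
    · intro s hs
      rw [Finset.mem_Ioc] at hs
      congr 2
      rw [Nat.cast_sub (by omega), Nat.cast_sub (by omega)]
      push_cast; ring
  rw [h1]
  unfold hs
  simp only [TwoP_Es, neg_neg]
  rw [Finset.sum_comm, ← Finset.sum_neg_distrib]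
  refine Finset.sum_congr rfl fun i _ => ?_
  rw [Finset.mul_sum, map_sum, Finset.sum_mul, ← Finset.sum_neg_distrib]
  refine Finset.sum_congr rfl fun l _ => ?_
  rw [← neg_mul, ← C_neg]
  congr 2
  rw [inv_neg, neg_pow, inv_pow, pow_succ]
  ring

lemma TwoP_vh (v : ℕ → ℚ) (z : ℚ[X]) :
    vh v z = ∑ i ∈ Finset.Icc 1 10, C ((1 + (-1) ^ (i + 1)) * v i) * z ^ (i - 1) := by
  unfold vh
  have e : (Finset.Icc 1 10 : Finset ℕ) = {1, 2, 3, 4, 5, 6, 7, 8, 9, 10} := by decide
  rw [e]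
  simp only [Finset.sum_range_succ, Finset.sum_range_zero, zero_add]
  simp
  norm_num
  have h2 : (C 2 : ℚ[X]) = 2 := rfl
  rw [h2]
  ring

lemma TwoP_Om (n : ℕ) (u : ℚ) (v : ℕ → ℚ) {k : ℕ} (hk : k ∈ sM n) : Om n u v k =
    ∑ i ∈ Finset.Icc 1 10, C ((1 + (-1) ^ (i + 1)) * v i -
      u * (hs i (k - 2 * n) + (-1) ^ (i + 1) * hs i (6 * n - k))) * sit k ^ (i - 1) := by
  rw [Finset.mem_Icc] at hk
  have h1 : ∑ s ∈ (sM n).erase k, (if s < k then Es k ((k : ℚ) - s) else -Es k ((k : ℚ) - s)) =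
      ∑ s ∈ Finset.Ico (2 * n) k, Es k ((k : ℚ) - s) + ∑ s ∈ Finset.Ioc k (6 * n), -Es k ((k : ℚ) - s) := by
    have h2 : (sM n).erase k = Finset.Ico (2 * n) k ∪ Finset.Ioc k (6 * n) := by
      ext x
      simp only [sM, Finset.mem_erase, Finset.mem_Icc, Finset.mem_union, Finset.mem_Ico, Finset.mem_Ioc]
      omega
    rw [h2, Finset.sum_union]
    · congr 1
      · refine Finset.sum_congr rfl fun s hs => ?_
        rw [Finset.mem_Ico] at hs
        rw [if_pos hs.2]
      · refine Finset.sum_congr rfl fun s hs => ?_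
        rw [Finset.mem_Ioc] at hs
        rw [if_neg (by omega)]
    · rw [Finset.disjoint_left]
      intro x hx hx2
      rw [Finset.mem_Ico] at hx
      rw [Finset.mem_Ioc] at hx2
      omega
  unfold Om
  rw [h1, TwoP_low, TwoP_high, TwoP_vh, ← Finset.sum_neg_distrib, ← Finset.sum_neg_distrib,
    ← Finset.sum_add_distrib, Finset.mul_sum, ← Finset.sum_add_distrib]
  refine Finset.sum_congr rfl fun i _ => ?_
  simp only [C_sub, C_add, C_mul]
  ring

lemma TwoP_refl (n : ℕ) (E : ℚ[X]) (hE : E.comp (-X - C ((8 * n : ℕ) : ℚ)) = E) {k : ℕ} (hk : k ∈ sM n) {i : ℕ}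
    (hi1 : 1 ≤ i) (hi2 : i ≤ 10) :
    pa (sM n) mM (PM n * E) (8 * n - k) i = (-1) ^ (i + 1) * pa (sM n) mM (PM n * E) k i := by
  have hP : (PM n * E).comp (-X - C ((8 * n : ℕ) : ℚ)) = -(PM n * E) := by
    rw [Polynomial.mul_comp, B1_PM_comp, hE, neg_mul]
  unfold pa
  rw [if_pos (show i ≤ 10 from hi2), if_pos (show i ≤ 10 from hi2)]
  rw [pfc_reflect (sM n) mM (PM n * E) (8 * n) ?_ ?_ hP ?_ hk ?_]
  · rw [show mM k - (mM k - i) = i by show 10 - (10 - i) = i; omega]
    show -(-1) ^ i * pfc (sM n) mM (PM n * E) k (10 - i) = _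
    rw [pow_succ]
    ring
  · intro k hk
    rw [Finset.mem_Icc] at hk ⊢
    omega
  · intro k _; rfl
  · rw [Finset.sum_const, smul_eq_mul, mul_comm]
    exact ⟨5 * (sM n).card, by ring⟩
  · show 10 - i < 10
    omega

/-- P2a -/
theorem fk_pair (n : ℕ) (u : ℚ) (v : ℕ → ℚ) (E : ℚ[X]) (hE : E.comp (-X - C ((8 * n : ℕ) : ℚ)) = E)
    {k : ℕ} (hk : k ∈ sM n) :
    fk n u v E k + fk n u v E (8 * n - k) = Ph n k (E * Om n u v k) := by
  rw [TwoP_Om n u v hk, Finset.mul_sum, map_sum]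
  unfold fk
  rw [← Finset.sum_add_distrib]
  refine Finset.sum_congr rfl fun i hi => ?_
  rw [Finset.mem_Icc] at hi
  rw [TwoP_refl n E hE hk hi.1 hi.2]
  have h1 : E * (C ((1 + (-1) ^ (i + 1)) * v i - u * (hs i (k - 2 * n) + (-1) ^ (i + 1) * hs i (6 * n - k))) *
      sit k ^ (i - 1)) = ((1 + (-1) ^ (i + 1)) * v i - u * (hs i (k - 2 * n) + (-1) ^ (i + 1) * hs i (6 * n - k))) •
      (E * sit k ^ (i - 1)) := by
    rw [smul_eq_C_mul]; ring
  rw [h1, map_smul, Ph_pa n k E hi.1 hi.2, smul_eq_mul]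
  have h2 : 8 * n - k - 2 * n = 6 * n - k := by omega
  rw [h2]
  ring

/-- P2b -/
theorem split_sum {n p : ℕ} (hodd : Odd p) (h1 : 2 * n < p) (h2 : p < 4 * n) (F : ℕ → ℚ) :
    ∑ k ∈ sM n, F k = ∑ a ∈ Alow n p, ((F (a + p) + F (8 * n - (a + p))) + (F a + F (8 * n - a))) +
      ∑ k ∈ Finset.Ioo (6 * n - p) (2 * n + p), F k := by
  obtain ⟨r, hr⟩ := hodd
  have hA : ∀ G : ℕ → ℚ, ∑ a ∈ Finset.Icc (2 * n) (6 * n - p), G a =
      ∑ a ∈ Alow n p, G a + ∑ a ∈ Alow n p, G (8 * n - p - a) := by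
    intro G
    rw [← Finset.sum_filter_add_sum_filter_not (Finset.Icc (2 * n) (6 * n - p)) (fun a => 2 * a + p < 8 * n)]
    congr 1
    refine Finset.sum_nbij' (fun a => 8 * n - p - a) (fun a => 8 * n - p - a) ?_ ?_ ?_ ?_ ?_
    · intro a ha
      simp only [Alow, Finset.mem_filter, Finset.mem_Icc] at ha ⊢
      omega
    · intro a ha
      simp only [Alow, Finset.mem_filter, Finset.mem_Icc] at ha ⊢
      omega
    · intro a ha
      simp only [Finset.mem_filter, Finset.mem_Icc] at ha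
      omega
    · intro a ha
      simp only [Alow, Finset.mem_filter, Finset.mem_Icc] at ha
      omega
    · intro a ha
      simp only [Finset.mem_filter, Finset.mem_Icc] at ha
      congr 1
      omega
  have hS : sM n = (Finset.Icc (2 * n) (6 * n - p) ∪ Finset.Ioo (6 * n - p) (2 * n + p)) ∪
      Finset.Icc (2 * n + p) (6 * n) := by
    ext x
    simp only [sM, Finset.mem_union, Finset.mem_Icc, Finset.mem_Ioo]
    omega
  have hB : ∑ k ∈ Finset.Icc (2 * n + p) (6 * n), F k = ∑ a ∈ Finset.Icc (2 * n) (6 * n - p), F (a + p) := by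
    refine Finset.sum_nbij' (fun a => a - p) (fun a => a + p) ?_ ?_ ?_ ?_ ?_
    · intro a ha; rw [Finset.mem_Icc] at ha ⊢; omega
    · intro a ha; rw [Finset.mem_Icc] at ha ⊢; omega
    · intro a ha; rw [Finset.mem_Icc] at ha; omega
    · intro a ha; omega
    · intro a ha
      rw [Finset.mem_Icc] at ha
      congr 1
      omega
  rw [hS, Finset.sum_union, Finset.sum_union, hB, hA F, hA fun a => F (a + p)]
  · simp only [Finset.sum_add_distrib]
    have e1 : ∑ a ∈ Alow n p, F (8 * n - p - a) = ∑ a ∈ Alow n p, F (8 * n - (a + p)) := by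
      refine Finset.sum_congr rfl fun a _ => ?_
      congr 1
      omega
    have e2 : ∑ a ∈ Alow n p, F (8 * n - p - a + p) = ∑ a ∈ Alow n p, F (8 * n - a) := by
      refine Finset.sum_congr rfl fun a ha => ?_
      simp only [Alow, Finset.mem_filter, Finset.mem_Icc] at ha
      congr 1
      omega
    rw [e1, e2]
    ring
  · rw [Finset.disjoint_left]
    intro x hx hx2
    rw [Finset.mem_Icc] at hx
    rw [Finset.mem_Ioo] at hx2
    omega
  · rw [Finset.disjoint_left]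
    intro x hx hx2
    rw [Finset.mem_union, Finset.mem_Icc, Finset.mem_Ioo] at hx
    rw [Finset.mem_Icc] at hx2
    omega

lemma TwoP_modeq {p x y : ℕ} (h : x % p = y % p) (hxy : x ≤ y) (hlt : y < x + p) : x = y := by
  have h1 : p ∣ y - x := (Nat.modEq_iff_dvd' hxy).1 h
  by_contra hne
  have := Nat.le_of_dvd (by omega) h1
  omega

lemma TwoP_inj {n p : ℕ} (h1 : 2 * n < p) (h2 : p < 4 * n) {a b : ℕ} (ha : a ∈ Alow n p) (hb : b ∈ Alow n p)
    (h : kap n p a = kap n p b) : a = b := by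
  simp only [Alow, Finset.mem_filter, Finset.mem_Icc] at ha hb
  have key : a % p = b % p ∨ a % p = (8 * n - b) % p ∨ (8 * n - a) % p = b % p ∨
      (8 * n - a) % p = (8 * n - b) % p := by
    unfold kap at h
    omega
  rcases key with h3 | h3 | h3 | h3
  · rcases le_total a b with hab | hab
    · exact TwoP_modeq h3 hab (by omega)
    · exact (TwoP_modeq h3.symm hab (by omega)).symm
  · exfalso
    have h4 : p ∣ (8 * n - b) - a := (Nat.modEq_iff_dvd' (by omega)).1 h3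
    obtain ⟨c, hc⟩ := h4
    rcases Nat.lt_or_ge c 2 with h5 | h5
    · interval_cases c <;> omega
    · have : p * 2 ≤ p * c := Nat.mul_le_mul_left _ h5
      omega
  · exfalso
    have h4 : p ∣ (8 * n - a) - b := (Nat.modEq_iff_dvd' (by omega)).1 h3.symm
    obtain ⟨c, hc⟩ := h4
    rcases Nat.lt_or_ge c 2 with h5 | h5
    · interval_cases c <;> omega
    · have : p * 2 ≤ p * c := Nat.mul_le_mul_left _ h5
      omega
  · rcases le_total a b with hab | hab
    · have := TwoP_modeq h3.symm (by omega) (by omega)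
      omega
    · have := TwoP_modeq h3 (by omega) (by omega)
      omega

lemma TwoP_kap {n p a : ℕ} (ha : a + p ≤ 8 * n) : kap n p (a + p) = kap n p a := by
  unfold kap
  rw [Nat.add_mod_right]
  congr 1
  rw [show 8 * n - a = (8 * n - (a + p)) + p by omega, Nat.add_mod_right]

lemma TwoP_kap' {n p a : ℕ} (ha : a ≤ 8 * n) : kap n p (8 * n - a) = kap n p a := by
  unfold kap
  rw [show 8 * n - (8 * n - a) = a by omega, min_comm]

/-- P3 -/
theorem Kfull_sum {n p : ℕ} (hn : 1 ≤ n) (hodd : Odd p) (h1 : 2 * n < p) (h2 : p < 4 * n) (T : ℤ → ℤ) :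
    ∑ κ ∈ Kfull n p, T (eM n p κ) = ∑ a ∈ Alow n p, T (eM n p a) := by
  have hK : Kfull n p = (Alow n p).image (kap n p) := by
    ext κ
    unfold Kfull
    rw [Finset.mem_image, Finset.mem_image]
    constructor
    · rintro ⟨k, hk, rfl⟩
      rw [Finset.mem_Icc] at hk
      obtain ⟨a, rfl⟩ : ∃ a, k = a + p := ⟨k - p, by omega⟩
      obtain ⟨r, hr⟩ := hodd
      by_cases h3 : 2 * a + p < 8 * n
      · refine ⟨a, ?_, (TwoP_kap (by omega)).symm⟩
        simp only [Alow, Finset.mem_filter, Finset.mem_Icc]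
        omega
      · refine ⟨8 * n - (a + p), ?_, TwoP_kap' (by omega)⟩
        simp only [Alow, Finset.mem_filter, Finset.mem_Icc]
        omega
    · rintro ⟨a, ha, rfl⟩
      simp only [Alow, Finset.mem_filter, Finset.mem_Icc] at ha
      refine ⟨a + p, ?_, TwoP_kap (by omega)⟩
      rw [Finset.mem_Icc]
      omega
  rw [hK, Finset.sum_image fun a ha b hb h => TwoP_inj h1 h2 ha hb h]
  refine Finset.sum_congr rfl fun a ha => ?_
  simp only [Alow, Finset.mem_filter, Finset.mem_Icc] at ha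
  rw [D2_eM_kap hn (by omega) (by omega)]

end

end Pool.Agent.H574R2.D9.Two
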