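import Pool.Agent.H574R2.D9.TwoF
import Pool.Agent.H574R2.D9.TwoP
import Pool.Agent.H574R2.D9.H3pre

/-!
# Task D3two (helper299, helper324): primes `2n < p < 4n`, two-site classes with one generator
-/

open Polynomial Pool.Agent.H337R2

namespace Pool.Agent.H574R2.D9

noncomputable section

/-- two-site classes: one generator (`2n < p < 4n`) -/
theorem D3_two {n p : ℕ} [Fact p.Prime] (hn : 1 ≤ n) (hp100 : 100 ≤ p) (h1 : 2 * n < p) (h2 : p < 4 * n) (q : ℕ)
    (α β : ℕ → ℚ) (hα : UInt q α) (hβ : UInt q β) (_hβ3 : ∀ i < 3, β i = 0) (m : ℕ) :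
    padicNorm p ((q : ℚ) ^ (2 * m) * MD (AL n α) (BL n β) m) ≤
      (p : ℚ) ^ (-(20 * m : ℤ) + ∑ κ ∈ Kfull n p, T2s (eM n p κ + 10)) := by
  have hodd : Odd p := (Fact.out : p.Prime).odd_of_ne_two (by omega)
  exact Two.D3_two_of hn hp100 h1 h2 q α β hα hβ m
    (fun a => D2_eM_congr (Nat.add_mod_right a p))
    (fun Q => H3.EM_reflect n Q)
    (fun u v E hE k hk => Two.fk_pair n u v E hE hk)
    (fun F => Two.split_sum hodd h1 h2 F)
    (fun T => Two.Kfull_sum hn hodd h1 h2 T)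

end

end Pool.Agent.H574R2.D9
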