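import Pool.Agent.H574R2.D9.D4a
import Pool.Agent.H574R2.D9.C2
import Pool.Agent.H574R2.D9.C3
import Pool.Agent.H574R2.D9.C4

open Polynomial Pool.Agent.H337R2

namespace Pool.Agent.H574R2.D9

noncomputable section

theorem D4_small_med {n p : ℕ} [Fact p.Prime] (hn : 1 ≤ n) (hp2 : 20 * n < p ^ 2) (q : ℕ) (α β : ℕ → ℚ)
    (hα : UInt q α) (hβ : UInt q β) (hβ3 : ∀ i < 3, β i = 0) (m : ℕ) (hm : m ≤ 5 * n) :
    padicNorm p ((q : ℚ) ^ (2 * m) * MD (AL n α) (BL n β) m) ≤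
      ((p : ℚ) ^ 10) ^ (2 * m) * ((∏ i ∈ Finset.range (2 * m), padicNorm p (((2 * i - 1).factorial : ℕ) : ℚ)) *
        ∏ i ∈ Finset.range m, padicNorm p (((2 * i - 1).factorial : ℕ) : ℚ) ^ 2) :=
  D4_small_med_of (fun {_ _} _ => C2_xa) (fun {_ _} _ => C2_xb) (fun {_ _} _ => C4_CP_PB) hn hp2 q α β hα hβ hβ3
    m hm

theorem D4_small_crude {n p : ℕ} [Fact p.Prime] (hn : 1 ≤ n) (q : ℕ) (α β : ℕ → ℚ)
    (hα : UInt q α) (hβ : UInt q β) (hβ3 : ∀ i < 3, β i = 0) (m : ℕ) (hm : m ≤ 5 * n) :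
    padicNorm p ((q : ℚ) ^ (2 * m) * MD (AL n α) (BL n β) m) ≤
      (((20 * n + 1 : ℕ) : ℚ) ^ 40) ^ (2 * m) *
        ((∏ i ∈ Finset.range (2 * m), padicNorm p (((2 * i - 1).factorial : ℕ) : ℚ)) *
        ∏ i ∈ Finset.range m, padicNorm p (((2 * i - 1).factorial : ℕ) : ℚ) ^ 2) :=
  D4_small_crude_of (fun {_ _} _ => C3_crude) (fun {_ _} _ => C4_CP_PB) hn q α β hα hβ hβ3 m hm

end

end Pool.Agent.H574R2.D9
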