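import Pool.Agent.H574R2.D9.Defs
import Pool.Agent.H574R2.D3.A1
import Pool.Agent.H574R2.D3.A3
import Pool.Agent.H574R2.D3.C4

open Polynomial Pool.Agent.H337R2

namespace Pool.Agent.H574R2.D9

noncomputable section

/-- the statement of `C2_xa` -/
def D4H1 : Prop := ∀ {n p : ℕ} [Fact p.Prime] (_ : 1 ≤ n) (_ : 8 * n < p ^ 2) (q : ℕ) (α : ℕ → ℚ) (_ : UInt q α)
    (E : ℚ[X]) (W : ℚ) (_ : 0 ≤ W) (A : ℕ → ℚ) (_ : ∀ k, 0 ≤ A k)
    (_ : ∀ k ∈ sM n, PB p (p : ℚ) (A k) (TS (-(k : ℚ)) E))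
    (_ : ∀ k ∈ sM n, PB p 1 1 (TS (-(k : ℚ)) E))
    (_ : ∀ k ∈ sM n, (p : ℚ) ^ (eM n p k) * A k ≤ W ∨
      (padicNorm p (cM n) ≤ W ∧ k < 2 * n + p ∧ ∀ k' ∈ sM n, k' ≠ k → ¬ (p : ℤ) ∣ (k' : ℤ) - k)),
    padicNorm p ((q : ℚ) * xa n α (PM n * E)) ≤ W

/-- the statement of `C2_xb` -/
def D4H2 : Prop := ∀ {n p : ℕ} [Fact p.Prime] (_ : 1 ≤ n) (_ : 8 * n < p ^ 2) (q : ℕ) (β : ℕ → ℚ) (_ : UInt q β)
    (_ : ∀ i < 3, β i = 0)
    (E : ℚ[X]) (W : ℚ) (_ : 0 ≤ W) (A : ℕ → ℚ) (_ : ∀ k, 0 ≤ A k)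
    (_ : ∀ k ∈ sM n, PB p (p : ℚ) (A k) (TS (-(k : ℚ)) E))
    (_ : ∀ k ∈ sM n, PB p 1 1 (TS (-(k : ℚ)) E))
    (_ : ∀ k ∈ sM n, (p : ℚ) ^ (eM n p k - 3) * A k ≤ W ∨
      (padicNorm p (cM n) ≤ W ∧ ∀ k' ∈ sM n, k' ≠ k → ¬ (p : ℤ) ∣ (k' : ℤ) - k)),
    padicNorm p ((q : ℚ) * xb n β (PM n * E)) ≤ W

/-- the statement of `C3_crude` -/
def D4H3 : Prop := ∀ {n p : ℕ} [Fact p.Prime] (_ : 1 ≤ n) (q : ℕ) (u : ℕ → ℚ) (_ : UInt q u)
    (E : ℚ[X]) (A : ℚ) (_ : 0 ≤ A)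
    (_ : ∀ k ∈ sM n, PB p ((20 * n + 1 : ℕ) : ℚ) A (TS (-(k : ℚ)) E)),
    padicNorm p ((q : ℚ) * xa n u (PM n * E)) ≤ ((20 * n + 1 : ℕ) : ℚ) ^ 40 * A ∧
    padicNorm p ((q : ℚ) * xb n u (PM n * E)) ≤ ((20 * n + 1 : ℕ) : ℚ) ^ 40 * A

/-- the statement of `C4_CP_PB` -/
def D4H4 : Prop := ∀ {n p : ℕ} [Fact p.Prime] (_ : 1 ≤ n) (ρ : ℚ) (_ : 1 ≤ ρ)
    (_ : ∀ l : ℕ, 1 ≤ l → l ≤ 20 * n → (padicNorm p (l : ℚ))⁻¹ ≤ ρ) (i j : ℕ) (_ : 2 * i ≤ 20 * n)
    (_ : 2 * j ≤ 20 * n) (k : ℕ),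
    PB p ρ (padicNorm p (((2 * i - 1).factorial : ℕ) : ℚ) * padicNorm p (((2 * j - 1).factorial : ℕ) : ℚ))
      (TS (-(k : ℚ)) (EM n (CP i * CP j)))

/-- the node weights -/
def D4f (p i : ℕ) : ℚ := padicNorm p (((2 * i - 1).factorial : ℕ) : ℚ)

lemma D4f_nonneg (p i : ℕ) [Fact p.Prime] : 0 ≤ D4f p i := padicNorm.nonneg _

lemma D4_aux {n p : ℕ} [Fact p.Prime] (q : ℕ) (α β : ℕ → ℚ) (m : ℕ) (U : ℚ) (hU : 0 ≤ U)
    (ha : ∀ i j : ℕ, i < 2 * m → j < m →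
      padicNorm p ((q : ℚ) * xa n α (PM n * EM n (CP i * CP j))) ≤ U * (D4f p i * D4f p j))
    (hb : ∀ i j : ℕ, i < 2 * m → j < m →
      padicNorm p ((q : ℚ) * xb n β (PM n * EM n (CP i * CP j))) ≤ U * (D4f p i * D4f p j)) :
    padicNorm p ((q : ℚ) ^ (2 * m) * MD (AL n α) (BL n β) m) ≤
      U ^ (2 * m) * ((∏ i ∈ Finset.range (2 * m), D4f p i) * ∏ i ∈ Finset.range m, D4f p i ^ 2) := by
  have hM := Pool.Agent.H574R2.D3.A1_MD_monic (AL n α) (BL n β) m CP CP CP (fun i _ => Pool.Agent.H574R2.D3.C4_CP i) (fun i _ => Pool.Agent.H574R2.D3.C4_CP i)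
    (fun i _ => Pool.Agent.H574R2.D3.C4_CP i)
  have h1 : (q : ℚ) ^ (2 * m) * MD (AL n α) (BL n β) m =
      ((q : ℚ) • (Matrix.of fun i j : Fin (2 * m) =>
        if j.1 < m then AL n α (CP i.1 * CP j.1) else BL n β (CP i.1 * CP (j.1 - m)))).det := by
    rw [Matrix.det_smul, Fintype.card_fin, hM]
  rw [h1]
  have h2 := Pool.Agent.H574R2.D3.A3_padic_det p (2 * m) ((q : ℚ) • (Matrix.of fun i j : Fin (2 * m) =>
        if j.1 < m then AL n α (CP i.1 * CP j.1) else BL n β (CP i.1 * CP (j.1 - m))))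
    (fun i => U * D4f p i) (fun j => if j < m then D4f p j else D4f p (j - m))
    (fun i => mul_nonneg hU (D4f_nonneg p i))
    (fun j => by
      split_ifs
      · exact D4f_nonneg p _
      · exact D4f_nonneg p _)
    (by
      intro i j
      rw [Matrix.smul_apply, Matrix.of_apply, smul_eq_mul]
      by_cases hj : j.1 < m
      · simp only [hj, if_true]
        rw [AL_apply, mul_assoc U]
        exact ha i j i.2 hj
      · simp only [hj, if_false]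
        rw [BL_apply, mul_assoc U]
        exact hb i (j - m) i.2 (by have := j.2; omega))
  refine h2.trans (le_of_eq ?_)
  rw [Finset.prod_mul_distrib, Finset.prod_const, Finset.card_range, mul_assoc]
  congr 2
  have h3 : Finset.range (2 * m) = Finset.range (m + m) := by rw [two_mul]
  rw [h3, Finset.prod_range_add]
  have h4 : ∏ x ∈ Finset.range m, (if x < m then D4f p x else D4f p (x - m)) =
      ∏ x ∈ Finset.range m, D4f p x := by
    apply Finset.prod_congr rfl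
    intro x hx
    rw [Finset.mem_range] at hx
    rw [if_pos hx]
  have h5 : ∏ x ∈ Finset.range m, (if m + x < m then D4f p (m + x) else D4f p (m + x - m)) =
      ∏ x ∈ Finset.range m, D4f p x := by
    apply Finset.prod_congr rfl
    intro x _
    rw [if_neg (by omega), Nat.add_sub_cancel_left]
  rw [h4, h5, ← Finset.prod_mul_distrib]
  apply Finset.prod_congr rfl
  intro x _
  ring

lemma D4_lin (p : ℕ) [Fact p.Prime] (z : ℤ) (a : ℚ) (ha : a = (z : ℚ)) :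
    PB p 1 1 (PowerSeries.X + PowerSeries.C a) := by
  refine PB.linX zero_le_one zero_le_one ?_ (by norm_num)
  rw [ha]
  exact padicNorm.of_int z

lemma D4_node (p n k l : ℕ) [Fact p.Prime] :
    PB p 1 1 (TS (-(k : ℚ)) ((X - C ((l : ℚ) ^ 2)).comp (xM n))) := by
  have h1 : (X - C ((l : ℚ) ^ 2)).comp (xM n) =
      (X + C (((4 * n : ℕ) : ℚ) - l)) * (X + C (((4 * n : ℕ) : ℚ) + l)) := by
    unfold xM
    rw [Polynomial.sub_comp, Polynomial.X_comp, Polynomial.C_comp]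
    simp only [Polynomial.C_sub, Polynomial.C_add, Polynomial.C_pow]
    ring
  rw [h1, map_mul, TS_lin, TS_lin]
  have h2 := D4_lin p (-(k : ℤ) + ((4 * n : ℕ) - l)) (-(k : ℚ) + (((4 * n : ℕ) : ℚ) - l))
    (by push_cast; ring)
  have h3 := D4_lin p (-(k : ℤ) + ((4 * n : ℕ) + l)) (-(k : ℚ) + (((4 * n : ℕ) : ℚ) + l))
    (by push_cast; ring)
  have := PB.mul (p := p) zero_le_one zero_le_one zero_le_one h2 h3
  simpa using this

lemma D4_mul (p : ℕ) [Fact p.Prime] (f g : PowerSeries ℚ) (hf : PB p 1 1 f) (hg : PB p 1 1 g) :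
    PB p 1 1 (f * g) := by
  have h := PB.mul (p := p) (ρ := 1) (A := 1) (B := 1) zero_le_one zero_le_one zero_le_one hf hg
  rwa [one_mul] at h

lemma D4_pow (p : ℕ) [Fact p.Prime] (f : PowerSeries ℚ) (hf : PB p 1 1 f) (N : ℕ) :
    PB p 1 1 (f ^ N) := by
  have h := PB.pow (p := p) (ρ := 1) (A := 1) zero_le_one zero_le_one hf N
  rwa [one_pow] at h

lemma D4_CP_int (p n k i : ℕ) [Fact p.Prime] : PB p 1 1 (TS (-(k : ℚ)) ((CP i).comp (xM n))) := by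
  induction i with
  | zero =>
    have h : (CP 0).comp (xM n) = 1 := by simp [CP, Pool.Agent.H574R2.D3.CP]
    rw [h, map_one]
    exact PB.one zero_le_one
  | succ i ih =>
    have h : (CP (i + 1)).comp (xM n) = (CP i).comp (xM n) * (X - C ((i : ℚ) ^ 2)).comp (xM n) := by
      rw [CP, Pool.Agent.H574R2.D3.CP, Finset.prod_range_succ, Polynomial.mul_comp]
      rfl
    rw [h, map_mul]
    exact D4_mul p _ _ ih (D4_node p n k i)

lemma D4_EM_int (p n k i j : ℕ) [Fact p.Prime] :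
    PB p 1 1 (TS (-(k : ℚ)) (EM n (CP i * CP j))) := by
  unfold EM
  rw [Polynomial.mul_comp, Polynomial.mul_comp, Polynomial.X_pow_comp, map_mul, map_mul, map_pow]
  have h1 : PB p 1 1 (TS (-(k : ℚ)) (xM n)) := by
    unfold xM
    rw [map_pow, TS_lin]
    have h2 := D4_lin p (-(k : ℤ) + (4 * n : ℕ)) (-(k : ℚ) + ((4 * n : ℕ) : ℚ)) (by push_cast; ring)
    have := PB.pow (p := p) zero_le_one zero_le_one h2 2
    simpa using this
  have h2 : PB p 1 1 ((TS (-(k : ℚ)) (xM n)) ^ 20) := D4_pow p _ h1 20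
  exact D4_mul p _ _ h2 (D4_mul p _ _ (D4_CP_int p n k i) (D4_CP_int p n k j))

/-- counting: a block of `2n` consecutive integers has at least `⌊2n/p⌋` elements in a class -/
lemma D4_cnt_ge {p A B k N : ℕ} (hp : 0 < p) (h : B + 1 = A + N) : ((N / p : ℕ) : ℤ) ≤ cnt p A B k := by
  rw [cnt_eq p A B k hp (by omega)]
  have h1 := ediv_super ((A : ℤ) - 1 - k) (N : ℤ) p (by exact_mod_cast hp)
  have h2 : (A : ℤ) - 1 - k + N = (B : ℤ) - k := by omega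
  rw [h2] at h1
  push_cast
  linarith

/-- counting: a block of `N + 1` consecutive integers has at most `⌊N/p⌋ + 1` elements in a class -/
lemma D4_cnt_le {p A B k N : ℕ} (hp : 0 < p) (h : B = A + N) : (cnt p A B k : ℤ) ≤ ((N / p : ℕ) : ℤ) + 1 := by
  rw [cnt_eq p A B k hp (by omega)]
  have h1 := ediv_sub1 ((A : ℤ) - 1 - k) (N : ℤ) p (by exact_mod_cast hp)
  have h2 : (A : ℤ) - 1 - k + N + 1 = (B : ℤ) - k := by omega
  rw [h2] at h1
  push_cast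
  linarith

lemma D4_eM_le {n p : ℕ} (hn : 1 ≤ n) (hp : 0 < p) (k : ℕ) : eM n p k ≤ 10 := by
  have h1 := D4_cnt_le (k := k) hp (show 6 * n = 2 * n + 4 * n by ring)
  have h2 := D4_cnt_ge (k := k) hp (show (2 * n - 1) + 1 = 0 + 2 * n by omega)
  have h3 := D4_cnt_ge (k := k) hp (show 8 * n + 1 = (6 * n + 1) + 2 * n by ring)
  unfold eM Np Zp
  push_cast at h1 h2 h3 ⊢
  linarith

theorem D4_small_med_of (C2_xa : D4H1) (C2_xb : D4H2) (C4_CP_PB : D4H4) {n p : ℕ} [Fact p.Prime] (hn : 1 ≤ n)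
    (hp2 : 20 * n < p ^ 2) (q : ℕ) (α β : ℕ → ℚ)
    (hα : UInt q α) (hβ : UInt q β) (hβ3 : ∀ i < 3, β i = 0) (m : ℕ) (hm : m ≤ 5 * n) :
    padicNorm p ((q : ℚ) ^ (2 * m) * MD (AL n α) (BL n β) m) ≤
      ((p : ℚ) ^ 10) ^ (2 * m) * ((∏ i ∈ Finset.range (2 * m), padicNorm p (((2 * i - 1).factorial : ℕ) : ℚ)) *
        ∏ i ∈ Finset.range m, padicNorm p (((2 * i - 1).factorial : ℕ) : ℚ) ^ 2) := by
  have hp : p.Prime := Fact.out
  have hp1 : (1 : ℚ) ≤ p := by exact_mod_cast hp.one_lt.le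
  have hp0 : (0 : ℚ) ≤ p := by linarith
  have hPB : ∀ i j : ℕ, i < 2 * m → j < m → ∀ k : ℕ,
      PB p (p : ℚ) (D4f p i * D4f p j) (TS (-(k : ℚ)) (EM n (CP i * CP j))) := by
    intro i j hi hj k
    apply C4_CP_PB hn (p : ℚ) hp1 _ i j (by omega) (by omega) k
    intro l hl1 hl2
    have h1 := norm_small (p := p) (a := (l : ℤ)) (by omega) (by
      rw [abs_of_nonneg (by positivity)]
      have h2 : l < p ^ 2 := by omega
      exact_mod_cast h2)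
    rw [Int.cast_natCast] at h1
    rw [h1]
    split_ifs
    · rw [inv_inv]
    · rw [inv_one]; exact hp1
  apply D4_aux q α β m _ (by positivity)
  · intro i j hi hj
    have hA : 0 ≤ D4f p i * D4f p j := mul_nonneg (D4f_nonneg p i) (D4f_nonneg p j)
    apply C2_xa hn (by omega) q α hα (EM n (CP i * CP j)) _ (mul_nonneg (by positivity) hA)
      (fun _ => D4f p i * D4f p j) (fun _ => hA) (fun k _ => hPB i j hi hj k)
      (fun k _ => D4_EM_int p n k i j)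
    intro k _
    left
    apply mul_le_mul_of_nonneg_right _ hA
    rw [← zpow_natCast (p : ℚ) 10]
    exact zpow_le_zpow_right₀ hp1 (D4_eM_le hn hp.pos k)
  · intro i j hi hj
    have hA : 0 ≤ D4f p i * D4f p j := mul_nonneg (D4f_nonneg p i) (D4f_nonneg p j)
    apply C2_xb hn (by omega) q β hβ hβ3 (EM n (CP i * CP j)) _ (mul_nonneg (by positivity) hA)
      (fun _ => D4f p i * D4f p j) (fun _ => hA) (fun k _ => hPB i j hi hj k)
      (fun k _ => D4_EM_int p n k i j)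
    intro k _
    left
    apply mul_le_mul_of_nonneg_right _ hA
    rw [← zpow_natCast (p : ℚ) 10]
    apply zpow_le_zpow_right₀ hp1
    have := D4_eM_le hn hp.pos k
    push_cast
    linarith

theorem D4_small_crude_of (C3_crude : D4H3) (C4_CP_PB : D4H4) {n p : ℕ} [Fact p.Prime] (hn : 1 ≤ n) (q : ℕ)
    (α β : ℕ → ℚ) (hα : UInt q α) (hβ : UInt q β) (_hβ3 : ∀ i < 3, β i = 0) (m : ℕ) (hm : m ≤ 5 * n) :
    padicNorm p ((q : ℚ) ^ (2 * m) * MD (AL n α) (BL n β) m) ≤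
      (((20 * n + 1 : ℕ) : ℚ) ^ 40) ^ (2 * m) *
        ((∏ i ∈ Finset.range (2 * m), padicNorm p (((2 * i - 1).factorial : ℕ) : ℚ)) *
        ∏ i ∈ Finset.range m, padicNorm p (((2 * i - 1).factorial : ℕ) : ℚ) ^ 2) := by
  have hPB : ∀ i j : ℕ, i < 2 * m → j < m → ∀ k : ℕ,
      PB p ((20 * n + 1 : ℕ) : ℚ) (D4f p i * D4f p j) (TS (-(k : ℚ)) (EM n (CP i * CP j))) := by
    intro i j hi hj k
    apply C4_CP_PB hn _ (by exact_mod_cast (by omega : 1 ≤ 20 * n + 1)) _ i j (by omega) (by omega) k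
    intro l hl1 hl2
    have h1 := norm_inv_le (p := p) (a := (l : ℤ)) (by omega) (M := ((20 * n + 1 : ℕ) : ℚ)) (by
      rw [Int.cast_natCast, abs_of_nonneg (by positivity)]
      exact_mod_cast (by omega : l ≤ 20 * n + 1))
    rw [Int.cast_natCast] at h1
    exact h1
  apply D4_aux q α β m _ (pow_nonneg (Nat.cast_nonneg _) _)
  · intro i j hi hj
    exact (C3_crude hn q α hα (EM n (CP i * CP j)) _
      (mul_nonneg (D4f_nonneg p i) (D4f_nonneg p j)) (fun k _ => hPB i j hi hj k)).1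
  · intro i j hi hj
    exact (C3_crude hn q β hβ (EM n (CP i * CP j)) _
      (mul_nonneg (D4f_nonneg p i) (D4f_nonneg p j)) (fun k _ => hPB i j hi hj k)).2

end

end Pool.Agent.H574R2.D9
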