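import Pool.Agent.H337R2.Med
import Pool.Agent.H337R2.PsiCert3
import Pool.Agent.H574R2.D3.Defs
import Pool.Agent.H337R2.LZ.Defs

/-!
# Three Q-linearly independent numbers among `1, ζ(3), ζ(5), ζ(7), ζ(9)`: definitions

`R(t) = ((4n)!)^10 / ((2n)!)^2 (2t+8n) ∏_{m=0}^{2n-1} (t+m) ∏_{m=6n+1}^{8n} (t+m) / ∏_{k=2n}^{6n} (t+k)^10`,
`x(t) = (t+4n)^2`. With `v = t + 4n`: poles `|v| ≤ 2n`, zeros `2n < |v| ≤ 4n`.
The numerator is multiplied by `x^20 Q(x)`.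
-/

open Polynomial Pool.Agent.H337R2

namespace Pool.Agent.H574R2.D9

noncomputable section

/-- mixed Hankel determinant of size `2m` -/
abbrev MD := Pool.Agent.H574R2.D3.MD

/-- common denominators -/
abbrev UInt := Pool.Agent.H574R2.D3.UInt

/-- `y(y+1)/2` for `y > 0` -/
abbrev T1 := Pool.Agent.H574R2.D3.T1

/-- `⌊(y+1)²/3⌋` for `y > 0` -/
abbrev T3 := Pool.Agent.H574R2.D3.T3

/-- tents `(a - j p)^+` -/
abbrev tn := Pool.Agent.H574R2.D3.tn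

/-- `∫_{lo}^{hi} (α - j y)_+ dy` -/
abbrev It := Pool.Agent.H574R2.D3.It

/-- limit of the floor sums (`J` terms) -/
abbrev Ifl := Pool.Agent.H574R2.D3.Ifl

/-- polynomials with zeros (in `v`) at `0, ±1, ±2, ...` -/
abbrev CP := Pool.Agent.H574R2.D3.CP

/-- the poles are at `-k`, `2n ≤ k ≤ 6n` -/
abbrev sM (n : ℕ) : Finset ℕ := Finset.Icc (2 * n) (6 * n)

/-- all poles have order 10 -/
abbrev mM : ℕ → ℕ := fun _ => 10

/-- `(4n)!^10 / (2n)!^2` -/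
def cM (n : ℕ) : ℚ := ((4 * n).factorial : ℚ) ^ 10 / ((2 * n).factorial : ℚ) ^ 2

/-- the zeros -/
def ZM (n : ℕ) : ℚ[X] :=
  (∏ m ∈ Finset.range (2 * n), (X + C (m : ℚ))) * ∏ m ∈ Finset.Icc (6 * n + 1) (8 * n), (X + C (m : ℚ))

/-- numerator -/
def PM (n : ℕ) : ℚ[X] := C (cM n) * (2 * X + C ((8 * n : ℕ) : ℚ)) * ZM n

/-- `x(t) = (t + 4n)^2` -/
def xM (n : ℕ) : ℚ[X] := (X + C ((4 * n : ℕ) : ℚ)) ^ 2

/-- `x^20 Q(x)` as a polynomial in `t` -/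
def EM (n : ℕ) (Q : ℚ[X]) : ℚ[X] := (X ^ 20 * Q).comp (xM n)

/-- coefficient of `ζ(i)` -/
def rho (n : ℕ) (P : ℚ[X]) (i : ℕ) : ℚ := ∑ k ∈ sM n, pa (sM n) mM P k i

/-- the linear form with `ζ(i)` replaced by `α i` -/
def xa (n : ℕ) (α : ℕ → ℚ) (P : ℚ[X]) : ℚ :=
  ∑ i ∈ Finset.Icc 1 10, (rho n P i * α i - ∑ k ∈ sM n, pa (sM n) mM P k i * hs i (k - 2 * n))

/-- the linear form in the coefficients -/
def xb (n : ℕ) (β : ℕ → ℚ) (P : ℚ[X]) : ℚ := ∑ i ∈ Finset.Icc 1 10, rho n P i * β i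

lemma pa_add (s : Finset ℕ) (μ : ℕ → ℕ) (P Q : ℚ[X]) (k i : ℕ) :
    pa s μ (P + Q) k i = pa s μ P k i + pa s μ Q k i :=
  Pool.Agent.H574R2.D3.pa_add s μ P Q k i

lemma pa_C_mul (s : Finset ℕ) (μ : ℕ → ℕ) (c : ℚ) (P : ℚ[X]) (k i : ℕ) :
    pa s μ (C c * P) k i = c * pa s μ P k i :=
  Pool.Agent.H574R2.D3.pa_C_mul s μ c P k i

lemma rho_add (n : ℕ) (P Q : ℚ[X]) (i : ℕ) : rho n (P + Q) i = rho n P i + rho n Q i := by
  unfold rho
  rw [← Finset.sum_add_distrib]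
  exact Finset.sum_congr rfl fun k _ => pa_add _ _ _ _ _ _

lemma rho_C_mul (n : ℕ) (c : ℚ) (P : ℚ[X]) (i : ℕ) : rho n (C c * P) i = c * rho n P i := by
  unfold rho
  rw [Finset.mul_sum]
  exact Finset.sum_congr rfl fun k _ => pa_C_mul _ _ _ _ _ _

lemma xa_add (n : ℕ) (α : ℕ → ℚ) (P Q : ℚ[X]) : xa n α (P + Q) = xa n α P + xa n α Q := by
  unfold xa
  rw [← Finset.sum_add_distrib]
  apply Finset.sum_congr rfl
  intro i _
  simp only [rho_add, pa_add, add_mul, Finset.sum_add_distrib]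
  ring

lemma xa_C_mul (n : ℕ) (α : ℕ → ℚ) (c : ℚ) (P : ℚ[X]) : xa n α (C c * P) = c * xa n α P := by
  unfold xa
  rw [Finset.mul_sum]
  apply Finset.sum_congr rfl
  intro i _
  simp only [rho_C_mul, pa_C_mul, mul_sub, Finset.mul_sum]
  congr 1
  · ring
  · exact Finset.sum_congr rfl fun k _ => by ring

lemma xb_add (n : ℕ) (β : ℕ → ℚ) (P Q : ℚ[X]) : xb n β (P + Q) = xb n β P + xb n β Q := by
  unfold xb
  rw [← Finset.sum_add_distrib]
  exact Finset.sum_congr rfl fun i _ => by rw [rho_add, add_mul]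

lemma xb_C_mul (n : ℕ) (β : ℕ → ℚ) (c : ℚ) (P : ℚ[X]) : xb n β (C c * P) = c * xb n β P := by
  unfold xb
  rw [Finset.mul_sum]
  exact Finset.sum_congr rfl fun i _ => by rw [rho_C_mul, mul_assoc]

lemma EM_add (n : ℕ) (P Q : ℚ[X]) : EM n (P + Q) = EM n P + EM n Q := by
  unfold EM
  rw [mul_add, Polynomial.add_comp]

lemma EM_C_mul (n : ℕ) (c : ℚ) (P : ℚ[X]) : EM n (C c * P) = C c * EM n P := by
  unfold EM
  rw [mul_left_comm, Polynomial.mul_comp, Polynomial.C_comp]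

/-- the functional `A` -/
def AL (n : ℕ) (α : ℕ → ℚ) : ℚ[X] →ₗ[ℚ] ℚ where
  toFun Q := xa n α (PM n * EM n Q)
  map_add' P Q := by rw [EM_add, mul_add, xa_add]
  map_smul' c P := by
    rw [RingHom.id_apply, Polynomial.smul_eq_C_mul, EM_C_mul, mul_left_comm, xa_C_mul, smul_eq_mul]

/-- the functional `B` -/
def BL (n : ℕ) (β : ℕ → ℚ) : ℚ[X] →ₗ[ℚ] ℚ where
  toFun Q := xb n β (PM n * EM n Q)
  map_add' P Q := by rw [EM_add, mul_add, xb_add]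
  map_smul' c P := by
    rw [RingHom.id_apply, Polynomial.smul_eq_C_mul, EM_C_mul, mul_left_comm, xb_C_mul, smul_eq_mul]

lemma AL_apply (n : ℕ) (α : ℕ → ℚ) (Q : ℚ[X]) : AL n α Q = xa n α (PM n * EM n Q) := rfl

lemma BL_apply (n : ℕ) (β : ℕ → ℚ) (Q : ℚ[X]) : BL n β Q = xb n β (PM n * EM n Q) := rfl

/-- the determinant of size `10n-10` -/
def DD (n : ℕ) (α β : ℕ → ℚ) : ℚ := MD (AL n α) (BL n β) (5 * n - 5)

/-- number of poles congruent to `-k` -/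
def Np (n p k : ℕ) : ℕ := cnt p (2 * n) (6 * n) k

/-- number of zeros congruent to `k` -/
def Zp (n p k : ℕ) : ℕ := cnt p 0 (2 * n - 1) k + cnt p (6 * n + 1) (8 * n) k

/-- the exponent `e_p(k)` -/
def eM (n p k : ℕ) : ℤ :=
  10 * (Np n p k : ℤ) - Zp n p k - (10 * ((4 * n / p : ℕ) : ℤ) - 2 * ((2 * n / p : ℕ) : ℤ))

/-- cost of a class with two poles: `E = e + 10` -/
def T2s (E : ℤ) : ℤ := T1 (E / 2) + T1 (E - E / 2)

/-- representative of the class pair of `k` (for `k ≤ 8 n`) -/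
def kap (n p k : ℕ) : ℕ := min (k % p) ((8 * n - k) % p)

/-- the set of class pairs -/
def Kset (n p : ℕ) : Finset ℕ := (Finset.range p).filter fun r => r ≤ (8 * n - r) % p

/-- the class pairs with two poles (`2n < p < 4n`) -/
def Kfull (n p : ℕ) : Finset ℕ := (Finset.Icc (2 * n + p) (6 * n)).image (kap n p)

/-- exponent for `n/50 < p ≤ 2n` -/
def EA (n p : ℕ) : ℝ :=
  187 / 3 * n - 100 * (n * ((4 * n / p : ℕ) : ℝ)) + 20 * (n * ((2 * n / p : ℕ) : ℝ)) - 6 * (n ^ 2 / p) + p / 6 +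
    ∑ j ∈ Finset.Icc 1 400, (121 / 3 * tn (4 * n) j p - 22 / 3 * tn (6 * n) j p + 22 / 3 * tn (2 * n) j p
      + 1 / 3 * tn (8 * n) j p)

/-- exponent for `2n < p < 3n` -/
def EB (n p : ℕ) : ℝ := 60 * n - 35 * p

/-- exponent for `3n < p < 4n` -/
def EC (n p : ℕ) : ℝ := 120 * n - 55 * p

/-- the exponent -/
def EW (n p : ℕ) : ℝ := if p ≤ 2 * n then EA n p else if p ≤ 3 * n then EB n p else EC n p

/-- primes between `lo n` and `hi n` -/
def PS (lo hi : ℝ) (n : ℕ) : Finset ℕ := by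
  classical exact (Finset.range (21 * n)).filter (fun p : ℕ => p.Prime ∧ lo * n < p ∧ (p : ℝ) < hi * n)

/-- rational part of the limit for `n/50 < p < 2n` -/
def LA : ℚ := 187 / 3 * (2 - 1 / 50) - 100 * Ifl 4 200 (1 / 50) 2 + 20 * Ifl 2 100 (1 / 50) 2 + (2 ^ 2 - (1 / 50) ^ 2) / 12 +
  ∑ j ∈ Finset.Icc 1 400, (121 / 3 * It 4 j (1 / 50) 2 - 22 / 3 * It 6 j (1 / 50) 2 + 22 / 3 * It 2 j (1 / 50) 2
    + 1 / 3 * It 8 j (1 / 50) 2)

def LB : ℚ := -(55 / 2)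

def LC : ℚ := -(145 / 2)

def LU : ℚ := ∑ j ∈ Finset.Icc 1 1000, (1 / 2 * It 20 j (1 / 50) 20 + It 10 j (1 / 50) 20)

/-! ### Nodes for the archimedean part (coordinate `u = 20 v`) -/

/-- start of the brick `g` (divided by `n`) -/
def bb : ℕ → ℤ
  | 0 => 80
  | 1 => 100
  | 2 => 120
  | 3 => 134
  | 4 => 184
  | 5 => 0
  | 6 => 6
  | 7 => 12
  | 8 => 18
  | 9 => 25
  | _ => 0

/-- step of the brick `g` -/
def cc : ℕ → ℕ
  | 0 => 20
  | 1 => 20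
  | 2 => 14
  | 3 => 50
  | 4 => 143
  | 5 => 6
  | 6 => 6
  | 7 => 6
  | 8 => 7
  | 9 => 10
  | _ => 1

/-- the nodes (times 20), `i < 10 (n-1)`: `i < 2n-1` are the summation points `v = 4n+1+i`; the first `5(n-1)` nodes
are for the zeta part, the others for the pole part; the brick of `i` is `i / (n-1)` -/
def nd (n i : ℕ) : ℤ :=
  if i < 2 * n - 1 then 20 * (4 * n + 1 + i) else bb (i / (n - 1)) * n + cc (i / (n - 1)) * ((i % (n - 1) : ℕ) : ℤ)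

/-- the nodes in the variable `x = v²` -/
def zq (n i : ℕ) : ℚ := ((nd n i : ℚ) / 20) ^ 2

/-- `∏_{j ∈ s, j ≠ i} (X - z_j)` -/
abbrev lag := Pool.Agent.LZ.lag

/-- `∏_{i, j ∈ s, i ≠ j} |z_i - z_j|` -/
abbrev VD := Pool.Agent.LZ.VD

/-- the value `R(v) v^40` at an integer `v > 4n` -/
def wv (n v : ℕ) : ℝ :=
  (((4 * n).factorial : ℝ) ^ 10 / ((2 * n).factorial : ℝ) ^ 2) * (2 * v) * ((v + 4 * n).factorial / (v + 2 * n).factorial) *
    ((v - 2 * n - 1).factorial / (v - 4 * n - 1).factorial) *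
    ((v - 2 * n - 1).factorial / (v + 2 * n).factorial) ^ 10 * (v : ℝ) ^ 40

/-- `∑ log |x - z_i|` at `x = (u/20)²` over the nodes with index in `s` (with `Real.log 0 = 0`) -/
def Lp (n : ℕ) (s : Finset ℕ) (u : ℤ) : ℝ :=
  ∑ i ∈ s, (Real.log (((u - nd n i : ℤ) : ℝ) / 20) + Real.log (((u + nd n i : ℤ) : ℝ) / 20))

/-- potential of the brick `g` (with its mirror image) -/
def Ub (g : ℕ) (w : ℝ) : ℝ :=
  ((Psi (w - bb g) - Psi (w - bb g - cc g)) + (Psi (w + bb g + cc g) - Psi (w + bb g))) / cc g - 2 * Real.log 20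

/-- `log R(v) = n φ(20 v / n) + O(log n)` -/
def phi (w : ℝ) : ℝ :=
  (Psi (w + 80) - 11 * Psi (w + 40) + 11 * Psi (w - 40) - Psi (w - 80)) / 20 + 148 * Real.log 2 + 36 * Real.log 5 - 36

/-- total potentials -/
def FN (w : ℝ) : ℝ := phi w + 2 * ∑ g ∈ Finset.range 5, Ub g w + ∑ g ∈ Finset.Ico 5 10, Ub g w

def FY (w : ℝ) : ℝ := phi w + ∑ g ∈ Finset.range 5, Ub g w + 2 * ∑ g ∈ Finset.Ico 5 10, Ub g w

/-- antiderivative of `Ψ` -/
abbrev GG := Pool.Agent.LZ.GG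

/-- mutual energy of two bricks (with mirror images) -/
def en (g h : ℕ) : ℝ :=
  ((GG (bb g + cc g - bb h) - GG (bb g + cc g - bb h - cc h) - GG (bb g - bb h) + GG (bb g - bb h - cc h)) +
    (GG (bb g + cc g + bb h + cc h) - GG (bb g + cc g + bb h) - GG (bb g + bb h + cc h) + GG (bb g + bb h))) /
    (cc g * cc h) - 2 * Real.log 20

/-- `∫_80^120 φ / 20` -/
def iphi : ℝ :=
  (((GG 200 - GG 160) - 11 * (GG 160 - GG 120) + 11 * (GG 80 - GG 40) - GG 40) / 20 +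
    40 * (148 * Real.log 2 + 36 * Real.log 5 - 36)) / 20

/-- saturated part of the energy -/
def eS : ℝ := iphi + ∑ g ∈ Finset.range 2, ∑ h ∈ Finset.range 2, en g h

/-- energy of the other nodes -/
def eN : ℝ := ∑ g ∈ Finset.Ico 2 5, ∑ h ∈ Finset.Ico 2 5, en g h + ∑ g ∈ Finset.Ico 2 5, ∑ h ∈ Finset.Ico 5 10, en g h +
  ∑ g ∈ Finset.Ico 5 10, ∑ h ∈ Finset.Ico 5 10, en g h

/-! ### Local objects for the non-vanishing at `n = p` -/

/-- node polynomial `x - x(-r)` -/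
def XN (n r : ℕ) : ℚ[X] := X - C (((4 * n : ℕ) : ℚ) - r) ^ 2

/-- local power series at the pole `j` (non-vanishing, `n = p`) -/
def ser (j e : ℕ) : PowerSeries ℚ :=
  (∏ i ∈ ({0, 1, 6, 7} : Finset ℕ), (PowerSeries.X + PowerSeries.C ((i : ℚ) - j))) *
  (∏ b ∈ (Finset.Icc 2 5).erase j, iv ((b : ℚ) - j) ^ 10) * (PowerSeries.X + PowerSeries.C (-(j : ℚ))) ^ e

/-- local functional `A` on monomials -/
def Fm (e : ℕ) : ℚ :=
  - ∑ j ∈ Finset.Icc 2 5, ∑ i ∈ Finset.Icc 1 10,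
    PowerSeries.coeff (10 - i) (ser j e) * (hs i (j - 2) + (-1) ^ (i + 1) * hs i (5 - j))

/-- local functional `B` on monomials -/
def Bm (i0 e : ℕ) : ℚ := 2 * ∑ j ∈ Finset.Icc 2 5, PowerSeries.coeff (10 - i0) (ser j e)

/-- the other class pairs, with multiplicity `c` -/
def OT (p r c : ℕ) : ℚ[X] := ∏ r' ∈ (Finset.Icc 1 ((p - 1) / 2)).erase r, XN p r' ^ c

end

end Pool.Agent.H574R2.D9
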