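import Pool.Agent.H574R2.D9.Defs

/-! Task E2z of D9 (helper365), after helper697's v1 module. -/

set_option linter.constructorNameAsVariable false

open Polynomial Pool.Agent.H337R2 Filter Topology

namespace Pool.Agent.H574R2.D9

noncomputable section

/-- pairs in the same residue class -/
lemma E2z_pairs (p A B A' B' : ℕ) (hp : 0 < p) :
    ((Finset.Icc A B ×ˢ Finset.Icc A' B').filter fun x : ℕ × ℕ => (p : ℤ) ∣ (x.1 : ℤ) - x.2).card ≤
      ∑ r ∈ Finset.range p, cnt p A B r * cnt p A' B' r := by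
  classical
  set S := (Finset.Icc A B ×ˢ Finset.Icc A' B').filter fun x : ℕ × ℕ => (p : ℤ) ∣ (x.1 : ℤ) - x.2
    with hS
  have h1 : S.card = ∑ r ∈ Finset.range p, (S.filter (fun x => x.1 % p = r)).card :=
    Finset.card_eq_sum_card_fiberwise (fun x _ => Finset.mem_coe.2
      (Finset.mem_range.2 (Nat.mod_lt _ hp)))
  rw [h1]
  apply Finset.sum_le_sum
  intro r _
  unfold cnt
  rw [← Finset.card_product]
  apply Finset.card_le_card
  rintro ⟨x, y⟩ hx
  rw [Finset.mem_filter, hS, Finset.mem_filter, Finset.mem_product] at hx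
  obtain ⟨⟨⟨hx1, hy1⟩, hd⟩, hr⟩ := hx
  simp only at hx1 hy1 hd hr
  rw [Finset.mem_product, Finset.mem_filter, Finset.mem_filter]
  have hxr : (p : ℤ) ∣ (x : ℤ) - r := by
    refine ⟨(x / p : ℕ), ?_⟩
    have h2 := Nat.div_add_mod x p
    have h3 : (x : ℤ) = p * ((x / p : ℕ) : ℤ) + ((x % p : ℕ) : ℤ) := by exact_mod_cast h2.symm
    rw [← hr]
    linarith
  refine ⟨⟨hx1, hxr⟩, hy1, ?_⟩
  have : (y : ℤ) - r = ((x : ℤ) - r) - ((x : ℤ) - y) := by ring
  rw [this]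
  exact Int.dvd_sub hxr hd

lemma E2z_one {n p : ℕ} (hn : 1 ≤ n) (hp : 0 < p) :
    ∑ j ∈ Finset.Icc 1 400, (6 * n - j * p) ≤
      ∑ r ∈ Finset.range p, cnt p (2 * n) (6 * n) r * cnt p 0 (2 * n - 1) r +
        ∑ j ∈ Finset.Icc 1 400, ((4 * n - j * p) + (2 * n - j * p)) := by
  classical
  have h1 := E2z_pairs p (2 * n) (6 * n) 0 (2 * n - 1) hp
  refine le_trans ?_ (Nat.add_le_add_right h1 _)
  set T : ℕ → Finset (ℕ × ℕ) := fun j =>
    (Finset.Ico (2 * n - j * p) (min (2 * n) (6 * n + 1 - j * p))).image (fun z => (z + j * p, z))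
    with hT
  have hcard : ∀ j, (T j).card = min (2 * n) (6 * n + 1 - j * p) - (2 * n - j * p) := by
    intro j
    rw [hT]
    simp only
    rw [Finset.card_image_of_injective _ (fun a b h => (Prod.mk.inj h).2), Nat.card_Ico]
  have hdisj : Set.PairwiseDisjoint ((Finset.Icc 1 400 : Finset ℕ) : Set ℕ) T := by
    intro i _ j _ hij
    rw [Function.onFun, Finset.disjoint_left]
    rintro ⟨x, y⟩ h2 h3
    rw [hT, Finset.mem_image] at h2 h3
    obtain ⟨z, _, hz⟩ := h2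
    obtain ⟨z', _, hz'⟩ := h3
    rw [Prod.mk.injEq] at hz hz'
    apply hij
    have : i * p = j * p := by omega
    exact Nat.eq_of_mul_eq_mul_right hp this
  have hsub : (Finset.Icc 1 400).biUnion T ⊆ ((Finset.Icc (2 * n) (6 * n) ×ˢ Finset.Icc 0 (2 * n - 1)).filter
      fun x : ℕ × ℕ => (p : ℤ) ∣ (x.1 : ℤ) - x.2) := by
    rintro ⟨x, y⟩ h2
    rw [Finset.mem_biUnion] at h2
    obtain ⟨j, _, hj⟩ := h2
    rw [hT, Finset.mem_image] at hj
    obtain ⟨z, hz, hz'⟩ := hj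
    rw [Prod.mk.injEq] at hz'
    obtain ⟨rfl, rfl⟩ := hz'
    rw [Finset.mem_Ico] at hz
    rw [Finset.mem_filter, Finset.mem_product, Finset.mem_Icc, Finset.mem_Icc]
    refine ⟨⟨?_, ?_⟩, ?_⟩
    · simp only; omega
    · simp only; omega
    · simp only
      refine ⟨j, ?_⟩
      push_cast
      ring
  have h2 := Finset.card_le_card hsub
  rw [Finset.card_biUnion hdisj] at h2
  refine le_trans ?_ (Nat.add_le_add_right h2 _)
  rw [← Finset.sum_add_distrib]
  apply Finset.sum_le_sum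
  intro j hj
  rw [hcard]
  rw [Finset.mem_Icc] at hj
  have : 1 ≤ j * p := Nat.mul_pos hj.1 hp
  omega

lemma E2z_two {n p : ℕ} (hn : 1 ≤ n) (hp : 0 < p) :
    ∑ j ∈ Finset.Icc 1 400, (6 * n - j * p) ≤
      ∑ r ∈ Finset.range p, cnt p (2 * n) (6 * n) r * cnt p (6 * n + 1) (8 * n) r +
        ∑ j ∈ Finset.Icc 1 400, ((4 * n - j * p) + (2 * n - j * p)) := by
  classical
  have h1 := E2z_pairs p (2 * n) (6 * n) (6 * n + 1) (8 * n) hp
  refine le_trans ?_ (Nat.add_le_add_right h1 _)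
  set T : ℕ → Finset (ℕ × ℕ) := fun j =>
    (Finset.Icc (max (2 * n) (6 * n + 1 - j * p)) (min (6 * n) (8 * n - j * p))).image
      (fun z => (z, z + j * p)) with hT
  have hcard : ∀ j, (T j).card =
      min (6 * n) (8 * n - j * p) + 1 - max (2 * n) (6 * n + 1 - j * p) := by
    intro j
    rw [hT]
    simp only
    rw [Finset.card_image_of_injective _ (fun a b h => (Prod.mk.inj h).1), Nat.card_Icc]
  have hdisj : Set.PairwiseDisjoint ((Finset.Icc 1 400 : Finset ℕ) : Set ℕ) T := by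
    intro i _ j _ hij
    rw [Function.onFun, Finset.disjoint_left]
    rintro ⟨x, y⟩ h2 h3
    rw [hT, Finset.mem_image] at h2 h3
    obtain ⟨z, _, hz⟩ := h2
    obtain ⟨z', _, hz'⟩ := h3
    rw [Prod.mk.injEq] at hz hz'
    apply hij
    have : i * p = j * p := by omega
    exact Nat.eq_of_mul_eq_mul_right hp this
  have hsub : (Finset.Icc 1 400).biUnion T ⊆
      ((Finset.Icc (2 * n) (6 * n) ×ˢ Finset.Icc (6 * n + 1) (8 * n)).filter
      fun x : ℕ × ℕ => (p : ℤ) ∣ (x.1 : ℤ) - x.2) := by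
    rintro ⟨x, y⟩ h2
    rw [Finset.mem_biUnion] at h2
    obtain ⟨j, _, hj⟩ := h2
    rw [hT, Finset.mem_image] at hj
    obtain ⟨z, hz, hz'⟩ := hj
    rw [Prod.mk.injEq] at hz'
    obtain ⟨rfl, rfl⟩ := hz'
    rw [Finset.mem_Icc] at hz
    rw [Finset.mem_filter, Finset.mem_product, Finset.mem_Icc, Finset.mem_Icc]
    refine ⟨⟨?_, ?_⟩, ?_⟩
    · simp only; omega
    · simp only; omega
    · simp only
      refine ⟨-j, ?_⟩
      push_cast
      ring
  have h2 := Finset.card_le_card hsub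
  rw [Finset.card_biUnion hdisj] at h2
  refine le_trans ?_ (Nat.add_le_add_right h2 _)
  rw [← Finset.sum_add_distrib]
  apply Finset.sum_le_sum
  intro j hj
  rw [hcard]
  rw [Finset.mem_Icc] at hj
  have : 1 ≤ j * p := Nat.mul_pos hj.1 hp
  omega

/-- poles-zeros -/
theorem E2_PZ {n p : ℕ} (hn : 1 ≤ n) (hp : p.Prime) (hpn : n < 50 * p) :
    2 * ∑ j ∈ Finset.Icc 1 400, (tn (6 * n) j p - tn (4 * n) j p - tn (2 * n) j p) - 1000 ≤
      ((∑ r ∈ Finset.range p, Np n p r * Zp n p r : ℕ) : ℝ) := by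
  have _ := hpn
  have h1 := E2z_one hn hp.pos
  have h2 := E2z_two hn hp.pos
  have h3 : ∑ r ∈ Finset.range p, Np n p r * Zp n p r =
      ∑ r ∈ Finset.range p, cnt p (2 * n) (6 * n) r * cnt p 0 (2 * n - 1) r +
      ∑ r ∈ Finset.range p, cnt p (2 * n) (6 * n) r * cnt p (6 * n + 1) (8 * n) r := by
    rw [← Finset.sum_add_distrib]
    apply Finset.sum_congr rfl
    intro r _
    unfold Np Zp
    ring
  rw [h3]
  have h1' : ((∑ j ∈ Finset.Icc 1 400, (6 * n - j * p) : ℕ) : ℝ) ≤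
      ((∑ r ∈ Finset.range p, cnt p (2 * n) (6 * n) r * cnt p 0 (2 * n - 1) r +
        ∑ j ∈ Finset.Icc 1 400, ((4 * n - j * p) + (2 * n - j * p)) : ℕ) : ℝ) := by exact_mod_cast h1
  have h2' : ((∑ j ∈ Finset.Icc 1 400, (6 * n - j * p) : ℕ) : ℝ) ≤
      ((∑ r ∈ Finset.range p, cnt p (2 * n) (6 * n) r * cnt p (6 * n + 1) (8 * n) r +
        ∑ j ∈ Finset.Icc 1 400, ((4 * n - j * p) + (2 * n - j * p)) : ℕ) : ℝ) := by exact_mod_cast h2
  have h4 : ∑ j ∈ Finset.Icc 1 400, (tn (6 * n) j p - tn (4 * n) j p - tn (2 * n) j p) =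
      ((∑ j ∈ Finset.Icc 1 400, (6 * n - j * p) : ℕ) : ℝ) -
      ((∑ j ∈ Finset.Icc 1 400, ((4 * n - j * p) + (2 * n - j * p)) : ℕ) : ℝ) := by
    rw [Nat.cast_sum, Nat.cast_sum, ← Finset.sum_sub_distrib]
    apply Finset.sum_congr rfl
    intro j _
    unfold tn Pool.Agent.H574R2.D3.tn
    rw [Nat.cast_add]
    ring
  rw [h4]
  rw [Nat.cast_add] at h1' h2' ⊢
  linarith

end

end Pool.Agent.H574R2.D9
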