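import Pool.Agent.H574R2.D9.Defs
import Pool.Agent.H336R2.HD.E3Base

/-! Task E3A. -/

open Polynomial Pool.Agent.H337R2

namespace Pool.Agent.H574R2.D9

noncomputable section

lemma e3a_Np_congr {n p k k' : ℕ} (h : k % p = k' % p) : Np n p k = Np n p k' := by
  unfold Np
  rw [Pool.Agent.H336R2.HD.D2_cnt_congr h]

lemma e3a_Zp_congr {n p k k' : ℕ} (h : k % p = k' % p) : Zp n p k = Zp n p k' := by
  unfold Zp
  rw [Pool.Agent.H336R2.HD.D2_cnt_congr h, Pool.Agent.H336R2.HD.D2_cnt_congr (A := 6 * n + 1) h]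

lemma e3a_Np_refl {n p k : ℕ} (hk : k ≤ 8 * n) : Np n p (8 * n - k) = Np n p k := by
  unfold Np
  rw [Pool.Agent.H336R2.HD.D2_cnt_refl (by omega) (by omega) hk]
  have h1 : 8 * n - 6 * n = 2 * n := by omega
  have h2 : 8 * n - 2 * n = 6 * n := by omega
  rw [h1, h2]

lemma e3a_Zp_refl {n p k : ℕ} (hn : 1 ≤ n) (hk : k ≤ 8 * n) : Zp n p (8 * n - k) = Zp n p k := by
  unfold Zp
  rw [Pool.Agent.H336R2.HD.D2_cnt_refl (by omega) (by omega) hk,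
    Pool.Agent.H336R2.HD.D2_cnt_refl (A := 6 * n + 1) (by omega) (by omega) hk]
  have h1 : 8 * n - (2 * n - 1) = 6 * n + 1 := by omega
  have h2 : 8 * n - 0 = 8 * n := by omega
  have h3 : 8 * n - 8 * n = 0 := by omega
  have h4 : 8 * n - (6 * n + 1) = 2 * n - 1 := by omega
  rw [h1, h2, h3, h4, add_comm]

lemma e3a_eM_sym {n p r : ℕ} (hn : 1 ≤ n) (hr : r ≤ 8 * n) : eM n p r = eM n p ((8 * n - r) % p) := by
  unfold eM
  rw [e3a_Np_congr (Nat.mod_mod (8 * n - r) p), e3a_Zp_congr (Nat.mod_mod (8 * n - r) p),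
    e3a_Np_refl hr, e3a_Zp_refl hn hr]

lemma e3a_Np_le {n p : ℕ} (hp : 0 < p) (hpn : n < 50 * p) (r : ℕ) : Np n p r ≤ 200 := by
  have h1 := Pool.Agent.H336R2.HD.E3_cnt_le p (2 * n) (6 * n) r hp (by omega)
  have h2 : (((6 * n : ℕ) : ℤ) - ((2 * n : ℕ) : ℤ) + 1) / (p : ℤ) ≤ 199 := by
    have h3 : (((6 * n : ℕ) : ℤ) - ((2 * n : ℕ) : ℤ) + 1) / (p : ℤ) < 200 := by
      apply Int.ediv_lt_of_lt_mul (by exact_mod_cast hp)
      push_cast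
      omega
    omega
  have h4 : ((Np n p r : ℕ) : ℤ) ≤ 200 := by
    unfold Np
    linarith
  exact_mod_cast h4

lemma e3a_T3_le (y : ℤ) : ((T3 (y - 1) : ℤ) : ℝ) ≤ (y : ℝ) ^ 2 / 3 := by
  unfold T3 Pool.Agent.H574R2.D3.T3
  split_ifs
  · rw [sub_add_cancel]
    have h1 : y ^ 2 / 3 * 3 ≤ y ^ 2 := Int.ediv_mul_le _ (by norm_num)
    have h2 : ((y ^ 2 / 3 : ℤ) : ℝ) * 3 ≤ (y : ℝ) ^ 2 := by exact_mod_cast h1
    linarith
  · simp only [Int.cast_zero]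
    positivity

lemma e3a_T3_bd (y B : ℤ) (hB : 0 ≤ B) (hy : y ≤ B) : T3 (y - 1) ≤ B ^ 2 := by
  unfold T3 Pool.Agent.H574R2.D3.T3
  split_ifs with h
  · rw [sub_add_cancel]
    have h1 : y ^ 2 ≤ B ^ 2 := by nlinarith
    have h2 : y ^ 2 / 3 ≤ y ^ 2 := Int.ediv_le_self _ (by positivity)
    linarith
  · positivity

lemma e3a_sumN (n p : ℕ) (hp : 0 < p) : ∑ r ∈ Finset.range p, (Np n p r : ℝ) = 4 * n + 1 := by
  have h := Pool.Agent.H336R2.HD.E3_sum_cnt p (2 * n) (6 * n) hp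
  have h1 : 6 * n + 1 - 2 * n = 4 * n + 1 := by omega
  rw [h1] at h
  have h2 : ((∑ r ∈ Finset.range p, cnt p (2 * n) (6 * n) r : ℕ) : ℝ) = ((4 * n + 1 : ℕ) : ℝ) := by
    rw [h]
  push_cast at h2
  exact h2

lemma e3a_sumZ (n p : ℕ) (hn : 1 ≤ n) (hp : 0 < p) :
    ∑ r ∈ Finset.range p, (Zp n p r : ℝ) = 4 * n := by
  have h := Pool.Agent.H336R2.HD.E3_sum_cnt p 0 (2 * n - 1) hp
  have h' := Pool.Agent.H336R2.HD.E3_sum_cnt p (6 * n + 1) (8 * n) hp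
  have h1 : 2 * n - 1 + 1 - 0 = 2 * n := by omega
  have h1' : 8 * n + 1 - (6 * n + 1) = 2 * n := by omega
  rw [h1] at h
  rw [h1'] at h'
  have h2 : ((∑ r ∈ Finset.range p, Zp n p r : ℕ) : ℝ) = ((4 * n : ℕ) : ℝ) := by
    congr 1
    unfold Zp
    rw [Finset.sum_add_distrib, h, h']
    ring
  push_cast at h2
  exact h2

/-- the algebra at the end -/
lemma e3a_final (n p t q4 q2 S2 S4 S6 S8 SN2 SNZ SZ2 T : ℝ) (hp : 0 < p)
    (ht1 : t * p ≤ 6 * n) (ht2 : 6 * n ≤ (t + 1) * p) (ht0 : 0 ≤ t) (hq4 : q4 ≤ 200) (hq2 : 0 ≤ q2)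
    (h1 : SN2 ≤ 4 * n + 2 * S4 + 1000)
    (h2 : 2 * (S6 - S4 - S2) - 1000 ≤ SNZ)
    (h3 : SZ2 ≤ 4 * n + 4 * S2 + 2 * (S8 - 2 * S6 + S4) + 2000)
    (hT : 2 * T ≤ (100 * SN2 - 20 * SNZ + SZ2 - 2 * t * (10 * (4 * n + 1) - 4 * n) + p * t ^ 2) / 3
      + 2000 ^ 2) :
    (5 * n - 5) * (2 * (t + 1 - (10 * q4 - 2 * q2)) - 3) + T ≤
      187 / 3 * n - 100 * (n * q4) + 20 * (n * q2) - 6 * (n ^ 2 / p) + p / 6
        + (121 / 3 * S4 - 22 / 3 * S6 + 22 / 3 * S2 + 1 / 3 * S8) + 10 ^ 7 := by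
  have h4 : 6 * (n ^ 2 / p) + p * t ^ 2 / 6 - 2 * n * t ≤ p / 6 := by
    have e1 : 6 * (n ^ 2 / p) + p * t ^ 2 / 6 - 2 * n * t = (6 * n - t * p) ^ 2 / (6 * p) := by
      field_simp
      ring
    have e2 : p / 6 = p ^ 2 / (6 * p) := by
      field_simp
    rw [e1, e2]
    apply div_le_div_of_nonneg_right _ (by positivity)
    have h5 : 0 ≤ 6 * n - t * p := by linarith
    have h6 : 6 * n - t * p ≤ p := by linarith
    nlinarith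
  nlinarith

theorem E3_A_of
    (hE1 : ∀ {n p : ℕ} (_ : p.Prime) (_ : p ≠ 2) (_ : p < 8 * n) (f : ℕ → ℤ) (M : ℤ) (_ : 0 ≤ M)
      (_ : ∀ r < p, f r = f ((8 * n - r) % p)) (_ : ∀ r < p, f r ≤ M),
      2 * ∑ r ∈ Kset n p, f r ≤ ∑ r ∈ Finset.range p, f r + M)
    (hPP : ∀ {n p : ℕ} (_ : 1 ≤ n) (_ : p.Prime) (_ : n < 50 * p),
      ((∑ r ∈ Finset.range p, Np n p r ^ 2 : ℕ) : ℝ) ≤
      4 * n + 2 * ∑ j ∈ Finset.Icc 1 400, tn (4 * n) j p + 1000)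
    (hPZ : ∀ {n p : ℕ} (_ : 1 ≤ n) (_ : p.Prime) (_ : n < 50 * p),
      2 * ∑ j ∈ Finset.Icc 1 400, (tn (6 * n) j p - tn (4 * n) j p - tn (2 * n) j p) - 1000 ≤
      ((∑ r ∈ Finset.range p, Np n p r * Zp n p r : ℕ) : ℝ))
    (hZZ : ∀ {n p : ℕ} (_ : 1 ≤ n) (_ : p.Prime) (_ : n < 50 * p),
      ((∑ r ∈ Finset.range p, Zp n p r ^ 2 : ℕ) : ℝ) ≤
      4 * n + 4 * ∑ j ∈ Finset.Icc 1 400, tn (2 * n) j p +
        2 * ∑ j ∈ Finset.Icc 1 400, (tn (8 * n) j p - 2 * tn (6 * n) j p + tn (4 * n) j p) + 2000) :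
    ∃ K0 : ℝ, ∀ n p : ℕ, p.Prime → 7 ≤ n → n < 50 * p → p ≤ 2 * n → 20 * n < p ^ 2 → ∀ a : ℤ,
    a = ((6 * n / p : ℕ) : ℤ) + 1 - (10 * ((4 * n / p : ℕ) : ℤ) - 2 * ((2 * n / p : ℕ) : ℤ)) →
    ((((5 * n - 5 : ℕ) : ℤ) * (2 * a - 3) + ∑ κ ∈ Kset n p, T3 (eM n p κ - a) : ℤ) : ℝ) ≤ EA n p + K0 := by
  refine ⟨10 ^ 7, ?_⟩
  intro n p hp hn hpn hpn' hp2 a ha
  have hp0 : 0 < p := hp.pos
  have hn1 : 1 ≤ n := by omega
  have hne : p ≠ 2 := by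
    rintro rfl
    omega
  set Y : ℕ → ℤ := fun r => 10 * (Np n p r : ℤ) - Zp n p r - ((6 * n / p : ℕ) : ℤ) with hY
  have hform : ∀ r, T3 (eM n p r - a) = T3 (Y r - 1) := by
    intro r
    congr 1
    rw [ha, hY]
    unfold eM
    ring
  have hsumK : ∑ κ ∈ Kset n p, T3 (eM n p κ - a) = ∑ κ ∈ Kset n p, T3 (Y κ - 1) :=
    Finset.sum_congr rfl (fun r _ => hform r)
  have hK := hE1 (n := n) hp hne (by omega) (fun r => T3 (Y r - 1)) (2000 ^ 2) (by norm_num)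
    (by
      intro r hr
      show T3 (Y r - 1) = T3 (Y ((8 * n - r) % p) - 1)
      rw [← hform r, ← hform ((8 * n - r) % p), e3a_eM_sym hn1 (by omega)])
    (by
      intro r _
      apply e3a_T3_bd _ 2000 (by norm_num)
      have h1 : ((Np n p r : ℕ) : ℤ) ≤ 200 := by exact_mod_cast e3a_Np_le hp0 hpn r
      have h2 : (0 : ℤ) ≤ Zp n p r := by positivity
      have h3 : (0 : ℤ) ≤ ((6 * n / p : ℕ) : ℤ) := by positivity
      simp only [hY]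
      linarith)
  have hKR : 2 * ((∑ κ ∈ Kset n p, T3 (Y κ - 1) : ℤ) : ℝ) ≤
      ∑ r ∈ Finset.range p, ((T3 (Y r - 1) : ℤ) : ℝ) + 2000 ^ 2 := by
    have : ((2 * ∑ κ ∈ Kset n p, T3 (Y κ - 1) : ℤ) : ℝ) ≤
        ((∑ r ∈ Finset.range p, T3 (Y r - 1) + 2000 ^ 2 : ℤ) : ℝ) := by exact_mod_cast hK
    push_cast at this
    push_cast
    linarith
  set t : ℝ := ((6 * n / p : ℕ) : ℝ) with ht
  have hsum : ∑ r ∈ Finset.range p, ((T3 (Y r - 1) : ℤ) : ℝ) ≤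
      (100 * ∑ r ∈ Finset.range p, (Np n p r : ℝ) ^ 2
        - 20 * ∑ r ∈ Finset.range p, (Np n p r : ℝ) * (Zp n p r : ℝ)
        + ∑ r ∈ Finset.range p, (Zp n p r : ℝ) ^ 2
        - 2 * t * (10 * (4 * n + 1) - 4 * n) + p * t ^ 2) / 3 := by
    have h1 : ∀ r ∈ Finset.range p, ((T3 (Y r - 1) : ℤ) : ℝ) ≤
        (100 * (Np n p r : ℝ) ^ 2 - 20 * ((Np n p r : ℝ) * (Zp n p r : ℝ)) + (Zp n p r : ℝ) ^ 2
          - 2 * t * (10 * (Np n p r : ℝ) - (Zp n p r : ℝ)) + t ^ 2) / 3 := by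
      intro r _
      refine (e3a_T3_le (Y r)).trans (le_of_eq ?_)
      simp only [hY, ht, Int.cast_sub, Int.cast_mul, Int.cast_natCast, Int.cast_ofNat]
      ring
    refine (Finset.sum_le_sum h1).trans (le_of_eq ?_)
    rw [← Finset.sum_div]
    congr 1
    rw [Finset.sum_add_distrib, Finset.sum_sub_distrib, Finset.sum_add_distrib,
      Finset.sum_sub_distrib, ← Finset.mul_sum, ← Finset.mul_sum, ← Finset.mul_sum,
      Finset.sum_sub_distrib, ← Finset.mul_sum, e3a_sumN n p hp0, e3a_sumZ n p hn1 hp0,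
      Finset.sum_const, Finset.card_range, nsmul_eq_mul]
  have h1 := hPP hn1 hp hpn
  have h2 := hPZ hn1 hp hpn
  have h3 := hZZ hn1 hp hpn
  push_cast at h1 h2 h3
  rw [Finset.sum_sub_distrib, Finset.sum_sub_distrib] at h2
  rw [Finset.sum_add_distrib, Finset.sum_sub_distrib, ← Finset.mul_sum] at h3
  have hpR : (0 : ℝ) < p := by exact_mod_cast hp0
  have ht1 : t * p ≤ 6 * n := by
    have : 6 * n / p * p ≤ 6 * n := Nat.div_mul_le_self _ _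
    have h' : (((6 * n / p) * p : ℕ) : ℝ) ≤ ((6 * n : ℕ) : ℝ) := by exact_mod_cast this
    push_cast at h'
    rw [ht]
    exact h'
  have ht2 : (6 : ℝ) * n ≤ (t + 1) * p := by
    have : 6 * n < (6 * n / p + 1) * p := by
      have h5 := Nat.div_add_mod (6 * n) p
      have h6 := Nat.mod_lt (6 * n) hp0
      nlinarith
    have h' : ((6 * n : ℕ) : ℝ) ≤ (((6 * n / p + 1) * p : ℕ) : ℝ) := by exact_mod_cast this.le
    push_cast at h'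
    rw [ht]
    exact h'
  have ht0 : 0 ≤ t := by rw [ht]; positivity
  have hq4 : ((4 * n / p : ℕ) : ℝ) ≤ 200 := by
    have : 4 * n / p ≤ 200 := by
      apply Nat.div_le_of_le_mul
      omega
    exact_mod_cast this
  have hq2 : (0 : ℝ) ≤ ((2 * n / p : ℕ) : ℝ) := by positivity
  have hfin := e3a_final n p t ((4 * n / p : ℕ) : ℝ) ((2 * n / p : ℕ) : ℝ) _ _ _ _ _ _ _
    ((∑ κ ∈ Kset n p, T3 (Y κ - 1) : ℤ) : ℝ) hpR ht1 ht2 ht0 hq4 hq2 h1 h2 h3 (by linarith)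
  rw [hsumK]
  have h8 : ((5 * n - 5 : ℕ) : ℝ) = 5 * n - 5 := by
    rw [Nat.cast_sub (by omega)]
    push_cast
    ring
  have haR : (a : ℝ) = t + 1 - (10 * ((4 * n / p : ℕ) : ℝ) - 2 * ((2 * n / p : ℕ) : ℝ)) := by
    rw [ha, ht]
    simp only [Int.cast_sub, Int.cast_add, Int.cast_mul, Int.cast_natCast, Int.cast_ofNat,
      Int.cast_one]
  rw [Int.cast_add, Int.cast_mul, Int.cast_natCast, h8, Int.cast_sub, Int.cast_mul, haR]
  unfold EA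
  rw [Finset.sum_add_distrib, Finset.sum_add_distrib, Finset.sum_sub_distrib, ← Finset.mul_sum, ← Finset.mul_sum,
    ← Finset.mul_sum, ← Finset.mul_sum]
  push_cast at hfin ⊢
  linarith

end

end Pool.Agent.H574R2.D9
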