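import Pool.Agent.H574R2.D9.E3A
import Pool.Agent.H574R2.D9.E1
import Pool.Agent.H574R2.D9.E2z

open Polynomial Pool.Agent.H337R2

namespace Pool.Agent.H574R2.D9

noncomputable section

theorem E3_A : ∃ K0 : ℝ, ∀ n p : ℕ, p.Prime → 7 ≤ n → n < 50 * p → p ≤ 2 * n → 20 * n < p ^ 2 → ∀ a : ℤ,
    a = ((6 * n / p : ℕ) : ℤ) + 1 - (10 * ((4 * n / p : ℕ) : ℤ) - 2 * ((2 * n / p : ℕ) : ℤ)) →
    ((((5 * n - 5 : ℕ) : ℤ) * (2 * a - 3) + ∑ κ ∈ Kset n p, T3 (eM n p κ - a) : ℤ) : ℝ) ≤ EA n p + K0 :=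
  E3_A_of (fun hp hp2 hpn f M hM hf hfM => E1_Kset_sum hp hp2 hpn f M hM hf hfM)
    (fun hn hp hpn => E2_PP hn hp hpn) (fun hn hp hpn => E2_PZ hn hp hpn) (fun hn hp hpn => E2_ZZ hn hp hpn)

end

end Pool.Agent.H574R2.D9
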