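import Pool.Agent.H574R2.D9.D2
import Pool.Agent.H336R2.HD.E3Base

/-! Task E3B (adapted from the module of helper642). -/

open Polynomial Pool.Agent.H337R2

namespace Pool.Agent.H574R2.D9

noncomputable section

lemma e3b_kap_shift {n p k : ℕ} (h : k + p ≤ 8 * n) : kap n p (k + p) = kap n p k := by
  unfold kap
  rw [Nat.add_mod_right]
  have h1 : 8 * n - k = (8 * n - (k + p)) + p := by omega
  rw [h1, Nat.add_mod_right]

lemma e3b_kap_refl {n p k : ℕ} (h1 : p ≤ k) (h2 : k ≤ 8 * n) :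
    kap n p (8 * n + p - k) = kap n p k := by
  unfold kap
  have h3 : 8 * n + p - k = (8 * n - k) + p := by omega
  have h4 : 8 * n - (8 * n + p - k) = k - p := by omega
  rw [h4, h3, Nat.add_mod_right]
  have h5 : (k - p) % p = k % p := (Nat.mod_eq_sub_mod h1).symm
  rw [h5, min_comm]

/-- class pairs for `2n < p < 4n` -/
theorem E3_good {n p : ℕ} (hn : 7 ≤ n) (hp : p.Prime) (h1 : 2 * n < p) (h2 : p < 4 * n) :
    Kfull n p ⊆ Kset n p ∧ ∀ k ∈ sM n, kap n p k ∈ Kfull n p ∨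
      (k < 2 * n + p ∧ ∀ k' ∈ sM n, k' ≠ k → ¬ (p : ℤ) ∣ (k' : ℤ) - k) := by
  have hp0 : 0 < p := hp.pos
  constructor
  · intro κ hκ
    unfold Kfull at hκ
    obtain ⟨k, hk, rfl⟩ := Finset.mem_image.1 hκ
    rw [Finset.mem_Icc] at hk
    exact D2_kap_mem hp0 (by omega)
  · intro k hk
    rw [Finset.mem_Icc] at hk
    by_cases ha : 2 * n + p ≤ k
    · left
      exact Finset.mem_image.2 ⟨k, Finset.mem_Icc.2 ⟨ha, hk.2⟩, rfl⟩
    · by_cases hb : k + p ≤ 6 * n
      · left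
        refine Finset.mem_image.2 ⟨k + p, Finset.mem_Icc.2 ⟨by omega, hb⟩, ?_⟩
        exact e3b_kap_shift (by omega)
      · right
        refine ⟨by omega, ?_⟩
        intro k' hk' hne hdvd
        rw [Finset.mem_Icc] at hk'
        have h3 : (k' : ℤ) - k = 0 := by
          apply Int.eq_zero_of_abs_lt_dvd hdvd
          rw [abs_lt]
          constructor <;> omega
        omega

lemma e3b_T1_mono {a b : ℤ} (h : a ≤ b) : T1 a ≤ T1 b := by
  unfold T1 Pool.Agent.H574R2.D3.T1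
  split_ifs with h1 h2 h2
  · exact Int.ediv_le_ediv (by norm_num) (by nlinarith)
  · omega
  · positivity
  · exact le_refl _

lemma e3b_T1_nonneg (a : ℤ) : 0 ≤ T1 a := by
  unfold T1 Pool.Agent.H574R2.D3.T1
  split_ifs
  · positivity
  · exact le_refl _

lemma e3b_T2s_mono {a b : ℤ} (h : a ≤ b) : T2s a ≤ T2s b := by
  unfold T2s
  exact add_le_add (e3b_T1_mono (by omega)) (e3b_T1_mono (by omega))

lemma e3b_T2s_nonneg (a : ℤ) : 0 ≤ T2s a := by
  unfold T2s
  exact add_nonneg (e3b_T1_nonneg _) (e3b_T1_nonneg _)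

lemma e3b_Np_le {n p : ℕ} (hp : 0 < p) (h1 : 2 * n < p) (k : ℕ) : ((Np n p k : ℕ) : ℤ) ≤ 2 := by
  have h := Pool.Agent.H336R2.HD.E3_cnt_le p (2 * n) (6 * n) k hp (by omega)
  have h2 : (((6 * n : ℕ) : ℤ) - ((2 * n : ℕ) : ℤ) + 1) / (p : ℤ) < 2 := by
    apply Int.ediv_lt_of_lt_mul (by exact_mod_cast hp)
    push_cast
    omega
  unfold Np
  omega

open Classical in
/-- lower bound for the number of zeros -/
lemma e3b_Zp_ge {n p k : ℕ} (h1 : 2 * n < p) (h2 : p < 4 * n) (hk1 : 2 * n + p ≤ k)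
    (hk2 : k ≤ 6 * n) :
    (if 2 * p ≤ k then 1 else 0) + (if k + p ≤ 8 * n then 1 else 0) ≤ Zp n p k := by
  have hA : (if 2 * p ≤ k then 1 else 0) ≤ cnt p 0 (2 * n - 1) k := by
    unfold cnt
    split_ifs with h
    · have hsub : ({k - 2 * p} : Finset ℕ) ⊆
          (Finset.Icc 0 (2 * n - 1)).filter (fun m : ℕ => (p : ℤ) ∣ (m : ℤ) - k) := by
        intro m hm
        rw [Finset.mem_singleton] at hm
        rw [Finset.mem_filter, Finset.mem_Icc]
        subst hm
        refine ⟨by omega, ⟨-2, ?_⟩⟩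
        have : ((k - 2 * p : ℕ) : ℤ) = k - 2 * p := by omega
        rw [this]
        ring
      have hc := Finset.card_le_card hsub
      rw [Finset.card_singleton] at hc
      exact hc
    · exact Nat.zero_le _
  have hB : (if k + p ≤ 8 * n then 1 else 0) ≤ cnt p (6 * n + 1) (8 * n) k := by
    unfold cnt
    split_ifs with h
    · have hsub : ({k + p} : Finset ℕ) ⊆
          (Finset.Icc (6 * n + 1) (8 * n)).filter (fun m : ℕ => (p : ℤ) ∣ (m : ℤ) - k) := by
        intro m hm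
        rw [Finset.mem_singleton] at hm
        rw [Finset.mem_filter, Finset.mem_Icc]
        subst hm
        refine ⟨by omega, ⟨1, ?_⟩⟩
        push_cast
        ring
      have hc := Finset.card_le_card hsub
      rw [Finset.card_singleton] at hc
      exact hc
    · exact Nat.zero_le _
  unfold Zp
  omega

/-- sums over the class pairs with two poles -/
lemma e3b_sum_le {n p : ℕ} (h2 : p < 4 * n) (f : ℕ → ℤ) (hf : ∀ κ, 0 ≤ f κ) :
    ∑ κ ∈ Kfull n p, f κ ≤ ∑ k ∈ Finset.Icc (2 * n + p) ((8 * n + p) / 2), f (kap n p k) := by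
  classical
  have h1 : Kfull n p ⊆ (Finset.Icc (2 * n + p) ((8 * n + p) / 2)).image (kap n p) := by
    intro κ hκ
    unfold Kfull at hκ
    obtain ⟨k, hk, rfl⟩ := Finset.mem_image.1 hκ
    rw [Finset.mem_Icc] at hk
    by_cases h : k ≤ (8 * n + p) / 2
    · exact Finset.mem_image.2 ⟨k, Finset.mem_Icc.2 ⟨hk.1, h⟩, rfl⟩
    · exact Finset.mem_image.2 ⟨8 * n + p - k, Finset.mem_Icc.2 ⟨by omega, by omega⟩,
        e3b_kap_refl (by omega) (by omega)⟩
  refine (Finset.sum_le_sum_of_subset_of_nonneg h1 (fun _ _ _ => hf _)).trans ?_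
  have key : ∀ s : Finset ℕ, ∑ κ ∈ s.image (kap n p), f κ ≤ ∑ k ∈ s, f (kap n p k) := by
    intro s
    induction s using Finset.induction_on with
    | empty => simp
    | insert a s ha ih =>
      rw [Finset.image_insert, Finset.sum_insert ha]
      by_cases h : kap n p a ∈ s.image (kap n p)
      · rw [Finset.insert_eq_of_mem h]
        have := hf (kap n p a)
        linarith
      · rw [Finset.sum_insert h]
        linarith
  exact key _

lemma e3b_eM {n p k : ℕ} (h1 : 2 * n < p) (h2 : p < 4 * n) (hk1 : 2 * n + p ≤ k)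
    (hk2 : k ≤ 6 * n) : eM n p (kap n p k) ≤ 10 - Zp n p k := by
  have hp0 : 0 < p := by omega
  rw [D2_eM_kap (by omega) hp0 (by omega)]
  unfold eM
  have h3 := e3b_Np_le hp0 h1 k
  have h4 : 4 * n / p = 1 := by
    rw [Nat.div_eq_iff hp0]
    omega
  have h5 : 2 * n / p = 0 := Nat.div_eq_of_lt h1
  rw [h4, h5]
  push_cast
  linarith

/-- the common part of `E3_B` and `E3_C` -/
lemma e3b_main {n p : ℕ} (h1 : 2 * n < p) (h2 : p < 4 * n) :
    ∑ κ ∈ Kfull n p, T2s (eM n p κ + 10) ≤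
      110 * ((Finset.Icc (2 * n + p) ((8 * n + p) / 2)).card : ℤ) -
      10 * (((Finset.Icc (2 * n + p) ((8 * n + p) / 2)).filter (fun k => 2 * p ≤ k)).card : ℤ) -
      10 * (((Finset.Icc (2 * n + p) ((8 * n + p) / 2)).filter (fun k => k + p ≤ 8 * n)).card : ℤ) := by
  have hp0 : 0 < p := by omega
  have hsum := e3b_sum_le (n := n) (p := p) h2 (fun κ => T2s (eM n p κ + 10))
    (fun κ => e3b_T2s_nonneg _)
  set I : Finset ℕ := Finset.Icc (2 * n + p) ((8 * n + p) / 2) with hI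
  have hterm : ∀ k ∈ I, T2s (eM n p (kap n p k) + 10) ≤
      110 - 10 * (if 2 * p ≤ k then 1 else 0) - 10 * (if k + p ≤ 8 * n then 1 else 0) := by
    intro k hk
    rw [hI, Finset.mem_Icc] at hk
    have hz := e3b_Zp_ge h1 h2 hk.1 (by omega : k ≤ 6 * n)
    have he := e3b_eM h1 h2 hk.1 (by omega : k ≤ 6 * n)
    have hz' : (((if 2 * p ≤ k then 1 else 0) + (if k + p ≤ 8 * n then 1 else 0) : ℕ) : ℤ) ≤
        (Zp n p k : ℤ) := by exact_mod_cast hz
    have t20 : T2s 20 = 110 := by decide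
    have t19 : T2s 19 = 100 := by decide
    have t18 : T2s 18 = 90 := by decide
    by_cases ha : 2 * p ≤ k <;> by_cases hb : k + p ≤ 8 * n
    · simp only [ha, hb, if_true] at hz' ⊢
      have := e3b_T2s_mono (a := eM n p (kap n p k) + 10) (b := 18) (by push_cast at hz'; linarith)
      rw [t18] at this
      linarith
    · simp only [ha, hb, if_true, if_false] at hz' ⊢
      have := e3b_T2s_mono (a := eM n p (kap n p k) + 10) (b := 19) (by push_cast at hz'; linarith)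
      rw [t19] at this
      linarith
    · simp only [ha, hb, if_true, if_false] at hz' ⊢
      have := e3b_T2s_mono (a := eM n p (kap n p k) + 10) (b := 19) (by push_cast at hz'; linarith)
      rw [t19] at this
      linarith
    · simp only [ha, hb, if_false] at hz' ⊢
      have := e3b_T2s_mono (a := eM n p (kap n p k) + 10) (b := 20) (by push_cast at hz'; linarith)
      rw [t20] at this
      linarith
  have hsum2 := Finset.sum_le_sum hterm
  rw [Finset.sum_sub_distrib, Finset.sum_sub_distrib, ← Finset.mul_sum, ← Finset.mul_sum,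
    Finset.sum_boole, Finset.sum_boole, Finset.sum_const, nsmul_eq_mul] at hsum2
  linarith

theorem E3_B : ∃ K0 : ℝ, ∀ n p : ℕ, p.Prime → 7 ≤ n → 2 * n < p → p ≤ 3 * n →
    ((-(20 * (5 * n - 5 : ℕ) : ℤ) + ∑ κ ∈ Kfull n p, T2s (eM n p κ + 10) : ℤ) : ℝ) ≤ EB n p + K0 := by
  refine ⟨1000, ?_⟩
  intro n p hp hn h1 h3
  have hmain := e3b_main h1 (by omega : p < 4 * n)
  have hcA : (8 * n + p) / 2 + 1 - 2 * p ≤
      ((Finset.Icc (2 * n + p) ((8 * n + p) / 2)).filter (fun k => 2 * p ≤ k)).card := by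
    rw [← Nat.card_Icc]
    apply Finset.card_le_card
    intro k hk
    rw [Finset.mem_Icc] at hk
    rw [Finset.mem_filter, Finset.mem_Icc]
    exact ⟨⟨by omega, hk.2⟩, hk.1⟩
  have hcB : min ((8 * n + p) / 2) (8 * n - p) + 1 - (2 * n + p) ≤
      ((Finset.Icc (2 * n + p) ((8 * n + p) / 2)).filter (fun k => k + p ≤ 8 * n)).card := by
    rw [← Nat.card_Icc]
    apply Finset.card_le_card
    intro k hk
    rw [Finset.mem_Icc, le_min_iff] at hk
    rw [Finset.mem_filter, Finset.mem_Icc]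
    exact ⟨⟨hk.1, hk.2.1⟩, by omega⟩
  rw [Nat.card_Icc] at hmain
  set cA := ((Finset.Icc (2 * n + p) ((8 * n + p) / 2)).filter (fun k => 2 * p ≤ k)).card
  set cB := ((Finset.Icc (2 * n + p) ((8 * n + p) / 2)).filter (fun k => k + p ≤ 8 * n)).card
  have hfinZ : (-(20 * (5 * n - 5 : ℕ) : ℤ) + ∑ κ ∈ Kfull n p, T2s (eM n p κ + 10)) ≤
      60 * n - 35 * p + 1000 := by
    have e2 : 110 * (((8 * n + p) / 2 + 1 - (2 * n + p) : ℕ) : ℤ) - 10 * (cA : ℤ) - 10 * (cB : ℤ) ≤
        160 * n - 35 * p + 300 := by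
      by_cases h56 : 3 * p ≤ 8 * n
      · rw [min_eq_left (by omega)] at hcB
        omega
      · rw [min_eq_right (by omega)] at hcB
        omega
    omega
  have hfinR : ((-(20 * (5 * n - 5 : ℕ) : ℤ) + ∑ κ ∈ Kfull n p, T2s (eM n p κ + 10) : ℤ) : ℝ) ≤
      60 * n - 35 * p + 1000 := by exact_mod_cast hfinZ
  unfold EB
  linarith

theorem E3_C : ∃ K0 : ℝ, ∀ n p : ℕ, p.Prime → 7 ≤ n → 3 * n < p → p < 4 * n →
    ((-(20 * (5 * n - 5 : ℕ) : ℤ) + ∑ κ ∈ Kfull n p, T2s (eM n p κ + 10) : ℤ) : ℝ) ≤ EC n p + K0 := by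
  refine ⟨1000, ?_⟩
  intro n p hp hn h3 h2
  have hmain := e3b_main (by omega : 2 * n < p) h2
  rw [Nat.card_Icc] at hmain
  set cA := ((Finset.Icc (2 * n + p) ((8 * n + p) / 2)).filter (fun k => 2 * p ≤ k)).card
  set cB := ((Finset.Icc (2 * n + p) ((8 * n + p) / 2)).filter (fun k => k + p ≤ 8 * n)).card
  have hfinZ : (-(20 * (5 * n - 5 : ℕ) : ℤ) + ∑ κ ∈ Kfull n p, T2s (eM n p κ + 10)) ≤
      120 * n - 55 * p + 1000 := by
    have e2 : 110 * (((8 * n + p) / 2 + 1 - (2 * n + p) : ℕ) : ℤ) - 10 * (cA : ℤ) - 10 * (cB : ℤ) ≤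
        220 * n - 55 * p + 300 := by
      omega
    omega
  have hfinR : ((-(20 * (5 * n - 5 : ℕ) : ℤ) + ∑ κ ∈ Kfull n p, T2s (eM n p κ + 10) : ℤ) : ℝ) ≤
      120 * n - 55 * p + 1000 := by exact_mod_cast hfinZ
  unfold EC
  linarith

end

end Pool.Agent.H574R2.D9
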