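import Pool.Agent.H574R2.D9.E4a
import Pool.Agent.H574R2.D9.D2
import Pool.Agent.H574R2.D9.D3
import Pool.Agent.H574R2.D9.D3two
import Pool.Agent.H574R2.D9.E3Az
import Pool.Agent.H574R2.D9.E3B

/-! Task E4 (helper558): p-adic size of the determinant, all primes `p > n/50`. -/

open Polynomial Pool.Agent.H337R2

namespace Pool.Agent.H574R2.D9

noncomputable section

/-- p-adic size of the determinant, all primes `p > n/50` -/
theorem E4_padic : ∃ K0 : ℝ, 0 ≤ K0 ∧ ∀ n : ℕ, 100 ≤ n → ∀ p : ℕ, p.Prime → n < 50 * p → 20 * n < p ^ 2 →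
    ∀ (q : ℕ) (α β : ℕ → ℚ), UInt q α → UInt q β → (∀ i < 3, β i = 0) →
    ((padicNorm p ((q : ℚ) ^ (10 * n - 10) * DD n α β) : ℚ) : ℝ) ≤
      if p < 4 * n then (p : ℝ) ^ (EW n p + K0) else 1 := by
  refine E4_of ?_ ?_ ?_ ?_ E3_A E3_B E3_C
  · intro n p _ hn hp2 q α β hα hβ hβ3 m a S hS h
    exact D3_det_padic hn hp2 q α β hα hβ hβ3 m a S hS h
  · intro n p _ hn hp2 hp q α β hα hβ hβ3 m
    exact D3_large hn hp2 hp q α β hα hβ hβ3 m
  · intro n p _ hn hp100 h1 h2 q α β hα hβ hβ3 m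
    exact D3_two hn hp100 h1 h2 q α β hα hβ hβ3 m
  · intro n p k hp hk
    exact D2_kap_mem hp hk

end

end Pool.Agent.H574R2.D9
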