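import Pool.Agent.H574R2.D9.Defs

/-! Task E4 (helper558): p-adic size of the determinant, all primes `p > n/50`;
version with the results D2, D3, D3two, E3 as hypotheses. -/

open Polynomial Pool.Agent.H337R2

namespace Pool.Agent.H574R2.D9

noncomputable section

/-- the statement of `D3_det_padic` -/
def E4_D3S : Prop := ∀ (n p : ℕ) [Fact p.Prime], 1 ≤ n → 8 * n < p ^ 2 → ∀ (q : ℕ) (α β : ℕ → ℚ),
    UInt q α → UInt q β → (∀ i < 3, β i = 0) → ∀ (m : ℕ) (a : ℤ) (S : Finset ℕ), S ⊆ Kset n p →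
    (∀ k ∈ sM n, kap n p k ∈ S ∨
      (padicNorm p (cM n) ≤ (p : ℚ) ^ (a - 3) ∧ k < 2 * n + p ∧
        ∀ k' ∈ sM n, k' ≠ k → ¬ (p : ℤ) ∣ (k' : ℤ) - k)) →
    padicNorm p ((q : ℚ) ^ (2 * m) * MD (AL n α) (BL n β) m) ≤
      (p : ℚ) ^ ((m : ℤ) * (2 * a - 3) + ∑ κ ∈ S, T3 (eM n p κ - a))

/-- the statement of `D3_large` -/
def E4_D3L : Prop := ∀ (n p : ℕ) [Fact p.Prime], 1 ≤ n → 8 * n < p ^ 2 → 4 * n < p →
    ∀ (q : ℕ) (α β : ℕ → ℚ), UInt q α → UInt q β → (∀ i < 3, β i = 0) → ∀ (m : ℕ),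
    padicNorm p ((q : ℚ) ^ (2 * m) * MD (AL n α) (BL n β) m) ≤ 1

/-- the statement of `D3_two` -/
def E4_D3T : Prop := ∀ (n p : ℕ) [Fact p.Prime], 1 ≤ n → 100 ≤ p → 2 * n < p → p < 4 * n →
    ∀ (q : ℕ) (α β : ℕ → ℚ), UInt q α → UInt q β → (∀ i < 3, β i = 0) → ∀ (m : ℕ),
    padicNorm p ((q : ℚ) ^ (2 * m) * MD (AL n α) (BL n β) m) ≤
      (p : ℚ) ^ (-(20 * m : ℤ) + ∑ κ ∈ Kfull n p, T2s (eM n p κ + 10))

theorem E4_to_rpow {p : ℕ} (hp : 1 ≤ p) {x : ℚ} {z : ℤ} {E : ℝ} (h : x ≤ (p : ℚ) ^ z)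
    (hz : (z : ℝ) ≤ E) : (x : ℝ) ≤ (p : ℝ) ^ E := by
  have hp1 : (1 : ℝ) ≤ (p : ℝ) := by exact_mod_cast hp
  have h1 : (x : ℝ) ≤ (((p : ℚ) ^ z : ℚ) : ℝ) := by exact_mod_cast h
  refine h1.trans ?_
  rw [Rat.cast_zpow, Rat.cast_natCast, ← Real.rpow_intCast]
  exact Real.rpow_le_rpow_of_exponent_le hp1 hz

theorem E4_of (hD3 : E4_D3S) (hD3L : E4_D3L) (hD3T : E4_D3T)
    (hD2 : ∀ {n p k : ℕ}, 0 < p → k ≤ 8 * n → kap n p k ∈ Kset n p)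
    (hA : ∃ K0 : ℝ, ∀ n p : ℕ, p.Prime → 7 ≤ n → n < 50 * p → p ≤ 2 * n → 20 * n < p ^ 2 → ∀ a : ℤ,
      a = ((6 * n / p : ℕ) : ℤ) + 1 - (10 * ((4 * n / p : ℕ) : ℤ) - 2 * ((2 * n / p : ℕ) : ℤ)) →
      ((((5 * n - 5 : ℕ) : ℤ) * (2 * a - 3) + ∑ κ ∈ Kset n p, T3 (eM n p κ - a) : ℤ) : ℝ) ≤
        EA n p + K0)
    (hB : ∃ K0 : ℝ, ∀ n p : ℕ, p.Prime → 7 ≤ n → 2 * n < p → p ≤ 3 * n →
      ((-(20 * (5 * n - 5 : ℕ) : ℤ) + ∑ κ ∈ Kfull n p, T2s (eM n p κ + 10) : ℤ) : ℝ) ≤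
        EB n p + K0)
    (hC : ∃ K0 : ℝ, ∀ n p : ℕ, p.Prime → 7 ≤ n → 3 * n < p → p < 4 * n →
      ((-(20 * (5 * n - 5 : ℕ) : ℤ) + ∑ κ ∈ Kfull n p, T2s (eM n p κ + 10) : ℤ) : ℝ) ≤
        EC n p + K0) :
    ∃ K0 : ℝ, 0 ≤ K0 ∧ ∀ n : ℕ, 100 ≤ n → ∀ p : ℕ, p.Prime → n < 50 * p → 20 * n < p ^ 2 →
    ∀ (q : ℕ) (α β : ℕ → ℚ), UInt q α → UInt q β → (∀ i < 3, β i = 0) →
    ((padicNorm p ((q : ℚ) ^ (10 * n - 10) * DD n α β) : ℚ) : ℝ) ≤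
      if p < 4 * n then (p : ℝ) ^ (EW n p + K0) else 1 := by
  obtain ⟨KA, hKA⟩ := hA
  obtain ⟨KB, hKB⟩ := hB
  obtain ⟨KC, hKC⟩ := hC
  refine ⟨max (max KA KB) (max KC 0), (le_max_right KC 0).trans (le_max_right _ _), ?_⟩
  intro n hn p hp hnp hp2 q α β hα hβ hβ3
  have : Fact p.Prime := ⟨hp⟩
  have hp1 : 1 ≤ p := hp.one_lt.le
  have hm : 10 * n - 10 = 2 * (5 * n - 5) := by omega
  rw [hm]
  unfold DD
  by_cases h2 : p < 4 * n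
  · rw [if_pos h2]
    by_cases h1 : p ≤ 2 * n
    · have h3 := hD3 n p (by omega) (by omega) q α β hα hβ hβ3 (5 * n - 5)
        (((6 * n / p : ℕ) : ℤ) + 1 - (10 * ((4 * n / p : ℕ) : ℤ) - 2 * ((2 * n / p : ℕ) : ℤ)))
        (Kset n p) subset_rfl
        (fun k hk => Or.inl (hD2 hp.pos (by rw [Finset.mem_Icc] at hk; omega)))
      refine E4_to_rpow hp1 h3 ?_
      refine (hKA n p hp (by omega) hnp h1 hp2 _ rfl).trans ?_
      rw [EW, if_pos h1]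
      have : KA ≤ max (max KA KB) (max KC 0) := (le_max_left KA KB).trans (le_max_left _ _)
      linarith
    · push Not at h1
      have h3 := hD3T n p (by omega) (by omega) h1 h2 q α β hα hβ hβ3 (5 * n - 5)
      refine E4_to_rpow hp1 h3 ?_
      by_cases h4 : p ≤ 3 * n
      · have h5 := hKB n p hp (by omega) h1 h4
        refine h5.trans ?_
        rw [EW, if_neg (by omega), if_pos h4]
        have : KB ≤ max (max KA KB) (max KC 0) := (le_max_right KA KB).trans (le_max_left _ _)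
        linarith
      · have h5 := hKC n p hp (by omega) (by omega) h2
        refine h5.trans ?_
        rw [EW, if_neg (by omega), if_neg h4]
        have : KC ≤ max (max KA KB) (max KC 0) := (le_max_left KC 0).trans (le_max_right _ _)
        linarith
  · rw [if_neg h2]
    have h6 : 4 * n < p := by
      rcases lt_or_eq_of_le (not_lt.mp h2) with h | h
      · exact h
      · exfalso
        have h7 : 2 ∣ p := ⟨2 * n, by omega⟩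
        have h8 := (Nat.prime_dvd_prime_iff_eq Nat.prime_two hp).1 h7
        omega
    have h3 := hD3L n p (by omega) (by omega) h6 q α β hα hβ hβ3 (5 * n - 5)
    exact_mod_cast h3

end

end Pool.Agent.H574R2.D9
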