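import Pool.Agent.H574R2.D9.F1
import Pool.Agent.H574R2.D9.F1f
import Pool.Agent.H574R2.D9.F2pre

/-! `F2_A`, `F2_B`, `F2_C`, `F2_U`. -/

open Filter Topology

namespace Pool.Agent.H574R2.D9

noncomputable section

theorem F2_A : Tendsto (fun n : ℕ => (∑ p ∈ PS (1 / 50) 2 n, EA n p * Real.log p) / (n : ℝ) ^ 2) atTop
    (𝓝 ((LA : ℝ) - 6 * Real.log 100)) :=
  F2_A_of F1_tent F1_const F1_id F1_inv F1_floor

theorem F2_B : Tendsto (fun n : ℕ => (∑ p ∈ PS 2 3 n, EB n p * Real.log p) / (n : ℝ) ^ 2) atTop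
    (𝓝 (LB : ℝ)) :=
  F2_B_of F1_const F1_id

theorem F2_C : Tendsto (fun n : ℕ => (∑ p ∈ PS 3 4 n, EC n p * Real.log p) / (n : ℝ) ^ 2) atTop
    (𝓝 (LC : ℝ)) :=
  F2_C_of F1_const F1_id

theorem F2_U : Tendsto (fun n : ℕ => (∑ p ∈ PS (1 / 50) 20 n,
      (∑ j ∈ Finset.Icc 1 1000, (1 / 2 * tn (20 * n) j p + tn (10 * n) j p)) * Real.log p) / (n : ℝ) ^ 2)
    atTop (𝓝 (LU : ℝ)) :=
  F2_U_of F1_tent

end

end Pool.Agent.H574R2.D9
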