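import Pool.Agent.H574R2.D9.Defs

/-! Task F3: the numerical value of the four limits, by kernel evaluation. -/

open Polynomial Pool.Agent.H337R2

namespace Pool.Agent.H574R2.D9

theorem F3_numeric : LA + LB + LC + LU ≤ 17130 / 100 := by
  decide +kernel

end Pool.Agent.H574R2.D9
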