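import Pool.Agent.H574R2.D9.Defs

/-!
# The local determinants are nonzero (task H5)

The values `Fm e`, `Bm i0 e` are computed modulo `7` (truncated power series modulo `7`, stored as
decimal digits); the determinants are nonzero modulo `7`.
-/

set_option autoImplicit false

open Polynomial Pool.Agent.H337R2

namespace Pool.Agent.H574R2.D9

namespace H5

theorem fact7 : Fact (Nat.Prime 7) := ⟨by norm_num⟩

attribute [local instance] fact7

/-- `x` reduces to `n` modulo `7` -/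
def Rl (x : ℚ) (n : ℕ) : Prop :=
  ∃ z : ℤ_[7], (z : ℚ_[7]) = (x : ℚ_[7]) ∧ PadicInt.toZMod z = (n : ZMod 7)

theorem Rl.add {x y : ℚ} {m n : ℕ} (hx : Rl x m) (hy : Rl y n) : Rl (x + y) (m + n) := by
  obtain ⟨z, hz, hz'⟩ := hx
  obtain ⟨w, hw, hw'⟩ := hy
  exact ⟨z + w, by rw [PadicInt.coe_add, hz, hw, Rat.cast_add], by
    rw [map_add, hz', hw', Nat.cast_add]⟩

theorem Rl.mul {x y : ℚ} {m n : ℕ} (hx : Rl x m) (hy : Rl y n) : Rl (x * y) (m * n) := by
  obtain ⟨z, hz, hz'⟩ := hx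
  obtain ⟨w, hw, hw'⟩ := hy
  exact ⟨z * w, by rw [PadicInt.coe_mul, hz, hw, Rat.cast_mul], by
    rw [map_mul, hz', hw', Nat.cast_mul]⟩

theorem Rl.congr {x : ℚ} {m n : ℕ} (h : Rl x m) (hmn : m % 7 = n % 7) : Rl x n := by
  obtain ⟨z, hz, hz'⟩ := h
  refine ⟨z, hz, hz'.trans ?_⟩
  rw [← ZMod.natCast_mod m 7, hmn, ZMod.natCast_mod]

theorem Rl.nat (n : ℕ) : Rl (n : ℚ) n :=
  ⟨(n : ℤ_[7]), by rw [PadicInt.coe_natCast, Rat.cast_natCast], map_natCast _ _⟩

theorem Rl.neg_one : Rl (-1) 6 :=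
  ⟨-1, by rw [PadicInt.coe_neg, PadicInt.coe_one, Rat.cast_neg, Rat.cast_one], by
    rw [map_neg, map_one]; decide⟩

theorem Rl.neg {x : ℚ} {n : ℕ} (h : Rl x n) : Rl (-x) (6 * n) := by
  have := Rl.neg_one.mul h
  rwa [neg_one_mul] at this

theorem Rl.pow {x : ℚ} {n : ℕ} (h : Rl x n) (k : ℕ) : Rl (x ^ k) (n ^ k) := by
  induction k with
  | zero =>
    rw [pow_zero, pow_zero]
    exact_mod_cast Rl.nat 1
  | succ k ih => rw [pow_succ, pow_succ]; exact ih.mul h

theorem Rl.zero : Rl 0 0 := by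
  exact_mod_cast Rl.nat 0

theorem Rl.one : Rl 1 1 := by
  exact_mod_cast Rl.nat 1

theorem Rl.sub_nat (i j : ℕ) : Rl ((i : ℚ) - j) (i + 6 * j) := by
  rw [sub_eq_add_neg]
  exact (Rl.nat i).add (Rl.nat j).neg

theorem Rl.cancel {a x : ℚ} {m mi n : ℕ} (ha : Rl a m) (hm : m * mi % 7 = 1)
    (h : Rl (a * x) n) : Rl x (n * mi) := by
  obtain ⟨z, hz, hz'⟩ := ha
  obtain ⟨w, hw, hw'⟩ := h
  have h1 : (m : ZMod 7) * (mi : ZMod 7) = 1 := by
    rw [← Nat.cast_mul, ← ZMod.natCast_mod, hm, Nat.cast_one]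
  have hne : PadicInt.toZMod z ≠ 0 := by
    rw [hz']
    intro h0
    rw [h0, zero_mul] at h1
    exact absurd h1 (by decide)
  have hu : IsUnit z := by
    by_contra hcon
    have h2 : z ∈ IsLocalRing.maximalIdeal ℤ_[7] := (IsLocalRing.mem_maximalIdeal z).2 hcon
    rw [← PadicInt.ker_toZMod] at h2
    exact hne h2
  obtain ⟨u, rfl⟩ := hu
  have h3 : (((u : ℤ_[7]) : ℚ_[7])) * (((u⁻¹ : ℤ_[7]ˣ) : ℤ_[7]) : ℚ_[7]) = 1 := by
    rw [← PadicInt.coe_mul, Units.mul_inv, PadicInt.coe_one]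
  have h4 : PadicInt.toZMod (u : ℤ_[7]) * PadicInt.toZMod ((u⁻¹ : ℤ_[7]ˣ) : ℤ_[7]) = 1 := by
    rw [← map_mul, Units.mul_inv, map_one]
  refine ⟨w * ((u⁻¹ : ℤ_[7]ˣ) : ℤ_[7]), ?_, ?_⟩
  · rw [PadicInt.coe_mul, hw, Rat.cast_mul, ← hz]
    calc (((u : ℤ_[7]) : ℚ_[7])) * (x : ℚ_[7]) * (((u⁻¹ : ℤ_[7]ˣ) : ℤ_[7]) : ℚ_[7])
        = ((((u : ℤ_[7]) : ℚ_[7])) * (((u⁻¹ : ℤ_[7]ˣ) : ℤ_[7]) : ℚ_[7])) * (x : ℚ_[7]) := by ring
      _ = (x : ℚ_[7]) := by rw [h3, one_mul]
  · rw [map_mul, hw', Nat.cast_mul]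
    congr 1
    rw [hz'] at h4
    calc PadicInt.toZMod ((u⁻¹ : ℤ_[7]ˣ) : ℤ_[7])
        = ((m : ZMod 7) * (mi : ZMod 7)) * PadicInt.toZMod ((u⁻¹ : ℤ_[7]ˣ) : ℤ_[7]) := by
          rw [h1, one_mul]
      _ = (mi : ZMod 7) * ((m : ZMod 7) * PadicInt.toZMod ((u⁻¹ : ℤ_[7]ˣ) : ℤ_[7])) := by ring
      _ = (mi : ZMod 7) := by rw [h4, mul_one]

theorem Rl.sum {ι : Type} (s : Finset ι) (f : ι → ℚ) (g : ι → ℕ) (h : ∀ i ∈ s, Rl (f i) (g i)) :
    Rl (∑ i ∈ s, f i) (∑ i ∈ s, g i) := by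
  classical
  induction s using Finset.induction_on with
  | empty => simpa using Rl.zero
  | insert a s ha ih =>
    rw [Finset.sum_insert ha, Finset.sum_insert ha]
    exact (h a (Finset.mem_insert_self a s)).add
      (ih fun i hi => h i (Finset.mem_insert_of_mem hi))

/-- the digit `d` of `N` -/
def dg (N d : ℕ) : ℕ := N / 10 ^ d % 10

/-- `N` encodes the first ten coefficients of `f` modulo `7` -/
def Rep (f : PowerSeries ℚ) (N : ℕ) : Prop := ∀ d, d < 10 → Rl (PowerSeries.coeff d f) (dg N d)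

/-- the digit before `d` -/
def pd (N : ℕ) : ℕ → ℕ
  | 0 => 0
  | d + 1 => dg N d

/-- `N'` is `(X + c) N` modulo `7` -/
def Chk (c N N' : ℕ) : Prop := ∀ d, d < 10 → dg N' d % 7 = (pd N d + c * dg N d) % 7

instance (c N N' : ℕ) : Decidable (Chk c N N') := by
  unfold Chk
  infer_instance

theorem coeff_lin_zero (c : ℚ) (f : PowerSeries ℚ) :
    PowerSeries.coeff 0 ((PowerSeries.X + PowerSeries.C c) * f) = c * PowerSeries.coeff 0 f := by
  rw [add_mul, map_add, PowerSeries.coeff_C_mul, PowerSeries.coeff_zero_X_mul, zero_add]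

theorem coeff_lin_succ (c : ℚ) (f : PowerSeries ℚ) (d : ℕ) :
    PowerSeries.coeff (d + 1) ((PowerSeries.X + PowerSeries.C c) * f) =
      PowerSeries.coeff d f + c * PowerSeries.coeff (d + 1) f := by
  rw [add_mul, map_add, PowerSeries.coeff_C_mul, PowerSeries.coeff_succ_X_mul]

theorem rep_mul {f : PowerSeries ℚ} {N N' c : ℕ} {c' : ℚ} (h : Rep f N) (hc : Rl c' c)
    (hk : Chk c N N') : Rep ((PowerSeries.X + PowerSeries.C c') * f) N' := by
  intro d hd
  have h1 := hk d hd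
  cases d with
  | zero =>
    rw [coeff_lin_zero]
    refine (hc.mul (h 0 hd)).congr ?_
    rw [h1]
    show _ = (0 + c * dg N 0) % 7
    rw [zero_add]
  | succ d =>
    rw [coeff_lin_succ]
    refine ((h d (by omega)).add (hc.mul (h (d + 1) hd))).congr ?_
    rw [h1]
    rfl

theorem rep_div {g : PowerSeries ℚ} {N N' c ci : ℕ} {c' : ℚ}
    (h : Rep ((PowerSeries.X + PowerSeries.C c') * g) N') (hc : Rl c' c) (hci : c * ci % 7 = 1)
    (hk : Chk c N N') : Rep g N := by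
  have key : ∀ a b x : ℕ, b % 7 = (a + c * x) % 7 → ((b + 6 * a) * ci) % 7 = x % 7 := by
    intro a b x hb
    have e1 : (b + 6 * a) % 7 = (c * x) % 7 := by omega
    calc ((b + 6 * a) * ci) % 7 = ((b + 6 * a) % 7 * (ci % 7)) % 7 := Nat.mul_mod _ _ _
      _ = ((c * x) % 7 * (ci % 7)) % 7 := by rw [e1]
      _ = (c * x * ci) % 7 := (Nat.mul_mod _ _ _).symm
      _ = (c * ci * x) % 7 := by rw [mul_right_comm]
      _ = ((c * ci) % 7 * (x % 7)) % 7 := Nat.mul_mod _ _ _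
      _ = x % 7 := by rw [hci, one_mul, Nat.mod_mod]
  intro d
  induction d with
  | zero =>
    intro hd
    have h1 := h 0 hd
    rw [coeff_lin_zero] at h1
    refine (hc.cancel hci h1).congr ?_
    have h2 := key 0 (dg N' 0) (dg N 0) (hk 0 hd)
    rwa [mul_zero, add_zero] at h2
  | succ d ih =>
    intro hd
    have h1 := h (d + 1) hd
    rw [coeff_lin_succ] at h1
    have h2 := ih (by omega)
    have h3 : Rl (c' * PowerSeries.coeff (d + 1) g) (dg N' (d + 1) + 6 * dg N d) := by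
      have h4 := h1.add h2.neg
      have h5 : PowerSeries.coeff d g + c' * PowerSeries.coeff (d + 1) g + -PowerSeries.coeff d g =
        c' * PowerSeries.coeff (d + 1) g := by ring
      rwa [h5] at h4
    exact (hc.cancel hci h3).congr (key (dg N d) (dg N' (d + 1)) (dg N (d + 1)) (hk (d + 1) hd))

theorem rep_iv_pow {a : ℚ} (ha : a ≠ 0) {c ci : ℕ} (hc : Rl a c) (hci : c * ci % 7 = 1)
    (L : List ℕ) (f : PowerSeries ℚ) (h0 : Rep f (L.getD 0 0)) (n : ℕ)
    (hk : ∀ k < n, Chk c (L.getD (k + 1) 0) (L.getD k 0)) :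
    Rep (iv a ^ n * f) (L.getD n 0) := by
  induction n with
  | zero => rwa [pow_zero, one_mul]
  | succ n ih =>
    have h1 := ih fun k hk' => hk k (by omega)
    refine rep_div (c' := a) (N' := L.getD n 0) ?_ hc hci (hk n (by omega))
    have h2 : (PowerSeries.X + PowerSeries.C a) * (iv a ^ (n + 1) * f) = iv a ^ n * f := by
      rw [pow_succ, ← mul_assoc, mul_comm (iv a ^ n) (iv a), ← mul_assoc, lin_mul_iv ha, one_mul]
    rw [h2]
    exact h1

theorem rep_lin_pow {a : ℚ} {c : ℕ} (hc : Rl a c) (L : List ℕ) (f : PowerSeries ℚ)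
    (h0 : Rep f (L.getD 0 0)) (e : ℕ)
    (hk : ∀ k < e, Chk c (L.getD k 0) (L.getD (k + 1) 0)) :
    Rep (f * (PowerSeries.X + PowerSeries.C a) ^ e) (L.getD e 0) := by
  induction e with
  | zero => rwa [pow_zero, mul_one]
  | succ e ih =>
    have h1 := ih fun k hk' => hk k (by omega)
    have h2 := rep_mul h1 hc (hk e (by omega))
    rwa [pow_succ, ← mul_assoc, mul_comm]

theorem rep_one : Rep 1 1 := by
  intro d hd
  rw [PowerSeries.coeff_one]
  split_ifs with h
  · subst h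
    exact Rl.one
  · have : dg 1 d = 0 := by
      unfold dg
      rw [Nat.div_eq_of_lt (Nat.one_lt_pow h (by norm_num))]
    rw [this]
    exact Rl.zero

/-- the numerator -/
theorem prod_zeros (g : ℕ → PowerSeries ℚ) : ∏ i ∈ ({0, 1, 6, 7} : Finset ℕ), g i =
    g 0 * (g 1 * (g 6 * (g 7 * 1))) := by
  rw [Finset.prod_insert (by decide), Finset.prod_insert (by decide),
    Finset.prod_insert (by decide), Finset.prod_singleton, mul_one]

/-- division by `X + 1` (pole 2) -/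
def D23 : List ℕ := [3004616455, 6434062405, 2403160225, 6316442545, 1553313665, 5323035515, 1463003235, 6224616455, 2454062405, 223160225, 1636442545]

theorem D23_chk : ∀ k < 10, Chk (3 + 6 * 2) (D23.getD (k + 1) 0) (D23.getD k 0) := by
  decide +kernel

/-- division by `X + 2` (pole 2) -/
def D24 : List ℕ := [3601413643, 2615516535, 4140524526, 3551525133, 6521602165, 2210146406, 2563166123, 214245325, 5416643656, 6040612613, 3004616455]

theorem D24_chk : ∀ k < 10, Chk (4 + 6 * 2) (D24.getD (k + 1) 0) (D24.getD k 0) := by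
  decide +kernel

/-- division by `X + 3` (pole 2) -/
def D25 : List ℕ := [16205, 4214215514, 4650443336, 1133532452, 3645266533, 6625441331, 4130532245, 6010052304, 636354456, 1410661112, 3601413643]

theorem D25_chk : ∀ k < 10, Chk (5 + 6 * 2) (D25.getD (k + 1) 0) (D25.getD k 0) := by
  decide +kernel

/-- the series at the pole 2 -/
def T2 : List ℕ := [1636442545, 4506311144, 4465266236, 3506214602, 6464425223, 6563116561, 352640335, 3662663464, 142155566, 1214322312, 422356203, 4156634331, 331552425, 3423260114, 5163221626, 5453544422, 1406133153, 2663142301, 2152216115, 4365443634, 2001320556, 3011335232, 1161466633, 6432511541, 6231563105, 4623352554, 5464661216, 1565130442, 3305114313]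

theorem T2_chk : ∀ k < 28, Chk (6 * 2) (T2.getD k 0) (T2.getD (k + 1) 0) := by
  decide +kernel

theorem rep_zeros_2 : Rep (∏ i ∈ ({0, 1, 6, 7} : Finset ℕ),
    (PowerSeries.X + PowerSeries.C ((i : ℚ) - (2 : ℕ)))) 16205 := by
  rw [prod_zeros fun i => PowerSeries.X + PowerSeries.C ((i : ℚ) - (2 : ℕ))]
  have h1 := rep_mul (N' := 15) rep_one (Rl.sub_nat 7 2) (by decide +kernel)
  have h2 := rep_mul (N' := 126) h1 (Rl.sub_nat 6 2) (by decide +kernel)
  have h3 := rep_mul (N' := 1141) h2 (Rl.sub_nat 1 2) (by decide +kernel)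
  have h4 := rep_mul (N' := 16205) h3 (Rl.sub_nat 0 2) (by decide +kernel)
  exact h4

theorem rep_ser_2 (e : ℕ) (he : e < 29) : Rep (ser 2 e) (T2.getD e 0) := by
  have h3 := rep_iv_pow (a := ((5 : ℕ) : ℚ) - (2 : ℕ)) (by norm_num) (Rl.sub_nat 5 2)
    (ci := 5) (by decide) D25 _ rep_zeros_2 10 D25_chk
  have h2 := rep_iv_pow (a := ((4 : ℕ) : ℚ) - (2 : ℕ)) (by norm_num) (Rl.sub_nat 4 2)
    (ci := 4) (by decide) D24 _ h3 10 D24_chk
  have h1 := rep_iv_pow (a := ((3 : ℕ) : ℚ) - (2 : ℕ)) (by norm_num) (Rl.sub_nat 3 2)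
    (ci := 1) (by decide) D23 _ h2 10 D23_chk
  have h0 := rep_lin_pow (Rl.nat 2).neg T2 _ h1 e (fun k hk => T2_chk k (by omega))
  have hE : (Finset.Icc 2 5 : Finset ℕ).erase 2 = {3, 4, 5} := by decide
  have hD : ∏ b ∈ (Finset.Icc 2 5 : Finset ℕ).erase 2, iv ((b : ℚ) - (2 : ℕ)) ^ 10 =
      iv (((3 : ℕ) : ℚ) - (2 : ℕ)) ^ 10 * (iv (((4 : ℕ) : ℚ) - (2 : ℕ)) ^ 10 *
        iv (((5 : ℕ) : ℚ) - (2 : ℕ)) ^ 10) := by
    rw [hE, Finset.prod_insert (by decide), Finset.prod_insert (by decide), Finset.prod_singleton]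
  have hs : ser 2 e = (iv (((3 : ℕ) : ℚ) - (2 : ℕ)) ^ 10 * (iv (((4 : ℕ) : ℚ) - (2 : ℕ)) ^ 10 *
      (iv (((5 : ℕ) : ℚ) - (2 : ℕ)) ^ 10 * ∏ i ∈ ({0, 1, 6, 7} : Finset ℕ),
      (PowerSeries.X + PowerSeries.C ((i : ℚ) - (2 : ℕ)))))) *
      (PowerSeries.X + PowerSeries.C (-((2 : ℕ) : ℚ))) ^ e := by
    unfold ser
    rw [hD]
    congr 1
    ring
  rw [hs]
  exact h0

/-- division by `X + -1` (pole 3) -/
def D32 : List ℕ := [4441461241, 4152306026, 6342400661, 3252411106, 3616156011, 5101016556, 5344556531, 1626316536, 3435401051, 2525300116, 3535366601]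

theorem D32_chk : ∀ k < 10, Chk (2 + 6 * 3) (D32.getD (k + 1) 0) (D32.getD k 0) := by
  decide +kernel

/-- division by `X + 1` (pole 3) -/
def D34 : List ℕ := [4254656301, 6541332461, 665303651, 6151461241, 2441042631, 2040165421, 3613442311, 1244656301, 2631332461, 1155303651, 4441461241]

theorem D34_chk : ∀ k < 10, Chk (4 + 6 * 3) (D34.getD (k + 1) 0) (D34.getD k 0) := by
  decide +kernel

/-- division by `X + 2` (pole 3) -/
def D35 : List ℕ := [12432, 1546232511, 5520642524, 4441535602, 1204050531, 3254313134, 6560424242, 6130041251, 1403151644, 3200321612, 4254656301]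

theorem D35_chk : ∀ k < 10, Chk (5 + 6 * 3) (D35.getD (k + 1) 0) (D35.getD k 0) := by
  decide +kernel

/-- the series at the pole 3 -/
def T3 : List ℕ := [3535366601, 3232422314, 405434612, 4253521461, 4623121144, 1546625162, 2312560351, 4666533304, 1221211542, 6326252341, 6005614234, 3055414422, 5543316431, 4351630564, 5303655502, 2534144621, 6223161524, 5346342152, 2216242211, 3235543254, 434350632, 4525366601, 162422314, 1355434612, 343521461, 3253121144, 626625162, 6502560351, 1626533304]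

theorem T3_chk : ∀ k < 28, Chk (6 * 3) (T3.getD k 0) (T3.getD (k + 1) 0) := by
  decide +kernel

theorem rep_zeros_3 : Rep (∏ i ∈ ({0, 1, 6, 7} : Finset ℕ),
    (PowerSeries.X + PowerSeries.C ((i : ℚ) - (3 : ℕ)))) 12432 := by
  rw [prod_zeros fun i => PowerSeries.X + PowerSeries.C ((i : ℚ) - (3 : ℕ))]
  have h1 := rep_mul (N' := 14) rep_one (Rl.sub_nat 7 3) (by decide +kernel)
  have h2 := rep_mul (N' := 105) h1 (Rl.sub_nat 6 3) (by decide +kernel)
  have h3 := rep_mul (N' := 1554) h2 (Rl.sub_nat 1 3) (by decide +kernel)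
  have h4 := rep_mul (N' := 12432) h3 (Rl.sub_nat 0 3) (by decide +kernel)
  exact h4

theorem rep_ser_3 (e : ℕ) (he : e < 29) : Rep (ser 3 e) (T3.getD e 0) := by
  have h3 := rep_iv_pow (a := ((5 : ℕ) : ℚ) - (3 : ℕ)) (by norm_num) (Rl.sub_nat 5 3)
    (ci := 4) (by decide) D35 _ rep_zeros_3 10 D35_chk
  have h2 := rep_iv_pow (a := ((4 : ℕ) : ℚ) - (3 : ℕ)) (by norm_num) (Rl.sub_nat 4 3)
    (ci := 1) (by decide) D34 _ h3 10 D34_chk
  have h1 := rep_iv_pow (a := ((2 : ℕ) : ℚ) - (3 : ℕ)) (by norm_num) (Rl.sub_nat 2 3)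
    (ci := 6) (by decide) D32 _ h2 10 D32_chk
  have h0 := rep_lin_pow (Rl.nat 3).neg T3 _ h1 e (fun k hk => T3_chk k (by omega))
  have hE : (Finset.Icc 2 5 : Finset ℕ).erase 3 = {2, 4, 5} := by decide
  have hD : ∏ b ∈ (Finset.Icc 2 5 : Finset ℕ).erase 3, iv ((b : ℚ) - (3 : ℕ)) ^ 10 =
      iv (((2 : ℕ) : ℚ) - (3 : ℕ)) ^ 10 * (iv (((4 : ℕ) : ℚ) - (3 : ℕ)) ^ 10 *
        iv (((5 : ℕ) : ℚ) - (3 : ℕ)) ^ 10) := by
    rw [hE, Finset.prod_insert (by decide), Finset.prod_insert (by decide), Finset.prod_singleton]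
  have hs : ser 3 e = (iv (((2 : ℕ) : ℚ) - (3 : ℕ)) ^ 10 * (iv (((4 : ℕ) : ℚ) - (3 : ℕ)) ^ 10 *
      (iv (((5 : ℕ) : ℚ) - (3 : ℕ)) ^ 10 * ∏ i ∈ ({0, 1, 6, 7} : Finset ℕ),
      (PowerSeries.X + PowerSeries.C ((i : ℚ) - (3 : ℕ)))))) *
      (PowerSeries.X + PowerSeries.C (-((3 : ℕ) : ℚ))) ^ e := by
    unfold ser
    rw [hD]
    congr 1
    ring
  rw [hs]
  exact h0

/-- division by `X + -2` (pole 4) -/
def D42 : List ℕ := [5605443342, 4641045616, 1645416354, 5404625205, 3453355141, 6163205133, 6423265132, 2331552256, 203051434, 4141534215, 4545461601]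

theorem D42_chk : ∀ k < 10, Chk (2 + 6 * 4) (D42.getD (k + 1) 0) (D42.getD k 0) := by
  decide +kernel

/-- division by `X + -1` (pole 4) -/
def D43 : List ℕ := [6552504452, 4316166305, 401010622, 5522334435, 6424625262, 3261546465, 354530632, 4405203325, 411611402, 1156060155, 5605443342]

theorem D43_chk : ∀ k < 10, Chk (3 + 6 * 4) (D43.getD (k + 1) 0) (D43.getD k 0) := by
  decide +kernel

/-- division by `X + 1` (pole 4) -/
def D45 : List ℕ := [15442, 2525253222, 6320541202, 3302504452, 6461143132, 651013012, 6150162162, 3350015442, 305253222, 4300541202, 6552504452]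

theorem D45_chk : ∀ k < 10, Chk (5 + 6 * 4) (D45.getD (k + 1) 0) (D45.getD k 0) := by
  decide +kernel

/-- the series at the pole 4 -/
def T4 : List ℕ := [4545461601, 3535452413, 405333662, 4554551366, 3653626134, 1241655665, 5362260321, 4161543403, 6251516532, 6421222446, 1005113244, 3052464325, 2533411441, 4456640263, 2303152502, 2233134126, 1253666554, 5441332655, 5266545261, 3532533553, 444450642, 4222316106, 112325364, 1452444115, 333226411, 3554151643, 656122112, 6205510456, 6656234304]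

theorem T4_chk : ∀ k < 28, Chk (6 * 4) (T4.getD k 0) (T4.getD (k + 1) 0) := by
  decide +kernel

theorem rep_zeros_4 : Rep (∏ i ∈ ({0, 1, 6, 7} : Finset ℕ),
    (PowerSeries.X + PowerSeries.C ((i : ℚ) - (4 : ℕ)))) 15442 := by
  rw [prod_zeros fun i => PowerSeries.X + PowerSeries.C ((i : ℚ) - (4 : ℕ))]
  have h1 := rep_mul (N' := 13) rep_one (Rl.sub_nat 7 4) (by decide +kernel)
  have h2 := rep_mul (N' := 156) h1 (Rl.sub_nat 6 4) (by decide +kernel)
  have h3 := rep_mul (N' := 1253) h2 (Rl.sub_nat 1 4) (by decide +kernel)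
  have h4 := rep_mul (N' := 15442) h3 (Rl.sub_nat 0 4) (by decide +kernel)
  exact h4

theorem rep_ser_4 (e : ℕ) (he : e < 29) : Rep (ser 4 e) (T4.getD e 0) := by
  have h3 := rep_iv_pow (a := ((5 : ℕ) : ℚ) - (4 : ℕ)) (by norm_num) (Rl.sub_nat 5 4)
    (ci := 1) (by decide) D45 _ rep_zeros_4 10 D45_chk
  have h2 := rep_iv_pow (a := ((3 : ℕ) : ℚ) - (4 : ℕ)) (by norm_num) (Rl.sub_nat 3 4)
    (ci := 6) (by decide) D43 _ h3 10 D43_chk
  have h1 := rep_iv_pow (a := ((2 : ℕ) : ℚ) - (4 : ℕ)) (by norm_num) (Rl.sub_nat 2 4)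
    (ci := 3) (by decide) D42 _ h2 10 D42_chk
  have h0 := rep_lin_pow (Rl.nat 4).neg T4 _ h1 e (fun k hk => T4_chk k (by omega))
  have hE : (Finset.Icc 2 5 : Finset ℕ).erase 4 = {2, 3, 5} := by decide
  have hD : ∏ b ∈ (Finset.Icc 2 5 : Finset ℕ).erase 4, iv ((b : ℚ) - (4 : ℕ)) ^ 10 =
      iv (((2 : ℕ) : ℚ) - (4 : ℕ)) ^ 10 * (iv (((3 : ℕ) : ℚ) - (4 : ℕ)) ^ 10 *
        iv (((5 : ℕ) : ℚ) - (4 : ℕ)) ^ 10) := by
    rw [hE, Finset.prod_insert (by decide), Finset.prod_insert (by decide), Finset.prod_singleton]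
  have hs : ser 4 e = (iv (((2 : ℕ) : ℚ) - (4 : ℕ)) ^ 10 * (iv (((3 : ℕ) : ℚ) - (4 : ℕ)) ^ 10 *
      (iv (((5 : ℕ) : ℚ) - (4 : ℕ)) ^ 10 * ∏ i ∈ ({0, 1, 6, 7} : Finset ℕ),
      (PowerSeries.X + PowerSeries.C ((i : ℚ) - (4 : ℕ)))))) *
      (PowerSeries.X + PowerSeries.C (-((4 : ℕ) : ℚ))) ^ e := by
    unfold ser
    rw [hD]
    congr 1
    ring
  rw [hs]
  exact h0

/-- division by `X + -3` (pole 5) -/
def D52 : List ℕ := [5530433366, 1116422225, 3333102153, 1603526656, 6500302505, 6300032113, 6351322146, 5030166655, 1135144443, 2016204236, 6646345535]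

theorem D52_chk : ∀ k < 10, Chk (2 + 6 * 5) (D52.getD (k + 1) 0) (D52.getD k 0) := by
  decide +kernel

/-- division by `X + -2` (pole 5) -/
def D53 : List ℕ := [1304101415, 2565012501, 3106366053, 300611122, 36525426, 5361102214, 3440136025, 2045303531, 3121036103, 2014244012, 5530433366]

theorem D53_chk : ∀ k < 10, Chk (3 + 6 * 5) (D53.getD (k + 1) 0) (D53.getD k 0) := by
  decide +kernel

/-- division by `X + -1` (pole 5) -/
def D54 : List ℕ := [11205, 5555556022, 2053164335, 3553606362, 3642544365, 326163032, 2250606225, 5020066502, 2002221055, 2444613442, 1304101415]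

theorem D54_chk : ∀ k < 10, Chk (4 + 6 * 5) (D54.getD (k + 1) 0) (D54.getD k 0) := by
  decide +kernel

/-- the series at the pole 5 -/
def T5 : List ℕ := [6646345535, 4201361643, 3415561246, 3201264105, 1414322253, 6264166266, 322140345, 3165613363, 132652516, 1513352415, 452451203, 4651644436, 341255455, 3324210613, 2113526656, 5354534325, 6406634123, 2164132406, 5122511165, 4462433133, 5001420526, 3016345535, 6111361643, 6335561246, 1241264105, 4124322253, 2414166266, 1262140345, 4305613363]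

theorem T5_chk : ∀ k < 28, Chk (6 * 5) (T5.getD k 0) (T5.getD (k + 1) 0) := by
  decide +kernel

theorem rep_zeros_5 : Rep (∏ i ∈ ({0, 1, 6, 7} : Finset ℕ),
    (PowerSeries.X + PowerSeries.C ((i : ℚ) - (5 : ℕ)))) 11205 := by
  rw [prod_zeros fun i => PowerSeries.X + PowerSeries.C ((i : ℚ) - (5 : ℕ))]
  have h1 := rep_mul (N' := 12) rep_one (Rl.sub_nat 7 5) (by decide +kernel)
  have h2 := rep_mul (N' := 132) h1 (Rl.sub_nat 6 5) (by decide +kernel)
  have h3 := rep_mul (N' := 1646) h2 (Rl.sub_nat 1 5) (by decide +kernel)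
  have h4 := rep_mul (N' := 11205) h3 (Rl.sub_nat 0 5) (by decide +kernel)
  exact h4

theorem rep_ser_5 (e : ℕ) (he : e < 29) : Rep (ser 5 e) (T5.getD e 0) := by
  have h3 := rep_iv_pow (a := ((4 : ℕ) : ℚ) - (5 : ℕ)) (by norm_num) (Rl.sub_nat 4 5)
    (ci := 6) (by decide) D54 _ rep_zeros_5 10 D54_chk
  have h2 := rep_iv_pow (a := ((3 : ℕ) : ℚ) - (5 : ℕ)) (by norm_num) (Rl.sub_nat 3 5)
    (ci := 3) (by decide) D53 _ h3 10 D53_chk
  have h1 := rep_iv_pow (a := ((2 : ℕ) : ℚ) - (5 : ℕ)) (by norm_num) (Rl.sub_nat 2 5)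
    (ci := 2) (by decide) D52 _ h2 10 D52_chk
  have h0 := rep_lin_pow (Rl.nat 5).neg T5 _ h1 e (fun k hk => T5_chk k (by omega))
  have hE : (Finset.Icc 2 5 : Finset ℕ).erase 5 = {2, 3, 4} := by decide
  have hD : ∏ b ∈ (Finset.Icc 2 5 : Finset ℕ).erase 5, iv ((b : ℚ) - (5 : ℕ)) ^ 10 =
      iv (((2 : ℕ) : ℚ) - (5 : ℕ)) ^ 10 * (iv (((3 : ℕ) : ℚ) - (5 : ℕ)) ^ 10 *
        iv (((4 : ℕ) : ℚ) - (5 : ℕ)) ^ 10) := by
    rw [hE, Finset.prod_insert (by decide), Finset.prod_insert (by decide), Finset.prod_singleton]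
  have hs : ser 5 e = (iv (((2 : ℕ) : ℚ) - (5 : ℕ)) ^ 10 * (iv (((3 : ℕ) : ℚ) - (5 : ℕ)) ^ 10 *
      (iv (((4 : ℕ) : ℚ) - (5 : ℕ)) ^ 10 * ∏ i ∈ ({0, 1, 6, 7} : Finset ℕ),
      (PowerSeries.X + PowerSeries.C ((i : ℚ) - (5 : ℕ)))))) *
      (PowerSeries.X + PowerSeries.C (-((5 : ℕ) : ℚ))) ^ e := by
    unfold ser
    rw [hD]
    congr 1
    ring
  rw [hs]
  exact h0

/-- the table -/
def TT : ℕ → ℕ → ℕ
  | 2, e => T2.getD e 0
  | 3, e => T3.getD e 0
  | 4, e => T4.getD e 0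
  | 5, e => T5.getD e 0
  | _, _ => 0

theorem rep_ser (j : ℕ) (hj : j ∈ Finset.Icc 2 5) (e : ℕ) (he : e < 29) :
    Rep (ser j e) (TT j e) := by
  rw [Finset.mem_Icc] at hj
  obtain ⟨h1, h2⟩ := hj
  interval_cases j
  · exact rep_ser_2 e he
  · exact rep_ser_3 e he
  · exact rep_ser_4 e he
  · exact rep_ser_5 e he

/-- inverses modulo `7` -/
def inv7 : ℕ → ℕ
  | 0 => 1
  | 1 => 4
  | _ => 5

/-- harmonic sums modulo `7` -/
def hN (i m : ℕ) : ℕ := ∑ l ∈ Finset.range m, inv7 l ^ i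

theorem rl_hs (i m : ℕ) (hm : m ≤ 3) : Rl (hs i m) (hN i m) := by
  unfold hs hN
  refine Rl.sum _ _ _ fun l hl => ?_
  rw [Finset.mem_range] at hl
  rw [← one_div_pow]
  refine Rl.pow ?_ i
  have hl3 : l < 3 := by omega
  interval_cases l
  · exact (Rl.cancel (a := 1) (m := 1) (mi := 1) (n := 1) Rl.one (by decide) (by norm_num; exact Rl.one))
  · exact (Rl.cancel (a := 2) (m := 2) (mi := 4) (n := 1) (Rl.nat 2) (by decide) (by norm_num; exact Rl.one))
  · exact (Rl.cancel (a := 3) (m := 3) (mi := 5) (n := 1) (Rl.nat 3) (by decide) (by norm_num; exact Rl.one))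

/-- `Fm e` modulo `7` -/
def FN (e : ℕ) : ℕ := 6 * ∑ j ∈ Finset.Icc 2 5, ∑ i ∈ Finset.Icc 1 10,
  dg (TT j e) (10 - i) * (hN i (j - 2) + 6 ^ (i + 1) * hN i (5 - j))

theorem rl_Fm (e : ℕ) (he : e < 29) : Rl (Fm e) (FN e) := by
  unfold Fm FN
  refine Rl.neg (Rl.sum _ _ _ fun j hj => Rl.sum _ _ _ fun i hi => ?_)
  have hj' := Finset.mem_Icc.1 hj
  have hi' := Finset.mem_Icc.1 hi
  refine Rl.mul (rep_ser j hj e he (10 - i) (by omega)) (Rl.add (rl_hs _ _ (by omega)) ?_)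
  exact Rl.mul (Rl.neg_one.pow _) (rl_hs _ _ (by omega))

/-- `Bm i0 e` modulo `7` -/
def BN (i0 e : ℕ) : ℕ := 2 * ∑ j ∈ Finset.Icc 2 5, dg (TT j e) (10 - i0)

theorem rl_Bm (i0 : ℕ) (h0 : 1 ≤ i0) (e : ℕ) (he : e < 29) : Rl (Bm i0 e) (BN i0 e) := by
  unfold Bm BN
  refine Rl.mul (Rl.nat 2) (Rl.sum _ _ _ fun j hj => ?_)
  exact rep_ser j hj e he (10 - i0) (by omega)

/-- values of `Fm` -/
def FF : ℕ := 4040000060004020101060602000

/-- values of `Bm` -/
def BB : ℕ → ℕ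
  | 3 => 3000405010504000505060506050
  | 5 => 3020103010203040506020000000
  | _ => 50602030204000402030206050

theorem FN_val : ∀ e < 29, FN e % 7 = dg FF e % 7 := by
  decide +kernel

theorem BN_val_3 : ∀ e < 29, BN 3 e % 7 = dg (BB 3) e % 7 := by
  decide +kernel

theorem BN_val_5 : ∀ e < 29, BN 5 e % 7 = dg (BB 5) e % 7 := by
  decide +kernel

theorem BN_val_7 : ∀ e < 29, BN 7 e % 7 = dg (BB 7) e % 7 := by
  decide +kernel

/-- columns of the inverse matrix modulo `7` -/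
def C3 : List ℕ := [50100050104050502000, 5010005010405050200, 40201010203060301030, 4020101020306030103, 50604010005030202050, 5060401000503020205, 300010100010104030, 30001010001010403, 40005020503010201000, 4000502050301020100, 600040406000602060, 60004040600060206, 30403000203060604030, 3040300020306060403, 40206020300020106010, 4020602030002010601, 30405050106060204050, 3040505010606020405, 10305000002010603060, 1030500000201060306]

/-- columns of the inverse matrix modulo `7` -/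
def C5 : List ℕ := [50205040601000205040, 5020504060100020504, 105000203020404010, 10500020302040401, 30500010501020205040, 3050001050102020504, 20002020602010004040, 2000202060201000404, 40100030201030106060, 4010003020103010606, 10403010404060105050, 1040301040406010505, 10200000605000301050, 1020000060500030105, 50604020203030104000, 5060402020303010400, 50106000301050603010, 5010600030105060301, 10206020502010400000, 1020602050201040000]

/-- columns of the inverse matrix modulo `7` -/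
def C7 : List ℕ := [60105030506020405040, 6010503050602040504, 40105000001010305010, 4010500000101030501, 30601010602020406020, 3060101060202040602, 20401020304030601040, 2040102030403060104, 20603030500060401020, 2060303050006040102, 50003060204000106030, 5000306020400010603, 30303010206020600030, 3030301020602060003, 50603020101000002030, 5060302010100000203, 30305050303040205010, 3030505030304020501, 10004020602000604040, 1000402060200060404]

/-- the entries of the matrix modulo `7` -/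
def EN (i0 l k : ℕ) : ℕ := if k < 10 then dg FF (l + k) else dg (BB i0) (l + (k - 10))

theorem inv_chk_3 : ∀ i < 20, ∀ j < 20,
    (∑ k ∈ Finset.range 20, EN 3 i k * dg (C3.getD j 0) k) % 7 = if i = j then 1 else 0 := by
  decide +kernel

theorem inv_chk_5 : ∀ i < 20, ∀ j < 20,
    (∑ k ∈ Finset.range 20, EN 5 i k * dg (C5.getD j 0) k) % 7 = if i = j then 1 else 0 := by
  decide +kernel

theorem inv_chk_7 : ∀ i < 20, ∀ j < 20,
    (∑ k ∈ Finset.range 20, EN 7 i k * dg (C7.getD j 0) k) % 7 = if i = j then 1 else 0 := by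
  decide +kernel

theorem det_ne (M : Matrix (Fin 20) (Fin 20) ℚ) (N B : ℕ → ℕ → ℕ)
    (h : ∀ i j : Fin 20, Rl (M i j) (N i j))
    (hB : ∀ i < 20, ∀ j < 20, (∑ k ∈ Finset.range 20, N i k * B k j) % 7 = if i = j then 1 else 0) :
    M.det ≠ 0 := by
  intro h0
  choose Z hZ hZ' using h
  have e1 : (Matrix.of Z).det = 0 := by
    have h1 : (Matrix.of Z).map (PadicInt.Coe.ringHom (p := 7)) = M.map (Rat.castHom ℚ_[7]) := by
      ext i j
      exact hZ i j
    have h2 := RingHom.map_det (PadicInt.Coe.ringHom (p := 7)) (Matrix.of Z)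
    have h3 := RingHom.map_det (Rat.castHom ℚ_[7]) M
    rw [h0, map_zero] at h3
    have h4 : (PadicInt.Coe.ringHom (p := 7)) (Matrix.of Z).det = 0 := by
      rw [h2, RingHom.mapMatrix_apply, h1, h3, RingHom.mapMatrix_apply]
    exact Subtype.ext h4
  have e2 : ((Matrix.of Z).map (PadicInt.toZMod (p := 7))).det = 0 := by
    have h2 := RingHom.map_det (PadicInt.toZMod (p := 7)) (Matrix.of Z)
    rw [e1, map_zero] at h2
    exact h2.symm
  have e3 : (Matrix.of Z).map (PadicInt.toZMod (p := 7)) *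
      (Matrix.of fun k j : Fin 20 => ((B k j : ℕ) : ZMod 7)) = 1 := by
    ext i j
    rw [Matrix.mul_apply]
    have h1 : ∀ k : Fin 20, (Matrix.of Z).map (PadicInt.toZMod (p := 7)) i k *
        (Matrix.of fun k j : Fin 20 => ((B k j : ℕ) : ZMod 7)) k j =
        ((N i k * B k j : ℕ) : ZMod 7) := by
      intro k
      rw [Nat.cast_mul]
      show PadicInt.toZMod (Z i k) * ((B k j : ℕ) : ZMod 7) = _
      rw [hZ' i k]
    rw [Finset.sum_congr rfl fun k _ => h1 k, ← Nat.cast_sum,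
      Fin.sum_univ_eq_sum_range (fun k => N i k * B k j) 20, ← ZMod.natCast_mod,
      hB i i.2 j j.2, Matrix.one_apply]
    by_cases hij : i = j
    · rw [if_pos hij, if_pos (by rw [hij]), Nat.cast_one]
    · rw [if_neg hij, if_neg (fun h => hij (Fin.ext h)), Nat.cast_zero]
  have e4 := congrArg Matrix.det e3
  rw [Matrix.det_mul, e2, zero_mul, Matrix.det_one] at e4
  exact absurd e4 (by decide)

theorem main (i0 : ℕ) (h1 : 1 ≤ i0) (Cl : List ℕ)
    (hv : ∀ e < 29, BN i0 e % 7 = dg (BB i0) e % 7)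
    (hc : ∀ i < 20, ∀ j < 20,
      (∑ k ∈ Finset.range 20, EN i0 i k * dg (Cl.getD j 0) k) % 7 = if i = j then 1 else 0) :
    (Matrix.of fun l l' : Fin 20 =>
      if l'.1 < 10 then Fm (l.1 + l'.1) else Bm i0 (l.1 + (l'.1 - 10))).det ≠ 0 := by
  refine det_ne _ (EN i0) (fun k j => dg (Cl.getD j 0) k) ?_ hc
  intro i j
  show Rl (if j.1 < 10 then Fm (i.1 + j.1) else Bm i0 (i.1 + (j.1 - 10))) (EN i0 i.1 j.1)
  unfold EN
  have hi := i.2
  have hj := j.2
  split_ifs with h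
  · exact (rl_Fm _ (by omega)).congr (FN_val _ (by omega))
  · exact (rl_Bm i0 h1 _ (by omega)).congr (hv _ (by omega))

end H5

open H5 in
theorem H5_local (i0 : ℕ) (hi0 : i0 = 3 ∨ i0 = 5 ∨ i0 = 7) :
    (Matrix.of fun l l' : Fin 20 => if l'.1 < 10 then Fm (l.1 + l'.1) else Bm i0 (l.1 + (l'.1 - 10))).det ≠ 0 := by
  rcases hi0 with rfl | rfl | rfl
  · exact H5.main 3 (by norm_num) C3 BN_val_3 inv_chk_3
  · exact H5.main 5 (by norm_num) C5 BN_val_5 inv_chk_5
  · exact H5.main 7 (by norm_num) C7 BN_val_7 inv_chk_7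

end Pool.Agent.H574R2.D9
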