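import Pool.Agent.H574R2.D9.Defs
import Pool.Agent.H336R2.HD.H6pre

/-! Task H6 (helper180): non-vanishing of the determinant, from A2, H3, H4, H5 (as hypotheses). -/

open Polynomial Pool.Agent.H337R2

namespace Pool.Agent.H574R2.D9

noncomputable section

/-! ### auxiliary lemmas -/

/-- determinant after scaling of rows and columns -/
lemma H6_det_scale {α : Type} [Fintype α] [DecidableEq α] (c d : α → ℚ) (M : Matrix α α ℚ) :
    (Matrix.of fun a b => c a * d b * M a b).det = (∏ a, c a) * ((∏ a, d a) * M.det) := by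
  have h1 : (Matrix.of fun a b => c a * d b * M a b) =
      Matrix.of fun a b => c a * (Matrix.of fun a b => d b * M a b) a b := by
    ext a b
    simp only [Matrix.of_apply]
    ring
  rw [h1, Matrix.det_mul_column, Matrix.det_mul_row]

lemma H6_XN_natDegree (n r : ℕ) : (XN n r).natDegree ≤ 1 := by
  unfold XN
  rw [← C_pow]
  exact (natDegree_X_sub_C _).le

/-- the test polynomials -/
def H6_P (p r c l : ℕ) : ℚ[X] := XN p r ^ l * OT p r c

lemma H6_P_natDegree (p r c l : ℕ) (hr1 : 1 ≤ r) (hr2 : 2 * r < p) (hl : l < c)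
    (hodd : p % 2 = 1) : (H6_P p r c l).natDegree < c * ((p - 1) / 2) := by
  have h1 : (XN p r ^ l).natDegree ≤ l := by
    refine natDegree_pow_le.trans ?_
    have := H6_XN_natDegree p r
    nlinarith
  have h2 : (OT p r c).natDegree ≤ c * ((p - 1) / 2 - 1) := by
    unfold OT
    refine (natDegree_prod_le _ _).trans ?_
    have h3 : ∀ r' ∈ (Finset.Icc 1 ((p - 1) / 2)).erase r, (XN p r' ^ c).natDegree ≤ c := by
      intro r' _
      refine natDegree_pow_le.trans ?_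
      have := H6_XN_natDegree p r'
      nlinarith
    refine (Finset.sum_le_sum h3).trans ?_
    rw [Finset.sum_const, Finset.card_erase_of_mem, Nat.card_Icc, smul_eq_mul]
    · rw [mul_comm]
      exact Nat.mul_le_mul_left _ (by omega)
    · rw [Finset.mem_Icc]
      omega
  unfold H6_P
  refine (natDegree_mul_le).trans_lt ?_
  obtain ⟨h, hh⟩ : ∃ h, (p - 1) / 2 = h + 1 := ⟨(p - 1) / 2 - 1, by omega⟩
  rw [hh] at h2 ⊢
  rw [Nat.add_sub_cancel] at h2
  rw [mul_add, mul_one]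
  omega

lemma H6_P_mul (p r l l' : ℕ) : H6_P p r 20 l * H6_P p r 10 l' =
    XN p r ^ (l + l') * OT p r 30 := by
  unfold H6_P
  rw [pow_add]
  have h : OT p r 30 = OT p r 20 * OT p r 10 := by
    unfold OT
    rw [← Finset.prod_mul_distrib]
    refine Finset.prod_congr rfl fun r' _ => ?_
    rw [← pow_add]
  rw [h]
  ring

/-- the bijection between rows and columns -/
def H6_e (h : ℕ) : Fin 20 × Fin h ≃ (Fin 10 × Fin h) ⊕ (Fin 10 × Fin h) where
  toFun a := if hl : a.1.1 < 10 then Sum.inl (⟨a.1.1, hl⟩, a.2)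
    else Sum.inr (⟨a.1.1 - 10, by have := a.1.2; omega⟩, a.2)
  invFun := Sum.elim (fun c => (⟨c.1.1, by have := c.1.2; omega⟩, c.2))
    (fun c => (⟨c.1.1 + 10, by have := c.1.2; omega⟩, c.2))
  left_inv a := by
    obtain ⟨⟨l, hl⟩, r⟩ := a
    by_cases h1 : l < 10
    · simp [h1]
    · simp only [h1, dite_false, Sum.elim_inr, Prod.mk.injEq, Fin.mk.injEq, and_true]
      omega
  right_inv c := by
    rcases c with ⟨⟨l, hl⟩, r⟩ | ⟨⟨l, hl⟩, r⟩
    · simp [hl]
    · simp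

lemma H6_e_lt (h : ℕ) (a : Fin 20 × Fin h) (ha : a.1.1 < 10) :
    H6_e h a = Sum.inl (⟨a.1.1, ha⟩, a.2) := by
  unfold H6_e
  simp [ha]

lemma H6_e_ge (h : ℕ) (a : Fin 20 × Fin h) (ha : ¬ a.1.1 < 10) :
    H6_e h a = Sum.inr (⟨a.1.1 - 10, by have := a.1.2; omega⟩, a.2) := by
  unfold H6_e
  simp [ha]

/-- statement of A2 -/
def H6_A2 : Prop := ∀ (A B : ℚ[X] →ₗ[ℚ] ℚ) (m : ℕ) {R C : Type} [Fintype R] [DecidableEq R] [Fintype C]
    [DecidableEq C] (e : R ≃ C ⊕ C) (_hR : Fintype.card R = 2 * m) (_hC : Fintype.card C = m)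
    (Q : R → ℚ[X]) (P : C → ℚ[X]) (_hQ : ∀ r, (Q r).natDegree < 2 * m) (_hP : ∀ c, (P c).natDegree < m)
    (_h : (Matrix.of fun r s : R =>
      Sum.elim (fun c => A (Q r * P c)) (fun c => B (Q r * P c)) (e s)).det ≠ 0),
    MD A B m ≠ 0

/-- statement of H3 -/
def H6_H3 : Prop := ∀ {p : ℕ} [Fact p.Prime] (_hp : 100 ≤ p) (α β : ℕ → ℚ) (_hα : ∀ i, padicNorm p (α i) ≤ 1)
    (_hβ : ∀ i, padicNorm p (β i) ≤ 1) (i0 : ℕ) (_hi0 : i0 = 3 ∨ i0 = 5 ∨ i0 = 7) (_hβ0 : ∀ i < i0, β i = 0)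
    (r : ℕ) (_hr1 : 1 ≤ r) (_hr2 : 2 * r < p),
    ∃ w : ℚ, padicNorm p w = 1 ∧ ∀ e : ℕ, e ≤ 28 →
      padicNorm p ((p : ℚ) ^ (-(e : ℤ)) * AL p α (XN p r ^ e * OT p r 30) -
        w * (-2 * r) ^ e * Fm e) ≤ (p : ℚ)⁻¹ ∧
      padicNorm p ((p : ℚ) ^ (-(e : ℤ) - i0) * BL p β (XN p r ^ e * OT p r 30) -
        w * (-2 * r) ^ e * (β i0 * Bm i0 e)) ≤ (p : ℚ)⁻¹

/-- statement of H4 -/
def H6_H4 : Prop := ∀ {p : ℕ} [Fact p.Prime] (_hp : 100 ≤ p) (α β : ℕ → ℚ) (_hα : ∀ i, padicNorm p (α i) ≤ 1)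
    (_hβ : ∀ i, padicNorm p (β i) ≤ 1) (i0 : ℕ) (_hi0 : i0 = 3 ∨ i0 = 5 ∨ i0 = 7) (_hβ0 : ∀ i < i0, β i = 0)
    (r s l l' : ℕ) (_hr1 : 1 ≤ r) (_hr2 : 2 * r < p) (_hs1 : 1 ≤ s) (_hs2 : 2 * s < p) (_hrs : r ≠ s)
    (_hl : l < 20) (_hl' : l' < 10),
    padicNorm p ((p : ℚ) ^ (-(l : ℤ) - (l' : ℤ)) * AL p α
      ((XN p r ^ l * OT p r 20) * (XN p s ^ l' * OT p s 10))) ≤ (p : ℚ)⁻¹ ∧
    padicNorm p ((p : ℚ) ^ (-(l : ℤ) - (l' : ℤ) - i0) * BL p β
      ((XN p r ^ l * OT p r 20) * (XN p s ^ l' * OT p s 10))) ≤ (p : ℚ)⁻¹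

/-- statement of H5 -/
def H6_H5 : Prop := ∀ (i0 : ℕ) (_hi0 : i0 = 3 ∨ i0 = 5 ∨ i0 = 7),
    (Matrix.of fun l l' : Fin 20 => if l'.1 < 10 then Fm (l.1 + l'.1) else Bm i0 (l.1 + (l'.1 - 10))).det ≠ 0

lemma H6_norm_prod (p : ℕ) [Fact p.Prime] {ι : Type} [Fintype ι] (f : ι → ℚ)
    (hf : ∀ i, padicNorm p (f i) = 1) : padicNorm p (∏ i, f i) = 1 := by
  have h4 : padicNorm p (∏ i, f i) = ∏ i, padicNorm p (f i) := by
    exact map_prod (⟨⟨fun x => padicNorm p x, padicNorm.one⟩, fun x y => padicNorm.mul x y⟩ :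
      ℚ →* ℚ) f Finset.univ
  rw [h4]
  exact Finset.prod_eq_one fun i _ => hf i

lemma H6_norm_pow (p : ℕ) [Fact p.Prime] (x : ℚ) (hx : padicNorm p x = 1) (k : ℕ) :
    padicNorm p (x ^ k) = 1 := by
  induction k with
  | zero => simp
  | succ k ih => rw [pow_succ, padicNorm.mul, ih, hx, one_mul]

lemma H6_fin_int (F : ℕ → ℚ) (N : ℕ) :
    ∃ p2 : ℕ, ∀ e ∈ Finset.range N, ∀ p : ℕ, p2 ≤ p → p.Prime → padicNorm p (F e) ≤ 1 := by
  choose f hf using fun e : ℕ => Pool.Agent.H336R2.HD.H6_int (F e)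
  refine ⟨(Finset.range N).sup f, fun e he p hp hpp => hf e p ?_ hpp⟩
  exact (Finset.le_sup (f := f) he).trans hp

lemma H6_UInt (p q : ℕ) (hpp : p.Prime) (hqp : q < p) (u : ℕ → ℚ) (hu : UInt q u) (i : ℕ) :
    padicNorm p (u i) ≤ 1 := by
  have : Fact p.Prime := ⟨hpp⟩
  have hq0 : 0 < q := hu.1
  obtain ⟨z, hz⟩ := hu.2 i
  have h1 : padicNorm p ((q : ℕ) : ℚ) = 1 := by
    rw [padicNorm.nat_eq_one_iff]
    intro h
    have := Nat.le_of_dvd hq0 h
    omega
  have h2 : padicNorm p ((q : ℚ) * u i) ≤ 1 := by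
    rw [hz]
    exact padicNorm.of_int z
  rw [padicNorm.mul] at h2
  rw [h1, one_mul] at h2
  exact h2

theorem H6_of (A2_MD_ne : H6_A2) (H3_diag : H6_H3) (H4_offdiag : H6_H4) (H5_local : H6_H5)
    (α β : ℕ → ℚ) (q : ℕ) (hα : UInt q α) (hβ : UInt q β) (i0 : ℕ)
    (hi0 : i0 = 3 ∨ i0 = 5 ∨ i0 = 7) (hβ0 : ∀ i < i0, β i = 0) (hβ1 : β i0 ≠ 0) :
    ∃ p0 : ℕ, ∀ p : ℕ, p0 ≤ p → p.Prime → DD p α β ≠ 0 := by
  -- bounds on the constants
  obtain ⟨p1, hp1⟩ := Pool.Agent.H336R2.HD.H6_unit _ (H5_local i0 hi0)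
  obtain ⟨p2, hp2⟩ := H6_fin_int Fm 29
  obtain ⟨p3, hp3⟩ := H6_fin_int (Bm i0) 29
  obtain ⟨p4, hp4⟩ := Pool.Agent.H336R2.HD.H6_unit _ hβ1
  refine ⟨p1 + p2 + p3 + p4 + q + 100, fun p hp hpp => ?_⟩
  have : Fact p.Prime := ⟨hpp⟩
  have hp100 : 100 ≤ p := by omega
  have hodd : p % 2 = 1 := by
    rcases hpp.eq_two_or_odd with h | h
    · omega
    · exact h
  have hαp : ∀ i, padicNorm p (α i) ≤ 1 := H6_UInt p q hpp (by omega) α hα
  have hβp : ∀ i, padicNorm p (β i) ≤ 1 := H6_UInt p q hpp (by omega) β hβ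
  set h := (p - 1) / 2 with hh
  have hph : p = 2 * h + 1 := by omega
  have hp0 : (p : ℚ) ≠ 0 := by exact_mod_cast hpp.ne_zero
  -- choose the units
  have hw : ∀ r : Fin h, ∃ w : ℚ, padicNorm p w = 1 ∧ ∀ e : ℕ, e ≤ 28 →
      padicNorm p ((p : ℚ) ^ (-(e : ℤ)) * AL p α (XN p (r.1 + 1) ^ e * OT p (r.1 + 1) 30) -
        w * (-2 * ((r.1 + 1 : ℕ) : ℚ)) ^ e * Fm e) ≤ (p : ℚ)⁻¹ ∧
      padicNorm p ((p : ℚ) ^ (-(e : ℤ) - i0) * BL p β (XN p (r.1 + 1) ^ e * OT p (r.1 + 1) 30) -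
        w * (-2 * ((r.1 + 1 : ℕ) : ℚ)) ^ e * (β i0 * Bm i0 e)) ≤ (p : ℚ)⁻¹ := by
    intro r
    have hr := r.2
    exact H3_diag hp100 α β hαp hβp i0 hi0 hβ0 (r.1 + 1) (by omega) (by omega)
  choose w hw1 hw2 using hw
  have hunit : ∀ r : Fin h, padicNorm p (-2 * ((r.1 + 1 : ℕ) : ℚ)) = 1 := by
    intro r
    have hr := r.2
    have h3 : (-2 * ((r.1 + 1 : ℕ) : ℚ)) = ((-(2 * (r.1 + 1) : ℕ) : ℤ) : ℚ) := by
      push_cast
      ring
    rw [h3, padicNorm.int_eq_one_iff]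
    intro h4
    rw [Int.dvd_neg, Int.natCast_dvd_natCast] at h4
    have := Nat.le_of_dvd (by omega) h4
    omega
  -- the Gram matrix
  set Q : Fin 20 × Fin h → ℚ[X] := fun a => H6_P p (a.2.1 + 1) 20 a.1.1 with hQ
  set P : Fin 10 × Fin h → ℚ[X] := fun c => H6_P p (c.2.1 + 1) 10 c.1.1 with hP
  set G : Matrix (Fin 20 × Fin h) (Fin 20 × Fin h) ℚ :=
    Matrix.of fun r s => Sum.elim (fun c => AL p α (Q r * P c)) (fun c => BL p β (Q r * P c))
      (H6_e h s) with hG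
  have key : G.det ≠ 0 := by
    set c : Fin 20 × Fin h → ℚ := fun a => (p : ℚ) ^ (-(a.1.1 : ℤ)) with hc
    set d : Fin 20 × Fin h → ℚ := fun a =>
      if a.1.1 < 10 then (p : ℚ) ^ (-(a.1.1 : ℤ)) else (p : ℚ) ^ (-((a.1.1 - 10 : ℕ) : ℤ) - i0) with hd
    set M : Matrix (Fin 20 × Fin h) (Fin 20 × Fin h) ℚ :=
      Matrix.of fun a b => c a * d b * G a b with hM
    set Bl : Fin h → Matrix (Fin 20) (Fin 20) ℚ := fun r =>
      Matrix.of fun l l' => if l'.1 < 10 then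
          w r * (-2 * ((r.1 + 1 : ℕ) : ℚ)) ^ (l.1 + l'.1) * Fm (l.1 + l'.1)
        else w r * (-2 * ((r.1 + 1 : ℕ) : ℚ)) ^ (l.1 + (l'.1 - 10)) * (β i0 * Bm i0 (l.1 + (l'.1 - 10)))
      with hBl
    have hM0 : M.det ≠ 0 := by
      apply Pool.Agent.H336R2.HD.A6_det_congr p M (Matrix.blockDiagonal Bl)
      · intro a b
        rw [Matrix.blockDiagonal_apply]
        split_ifs with hab
        · simp only [hBl, Matrix.of_apply]
          have ha := a.1.2
          have hb := b.1.2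
          split_ifs with hl
          · have h1 : padicNorm p (Fm (a.1.1 + b.1.1)) ≤ 1 :=
              hp2 _ (Finset.mem_range.2 (by omega)) p (by omega) hpp
            rw [padicNorm.mul, padicNorm.mul, hw1, one_mul, H6_norm_pow p _ (hunit a.2), one_mul]
            exact h1
          · have h1 : padicNorm p (Bm i0 (a.1.1 + (b.1.1 - 10))) ≤ 1 :=
              hp3 _ (Finset.mem_range.2 (by omega)) p (by omega) hpp
            rw [padicNorm.mul, padicNorm.mul, hw1, one_mul, H6_norm_pow p _ (hunit a.2), one_mul,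
              padicNorm.mul]
            exact mul_le_one₀ (hβp i0) (padicNorm.nonneg _) h1
        · simp
      · intro a b
        rw [Matrix.blockDiagonal_apply]
        have ha := a.1.2
        have hb := b.1.2
        have ha2 := a.2.2
        have hb2 := b.2.2
        by_cases hl : b.1.1 < 10
        · have hMab : M a b = (p : ℚ) ^ (-(a.1.1 : ℤ) - (b.1.1 : ℤ)) *
              AL p α (H6_P p (a.2.1 + 1) 20 a.1.1 * H6_P p (b.2.1 + 1) 10 b.1.1) := by
            simp only [hM, hG, Matrix.of_apply, hc, hd, if_pos hl, H6_e_lt h b hl, Sum.elim_inl, hQ, hP]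
            rw [← zpow_add₀ hp0]
            rfl
          split_ifs with hab
          · rw [hMab, ← hab, H6_P_mul]
            have h1 := (hw2 a.2 (a.1.1 + b.1.1) (by omega)).1
            have h2 : (-((a.1.1 + b.1.1 : ℕ) : ℤ)) = -(a.1.1 : ℤ) - (b.1.1 : ℤ) := by
              push_cast
              ring
            rw [h2] at h1
            simp only [hBl, Matrix.of_apply, if_pos hl]
            exact h1
          · rw [hMab, sub_zero]
            refine (H4_offdiag hp100 α β hαp hβp i0 hi0 hβ0 (a.2.1 + 1) (b.2.1 + 1) a.1.1 b.1.1 (by omega)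
              (by omega) (by omega) (by omega) ?_ ha hl).1
            intro h1
            apply hab
            ext
            omega
        · have hMab : M a b = (p : ℚ) ^ (-(a.1.1 : ℤ) - ((b.1.1 - 10 : ℕ) : ℤ) - i0) *
              BL p β (H6_P p (a.2.1 + 1) 20 a.1.1 * H6_P p (b.2.1 + 1) 10 (b.1.1 - 10)) := by
            simp only [hM, hG, Matrix.of_apply, hc, hd, if_neg hl, H6_e_ge h b hl, Sum.elim_inr, hQ, hP]
            rw [← zpow_add₀ hp0]
            congr 2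
            ring
          split_ifs with hab
          · rw [hMab, ← hab, H6_P_mul]
            have h1 := (hw2 a.2 (a.1.1 + (b.1.1 - 10)) (by omega)).2
            have h2 : (-((a.1.1 + (b.1.1 - 10) : ℕ) : ℤ)) - i0 =
                -(a.1.1 : ℤ) - ((b.1.1 - 10 : ℕ) : ℤ) - i0 := by
              push_cast
              ring
            rw [h2] at h1
            simp only [hBl, Matrix.of_apply, if_neg hl]
            exact h1
          · rw [hMab, sub_zero]
            refine (H4_offdiag hp100 α β hαp hβp i0 hi0 hβ0 (a.2.1 + 1) (b.2.1 + 1) a.1.1 (b.1.1 - 10)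
              (by omega) (by omega) (by omega) (by omega) ?_ ha (by omega)).2
            intro h1
            apply hab
            ext
            omega
      · rw [Matrix.det_blockDiagonal]
        apply H6_norm_prod p
        intro r
        have h1 : Bl r = Matrix.of fun l l' => (w r) *
            (Matrix.of fun l l' : Fin 20 => ((-2 * ((r.1 + 1 : ℕ) : ℚ)) ^ l.1) *
              (if l'.1 < 10 then (-2 * ((r.1 + 1 : ℕ) : ℚ)) ^ l'.1
                else (-2 * ((r.1 + 1 : ℕ) : ℚ)) ^ (l'.1 - 10) * β i0) *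
              (Matrix.of fun l l' : Fin 20 => if l'.1 < 10 then Fm (l.1 + l'.1)
                else Bm i0 (l.1 + (l'.1 - 10))) l l') l l' := by
          ext l l'
          simp only [hBl, Matrix.of_apply]
          split_ifs <;> ring
        rw [h1, Matrix.det_mul_column (fun _ => w r), H6_det_scale (fun l : Fin 20 =>
          ((-2 * ((r.1 + 1 : ℕ) : ℚ)) ^ l.1)) (fun l' : Fin 20 =>
          (if l'.1 < 10 then (-2 * ((r.1 + 1 : ℕ) : ℚ)) ^ l'.1
                else (-2 * ((r.1 + 1 : ℕ) : ℚ)) ^ (l'.1 - 10) * β i0))]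
        have h5 : ∀ i : Fin 20, padicNorm p ((-2 * ((r.1 + 1 : ℕ) : ℚ)) ^ i.1) = 1 := fun i =>
          H6_norm_pow p _ (hunit r) _
        have h6 : ∀ i : Fin 20, padicNorm p (if i.1 < 10 then (-2 * ((r.1 + 1 : ℕ) : ℚ)) ^ i.1
                else (-2 * ((r.1 + 1 : ℕ) : ℚ)) ^ (i.1 - 10) * β i0) = 1 := by
          intro i
          split_ifs
          · exact h5 i
          · rw [padicNorm.mul, H6_norm_pow p _ (hunit r), hp4 p (by omega) hpp, one_mul]
        rw [padicNorm.mul, padicNorm.mul, padicNorm.mul, H6_norm_prod p _ (fun _ => hw1 r),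
          H6_norm_prod p _ h5, H6_norm_prod p _ h6, hp1 p (by omega) hpp]
        norm_num
    intro h0
    apply hM0
    rw [hM, H6_det_scale, h0, mul_zero, mul_zero]
  -- conclusion
  have hm : 5 * p - 5 = 10 * h := by omega
  unfold DD
  rw [hm]
  refine A2_MD_ne (AL p α) (BL p β) (10 * h) (H6_e h) ?_ ?_ Q P ?_ ?_ key
  · simp only [Fintype.card_prod, Fintype.card_fin]
    omega
  · simp only [Fintype.card_prod, Fintype.card_fin]
  · intro a
    have ha := a.1.2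
    have ha2 := a.2.2
    have := H6_P_natDegree p (a.2.1 + 1) 20 a.1.1 (by omega) (by omega) ha hodd
    rw [← hh] at this
    rw [hQ]
    refine this.trans_le ?_
    omega
  · intro a
    have ha := a.1.2
    have ha2 := a.2.2
    have := H6_P_natDegree p (a.2.1 + 1) 10 a.1.1 (by omega) (by omega) ha hodd
    rw [← hh] at this
    rw [hP]
    exact this

end

end Pool.Agent.H574R2.D9
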