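import Pool.Agent.H574R2.D9.Defs
import Pool.Agent.H337R2.Asym

/-!
# P_main and P_large from the results of parts D, E, F (hypotheses)
-/

open Polynomial Pool.Agent.H337R2 Filter Topology

namespace Pool.Agent.H574R2.D9

noncomputable section

/-- statement of `D4_small_med` -/
def PMmed : Prop := ∀ {n p : ℕ} [Fact p.Prime], 1 ≤ n → 20 * n < p ^ 2 → ∀ (q : ℕ) (α β : ℕ → ℚ),
    UInt q α → UInt q β → (∀ i < 3, β i = 0) → ∀ (m : ℕ), m ≤ 5 * n →
    padicNorm p ((q : ℚ) ^ (2 * m) * MD (AL n α) (BL n β) m) ≤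
      ((p : ℚ) ^ 10) ^ (2 * m) * ((∏ i ∈ Finset.range (2 * m), padicNorm p (((2 * i - 1).factorial : ℕ) : ℚ)) *
        ∏ i ∈ Finset.range m, padicNorm p (((2 * i - 1).factorial : ℕ) : ℚ) ^ 2)

/-- statement of `D4_small_crude` -/
def PMcrude : Prop := ∀ {n p : ℕ} [Fact p.Prime], 1 ≤ n → ∀ (q : ℕ) (α β : ℕ → ℚ),
    UInt q α → UInt q β → (∀ i < 3, β i = 0) → ∀ (m : ℕ), m ≤ 5 * n →
    padicNorm p ((q : ℚ) ^ (2 * m) * MD (AL n α) (BL n β) m) ≤
      (((20 * n + 1 : ℕ) : ℚ) ^ 40) ^ (2 * m) *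
        ((∏ i ∈ Finset.range (2 * m), padicNorm p (((2 * i - 1).factorial : ℕ) : ℚ)) *
        ∏ i ∈ Finset.range m, padicNorm p (((2 * i - 1).factorial : ℕ) : ℚ) ^ 2)

lemma PM_fac_pos (p N : ℕ) (hp : p.Prime) : 0 < ((padicNorm p ((N.factorial : ℕ) : ℚ) : ℚ) : ℝ) := by
  have : Fact p.Prime := ⟨hp⟩
  have : 0 < padicNorm p ((N.factorial : ℕ) : ℚ) :=
    lt_of_le_of_ne (padicNorm.nonneg _) (Ne.symm (padicNorm.nonzero (by exact_mod_cast Nat.factorial_ne_zero N)))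
  exact_mod_cast this

lemma PM_z_pos (p : ℕ) (hp : p.Prime) (z : ℚ) (hz : z ≠ 0) : 0 < ((padicNorm p z : ℚ) : ℝ) := by
  have : Fact p.Prime := ⟨hp⟩
  have : 0 < padicNorm p z := lt_of_le_of_ne (padicNorm.nonneg _) (Ne.symm (padicNorm.nonzero hz))
  exact_mod_cast this

lemma PM_small (hmed : PMmed) (hcrude : PMcrude) (n p : ℕ) (hn : 1 ≤ n) (hp : p.Prime) (q : ℕ) (α β : ℕ → ℚ)
    (hα : UInt q α) (hβ : UInt q β) (hβ3 : ∀ i < 3, β i = 0) (hz : (q : ℚ) ^ (10 * n - 10) * DD n α β ≠ 0) :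
    Real.log ((padicNorm p ((q : ℚ) ^ (10 * n - 10) * DD n α β) : ℚ) : ℝ) ≤
      10 * (n : ℝ) * ((if p ^ 2 ≤ 20 * n then 40 * Real.log (20 * n + 1) else 0) + 10 * Real.log p) +
      (∑ i ∈ Finset.range (10 * n - 10), Real.log ((padicNorm p (((2 * i - 1).factorial : ℕ) : ℚ) : ℚ) : ℝ) +
       2 * ∑ i ∈ Finset.range (5 * n - 5), Real.log ((padicNorm p (((2 * i - 1).factorial : ℕ) : ℚ) : ℚ) : ℝ)) := by
  have hF : Fact p.Prime := ⟨hp⟩
  have hp0 : (0 : ℝ) < p := by exact_mod_cast hp.pos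
  have hlp : 0 ≤ Real.log p := Real.log_nonneg (by exact_mod_cast hp.one_lt.le)
  have hn0 : (0 : ℝ) ≤ n := by positivity
  have hl : 0 ≤ Real.log (20 * (n : ℝ) + 1) := Real.log_nonneg (by linarith)
  have hzp := PM_z_pos p hp _ hz
  have e8 : 10 * n - 10 = 2 * (5 * n - 5) := by omega
  rw [e8] at hzp ⊢
  have hm : ((2 * (5 * n - 5) : ℕ) : ℝ) ≤ 10 * n := by
    have : 2 * (5 * n - 5) ≤ 10 * n := by omega
    exact_mod_cast this
  have hpp : 0 < (∏ i ∈ Finset.range (2 * (5 * n - 5)), ((padicNorm p (((2 * i - 1).factorial : ℕ) : ℚ) : ℚ) : ℝ)) *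
        ∏ i ∈ Finset.range (5 * n - 5), ((padicNorm p (((2 * i - 1).factorial : ℕ) : ℚ) : ℚ) : ℝ) ^ 2 :=
    mul_pos (Finset.prod_pos fun i _ => PM_fac_pos p _ hp)
      (Finset.prod_pos fun i _ => pow_pos (PM_fac_pos p _ hp) 2)
  have hprod : Real.log ((∏ i ∈ Finset.range (2 * (5 * n - 5)), ((padicNorm p (((2 * i - 1).factorial : ℕ) : ℚ) : ℚ) : ℝ)) *
        ∏ i ∈ Finset.range (5 * n - 5), ((padicNorm p (((2 * i - 1).factorial : ℕ) : ℚ) : ℚ) : ℝ) ^ 2)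
      = ∑ i ∈ Finset.range (2 * (5 * n - 5)), Real.log ((padicNorm p (((2 * i - 1).factorial : ℕ) : ℚ) : ℚ) : ℝ) +
       2 * ∑ i ∈ Finset.range (5 * n - 5), Real.log ((padicNorm p (((2 * i - 1).factorial : ℕ) : ℚ) : ℚ) : ℝ) := by
    rw [Real.log_mul (Finset.prod_pos fun i _ => PM_fac_pos p _ hp).ne'
      (Finset.prod_pos fun i _ => pow_pos (PM_fac_pos p _ hp) 2).ne',
      Real.log_prod (fun i _ => (PM_fac_pos p _ hp).ne'),
      Real.log_prod (fun i _ => (pow_pos (PM_fac_pos p _ hp) 2).ne'), Finset.mul_sum]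
    congr 1
    apply Finset.sum_congr rfl
    intro i _
    rw [Real.log_pow]
    norm_num
  by_cases h2 : p ^ 2 ≤ 20 * n
  · rw [if_pos h2]
    have h3 : ((padicNorm p ((q : ℚ) ^ (2 * (5 * n - 5)) * DD n α β) : ℚ) : ℝ) ≤
        ((20 * (n : ℝ) + 1) ^ 40) ^ (2 * (5 * n - 5)) *
        ((∏ i ∈ Finset.range (2 * (5 * n - 5)), ((padicNorm p (((2 * i - 1).factorial : ℕ) : ℚ) : ℚ) : ℝ)) *
        ∏ i ∈ Finset.range (5 * n - 5), ((padicNorm p (((2 * i - 1).factorial : ℕ) : ℚ) : ℚ) : ℝ) ^ 2) := by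
      have h4 := (Rat.cast_le (K := ℝ)).2 (hcrude (p := p) hn q α β hα hβ hβ3 (5 * n - 5) (by omega))
      refine h4.trans (le_of_eq ?_)
      push_cast
      rfl
    have h5 := Real.log_le_log hzp h3
    rw [Real.log_mul (by positivity) hpp.ne', hprod, Real.log_pow, Real.log_pow] at h5
    have e2 : ((40 : ℕ) : ℝ) = 40 := by norm_num
    rw [e2] at h5
    have h4 : ((2 * (5 * n - 5) : ℕ) : ℝ) * (40 * Real.log (20 * (n : ℝ) + 1)) ≤
        10 * n * (40 * Real.log (20 * (n : ℝ) + 1)) :=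
      mul_le_mul_of_nonneg_right hm (by positivity)
    have h6 : 0 ≤ 10 * (n : ℝ) * (10 * Real.log p) := by positivity
    have e3 : 10 * (n : ℝ) * (40 * Real.log (20 * (n : ℝ) + 1) + 10 * Real.log p) =
      10 * n * (40 * Real.log (20 * (n : ℝ) + 1)) + 10 * (n : ℝ) * (10 * Real.log p) := by ring
    rw [e3]
    linarith
  · rw [if_neg h2]
    have h3 : ((padicNorm p ((q : ℚ) ^ (2 * (5 * n - 5)) * DD n α β) : ℚ) : ℝ) ≤
        ((p : ℝ) ^ 10) ^ (2 * (5 * n - 5)) *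
        ((∏ i ∈ Finset.range (2 * (5 * n - 5)), ((padicNorm p (((2 * i - 1).factorial : ℕ) : ℚ) : ℚ) : ℝ)) *
        ∏ i ∈ Finset.range (5 * n - 5), ((padicNorm p (((2 * i - 1).factorial : ℕ) : ℚ) : ℚ) : ℝ) ^ 2) := by
      have h4 := (Rat.cast_le (K := ℝ)).2 (hmed (p := p) hn (by omega) q α β hα hβ hβ3 (5 * n - 5) (by omega))
      refine h4.trans (le_of_eq ?_)
      push_cast
      rfl
    have h5 := Real.log_le_log hzp h3
    rw [Real.log_mul (by positivity) hpp.ne', hprod, Real.log_pow, Real.log_pow] at h5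
    have e2 : ((10 : ℕ) : ℝ) = 10 := by norm_num
    rw [e2] at h5
    have h4 : ((2 * (5 * n - 5) : ℕ) : ℝ) * (10 * Real.log p) ≤ 10 * n * (10 * Real.log p) :=
      mul_le_mul_of_nonneg_right hm (by positivity)
    rw [zero_add]
    linarith

/-- statement of `E4_padic` with a constant -/
def PME4 (K0 : ℝ) : Prop := ∀ n : ℕ, 100 ≤ n → ∀ p : ℕ, p.Prime → n < 50 * p → 20 * n < p ^ 2 →
    ∀ (q : ℕ) (α β : ℕ → ℚ), UInt q α → UInt q β → (∀ i < 3, β i = 0) →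
    ((padicNorm p ((q : ℚ) ^ (10 * n - 10) * DD n α β) : ℚ) : ℝ) ≤
      if p < 4 * n then (p : ℝ) ^ (EW n p + K0) else 1

lemma PM_log_large (K0 : ℝ) (hE4 : PME4 K0) (n : ℕ) (hn : 60000 ≤ n) (p : ℕ) (hp : p.Prime)
    (h50 : ¬ 50 * p ≤ n) (q : ℕ) (α β : ℕ → ℚ) (hα : UInt q α) (hβ : UInt q β) (hβ3 : ∀ i < 3, β i = 0)
    (hz : (q : ℚ) ^ (10 * n - 10) * DD n α β ≠ 0) :
    Real.log ((padicNorm p ((q : ℚ) ^ (10 * n - 10) * DD n α β) : ℚ) : ℝ) ≤
      if p < 4 * n then (EW n p + K0) * Real.log p else 0 := by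
  have hp0 : (0 : ℝ) < p := by exact_mod_cast hp.pos
  have h1 := hE4 n (by omega) p hp (by omega) (by nlinarith) q α β hα hβ hβ3
  have h2 := Real.log_le_log (PM_z_pos p hp _ hz) h1
  refine h2.trans (le_of_eq ?_)
  split_ifs
  · rw [Real.log_rpow hp0]
  · rw [Real.log_one]

lemma PM_EW_split (n : ℕ) (hn : 7 ≤ n) (K0 : ℝ) (hK0 : 0 ≤ K0) :
    ∑ p ∈ ((Finset.range (4 * n)).filter Nat.Prime).filter (fun p => ¬ 50 * p ≤ n), (EW n p + K0) * Real.log p ≤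
      ∑ p ∈ PS (1 / 50) 2 n, EA n p * Real.log p + ∑ p ∈ PS 2 3 n, EB n p * Real.log p +
      ∑ p ∈ PS 3 4 n, EC n p * Real.log p + K0 * (Real.log 4 * (4 * n)) := by
  classical
  have hn0 : (0 : ℝ) < n := by exact_mod_cast (by omega : 0 < n)
  simp only [add_mul, Finset.sum_add_distrib]
  apply add_le_add
  · apply le_of_eq
    set T := ((Finset.range (4 * n)).filter Nat.Prime).filter (fun p => ¬ 50 * p ≤ n) with hT
    have hnp2 : ∀ p : ℕ, p.Prime → p ≠ 2 * n := by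
      intro p hp h
      rw [h] at hp
      exact Nat.not_prime_mul (by norm_num) (by omega) hp
    have hnp3 : ∀ p : ℕ, p.Prime → p ≠ 3 * n := by
      intro p hp h
      rw [h] at hp
      exact Nat.not_prime_mul (by norm_num) (by omega) hp
    have e1 : PS (1 / 50) 2 n = T.filter (fun p => p ≤ 2 * n) := by
      ext p
      unfold PS
      rw [hT]
      simp only [Finset.mem_filter, Finset.mem_range]
      constructor
      · rintro ⟨h1, h2, h3, h4⟩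
        have h5 : n < 50 * p := by
          have : (n : ℝ) < 50 * p := by linarith
          exact_mod_cast this
        have h6 : p < 2 * n := by exact_mod_cast h4
        exact ⟨⟨⟨by omega, h2⟩, by omega⟩, h6.le⟩
      · rintro ⟨⟨⟨h1, h2⟩, h3⟩, h4⟩
        have h5 : p < 2 * n := lt_of_le_of_ne h4 (hnp2 p h2)
        refine ⟨by omega, h2, ?_, by exact_mod_cast h5⟩
        have : (n : ℝ) < 50 * p := by exact_mod_cast (by omega : n < 50 * p)
        linarith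
    have e2 : PS 2 3 n = (T.filter (fun p => ¬ p ≤ 2 * n)).filter (fun p => p ≤ 3 * n) := by
      ext p
      unfold PS
      rw [hT]
      simp only [Finset.mem_filter, Finset.mem_range]
      constructor
      · rintro ⟨h1, h2, h3, h4⟩
        have h5 : 2 * n < p := by exact_mod_cast h3
        have h6 : p < 3 * n := by exact_mod_cast h4
        exact ⟨⟨⟨⟨by omega, h2⟩, by omega⟩, by omega⟩, h6.le⟩
      · rintro ⟨⟨⟨⟨h1, h2⟩, h3⟩, h4⟩, h5⟩
        have h6 : p < 3 * n := lt_of_le_of_ne h5 (hnp3 p h2)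
        refine ⟨by omega, h2, ?_, by exact_mod_cast h6⟩
        exact_mod_cast (by omega : 2 * n < p)
    have e3 : PS 3 4 n = (T.filter (fun p => ¬ p ≤ 2 * n)).filter (fun p => ¬ p ≤ 3 * n) := by
      ext p
      unfold PS
      rw [hT]
      simp only [Finset.mem_filter, Finset.mem_range]
      constructor
      · rintro ⟨h1, h2, h3, h4⟩
        have h5 : 3 * n < p := by exact_mod_cast h3
        have h6 : p < 4 * n := by exact_mod_cast h4
        exact ⟨⟨⟨⟨by omega, h2⟩, by omega⟩, by omega⟩, by omega⟩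
      · rintro ⟨⟨⟨⟨h1, h2⟩, h3⟩, h4⟩, h5⟩
        refine ⟨by omega, h2, ?_, by exact_mod_cast h1⟩
        exact_mod_cast (by omega : 3 * n < p)
    rw [e1, e2, e3, ← Finset.sum_filter_add_sum_filter_not T (fun p => p ≤ 2 * n), add_assoc]
    congr 1
    · apply Finset.sum_congr rfl
      intro p hp
      rw [Finset.mem_filter] at hp
      unfold EW
      rw [if_pos hp.2]
    · rw [← Finset.sum_filter_add_sum_filter_not (T.filter (fun p => ¬ p ≤ 2 * n)) (fun p => p ≤ 3 * n)]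
      congr 1
      · apply Finset.sum_congr rfl
        intro p hp
        rw [Finset.mem_filter, Finset.mem_filter] at hp
        unfold EW
        rw [if_neg hp.1.2, if_pos hp.2]
      · apply Finset.sum_congr rfl
        intro p hp
        rw [Finset.mem_filter, Finset.mem_filter] at hp
        unfold EW
        rw [if_neg hp.1.2, if_neg hp.2]
  · rw [← Finset.mul_sum]
    apply mul_le_mul_of_nonneg_left _ hK0
    refine le_trans ?_ (Chebyshev.theta_le_log4_mul_x (x := 4 * n) (by positivity))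
    unfold Chebyshev.theta
    apply Finset.sum_le_sum_of_subset_of_nonneg
    · intro p hp
      rw [Finset.mem_filter, Finset.mem_filter, Finset.mem_range] at hp
      rw [Finset.mem_filter, Finset.mem_Ioc]
      refine ⟨⟨hp.1.2.pos, ?_⟩, hp.1.2⟩
      rw [Nat.le_floor_iff (by positivity)]
      have : ((p : ℕ) : ℝ) ≤ ((4 * n : ℕ) : ℝ) := by exact_mod_cast hp.1.1.le
      push_cast at this
      exact this
    · intro p hp _
      rw [Finset.mem_filter] at hp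
      exact Real.log_nonneg (by exact_mod_cast hp.2.one_lt.le)

lemma PM_ev {f : ℕ → ℝ} {L : ℝ} (h : Tendsto (fun n : ℕ => f n / (n : ℝ) ^ 2) atTop (𝓝 L)) (ε : ℝ)
    (hε : 0 < ε) : ∀ᶠ n : ℕ in atTop, f n ≤ (L + ε) * (n : ℝ) ^ 2 := by
  filter_upwards [h.eventually_lt_const (show L < L + ε by linarith), eventually_ge_atTop 1] with n h1 hn
  have hn0 : (0 : ℝ) < (n : ℝ) ^ 2 := by
    have : (0 : ℝ) < n := by exact_mod_cast hn
    positivity
  rw [div_lt_iff₀ hn0] at h1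
  exact h1.le

lemma PM_log5 : 65 * Real.log 2 ≤ 28 * Real.log 5 := by
  have h1 : Real.log ((2 : ℝ) ^ 65) ≤ Real.log ((5 : ℝ) ^ 28) :=
    Real.log_le_log (by positivity) (by norm_num)
  rw [Real.log_pow, Real.log_pow] at h1
  push_cast at h1
  exact h1

/-- **the p-adic part**, from the results of the other tasks -/
theorem P_main_of (hmed : PMmed) (hcrude : PMcrude)
    (hE4 : ∃ K0 : ℝ, 0 ≤ K0 ∧ ∀ n : ℕ, 100 ≤ n → ∀ p : ℕ, p.Prime → n < 50 * p → 20 * n < p ^ 2 →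
      ∀ (q : ℕ) (α β : ℕ → ℚ), UInt q α → UInt q β → (∀ i < 3, β i = 0) →
      ((padicNorm p ((q : ℚ) ^ (10 * n - 10) * DD n α β) : ℚ) : ℝ) ≤
        if p < 4 * n then (p : ℝ) ^ (EW n p + K0) else 1)
    (hF2A : Tendsto (fun n : ℕ => (∑ p ∈ PS (1 / 50) 2 n, EA n p * Real.log p) / (n : ℝ) ^ 2) atTop
      (𝓝 ((LA : ℝ) - 6 * Real.log 100)))
    (hF2B : Tendsto (fun n : ℕ => (∑ p ∈ PS 2 3 n, EB n p * Real.log p) / (n : ℝ) ^ 2) atTop
      (𝓝 (LB : ℝ)))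
    (hF2C : Tendsto (fun n : ℕ => (∑ p ∈ PS 3 4 n, EC n p * Real.log p) / (n : ℝ) ^ 2) atTop
      (𝓝 (LC : ℝ)))
    (hF2U : Tendsto (fun n : ℕ => (∑ p ∈ PS (1 / 50) 20 n,
      (∑ j ∈ Finset.Icc 1 1000, (1 / 2 * tn (20 * n) j p + tn (10 * n) j p)) * Real.log p) / (n : ℝ) ^ 2)
      atTop (𝓝 (LU : ℝ)))
    (hF3n : LA + LB + LC + LU ≤ 17130 / 100)
    (hF4 : ∀ ε : ℝ, 0 < ε → ∀ᶠ n : ℕ in atTop,
      10 * (n : ℝ) * (∑ p ∈ (Finset.range (n + 1)).filter (fun p : ℕ => p.Prime ∧ p ^ 2 ≤ 20 * n),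
          40 * Real.log (20 * n + 1) +
        ∑ p ∈ (Finset.range (n + 1)).filter (fun p : ℕ => p.Prime ∧ 50 * p ≤ n), 10 * Real.log p) ≤
      (2 + ε) * (n : ℝ) ^ 2)
    (hF5 : ∀ᶠ n : ℕ in atTop,
      ∑ p ∈ (Finset.range (n + 1)).filter (fun p : ℕ => p.Prime ∧ 50 * p ≤ n),
        (∑ i ∈ Finset.range (10 * n - 10), Real.log ((padicNorm p (((2 * i - 1).factorial : ℕ) : ℚ) : ℚ) : ℝ) +
         2 * ∑ i ∈ Finset.range (5 * n - 5), Real.log ((padicNorm p (((2 * i - 1).factorial : ℕ) : ℚ) : ℚ) : ℝ)) ≤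
      - (∑ i ∈ Finset.range (10 * n - 10), Real.log ((2 * i - 1).factorial : ℝ) +
         2 * ∑ i ∈ Finset.range (5 * n - 5), Real.log ((2 * i - 1).factorial : ℝ)) +
        ∑ p ∈ PS (1 / 50) 20 n,
          (∑ j ∈ Finset.Icc 1 1000, (1 / 2 * tn (20 * n) j p + tn (10 * n) j p)) * Real.log p)
    (hF6 : ∀ ε : ℝ, 0 < ε → ∀ᶠ n : ℕ in atTop,
      150 * (n : ℝ) ^ 2 * Real.log n + (250 * Real.log 2 + 150 * Real.log 5 - 225 - ε) * (n : ℝ) ^ 2 ≤
        ∑ i ∈ Finset.range (10 * n - 10), Real.log ((2 * i - 1).factorial : ℝ) +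
         2 * ∑ i ∈ Finset.range (5 * n - 5), Real.log ((2 * i - 1).factorial : ℝ)) :
    ∀ (q : ℕ) (α β : ℕ → ℚ), UInt q α → UInt q β → (∀ i < 3, β i = 0) →
    ∀ᶠ n : ℕ in atTop, DD n α β ≠ 0 →
    ∑ p ∈ (Finset.range (20 * n + 1)).filter Nat.Prime,
      Real.log ((padicNorm p ((q : ℚ) ^ (10 * n - 10) * DD n α β) : ℚ) : ℝ) ≤
    -(150 * (n : ℝ) ^ 2 * Real.log n) - 439 / 10 * (n : ℝ) ^ 2 := by
  classical
  intro q α β hα hβ hβ3
  obtain ⟨K0, hK0, hE4'⟩ := hE4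
  have hF3 : ((LA : ℝ) + LB + LC + LU) ≤ 17130 / 100 := by
    have h := (Rat.cast_le (K := ℝ)).2 hF3n
    push_cast at h
    exact h
  have hε : (0 : ℝ) < 1 / 200 := by norm_num
  have ev2 := PM_ev hF2A (1 / 200) hε
  have ev3 := PM_ev hF2B (1 / 200) hε
  have ev4 := PM_ev hF2C (1 / 200) hε
  have ev5 := PM_ev hF2U (1 / 200) hε
  have ev6 := hF4 (1 / 200) hε
  have ev8 := hF6 (1 / 200) hε
  have ev9 : ∀ᶠ n : ℕ in atTop, K0 * (Real.log 4 * 4) ≤ 1 / 200 * n := by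
    have := (tendsto_natCast_atTop_atTop (R := ℝ)).const_mul_atTop hε
    exact this.eventually_ge_atTop _
  filter_upwards [ev2, ev3, ev4, ev5, ev6, hF5, ev8, ev9, eventually_ge_atTop 60000]
    with n g2 g3 g4 g5 g6 g7 g8 g9 hn hD
  have hn0 : (0 : ℝ) < n := by exact_mod_cast (by omega : 0 < n)
  have hn1 : 1 ≤ n := by omega
  have hqq : (0 : ℚ) < q := by exact_mod_cast hα.1
  have hz : (q : ℚ) ^ (10 * n - 10) * DD n α β ≠ 0 := mul_ne_zero (pow_pos hqq _).ne' hD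
  rw [← Finset.sum_filter_add_sum_filter_not _ (fun p => 50 * p ≤ n)]
  have e1 : ((Finset.range (20 * n + 1)).filter Nat.Prime).filter (fun p => 50 * p ≤ n) =
      (Finset.range (n + 1)).filter (fun p : ℕ => p.Prime ∧ 50 * p ≤ n) := by
    ext p
    simp only [Finset.mem_filter, Finset.mem_range]
    constructor
    · rintro ⟨⟨h1, h2⟩, h3⟩; exact ⟨by omega, h2, h3⟩
    · rintro ⟨h1, h2, h3⟩; exact ⟨⟨by omega, h2⟩, h3⟩
  rw [e1]
  have hsmall : ∑ p ∈ (Finset.range (n + 1)).filter (fun p : ℕ => p.Prime ∧ 50 * p ≤ n),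
      Real.log ((padicNorm p ((q : ℚ) ^ (10 * n - 10) * DD n α β) : ℚ) : ℝ) ≤
      10 * (n : ℝ) * (∑ p ∈ (Finset.range (n + 1)).filter (fun p : ℕ => p.Prime ∧ p ^ 2 ≤ 20 * n),
        40 * Real.log (20 * n + 1) +
      ∑ p ∈ (Finset.range (n + 1)).filter (fun p : ℕ => p.Prime ∧ 50 * p ≤ n), 10 * Real.log p) +
      ∑ p ∈ (Finset.range (n + 1)).filter (fun p : ℕ => p.Prime ∧ 50 * p ≤ n),
      (∑ i ∈ Finset.range (10 * n - 10), Real.log ((padicNorm p (((2 * i - 1).factorial : ℕ) : ℚ) : ℚ) : ℝ) +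
       2 * ∑ i ∈ Finset.range (5 * n - 5), Real.log ((padicNorm p (((2 * i - 1).factorial : ℕ) : ℚ) : ℚ) : ℝ)) := by
    calc _ ≤ ∑ p ∈ (Finset.range (n + 1)).filter (fun p : ℕ => p.Prime ∧ 50 * p ≤ n),
          (10 * (n : ℝ) * ((if p ^ 2 ≤ 20 * n then 40 * Real.log (20 * n + 1) else 0) + 10 * Real.log p) +
          (∑ i ∈ Finset.range (10 * n - 10), Real.log ((padicNorm p (((2 * i - 1).factorial : ℕ) : ℚ) : ℚ) : ℝ) +
       2 * ∑ i ∈ Finset.range (5 * n - 5), Real.log ((padicNorm p (((2 * i - 1).factorial : ℕ) : ℚ) : ℚ) : ℝ))) := by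
          apply Finset.sum_le_sum
          intro p hp
          rw [Finset.mem_filter] at hp
          exact PM_small hmed hcrude n p hn1 hp.2.1 q α β hα hβ hβ3 hz
      _ ≤ _ := by
          rw [Finset.sum_add_distrib, ← Finset.mul_sum, Finset.sum_add_distrib]
          apply add_le_add_left
          apply mul_le_mul_of_nonneg_left _ (by positivity)
          apply add_le_add_left
          rw [← Finset.sum_filter]
          apply Finset.sum_le_sum_of_subset_of_nonneg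
          · intro p hp
            simp only [Finset.mem_filter, Finset.mem_range] at hp ⊢
            exact ⟨hp.1.1, hp.1.2.1, hp.2⟩
          · intro p _ _
            have : 0 ≤ Real.log (20 * (n : ℝ) + 1) := Real.log_nonneg (by linarith)
            positivity
  have hlarge : ∑ p ∈ ((Finset.range (20 * n + 1)).filter Nat.Prime).filter (fun p => ¬ 50 * p ≤ n),
      Real.log ((padicNorm p ((q : ℚ) ^ (10 * n - 10) * DD n α β) : ℚ) : ℝ) ≤
      ∑ p ∈ PS (1 / 50) 2 n, EA n p * Real.log p + ∑ p ∈ PS 2 3 n, EB n p * Real.log p +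
      ∑ p ∈ PS 3 4 n, EC n p * Real.log p + K0 * (Real.log 4 * (4 * n)) := by
    refine le_trans ?_ (PM_EW_split n (by omega) K0 hK0)
    have h1 : ∑ p ∈ ((Finset.range (20 * n + 1)).filter Nat.Prime).filter (fun p => ¬ 50 * p ≤ n),
        Real.log ((padicNorm p ((q : ℚ) ^ (10 * n - 10) * DD n α β) : ℚ) : ℝ) ≤
        ∑ p ∈ ((Finset.range (20 * n + 1)).filter Nat.Prime).filter (fun p => ¬ 50 * p ≤ n),
        (if p < 4 * n then (EW n p + K0) * Real.log p else 0) := by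
      apply Finset.sum_le_sum
      intro p hp
      rw [Finset.mem_filter, Finset.mem_filter] at hp
      exact PM_log_large K0 hE4' n hn p hp.1.2 hp.2 q α β hα hβ hβ3 hz
    refine h1.trans (le_of_eq ?_)
    rw [← Finset.sum_filter]
    apply Finset.sum_congr _ fun _ _ => rfl
    ext p
    simp only [Finset.mem_filter, Finset.mem_range]
    constructor
    · rintro ⟨⟨⟨h1, h2⟩, h3⟩, h4⟩; exact ⟨⟨h4, h2⟩, h3⟩
    · rintro ⟨⟨h1, h2⟩, h3⟩; exact ⟨⟨⟨by omega, h2⟩, h3⟩, h1⟩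
  have hfin : K0 * (Real.log 4 * (4 * n)) ≤ 1 / 200 * (n : ℝ) ^ 2 := by
    have := mul_le_mul_of_nonneg_right g9 hn0.le
    nlinarith
  have hn2 : (0 : ℝ) < (n : ℝ) ^ 2 := by positivity
  have h100 : Real.log 100 = 2 * Real.log 2 + 2 * Real.log 5 := by
    rw [show (100 : ℝ) = 2 ^ 2 * 5 ^ 2 by norm_num, Real.log_mul (by norm_num) (by norm_num),
      Real.log_pow, Real.log_pow]
    push_cast; ring
  rw [h100] at g2
  have hl2 := Real.log_two_gt_d9
  have hl5 := PM_log5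
  have hconst : (2 + 225 + ((LA : ℝ) + LB + LC + LU) - 262 * Real.log 2 - 162 * Real.log 5 + 8 / 200) ≤
      -(439 / 10) := by
    linarith
  have htot : (2 + 225 + ((LA : ℝ) + LB + LC + LU) - 262 * Real.log 2 - 162 * Real.log 5 + 8 / 200) *
      (n : ℝ) ^ 2 ≤ -(439 / 10) * (n : ℝ) ^ 2 := mul_le_mul_of_nonneg_right hconst hn2.le
  have g2' : ∑ p ∈ PS (1 / 50) 2 n, EA n p * Real.log p ≤
      (LA : ℝ) * (n : ℝ) ^ 2 - 12 * Real.log 2 * (n : ℝ) ^ 2 - 12 * Real.log 5 * (n : ℝ) ^ 2 +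
        1 / 200 * (n : ℝ) ^ 2 := by
    refine g2.trans (le_of_eq ?_); ring
  have g3' : ∑ p ∈ PS 2 3 n, EB n p * Real.log p ≤ (LB : ℝ) * (n : ℝ) ^ 2 + 1 / 200 * (n : ℝ) ^ 2 := by
    refine g3.trans (le_of_eq ?_); ring
  have g4' : ∑ p ∈ PS 3 4 n, EC n p * Real.log p ≤ (LC : ℝ) * (n : ℝ) ^ 2 + 1 / 200 * (n : ℝ) ^ 2 := by
    refine g4.trans (le_of_eq ?_); ring
  have g5' : ∑ p ∈ PS (1 / 50) 20 n,
      (∑ j ∈ Finset.Icc 1 1000, (1 / 2 * tn (20 * n) j p + tn (10 * n) j p)) * Real.log p ≤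
      (LU : ℝ) * (n : ℝ) ^ 2 + 1 / 200 * (n : ℝ) ^ 2 := by
    refine g5.trans (le_of_eq ?_); ring
  have g8' : 150 * (n : ℝ) ^ 2 * Real.log n + 250 * Real.log 2 * (n : ℝ) ^ 2 +
      150 * Real.log 5 * (n : ℝ) ^ 2 - 225 * (n : ℝ) ^ 2 - 1 / 200 * (n : ℝ) ^ 2 ≤
        ∑ i ∈ Finset.range (10 * n - 10), Real.log ((2 * i - 1).factorial : ℝ) +
         2 * ∑ i ∈ Finset.range (5 * n - 5), Real.log ((2 * i - 1).factorial : ℝ) := by
    refine le_trans (le_of_eq ?_) g8; ring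
  have htot' : 227 * (n : ℝ) ^ 2 + (LA : ℝ) * (n : ℝ) ^ 2 + (LB : ℝ) * (n : ℝ) ^ 2 + (LC : ℝ) * (n : ℝ) ^ 2 +
      (LU : ℝ) * (n : ℝ) ^ 2 - 262 * Real.log 2 * (n : ℝ) ^ 2 - 162 * Real.log 5 * (n : ℝ) ^ 2 +
      8 / 200 * (n : ℝ) ^ 2 ≤ -(439 / 10) * (n : ℝ) ^ 2 := by
    refine le_trans (le_of_eq ?_) htot; ring
  have hfinal := add_le_add hsmall hlarge
  refine hfinal.trans ?_
  linarith

/-- large primes, from `D3_large` -/
theorem P_large_of
    (hD3 : ∀ {n p : ℕ} [Fact p.Prime], 1 ≤ n → 8 * n < p ^ 2 → 4 * n < p → ∀ (q : ℕ) (α β : ℕ → ℚ),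
      UInt q α → UInt q β → (∀ i < 3, β i = 0) → ∀ m : ℕ,
      padicNorm p ((q : ℚ) ^ (2 * m) * MD (AL n α) (BL n β) m) ≤ 1) :
    ∀ (q : ℕ) (α β : ℕ → ℚ), UInt q α → UInt q β → (∀ i < 3, β i = 0) →
    ∀ n : ℕ, 1 ≤ n → ∀ p : ℕ, p.Prime → 20 * n < p →
    padicNorm p ((q : ℚ) ^ (10 * n - 10) * DD n α β) ≤ 1 := by
  intro q α β hα hβ hβ3 n hn p hp h
  have : Fact p.Prime := ⟨hp⟩
  have h1 := hD3 (p := p) hn (by nlinarith) (by omega) q α β hα hβ hβ3 (5 * n - 5)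
  have e : 2 * (5 * n - 5) = 10 * n - 10 := by omega
  rw [e] at h1
  exact h1

end

end Pool.Agent.H574R2.D9
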