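import Pool.Agent.H574R2.D9.Defs
import Pool.Agent.H337R2.Asym

/-! STUBS of the project `dim_Q ⟨1, ζ(3), ζ(5), ζ(7), ζ(9)⟩ ≥ 3`. Never import this file in a finished module. -/

open Polynomial Pool.Agent.H337R2 Filter Topology

namespace Pool.Agent.H574R2.D9

noncomputable section

/-! ### A. Linear algebra: `H574R2.D3.A1, A2, A3, D1`, `H337R2.LZ.A3, A5` are general and finished -/

/-! ### B. The linear form -/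

theorem B1_hasSum {n : ℕ} (hn : 6 ≤ n) (α β : ℕ → ℚ) (θ : ℝ)
    (h : ∀ i, Odd i → 3 ≤ i → i ≤ 9 → zr i = (α i : ℝ) + θ * (β i : ℝ))
    (Q : ℚ[X]) (hQ : Q.natDegree ≤ 15 * n) :
    HasSum (fun t : ℕ => wv n (4 * n + 1 + t) * ((Q.eval (((4 * n + 1 + t : ℕ) : ℚ) ^ 2) : ℚ) : ℝ))
      (((AL n α Q : ℚ) : ℝ) + θ * ((BL n β Q : ℚ) : ℝ)) := by
  sorry

/-! ### C. p-adic size of the entries -/

theorem C1_pa {n p : ℕ} [Fact p.Prime] (hn : 1 ≤ n) (hp2 : 8 * n < p ^ 2) (E : ℚ[X]) {k : ℕ}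
    (hk : k ∈ sM n) (A : ℚ) (hA : 0 ≤ A) (hE : PB p (p : ℚ) A (TS (-(k : ℚ)) E)) (i : ℕ) :
    padicNorm p (pa (sM n) mM (PM n * E) k i) ≤ (p : ℚ) ^ (eM n p k - i : ℤ) * A := by
  sorry

theorem C1_pa_int {n p : ℕ} [Fact p.Prime] (hn : 1 ≤ n) (E : ℚ[X]) {k : ℕ}
    (hk : k ∈ sM n) (A : ℚ) (hA : 0 ≤ A) (hE : PB p 1 A (TS (-(k : ℚ)) E)) (i : ℕ)
    (hno : ∀ k' ∈ sM n, k' ≠ k → ¬ (p : ℤ) ∣ (k' : ℤ) - k) :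
    padicNorm p (pa (sM n) mM (PM n * E) k i) ≤ padicNorm p (cM n) * A := by
  sorry

theorem C2_xa {n p : ℕ} [Fact p.Prime] (hn : 1 ≤ n) (hp2 : 8 * n < p ^ 2) (q : ℕ) (α : ℕ → ℚ) (hα : UInt q α)
    (E : ℚ[X]) (W : ℚ) (hW : 0 ≤ W) (A : ℕ → ℚ) (hA : ∀ k, 0 ≤ A k)
    (hE : ∀ k ∈ sM n, PB p (p : ℚ) (A k) (TS (-(k : ℚ)) E))
    (hE1 : ∀ k ∈ sM n, PB p 1 1 (TS (-(k : ℚ)) E))
    (h : ∀ k ∈ sM n, (p : ℚ) ^ (eM n p k) * A k ≤ W ∨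
      (padicNorm p (cM n) ≤ W ∧ k < 2 * n + p ∧ ∀ k' ∈ sM n, k' ≠ k → ¬ (p : ℤ) ∣ (k' : ℤ) - k)) :
    padicNorm p ((q : ℚ) * xa n α (PM n * E)) ≤ W := by
  sorry

theorem C2_xb {n p : ℕ} [Fact p.Prime] (hn : 1 ≤ n) (hp2 : 8 * n < p ^ 2) (q : ℕ) (β : ℕ → ℚ) (hβ : UInt q β)
    (hβ3 : ∀ i < 3, β i = 0)
    (E : ℚ[X]) (W : ℚ) (hW : 0 ≤ W) (A : ℕ → ℚ) (hA : ∀ k, 0 ≤ A k)
    (hE : ∀ k ∈ sM n, PB p (p : ℚ) (A k) (TS (-(k : ℚ)) E))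
    (hE1 : ∀ k ∈ sM n, PB p 1 1 (TS (-(k : ℚ)) E))
    (h : ∀ k ∈ sM n, (p : ℚ) ^ (eM n p k - 3) * A k ≤ W ∨
      (padicNorm p (cM n) ≤ W ∧ ∀ k' ∈ sM n, k' ≠ k → ¬ (p : ℤ) ∣ (k' : ℤ) - k)) :
    padicNorm p ((q : ℚ) * xb n β (PM n * E)) ≤ W := by
  sorry

theorem C3_crude {n p : ℕ} [Fact p.Prime] (hn : 1 ≤ n) (q : ℕ) (u : ℕ → ℚ) (hu : UInt q u)
    (E : ℚ[X]) (A : ℚ) (hA : 0 ≤ A)
    (hE : ∀ k ∈ sM n, PB p ((20 * n + 1 : ℕ) : ℚ) A (TS (-(k : ℚ)) E)) :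
    padicNorm p ((q : ℚ) * xa n u (PM n * E)) ≤ ((20 * n + 1 : ℕ) : ℚ) ^ 40 * A ∧
    padicNorm p ((q : ℚ) * xb n u (PM n * E)) ≤ ((20 * n + 1 : ℕ) : ℚ) ^ 40 * A := by
  sorry

theorem C4_CP (i : ℕ) : (CP i).Monic ∧ (CP i).natDegree = i := by
  sorry

theorem C4_CP_PB {n p : ℕ} [Fact p.Prime] (hn : 1 ≤ n) (ρ : ℚ) (hρ1 : 1 ≤ ρ)
    (hρ : ∀ l : ℕ, 1 ≤ l → l ≤ 20 * n → (padicNorm p (l : ℚ))⁻¹ ≤ ρ) (i j : ℕ) (hi : 2 * i ≤ 20 * n)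
    (hj : 2 * j ≤ 20 * n) (k : ℕ) :
    PB p ρ (padicNorm p (((2 * i - 1).factorial : ℕ) : ℚ) * padicNorm p (((2 * j - 1).factorial : ℕ) : ℚ))
      (TS (-(k : ℚ)) (EM n (CP i * CP j))) := by
  sorry

/-! ### D. p-adic size of the determinant -/

theorem D2_kap_mem {n p k : ℕ} (hp : 0 < p) (hk : k ≤ 8 * n) : kap n p k ∈ Kset n p := by
  sorry

theorem D2_eM_kap {n p k : ℕ} (hn : 1 ≤ n) (hp : 0 < p) (hk : k ≤ 8 * n) : eM n p (kap n p k) = eM n p k := by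
  sorry

/-- p-adic bound, version I -/
theorem D3_det_padic {n p : ℕ} [Fact p.Prime] (hn : 1 ≤ n) (hp2 : 8 * n < p ^ 2) (q : ℕ) (α β : ℕ → ℚ)
    (hα : UInt q α) (hβ : UInt q β) (hβ3 : ∀ i < 3, β i = 0) (m : ℕ) (a : ℤ) (S : Finset ℕ) (hS : S ⊆ Kset n p)
    (h : ∀ k ∈ sM n, kap n p k ∈ S ∨
      (padicNorm p (cM n) ≤ (p : ℚ) ^ (a - 3) ∧ k < 2 * n + p ∧
        ∀ k' ∈ sM n, k' ≠ k → ¬ (p : ℤ) ∣ (k' : ℤ) - k)) :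
    padicNorm p ((q : ℚ) ^ (2 * m) * MD (AL n α) (BL n β) m) ≤
      (p : ℚ) ^ ((m : ℤ) * (2 * a - 3) + ∑ κ ∈ S, T3 (eM n p κ - a)) := by
  sorry

/-- large primes -/
theorem D3_large {n p : ℕ} [Fact p.Prime] (hn : 1 ≤ n) (hp2 : 8 * n < p ^ 2) (hp : 4 * n < p) (q : ℕ) (α β : ℕ → ℚ)
    (hα : UInt q α) (hβ : UInt q β) (hβ3 : ∀ i < 3, β i = 0) (m : ℕ) :
    padicNorm p ((q : ℚ) ^ (2 * m) * MD (AL n α) (BL n β) m) ≤ 1 := by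
  sorry

/-- two-site classes: one generator (`2n < p < 4n`) -/
theorem D3_two {n p : ℕ} [Fact p.Prime] (hn : 1 ≤ n) (hp100 : 100 ≤ p) (h1 : 2 * n < p) (h2 : p < 4 * n) (q : ℕ)
    (α β : ℕ → ℚ) (hα : UInt q α) (hβ : UInt q β) (hβ3 : ∀ i < 3, β i = 0) (m : ℕ) :
    padicNorm p ((q : ℚ) ^ (2 * m) * MD (AL n α) (BL n β) m) ≤
      (p : ℚ) ^ (-(20 * m : ℤ) + ∑ κ ∈ Kfull n p, T2s (eM n p κ + 10)) := by
  sorry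

theorem D4_small_med {n p : ℕ} [Fact p.Prime] (hn : 1 ≤ n) (hp2 : 20 * n < p ^ 2) (q : ℕ) (α β : ℕ → ℚ)
    (hα : UInt q α) (hβ : UInt q β) (hβ3 : ∀ i < 3, β i = 0) (m : ℕ) (hm : m ≤ 5 * n) :
    padicNorm p ((q : ℚ) ^ (2 * m) * MD (AL n α) (BL n β) m) ≤
      ((p : ℚ) ^ 10) ^ (2 * m) * ((∏ i ∈ Finset.range (2 * m), padicNorm p (((2 * i - 1).factorial : ℕ) : ℚ)) *
        ∏ i ∈ Finset.range m, padicNorm p (((2 * i - 1).factorial : ℕ) : ℚ) ^ 2) := by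
  sorry

theorem D4_small_crude {n p : ℕ} [Fact p.Prime] (hn : 1 ≤ n) (q : ℕ) (α β : ℕ → ℚ)
    (hα : UInt q α) (hβ : UInt q β) (hβ3 : ∀ i < 3, β i = 0) (m : ℕ) (hm : m ≤ 5 * n) :
    padicNorm p ((q : ℚ) ^ (2 * m) * MD (AL n α) (BL n β) m) ≤
      (((20 * n + 1 : ℕ) : ℚ) ^ 40) ^ (2 * m) *
        ((∏ i ∈ Finset.range (2 * m), padicNorm p (((2 * i - 1).factorial : ℕ) : ℚ)) *
        ∏ i ∈ Finset.range m, padicNorm p (((2 * i - 1).factorial : ℕ) : ℚ) ^ 2) := by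
  sorry

/-! ### E. Class sums -/

theorem E1_Kset_sum {n p : ℕ} (hp : p.Prime) (hp2 : p ≠ 2) (hpn : p < 8 * n) (f : ℕ → ℤ) (M : ℤ) (hM : 0 ≤ M)
    (hf : ∀ r < p, f r = f ((8 * n - r) % p)) (hfM : ∀ r < p, f r ≤ M) :
    2 * ∑ r ∈ Kset n p, f r ≤ ∑ r ∈ Finset.range p, f r + M := by
  sorry

/-- poles-poles -/
theorem E2_PP {n p : ℕ} (hn : 1 ≤ n) (hp : p.Prime) (hpn : n < 50 * p) :
    ((∑ r ∈ Finset.range p, Np n p r ^ 2 : ℕ) : ℝ) ≤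
      4 * n + 2 * ∑ j ∈ Finset.Icc 1 400, tn (4 * n) j p + 1000 := by
  sorry

/-- poles-zeros -/
theorem E2_PZ {n p : ℕ} (hn : 1 ≤ n) (hp : p.Prime) (hpn : n < 50 * p) :
    2 * ∑ j ∈ Finset.Icc 1 400, (tn (6 * n) j p - tn (4 * n) j p - tn (2 * n) j p) - 1000 ≤
      ((∑ r ∈ Finset.range p, Np n p r * Zp n p r : ℕ) : ℝ) := by
  sorry

/-- zeros-zeros -/
theorem E2_ZZ {n p : ℕ} (hn : 1 ≤ n) (hp : p.Prime) (hpn : n < 50 * p) :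
    ((∑ r ∈ Finset.range p, Zp n p r ^ 2 : ℕ) : ℝ) ≤
      4 * n + 4 * ∑ j ∈ Finset.Icc 1 400, tn (2 * n) j p +
        2 * ∑ j ∈ Finset.Icc 1 400, (tn (8 * n) j p - 2 * tn (6 * n) j p + tn (4 * n) j p) + 2000 := by
  sorry

theorem E3_A : ∃ K0 : ℝ, ∀ n p : ℕ, p.Prime → 7 ≤ n → n < 50 * p → p ≤ 2 * n → 20 * n < p ^ 2 → ∀ a : ℤ,
    a = ((6 * n / p : ℕ) : ℤ) + 1 - (10 * ((4 * n / p : ℕ) : ℤ) - 2 * ((2 * n / p : ℕ) : ℤ)) →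
    ((((5 * n - 5 : ℕ) : ℤ) * (2 * a - 3) + ∑ κ ∈ Kset n p, T3 (eM n p κ - a) : ℤ) : ℝ) ≤ EA n p + K0 := by
  sorry

/-- class pairs for `2n < p < 4n` -/
theorem E3_good {n p : ℕ} (hn : 7 ≤ n) (hp : p.Prime) (h1 : 2 * n < p) (h2 : p < 4 * n) :
    Kfull n p ⊆ Kset n p ∧ ∀ k ∈ sM n, kap n p k ∈ Kfull n p ∨
      (k < 2 * n + p ∧ ∀ k' ∈ sM n, k' ≠ k → ¬ (p : ℤ) ∣ (k' : ℤ) - k) := by
  sorry

theorem E3_B : ∃ K0 : ℝ, ∀ n p : ℕ, p.Prime → 7 ≤ n → 2 * n < p → p ≤ 3 * n →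
    ((-(20 * (5 * n - 5 : ℕ) : ℤ) + ∑ κ ∈ Kfull n p, T2s (eM n p κ + 10) : ℤ) : ℝ) ≤ EB n p + K0 := by
  sorry

theorem E3_C : ∃ K0 : ℝ, ∀ n p : ℕ, p.Prime → 7 ≤ n → 3 * n < p → p < 4 * n →
    ((-(20 * (5 * n - 5 : ℕ) : ℤ) + ∑ κ ∈ Kfull n p, T2s (eM n p κ + 10) : ℤ) : ℝ) ≤ EC n p + K0 := by
  sorry

/-- p-adic size of the determinant, all primes `p > n/50` -/
theorem E4_padic : ∃ K0 : ℝ, 0 ≤ K0 ∧ ∀ n : ℕ, 100 ≤ n → ∀ p : ℕ, p.Prime → n < 50 * p → 20 * n < p ^ 2 →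
    ∀ (q : ℕ) (α β : ℕ → ℚ), UInt q α → UInt q β → (∀ i < 3, β i = 0) →
    ((padicNorm p ((q : ℚ) ^ (10 * n - 10) * DD n α β) : ℚ) : ℝ) ≤
      if p < 4 * n then (p : ℝ) ^ (EW n p + K0) else 1 := by
  sorry

/-! ### F. Prime number theorem sums -/

theorem F1_tent (α j : ℕ) (hj : 1 ≤ j) (lo hi : ℚ) (h0 : 0 < lo) (h1 : lo ≤ hi) (h2 : hi ≤ 20) :
    Tendsto (fun n : ℕ => (∑ p ∈ PS lo hi n, tn (α * n) j p * Real.log p) / (n : ℝ) ^ 2) atTop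
      (𝓝 ((It α j lo hi : ℚ) : ℝ)) := by
  sorry

theorem F1_const (lo hi : ℚ) (h0 : 0 < lo) (h1 : lo ≤ hi) (h2 : hi ≤ 20) :
    Tendsto (fun n : ℕ => (∑ p ∈ PS lo hi n, (n : ℝ) * Real.log p) / (n : ℝ) ^ 2) atTop
      (𝓝 (((hi - lo : ℚ)) : ℝ)) := by
  sorry

theorem F1_id (lo hi : ℚ) (h0 : 0 < lo) (h1 : lo ≤ hi) (h2 : hi ≤ 20) :
    Tendsto (fun n : ℕ => (∑ p ∈ PS lo hi n, (p : ℝ) * Real.log p) / (n : ℝ) ^ 2) atTop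
      (𝓝 ((((hi ^ 2 - lo ^ 2) / 2 : ℚ)) : ℝ)) := by
  sorry

theorem F1_inv (lo hi : ℚ) (h0 : 0 < lo) (h1 : lo ≤ hi) (h2 : hi ≤ 20) :
    Tendsto (fun n : ℕ => (∑ p ∈ PS lo hi n, ((n : ℝ) ^ 2 / p) * Real.log p) / (n : ℝ) ^ 2) atTop
      (𝓝 (Real.log ((hi : ℚ) : ℝ) - Real.log ((lo : ℚ) : ℝ))) := by
  sorry

theorem F1_floor (α J : ℕ) (lo hi : ℚ) (h0 : 0 < lo) (h1 : lo ≤ hi) (h2 : hi ≤ 20) (hα : α ≤ 20)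
    (hJ : (α : ℚ) ≤ J * lo) :
    Tendsto (fun n : ℕ => (∑ p ∈ PS lo hi n, ((n : ℝ) * ((α * n / p : ℕ) : ℝ)) * Real.log p) / (n : ℝ) ^ 2) atTop
      (𝓝 ((Ifl α J lo hi : ℚ) : ℝ)) := by
  sorry

theorem F2_A : Tendsto (fun n : ℕ => (∑ p ∈ PS (1 / 50) 2 n, EA n p * Real.log p) / (n : ℝ) ^ 2) atTop
    (𝓝 ((LA : ℝ) - 6 * Real.log 100)) := by
  sorry

theorem F2_B : Tendsto (fun n : ℕ => (∑ p ∈ PS 2 3 n, EB n p * Real.log p) / (n : ℝ) ^ 2) atTop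
    (𝓝 (LB : ℝ)) := by
  sorry

theorem F2_C : Tendsto (fun n : ℕ => (∑ p ∈ PS 3 4 n, EC n p * Real.log p) / (n : ℝ) ^ 2) atTop
    (𝓝 (LC : ℝ)) := by
  sorry

theorem F2_U : Tendsto (fun n : ℕ => (∑ p ∈ PS (1 / 50) 20 n,
      (∑ j ∈ Finset.Icc 1 1000, (1 / 2 * tn (20 * n) j p + tn (10 * n) j p)) * Real.log p) / (n : ℝ) ^ 2)
    atTop (𝓝 (LU : ℝ)) := by
  sorry

theorem F3_numeric : LA + LB + LC + LU ≤ 17130 / 100 := by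
  sorry

/-- small primes: trivial exponents -/
theorem F4_small : ∀ ε : ℝ, 0 < ε → ∀ᶠ n : ℕ in atTop,
    10 * (n : ℝ) * (∑ p ∈ (Finset.range (n + 1)).filter (fun p : ℕ => p.Prime ∧ p ^ 2 ≤ 20 * n),
        40 * Real.log (20 * n + 1) +
      ∑ p ∈ (Finset.range (n + 1)).filter (fun p : ℕ => p.Prime ∧ 50 * p ≤ n), 10 * Real.log p) ≤
    (2 + ε) * (n : ℝ) ^ 2 := by
  sorry

/-- factorials: the small prime part -/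
theorem F5_fact : ∀ᶠ n : ℕ in atTop,
    ∑ p ∈ (Finset.range (n + 1)).filter (fun p : ℕ => p.Prime ∧ 50 * p ≤ n),
      (∑ i ∈ Finset.range (10 * n - 10), Real.log ((padicNorm p (((2 * i - 1).factorial : ℕ) : ℚ) : ℚ) : ℝ) +
       2 * ∑ i ∈ Finset.range (5 * n - 5), Real.log ((padicNorm p (((2 * i - 1).factorial : ℕ) : ℚ) : ℚ) : ℝ)) ≤
    - (∑ i ∈ Finset.range (10 * n - 10), Real.log ((2 * i - 1).factorial : ℝ) +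
       2 * ∑ i ∈ Finset.range (5 * n - 5), Real.log ((2 * i - 1).factorial : ℝ)) +
      ∑ p ∈ PS (1 / 50) 20 n,
        (∑ j ∈ Finset.Icc 1 1000, (1 / 2 * tn (20 * n) j p + tn (10 * n) j p)) * Real.log p := by
  sorry

theorem F6_superfac : ∀ ε : ℝ, 0 < ε → ∀ᶠ n : ℕ in atTop,
    150 * (n : ℝ) ^ 2 * Real.log n + (250 * Real.log 2 + 150 * Real.log 5 - 225 - ε) * (n : ℝ) ^ 2 ≤
      ∑ i ∈ Finset.range (10 * n - 10), Real.log ((2 * i - 1).factorial : ℝ) +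
       2 * ∑ i ∈ Finset.range (5 * n - 5), Real.log ((2 * i - 1).factorial : ℝ) := by
  sorry

/-- **the p-adic part** -/
theorem P_main : ∀ (q : ℕ) (α β : ℕ → ℚ), UInt q α → UInt q β → (∀ i < 3, β i = 0) →
    ∀ᶠ n : ℕ in atTop, DD n α β ≠ 0 →
    ∑ p ∈ (Finset.range (20 * n + 1)).filter Nat.Prime,
      Real.log ((padicNorm p ((q : ℚ) ^ (10 * n - 10) * DD n α β) : ℚ) : ℝ) ≤
    -(150 * (n : ℝ) ^ 2 * Real.log n) - 439 / 10 * (n : ℝ) ^ 2 := by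
  sorry

theorem P_large : ∀ (q : ℕ) (α β : ℕ → ℚ), UInt q α → UInt q β → (∀ i < 3, β i = 0) →
    ∀ n : ℕ, 1 ≤ n → ∀ p : ℕ, p.Prime → 20 * n < p →
    padicNorm p ((q : ℚ) ^ (10 * n - 10) * DD n α β) ≤ 1 := by
  sorry

/-! ### G. The archimedean part -/

theorem G0_nd_inj {n : ℕ} (hn : 3 ≤ n) : Set.InjOn (nd n) (Finset.range (10 * n - 10)) := by
  sorry

theorem G0_zq_inj {n : ℕ} (hn : 3 ≤ n) : Set.InjOn (zq n) (Finset.range (10 * n - 10)) := by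
  sorry

theorem G0_nd_X {n i : ℕ} (hn : 3 ≤ n) (h1 : 2 * n - 1 ≤ i) (h2 : i < 5 * n - 5) :
    120 * n ≤ nd n i ∧ nd n i < 327 * n := by
  sorry

theorem G0_nd_Y {n i : ℕ} (hn : 3 ≤ n) (h1 : 5 * n - 5 ≤ i) (h2 : i < 10 * n - 10) :
    0 ≤ nd n i ∧ nd n i < 35 * n := by
  sorry

/-- entries of the zeta part. The punctured products are written with `Real.log 0 = 0`. -/
theorem G1_entryN {n : ℕ} (hn : 10 ≤ n) (α β : ℕ → ℚ) (θ : ℝ)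
    (h : ∀ i, Odd i → 3 ≤ i → i ≤ 9 → zr i = (α i : ℝ) + θ * (β i : ℝ)) (MM : ℝ) (hM : 0 ≤ MM)
    (hsup : ∀ v : ℕ, 6 * n ≤ v →
      wv n v * Real.exp (Lp n (Finset.range (10 * n - 10)) (20 * v) + Lp n (Finset.range (5 * n - 5)) (20 * v)) ≤
        MM / (v : ℝ) ^ 2)
    (i j : ℕ) (hi : i < 10 * n - 10) (hj : j < 5 * n - 5) :
    |((AL n α (lag (Finset.range (10 * n - 10)) (zq n) i * lag (Finset.range (5 * n - 5)) (zq n) j) : ℚ) : ℝ) + θ *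
      ((BL n β (lag (Finset.range (10 * n - 10)) (zq n) i * lag (Finset.range (5 * n - 5)) (zq n) j) : ℚ) : ℝ)| ≤
    (if j < 2 * n - 1 then wv n (4 * n + 1 + j) *
      Real.exp (Lp n (Finset.range (10 * n - 10)) (20 * (4 * n + 1 + j)) +
        Lp n (Finset.range (5 * n - 5)) (20 * (4 * n + 1 + j))) else 0) + 1000 * MM := by
  sorry

/-- entries of the pole part -/
theorem G2_entryY (β : ℕ → ℚ) : ∃ C : ℝ, 0 < C ∧ ∀ n : ℕ, 3 ≤ n → ∀ MY : ℝ,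
    (∀ u : ℤ, |u| ≤ 2 * n → n * phi (20 * (u : ℝ) / n) + Lp n (Finset.range (10 * n - 10)) (20 * u) +
      Lp n (Finset.Ico (5 * n - 5) (10 * n - 10)) (20 * u) ≤ MY) →
    ∀ i < 10 * n - 10, ∀ j, 5 * n - 5 ≤ j → j < 10 * n - 10 →
    |((BL n β (lag (Finset.range (10 * n - 10)) (zq n) i *
      lag (Finset.Ico (5 * n - 5) (10 * n - 10)) (zq n) j) : ℚ) : ℝ)| ≤
      Real.exp (MY + C * Real.log n) := by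
  sorry

/-- potential of one brick (from `H102R2.Z5.Brick`; here with the mirror image) -/
theorem G3_brick : ∃ C : ℝ, 0 < C ∧ ∀ n : ℕ, 3 ≤ n → ∀ g < 10, ∀ u : ℤ,
    |∑ j ∈ Finset.range (n - 1), (Real.log (((u - (bb g * n + cc g * (j : ℤ)) : ℤ) : ℝ) / 20) +
        Real.log (((u + (bb g * n + cc g * (j : ℤ)) : ℤ) : ℝ) / 20)) -
      (n * Ub g ((u : ℝ) / n) + 2 * n * Real.log n)| ≤ C * Real.log (n + |(u : ℝ)|) := by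
  sorry

theorem G3_Lp : ∃ C : ℝ, 0 < C ∧ ∀ n : ℕ, 3 ≤ n → ∀ a b : ℕ, a ≤ b → b ≤ 10 → ∀ u : ℤ,
    |Lp n (Finset.Ico (a * (n - 1)) (b * (n - 1))) u -
      (n * ∑ g ∈ Finset.Ico a b, Ub g ((u : ℝ) / n) + 2 * (b - a) * n * Real.log n)| ≤ C * Real.log (n + |(u : ℝ)|) := by
  sorry

/-- the weight -/
theorem G4_weight : ∃ C : ℝ, 0 < C ∧ ∀ n : ℕ, 3 ≤ n → ∀ v : ℕ, 4 * n < v →
    |Real.log (wv n v) - n * phi (20 * (v : ℝ) / n)| ≤ C * Real.log (n + v) := by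
  sorry

/-- saturated part -/
theorem G5_sat : ∃ C : ℝ, 0 < C ∧ ∀ n : ℕ, 3 ≤ n →
    ∑ i ∈ Finset.range (2 * n - 1), (Real.log (wv n (4 * n + 1 + i)) + Lp n (Finset.range (2 * n - 1)) (20 * (4 * n + 1 + i))) ≤
      eS * (n : ℝ) ^ 2 + 8 * (n : ℝ) ^ 2 * Real.log n + C * n * Real.log n := by
  sorry

/-- energy of two bricks -/
theorem G6_pair : ∃ C : ℝ, 0 < C ∧ ∀ n : ℕ, 3 ≤ n → ∀ g < 10, ∀ h < 10,
    |∑ j ∈ Finset.range (n - 1), Lp n (Finset.Ico (h * (n - 1)) ((h + 1) * (n - 1))) (bb g * n + cc g * (j : ℤ)) -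
      (en g h * (n : ℝ) ^ 2 + 2 * (n : ℝ) ^ 2 * Real.log n)| ≤ C * n * Real.log n := by
  sorry

/-- cross energies cancel: `½ log` of the three products -/
theorem G6_cross {n : ℕ} (hn : 3 ≤ n) :
    (Real.log (VD (Finset.range (10 * n - 10)) (zq n)) + Real.log (VD (Finset.range (5 * n - 5)) (zq n)) +
      Real.log (VD (Finset.Ico (5 * n - 5) (10 * n - 10)) (zq n))) / 2 ≥
    ∑ i ∈ Finset.range (2 * n - 1), (Lp n (Finset.range (10 * n - 10)) (nd n i) + Lp n (Finset.range (5 * n - 5)) (nd n i)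
      - Lp n (Finset.range (2 * n - 1)) (nd n i)) +
    ∑ i ∈ Finset.Ico (2 * n - 1) (5 * n - 5), Lp n (Finset.Ico (2 * n - 1) (10 * n - 10)) (nd n i) +
    ∑ i ∈ Finset.Ico (5 * n - 5) (10 * n - 10), Lp n (Finset.Ico (5 * n - 5) (10 * n - 10)) (nd n i)
      - 40 * n * Real.log (40 * n) := by
  sorry

/-! #### Certificates (numerical values: `sup FN = -3.18287` on `[120,∞)` at `w = 120`, `inf FN = -3.18287` on `[80,120]`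
at `w = 120`, `sup FY = 41.21414` at `w = ±25.712`, `eS = -75.92169`, `eN = 78.61786`) -/

theorem V1_upper (w : ℝ) (h1 : 120 ≤ w) : FN w ≤ -(63 / 20) := by
  sorry

/-- decay -/
theorem V1_tail (w : ℝ) (h1 : 10000 ≤ w) : FN w ≤ -(63 / 20) - 4 * (Real.log w - Real.log 10000) := by
  sorry

theorem V2_lower (w : ℝ) (h0 : 80 ≤ w) (h1 : w ≤ 120) : -(16 / 5) ≤ FN w := by
  sorry

theorem V3_upperY (w : ℝ) (h0 : -40 ≤ w) (h1 : w ≤ 40) : FY w ≤ 165 / 4 := by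
  sorry

theorem V4_eS : eS ≤ -(759 / 10) := by
  sorry

theorem V5_eN : 393 / 5 ≤ eN := by
  sorry

/-- **the archimedean part** -/
theorem A_main (α β : ℕ → ℚ) (θ : ℝ) (h : ∀ i, Odd i → 3 ≤ i → i ≤ 9 → zr i = (α i : ℝ) + θ * (β i : ℝ)) :
    ∀ᶠ n : ℕ in atTop, DD n α β ≠ 0 →
    Real.log |((DD n α β : ℚ) : ℝ)| ≤ 150 * (n : ℝ) ^ 2 * Real.log n + 85 / 2 * (n : ℝ) ^ 2 := by
  sorry

/-! ### H. Non-vanishing (`n = p`) -/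

theorem H2_pa {p : ℕ} [Fact p.Prime] (hp : 100 ≤ p) (r : ℕ) (hr1 : 1 ≤ r) (hr2 : 2 * r < p) :
    ∃ w : ℚ, padicNorm p w = 1 ∧ ∀ e j i : ℕ, e ≤ 28 → 2 ≤ j → j ≤ 5 → 1 ≤ i → i ≤ 10 →
      padicNorm p (pa (sM p) mM (PM p * EM p (XN p r ^ e * OT p r 30)) (r + j * p) i
        / (p : ℚ) ^ (i + e) -
        w * (-2 * r) ^ e * PowerSeries.coeff (10 - i) (ser j e)) ≤ (p : ℚ)⁻¹ := by
  sorry

theorem H3_diag {p : ℕ} [Fact p.Prime] (hp : 100 ≤ p) (α β : ℕ → ℚ) (hα : ∀ i, padicNorm p (α i) ≤ 1)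
    (hβ : ∀ i, padicNorm p (β i) ≤ 1) (i0 : ℕ) (hi0 : i0 = 3 ∨ i0 = 5 ∨ i0 = 7) (hβ0 : ∀ i < i0, β i = 0)
    (r : ℕ) (hr1 : 1 ≤ r) (hr2 : 2 * r < p) :
    ∃ w : ℚ, padicNorm p w = 1 ∧ ∀ e : ℕ, e ≤ 28 →
      padicNorm p ((p : ℚ) ^ (-(e : ℤ)) * AL p α (XN p r ^ e * OT p r 30) -
        w * (-2 * r) ^ e * Fm e) ≤ (p : ℚ)⁻¹ ∧
      padicNorm p ((p : ℚ) ^ (-(e : ℤ) - i0) * BL p β (XN p r ^ e * OT p r 30) -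
        w * (-2 * r) ^ e * (β i0 * Bm i0 e)) ≤ (p : ℚ)⁻¹ := by
  sorry

theorem H4_offdiag {p : ℕ} [Fact p.Prime] (hp : 100 ≤ p) (α β : ℕ → ℚ) (hα : ∀ i, padicNorm p (α i) ≤ 1)
    (hβ : ∀ i, padicNorm p (β i) ≤ 1) (i0 : ℕ) (hi0 : i0 = 3 ∨ i0 = 5 ∨ i0 = 7) (hβ0 : ∀ i < i0, β i = 0)
    (r s l l' : ℕ) (hr1 : 1 ≤ r) (hr2 : 2 * r < p) (hs1 : 1 ≤ s) (hs2 : 2 * s < p) (hrs : r ≠ s)
    (hl : l < 20) (hl' : l' < 10) :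
    padicNorm p ((p : ℚ) ^ (-(l : ℤ) - (l' : ℤ)) * AL p α
      ((XN p r ^ l * OT p r 20) * (XN p s ^ l' * OT p s 10))) ≤ (p : ℚ)⁻¹ ∧
    padicNorm p ((p : ℚ) ^ (-(l : ℤ) - (l' : ℤ) - i0) * BL p β
      ((XN p r ^ l * OT p r 20) * (XN p s ^ l' * OT p s 10))) ≤ (p : ℚ)⁻¹ := by
  sorry

theorem H5_local (i0 : ℕ) (hi0 : i0 = 3 ∨ i0 = 5 ∨ i0 = 7) :
    (Matrix.of fun l l' : Fin 20 => if l'.1 < 10 then Fm (l.1 + l'.1) else Bm i0 (l.1 + (l'.1 - 10))).det ≠ 0 := by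
  sorry

theorem H6_nonvanish (α β : ℕ → ℚ) (q : ℕ) (hα : UInt q α) (hβ : UInt q β) (i0 : ℕ)
    (hi0 : i0 = 3 ∨ i0 = 5 ∨ i0 = 7) (hβ0 : ∀ i < i0, β i = 0) (hβ1 : β i0 ≠ 0) :
    ∃ p0 : ℕ, ∀ p : ℕ, p0 ≤ p → p.Prime → DD p α β ≠ 0 := by
  sorry

/-! ### Z. Conclusion -/

theorem Z1_dim (h57 : Irrational (zr 5) ∨ Irrational (zr 7))
    (h : Module.finrank ℚ (Submodule.span ℚ (Set.range fun i : Fin 5 => if i.1 = 0 then (1 : ℝ) else zr (2 * i.1 + 1))) < 3) :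
    ∃ (θ : ℝ) (α β : ℕ → ℚ) (q i0 : ℕ), UInt q α ∧ UInt q β ∧ (i0 = 3 ∨ i0 = 5 ∨ i0 = 7) ∧ β i0 ≠ 0 ∧
      (∀ i < i0, β i = 0) ∧ (∀ i, Odd i → 3 ≤ i → i ≤ 9 → zr i = (α i : ℝ) + θ * (β i : ℝ)) := by
  sorry

theorem Z_main (h57 : Irrational (zr 5) ∨ Irrational (zr 7)) :
    3 ≤ Module.finrank ℚ (Submodule.span ℚ (Set.range fun i : Fin 5 => if i.1 = 0 then (1 : ℝ) else zr (2 * i.1 + 1))) := by
  sorry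

end

end Pool.Agent.H574R2.D9
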