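import Pool.Agent.H574R2.D9.TwoA

/-!
# D3_two, part B (helper299): the weights at the two sites of a class come from one generator
-/

open Polynomial Pool.Agent.H337R2

namespace Pool.Agent.H574R2.D9.Two

noncomputable section

lemma sum_rst_M {n a b : ℕ} (hab : a < b) (ha : a ∈ sM n) (hb : b ∈ sM n) :
    ∑ s ∈ rst n a b, (if a < s ∧ s < b then io a b s else 0) = Mp a b := by
  rw [← Finset.sum_filter]
  unfold Mp
  apply Finset.sum_congr _ fun _ _ => rfl
  ext s
  unfold rst
  simp only [Finset.mem_filter, Finset.mem_erase, Finset.mem_Ioo, Finset.mem_Icc] at *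
  omega

/-- site `b` -/
lemma sum_b {n a b : ℕ} (hab : a < b) (ha : a ∈ sM n) (hb : b ∈ sM n) :
    Ideal.Quotient.mk (Ideal.span {sit b ^ 10})
      (∑ s ∈ (sM n).erase b, (if s < b then Es b ((b : ℚ) - s) else -Es b ((b : ℚ) - s))) =
    Ideal.Quotient.mk (Ideal.span {sit b ^ 10}) (Es b ((b : ℚ) - a) + (Gp n a b + Mp a b)) := by
  have h1 : a ∈ (sM n).erase b := Finset.mem_erase.2 ⟨hab.ne, ha⟩
  rw [← Finset.add_sum_erase _ _ h1, if_pos hab, Finset.erase_right_comm, ← sum_rst_M hab ha hb]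
  unfold Gp
  rw [← Finset.sum_add_distrib]
  change (Ideal.Quotient.mk (Ideal.span {sit b ^ 10})) (_ + ∑ x ∈ rst n a b, _) = _
  rw [map_add, map_add, map_sum, map_sum]
  congr 1
  refine Finset.sum_congr rfl fun s hs => ?_
  unfold rst at hs
  rw [Finset.mem_erase, Finset.mem_erase] at hs
  have h2 := Es_io (a := a) (b := b) (s := s) (k := b) (Or.inr rfl) hs.2.1 hs.1
  rcases lt_trichotomy s a with h | h | h
  · rw [if_pos (by omega), if_pos h, if_neg (by omega), add_zero, h2]
  · exact absurd h hs.2.1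
  · rcases lt_trichotomy s b with h' | h' | h'
    · rw [if_pos h', if_neg (by omega), if_neg (by omega), if_pos ⟨h, h'⟩, zero_add, h2]
    · exact absurd h' hs.1
    · rw [if_neg (by omega), if_neg (by omega), if_pos h', if_neg (by omega), add_zero, map_neg, map_neg, h2]

/-- site `a` -/
lemma sum_a {n a b : ℕ} (hab : a < b) (ha : a ∈ sM n) (hb : b ∈ sM n) :
    Ideal.Quotient.mk (Ideal.span {sit a ^ 10})
      (∑ s ∈ (sM n).erase a, (if s < a then Es a ((a : ℚ) - s) else -Es a ((a : ℚ) - s))) =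
    Ideal.Quotient.mk (Ideal.span {sit a ^ 10}) (-Es a ((a : ℚ) - b) + (Gp n a b - Mp a b)) := by
  have h1 : b ∈ (sM n).erase a := Finset.mem_erase.2 ⟨hab.ne', hb⟩
  rw [← Finset.add_sum_erase _ _ h1, if_neg (by omega), ← sum_rst_M hab ha hb]
  unfold Gp
  rw [← Finset.sum_sub_distrib]
  change (Ideal.Quotient.mk (Ideal.span {sit a ^ 10})) (_ + ∑ x ∈ rst n a b, _) = _
  rw [map_add, map_add, map_sum, map_sum]
  congr 1
  refine Finset.sum_congr rfl fun s hs => ?_
  unfold rst at hs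
  rw [Finset.mem_erase, Finset.mem_erase] at hs
  have h2 := Es_io (a := a) (b := b) (s := s) (k := a) (Or.inl rfl) hs.2.1 hs.1
  rcases lt_trichotomy s a with h | h | h
  · rw [if_pos (by omega), if_pos h, if_neg (by omega), sub_zero, h2]
  · exact absurd h hs.2.1
  · rcases lt_trichotomy s b with h' | h' | h'
    · rw [if_neg (by omega), if_neg (by omega), if_neg (by omega), if_pos ⟨h, h'⟩, zero_sub, map_neg, map_neg, h2]
    · exact absurd h' hs.1
    · rw [if_neg (by omega), if_neg (by omega), if_pos h', if_neg (by omega), sub_zero, map_neg, map_neg, h2]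

theorem cong_b {n p a b : ℕ} (hp : 0 < p) (hab : b = a + p) (ha : a ∈ sM n) (hb : b ∈ sM n) (u : ℚ)
    (v : ℕ → ℚ) : sit b ^ 10 ∣ Om n u v b - (WW p u v a b * Es b p + YY p n u v a b) := by
  apply dvd_of_pi
  have hpq : ((p : ℚ)) ≠ 0 := by positivity
  have hba : (b : ℚ) - a = p := by rw [hab]; push_cast; ring
  have h1 : Ideal.Quotient.mk (Ideal.span {sit b ^ 10}) (sit a * Es b p) =
      Ideal.Quotient.mk (Ideal.span {sit b ^ 10}) 1 := by
    apply pi_eq
    have e1 : sit a = sit b - C (p : ℚ) := by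
      unfold sit; rw [← hba, map_sub]; ring
    rw [e1, Es_mul b hpq]
    exact ⟨-(C (p : ℚ)⁻¹) ^ 10, by ring⟩
  have h2 := sum_b (by omega : a < b) ha hb
  rw [hba] at h2
  unfold Om WW YY
  set π := Ideal.Quotient.mk (Ideal.span {sit b ^ 10}) with hπ
  simp only [map_add, map_mul, map_sub, map_one] at h1 h2 ⊢
  rw [h2]
  linear_combination (-(π (C u) * π (sit b) * π (Hp a b) +
    π (C (p : ℚ)) * π (vc v (sit b) (sit a)) * π (sit b))) * h1

theorem cong_a {n p a b : ℕ} (hp : 0 < p) (hab : b = a + p) (ha : a ∈ sM n) (hb : b ∈ sM n) (u : ℚ)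
    (v : ℕ → ℚ) : sit a ^ 10 ∣ Om n u v a - (WW p u v a b * (-Es a (-p)) + YY p n u v a b) := by
  apply dvd_of_pi
  have hpq : (-(p : ℚ)) ≠ 0 := by rw [neg_ne_zero]; positivity
  have hba : (a : ℚ) - b = -p := by rw [hab]; push_cast; ring
  have hC : sit b - sit a = C (p : ℚ) := by
    unfold sit; rw [← neg_neg (p : ℚ), ← hba, neg_sub, map_sub]; ring
  have h1 : Ideal.Quotient.mk (Ideal.span {sit a ^ 10}) (sit b * Es a (-p)) =
      Ideal.Quotient.mk (Ideal.span {sit a ^ 10}) 1 := by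
    apply pi_eq
    have e1 : sit b = sit a - C (-(p : ℚ)) := by
      rw [map_neg, ← hC]; ring
    rw [e1, Es_mul a hpq]
    exact ⟨-(C (-(p : ℚ))⁻¹) ^ 10, by ring⟩
  have h2 := sum_a (by omega : a < b) ha hb
  have h3 := Hp_mul a b (k := a) (Or.inl rfl)
  have h4 := vc_mul v (sit b) (sit a)
  have h5 := congrArg (Ideal.Quotient.mk (Ideal.span {sit a ^ 10})) h4
  have h6 := congrArg (Ideal.Quotient.mk (Ideal.span {sit a ^ 10})) hC
  rw [hba] at h2
  unfold Om WW YY
  set π := Ideal.Quotient.mk (Ideal.span {sit a ^ 10}) with hπ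
  simp only [map_add, map_mul, map_sub, map_one, map_neg, map_pow, map_ofNat] at h1 h2 h3 h5 h6 ⊢
  rw [h2]
  linear_combination (π (C u) * π (sit a) * π (Hp a b) +
    π (C (p : ℚ)) * π (vc v (sit b) (sit a)) * π (sit a)) * h1 + π (C u) * h3 + h5 -
    π (vc v (sit b) (sit a)) * (π (sit a) + π (sit b)) * h6

end

end Pool.Agent.H574R2.D9.Two
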