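import Pool.Agent.H574R2.D9.TwoB
import Pool.Agent.H574R2.D9.C1

/-!
# D3_two, part C (helper299): the functionals `Φ_k`
-/

open Polynomial Pool.Agent.H337R2

namespace Pool.Agent.H574R2.D9.Two

noncomputable section

/-- `Φ_k(g)`: the residue at `-k` of `R g` -/
def Ph (n k : ℕ) : ℚ[X] →ₗ[ℚ] ℚ where
  toFun g := pa (sM n) mM (PM n * g) k 1
  map_add' f g := by rw [mul_add, pa_add]
  map_smul' c f := by rw [smul_eq_C_mul, mul_left_comm, pa_C_mul]; rfl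

lemma Ph_apply (n k : ℕ) (g : ℚ[X]) : Ph n k g = pa (sM n) mM (PM n * g) k 1 := rfl

lemma Ph_eq (n k : ℕ) (g : ℚ[X]) : Ph n k g =
    PowerSeries.coeff 9 (TS (-(k : ℚ)) (PM n * g) * VV ((sM n).erase k) mM (-(k : ℚ))) := by
  rw [Ph_apply]
  unfold pa
  rw [if_pos (show 1 ≤ 10 by norm_num)]
  rfl

lemma TS_sit (k : ℕ) : TS (-(k : ℚ)) (sit k) = PowerSeries.X := by
  unfold sit
  rw [TS_lin, neg_add_cancel, map_zero, add_zero]

lemma Ph_kill (n k : ℕ) (h : ℚ[X]) : Ph n k (sit k ^ 10 * h) = 0 := by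
  rw [Ph_eq, mul_left_comm, (TS (-(k : ℚ))).map_mul, (TS (-(k : ℚ))).map_pow, TS_sit, mul_assoc,
    PowerSeries.coeff_X_pow_mul', if_neg (by norm_num)]

lemma Ph_congr (n k : ℕ) (h : ℚ[X]) {f g : ℚ[X]} (hfg : sit k ^ 10 ∣ f - g) : Ph n k (h * f) = Ph n k (h * g) := by
  obtain ⟨c, hc⟩ := hfg
  have e : h * f = h * g + sit k ^ 10 * (h * c) := by linear_combination h * hc
  rw [e, map_add, Ph_kill, add_zero]

lemma Ph_pa (n k : ℕ) (E : ℚ[X]) {i : ℕ} (h1 : 1 ≤ i) (h2 : i ≤ 10) :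
    Ph n k (E * sit k ^ (i - 1)) = pa (sM n) mM (PM n * E) k i := by
  rw [Ph_eq, ← mul_assoc, mul_comm (PM n * E), (TS (-(k : ℚ))).map_mul, (TS (-(k : ℚ))).map_pow, TS_sit, mul_assoc,
    PowerSeries.coeff_X_pow_mul', if_pos (by omega)]
  unfold pa
  rw [if_pos h2]
  show _ = PowerSeries.coeff (10 - i) _
  rw [show 9 - (i - 1) = 10 - i by omega]

/-- the contribution of the pole `-k` -/
def fk (n : ℕ) (u : ℚ) (v : ℕ → ℚ) (E : ℚ[X]) (k : ℕ) : ℚ :=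
  ∑ i ∈ Finset.Icc 1 10, pa (sM n) mM (PM n * E) k i * (v i - u * hs i (k - 2 * n))

/-- the lower sites of the two-site classes, one for each class pair -/
def Alow (n p : ℕ) : Finset ℕ := (Finset.Icc (2 * n) (6 * n - p)).filter fun a => 2 * a + p < 8 * n

end

end Pool.Agent.H574R2.D9.Two
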