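import Pool.Agent.H574R2.D9.TwoE
import Pool.Agent.H574R2.D9.CB

/-!
# D3_two, part F (helper299): the final assembly (`D3_two_of`, with the bookkeeping lemmas as hypotheses)
-/

open Polynomial Pool.Agent.H337R2

namespace Pool.Agent.H574R2.D9.Two

noncomputable section

lemma Alow_mem {n p a : ℕ} (h1 : 2 * n < p) (h2 : p < 4 * n) (ha : a ∈ Alow n p) : a ∈ sM n ∧ a + p ∈ sM n := by
  unfold Alow at ha
  rw [Finset.mem_filter, Finset.mem_Icc] at ha
  rw [Finset.mem_Icc, Finset.mem_Icc]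
  omega

lemma q_AL (n : ℕ) (q : ℚ) (α : ℕ → ℚ) (Q : ℚ[X]) :
    q * AL n α Q = ∑ k ∈ sM n, fk n q (fun i => q * α i) (EM n Q) k := by
  rw [AL_apply]
  unfold xa fk rho
  rw [Finset.mul_sum, Finset.sum_comm]
  refine Finset.sum_congr rfl fun i _ => ?_
  rw [Finset.sum_mul, ← Finset.sum_sub_distrib, Finset.mul_sum]
  exact Finset.sum_congr rfl fun k _ => by ring

lemma q_BL (n : ℕ) (q : ℚ) (β : ℕ → ℚ) (Q : ℚ[X]) :
    q * BL n β Q = ∑ k ∈ sM n, fk n 0 (fun i => q * β i) (EM n Q) k := by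
  rw [BL_apply]
  unfold xb fk rho
  rw [Finset.mul_sum, Finset.sum_comm]
  refine Finset.sum_congr rfl fun i _ => ?_
  rw [Finset.sum_mul, Finset.mul_sum]
  exact Finset.sum_congr rfl fun k _ => by ring

lemma EM_mul (n i j : ℕ) : EM n (X ^ (i + j)) = xM n ^ (10 + i) * xM n ^ (10 + j) := by
  unfold EM
  rw [Polynomial.mul_comp, Polynomial.pow_comp, Polynomial.pow_comp, Polynomial.X_comp, ← pow_add, ← pow_add]
  congr 1
  omega

section

variable {p : ℕ} [hp : Fact p.Prime]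

lemma xM_mem (n : ℕ) : xM n ∈ IP p := by
  unfold xM
  exact pow_mem (sit_mem (p := p) (4 * n)) 2

/-- the form is a sum of kernels plus something small -/
lemma form_main {n : ℕ} (hn : 1 ≤ n) (h1 : 2 * n < p) (h2 : p < 4 * n)
    (hpair : ∀ (u : ℚ) (v : ℕ → ℚ) (E : ℚ[X]), E.comp (-X - C ((8 * n : ℕ) : ℚ)) = E →
      ∀ k ∈ sM n, fk n u v E k + fk n u v E (8 * n - k) = Ph n k (E * Om n u v k))
    (hsplit : ∀ F : ℕ → ℚ, ∑ k ∈ sM n, F k =
      ∑ a ∈ Alow n p, ((F (a + p) + F (8 * n - (a + p))) + (F a + F (8 * n - a))) +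
      ∑ k ∈ Finset.Ioo (6 * n - p) (2 * n + p), F k)
    {u : ℚ} {v : ℕ → ℚ} (hu : padicNorm p u ≤ 1) (hv : ∀ i, padicNorm p (v i) ≤ 1) {E : ℚ[X]} (hE : E ∈ IP p)
    (hE2 : E.comp (-X - C ((8 * n : ℕ) : ℚ)) = E) :
    padicNorm p (∑ k ∈ sM n, fk n u v E k - ∑ a ∈ Alow n p, Nf n p a (a + p) (E * WW p u v a (a + p))) ≤
      padicNorm p (cM n) := by
  have hpos := hp.out.pos
  have e1 : ∑ k ∈ sM n, fk n u v E k = ∑ a ∈ Alow n p, (Nf n p a (a + p) (E * WW p u v a (a + p)) +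
      (Ph n (a + p) (E * YY p n u v a (a + p)) + Ph n a (E * YY p n u v a (a + p)))) +
      ∑ k ∈ Finset.Ioo (6 * n - p) (2 * n + p), fk n u v E k := by
    rw [hsplit]
    congr 1
    refine Finset.sum_congr rfl fun a ha => ?_
    obtain ⟨m1, m2⟩ := Alow_mem h1 h2 ha
    rw [hpair u v E hE2 _ m2, hpair u v E hE2 _ m1, local_form hpos rfl m1 m2]
  rw [e1, Finset.sum_add_distrib]
  have e2 : ∀ x y z : ℚ, x + y + z - x = y + z := fun x y z => by ring
  rw [e2]
  refine (padicNorm.nonarchimedean).trans (max_le ?_ ?_)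
  · apply padicNorm.sum_le' _ (padicNorm.nonneg _)
    intro a ha
    obtain ⟨m1, m2⟩ := Alow_mem h1 h2 ha
    exact flat h1 rfl m1 m2 (mul_mem hE (YY_mem h1 rfl m1 m2 hu hv))
  · apply padicNorm.sum_le' _ (padicNorm.nonneg _)
    intro k hk
    refine fk_single hn h1 hu hv hE hk ?_
    rw [Finset.mem_Ioo] at hk
    rw [Finset.mem_Icc]
    omega

lemma sum_T1 (e : ℤ) : ((∑ l : Fin 20, (e - (l : ℕ)).toNat : ℕ) : ℤ) ≤ T1 e := by
  rw [← Finset.sum_range (fun l => (e - (l : ℕ)).toNat)]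
  have h0 : ∀ N : ℕ, ∀ e : ℕ, 2 * ((∑ l ∈ Finset.range N, ((e : ℤ) - (l : ℕ)).toNat : ℕ) : ℤ) ≤ e * (e + 1) := by
    intro N
    induction N with
    | zero => intro e; simp
    | succ N ih =>
      intro e
      rw [Finset.sum_range_succ']
      rcases Nat.eq_zero_or_pos e with h | h
      · subst h
        have : ∀ l ∈ Finset.range N, ((((0 : ℕ) : ℤ) - ((l + 1 : ℕ) : ℤ))).toNat = 0 := by
          intro l _; omega
        rw [Finset.sum_eq_zero this]
        simp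
      · obtain ⟨e', rfl⟩ : ∃ e', e = e' + 1 := ⟨e - 1, by omega⟩
        have h3 := ih e'
        have h4 : ∑ l ∈ Finset.range N, ((((e' + 1 : ℕ) : ℤ) - ((l + 1 : ℕ) : ℤ))).toNat =
            ∑ l ∈ Finset.range N, ((e' : ℤ) - (l : ℕ)).toNat := by
          refine Finset.sum_congr rfl fun l _ => ?_
          congr 1
          push_cast
          ring
        rw [h4]
        have h5 : (((e' + 1 : ℕ) : ℤ) - ((0 : ℕ) : ℤ)).toNat = e' + 1 := by omega
        rw [h5]
        push_cast at h3 ⊢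
        nlinarith
  unfold T1 Pool.Agent.H574R2.D3.T1
  split_ifs with h
  · obtain ⟨e', rfl⟩ : ∃ e' : ℕ, e = e' := ⟨e.toNat, by omega⟩
    rw [Int.le_ediv_iff_mul_le (by norm_num)]
    have := h0 20 e'
    linarith
  · have h3 : ∀ l ∈ Finset.range 20, (e - ((l : ℕ) : ℤ)).toNat = 0 := by
      intro l _; omega
    rw [Finset.sum_eq_zero h3]
    simp

/-- scaled determinant -/
lemma det_scale (m : ℕ) (q σ : ℚ) (A B : ℚ[X] →ₗ[ℚ] ℚ) :
    (Matrix.of fun i j : Fin (2 * m) => σ * (q * (if j.1 < m then A (X ^ (i.1 + j.1)) else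
      B (X ^ (i.1 + (j.1 - m)))))).det = σ ^ (2 * m) * (q ^ (2 * m) * MD A B m) := by
  have h1 : (Matrix.of fun i j : Fin (2 * m) => σ * (q * (if j.1 < m then A (X ^ (i.1 + j.1)) else
      B (X ^ (i.1 + (j.1 - m)))))) = σ • (q • (Matrix.of fun i j : Fin (2 * m) =>
        if j.1 < m then A (X ^ (i.1 + j.1)) else B (X ^ (i.1 + (j.1 - m))))) := by
    ext i j
    simp only [Matrix.of_apply, Matrix.smul_apply, smul_eq_mul]
  rw [h1, Matrix.det_smul, Matrix.det_smul, Fintype.card_fin]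
  rfl

theorem D3_two_of {n : ℕ} (hn : 1 ≤ n) (hp100 : 100 ≤ p) (h1 : 2 * n < p) (h2 : p < 4 * n) (q : ℕ)
    (α β : ℕ → ℚ) (hα : UInt q α) (hβ : UInt q β) (m : ℕ)
    (hcong : ∀ a, eM n p (a + p) = eM n p a)
    (hrefl : ∀ Q, (EM n Q).comp (-X - C ((8 * n : ℕ) : ℚ)) = EM n Q)
    (hpair : ∀ (u : ℚ) (v : ℕ → ℚ) (E : ℚ[X]), E.comp (-X - C ((8 * n : ℕ) : ℚ)) = E →
      ∀ k ∈ sM n, fk n u v E k + fk n u v E (8 * n - k) = Ph n k (E * Om n u v k))
    (hsplit : ∀ F : ℕ → ℚ, ∑ k ∈ sM n, F k =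
      ∑ a ∈ Alow n p, ((F (a + p) + F (8 * n - (a + p))) + (F a + F (8 * n - a))) +
      ∑ k ∈ Finset.Ioo (6 * n - p) (2 * n + p), F k)
    (hK : ∀ T : ℤ → ℤ, ∑ κ ∈ Kfull n p, T (eM n p κ) = ∑ a ∈ Alow n p, T (eM n p a)) :
    padicNorm p ((q : ℚ) ^ (2 * m) * MD (AL n α) (BL n β) m) ≤
      (p : ℚ) ^ (-(20 * m : ℤ) + ∑ κ ∈ Kfull n p, T2s (eM n p κ + 10)) := by
  have hpp := p_pos' (p := p)
  have hp2 : 8 * n < p ^ 2 := by nlinarith
  have hcM : padicNorm p (cM n) = (p : ℚ) ^ (-10 : ℤ) := by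
    rw [C1_norm_cM hp2]
    have e1 : 4 * n / p = 1 := by
      rw [Nat.div_eq_iff (by omega)]
      constructor <;> omega
    have e2 : 2 * n / p = 0 := Nat.div_eq_of_lt h1
    rw [e1, e2]
    norm_num
  have hq : padicNorm p (q : ℚ) ≤ 1 := by
    have := padicNorm.of_int (p := p) (q : ℤ)
    exact_mod_cast this
  have hA : ∀ i, padicNorm p ((q : ℚ) * α i) ≤ 1 := by
    intro i
    obtain ⟨z, hz⟩ := hα.2 i
    rw [hz]; exact padicNorm.of_int z
  have hB : ∀ i, padicNorm p ((q : ℚ) * β i) ≤ 1 := by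
    intro i
    obtain ⟨z, hz⟩ := hβ.2 i
    rw [hz]; exact padicNorm.of_int z
  -- multipliers of the columns
  set F : ℕ → Fin (2 * m) → ℚ[X] := fun a j =>
    if j.1 < m then xM n ^ (10 + j.1) * WW p q (fun i => (q : ℚ) * α i) a (a + p)
    else xM n ^ (10 + (j.1 - m)) * WW p 0 (fun i => (q : ℚ) * β i) a (a + p) with hF
  have hFm : ∀ a ∈ Alow n p, ∀ j, F a j ∈ IP p := by
    intro a ha j
    obtain ⟨m1, m2⟩ := Alow_mem h1 h2 ha
    rw [hF]
    simp only
    split_ifs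
    · exact mul_mem (pow_mem (xM_mem n) _) (WW_mem h1 rfl m1 m2 hq hA)
    · exact mul_mem (pow_mem (xM_mem n) _) (WW_mem h1 rfl m1 m2 (by rw [padicNorm.zero]; exact zero_le_one) hB)
  -- the matrix
  set M : Fin (2 * m) → Fin (2 * m) → ℚ := fun i j => (q : ℚ) *
    (if j.1 < m then AL n α (X ^ (i.1 + j.1)) else BL n β (X ^ (i.1 + (j.1 - m)))) with hM
  set δ : Fin (2 * m) → Fin (2 * m) → ℚ := fun i j =>
    M i j - ∑ a ∈ Alow n p, Nf n p a (a + p) (xM n ^ (10 + i.1) * F a j) with hδ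
  have hδn : ∀ i j, padicNorm p (δ i j) ≤ padicNorm p (cM n) := by
    intro i j
    rw [hδ, hM, hF]
    simp only
    split_ifs with hj
    · rw [q_AL, EM_mul]
      have := form_main hn h1 h2 hpair hsplit (u := (q : ℚ)) (v := fun i => (q : ℚ) * α i) hq hA
        (E := xM n ^ (10 + i.1) * xM n ^ (10 + j.1)) (mul_mem (pow_mem (xM_mem n) _) (pow_mem (xM_mem n) _))
        (by rw [← EM_mul]; exact hrefl _)
      simpa only [mul_assoc] using this
    · rw [q_BL, EM_mul]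
      have := form_main hn h1 h2 hpair hsplit (u := (0 : ℚ)) (v := fun i => (q : ℚ) * β i)
        (by rw [padicNorm.zero]; exact zero_le_one) hB
        (E := xM n ^ (10 + i.1) * xM n ^ (10 + (j.1 - m))) (mul_mem (pow_mem (xM_mem n) _) (pow_mem (xM_mem n) _))
        (by rw [← EM_mul]; exact hrefl _)
      simpa only [mul_assoc] using this
  -- representations
  have hU : ∀ (a : ↥(Alow n p)) (i : Fin (2 * m)), ∃ u : ℕ → ℚ, (∀ l, padicNorm p (u l) ≤ 1) ∧ ∃ H : ℚ[X],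
      xM n ^ (10 + i.1) = ∑ l ∈ Finset.range 20, C (u l) * bl a.1 (a.1 + p) l + bl a.1 (a.1 + p) 20 * H := by
    intro a i
    obtain ⟨u, hu, H, _, e⟩ := rep (p := p) a.1 (a.1 + p) (pow_mem (xM_mem (p := p) n) (10 + i.1)) 20
    exact ⟨u, hu, H, e⟩
  have hV : ∀ (a : ↥(Alow n p)) (j : Fin (2 * m)), ∃ u : ℕ → ℚ, (∀ l, padicNorm p (u l) ≤ 1) ∧ ∃ H : ℚ[X],
      F a.1 j = ∑ l ∈ Finset.range 20, C (u l) * bl a.1 (a.1 + p) l + bl a.1 (a.1 + p) 20 * H := by
    intro a j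
    obtain ⟨u, hu, H, _, e⟩ := rep (p := p) a.1 (a.1 + p) (hFm a.1 a.2 j) 20
    exact ⟨u, hu, H, e⟩
  choose U hU1 HU hU2 using hU
  choose V hV1 HV hV2 using hV
  set σ : ℚ := (p : ℚ)⁻¹ ^ 10 with hσ
  have hσn : padicNorm p σ = (p : ℚ) ^ (10 : ℤ) := by
    rw [hσ, padicNorm_pow', norm_pinv]
    norm_cast
  -- the factorisation
  have hfac : ∀ i j, σ * M i j = ∑ x : (↥(Alow n p) × Fin 20) ⊕ Fin (2 * m), ∑ y : (↥(Alow n p) × Fin 20) ⊕ Fin (2 * m),
      Sum.elim (fun al => U al.1 i al.2) (fun i' => if i' = i then (1 : ℚ) else 0) x *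
      (Sum.elim (fun al => Sum.elim (fun al' => if al.1 = al'.1 then
          σ * Nf n p al.1.1 (al.1.1 + p) (bl al.1.1 (al.1.1 + p) al.2 * bl al.1.1 (al.1.1 + p) al'.2) else 0)
          (fun _ => 0))
        (fun i' => Sum.elim (fun _ => 0) (fun j' => σ * δ i' j')) x y) *
      Sum.elim (fun al => V al.1 j al.2) (fun j' => if j' = j then (1 : ℚ) else 0) y := by
    intro i j
    simp only [Fintype.sum_sum_type, Sum.elim_inl, Sum.elim_inr, mul_zero, zero_mul, Finset.sum_const_zero,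
      add_zero, zero_add]
    have e1 : ∑ x : Fin (2 * m), ∑ y : Fin (2 * m), (if x = i then (1 : ℚ) else 0) * (σ * δ x y) *
        (if y = j then (1 : ℚ) else 0) = σ * δ i j := by
      rw [Finset.sum_eq_single i, Finset.sum_eq_single j]
      · rw [if_pos rfl, if_pos rfl]; ring
      · intro b _ hb; rw [if_neg hb, mul_zero]
      · intro h; exact absurd (Finset.mem_univ _) h
      · intro b _ hb
        rw [if_neg hb]
        simp
      · intro h; exact absurd (Finset.mem_univ _) h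
    rw [e1]
    have e2 : ∑ x : ↥(Alow n p) × Fin 20, ∑ y : ↥(Alow n p) × Fin 20, U x.1 i x.2 *
        (if x.1 = y.1 then σ * Nf n p x.1.1 (x.1.1 + p) (bl x.1.1 (x.1.1 + p) x.2 * bl x.1.1 (x.1.1 + p) y.2)
          else 0) * V y.1 j y.2 =
        ∑ a : ↥(Alow n p), σ * Nf n p a.1 (a.1 + p) (xM n ^ (10 + i.1) * F a.1 j) := by
      rw [Fintype.sum_prod_type]
      refine Finset.sum_congr rfl fun a _ => ?_
      rw [Nf_prod n p a.1 (a.1 + p) (U a i) (V a j) (HU a i) (HV a j) (hU2 a i) (hV2 a j),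
        Finset.sum_range, Finset.mul_sum]
      refine Finset.sum_congr rfl fun l _ => ?_
      rw [Finset.sum_range, Finset.mul_sum, Fintype.sum_prod_type, Finset.sum_eq_single a]
      · refine Finset.sum_congr rfl fun l' _ => ?_
        rw [if_pos rfl]; ring
      · intro b _ hb
        apply Finset.sum_eq_zero
        intro l' _
        rw [if_neg (Ne.symm hb), mul_zero, zero_mul]
      · intro h; exact absurd (Finset.mem_univ _) h
    rw [e2, ← Finset.mul_sum, Finset.sum_coe_sort (Alow n p)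
      (fun a => Nf n p a (a + p) (xM n ^ (10 + i.1) * F a j))]
    rw [hδ]
    ring
  have hdet := CB.bound' (p := p) (ι := Fin (2 * m)) (L := (↥(Alow n p) × Fin 20) ⊕ Fin (2 * m))
    (L' := (↥(Alow n p) × Fin 20) ⊕ Fin (2 * m))
    (Sum.elim (fun al => ((eM n p al.1.1 + 10) / 2 - ((al.2 : ℕ) : ℤ)).toNat) (fun _ => 0))
    (Sum.elim (fun al => ((eM n p al.1.1 + 10) - (eM n p al.1.1 + 10) / 2 - ((al.2 : ℕ) : ℤ)).toNat) (fun _ => 0))
    (fun x i => Sum.elim (fun al => U al.1 i al.2) (fun i' => if i' = i then (1 : ℚ) else 0) x)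
    (fun y j => Sum.elim (fun al => V al.1 j al.2) (fun j' => if j' = j then (1 : ℚ) else 0) y)
    (fun x y => Sum.elim (fun al => Sum.elim (fun al' => if al.1 = al'.1 then
          σ * Nf n p al.1.1 (al.1.1 + p) (bl al.1.1 (al.1.1 + p) al.2 * bl al.1.1 (al.1.1 + p) al'.2) else 0)
          (fun _ => 0))
        (fun i' => Sum.elim (fun _ => 0) (fun j' => σ * δ i' j')) x y)
    (by
      rintro (al | i') i
      · exact hU1 _ _ _
      · simp only [Sum.elim_inr]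
        split_ifs <;> simp)
    (by
      rintro (al | i') i
      · exact hV1 _ _ _
      · simp only [Sum.elim_inr]
        split_ifs <;> simp)
    (by
      rintro (⟨a, l⟩ | i') (⟨a', l'⟩ | j')
      · simp only [Sum.elim_inl]
        split_ifs with h
        · subst h
          obtain ⟨m1, m2⟩ := Alow_mem h1 h2 a.2
          have h3 := Nf_level hn hp2 rfl m1 m2 (hcong a.1) l.1 l'.1
          rw [padicNorm.mul, hσn]
          calc (p : ℚ) ^ (10 : ℤ) * _ ≤ (p : ℚ) ^ (10 : ℤ) * (p : ℚ) ^ (eM n p a.1 - l.1 - l'.1 : ℤ) :=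
                mul_le_mul_of_nonneg_left h3 (by positivity)
            _ = (p : ℚ) ^ (10 + (eM n p a.1 - l.1 - l'.1) : ℤ) := (zpow_add₀ hpp.ne' _ _).symm
            _ ≤ _ := by
              rw [← zpow_natCast]
              apply zpow_le_zpow_right₀ p_one'
              push_cast
              omega
        · rw [padicNorm.zero]; positivity
      · simp only [Sum.elim_inl, Sum.elim_inr]
        rw [padicNorm.zero]; positivity
      · simp only [Sum.elim_inl, Sum.elim_inr]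
        rw [padicNorm.zero]; positivity
      · simp only [Sum.elim_inr]
        rw [padicNorm.mul, hσn, add_zero, pow_zero]
        calc (p : ℚ) ^ (10 : ℤ) * padicNorm p (δ i' j') ≤ (p : ℚ) ^ (10 : ℤ) * (p : ℚ) ^ (-10 : ℤ) :=
              mul_le_mul_of_nonneg_left ((hδn i' j').trans hcM.le) (by positivity)
          _ = 1 := by rw [← zpow_add₀ hpp.ne']; norm_num)
  have hMM : (Matrix.of fun i j : Fin (2 * m) => ∑ x : (↥(Alow n p) × Fin 20) ⊕ Fin (2 * m),
      ∑ y : (↥(Alow n p) × Fin 20) ⊕ Fin (2 * m),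
      Sum.elim (fun al => U al.1 i al.2) (fun i' => if i' = i then (1 : ℚ) else 0) x *
      (Sum.elim (fun al => Sum.elim (fun al' => if al.1 = al'.1 then
          σ * Nf n p al.1.1 (al.1.1 + p) (bl al.1.1 (al.1.1 + p) al.2 * bl al.1.1 (al.1.1 + p) al'.2) else 0)
          (fun _ => 0))
        (fun i' => Sum.elim (fun _ => 0) (fun j' => σ * δ i' j')) x y) *
      Sum.elim (fun al => V al.1 j al.2) (fun j' => if j' = j then (1 : ℚ) else 0) y) =
      Matrix.of fun i j : Fin (2 * m) => σ * ((q : ℚ) * (if j.1 < m then AL n α (X ^ (i.1 + j.1)) else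
      BL n β (X ^ (i.1 + (j.1 - m))))) := by
    ext i j
    simp only [Matrix.of_apply]
    rw [← hfac i j]
  rw [hMM, det_scale, padicNorm.mul, padicNorm_pow', hσn] at hdet
  -- exponents
  simp only [Fintype.sum_sum_type, Sum.elim_inl, Sum.elim_inr, Finset.sum_const_zero, add_zero] at hdet
  rw [Fintype.sum_prod_type, Fintype.sum_prod_type] at hdet
  have hexp : (((∑ a : ↥(Alow n p), ∑ l : Fin 20, ((eM n p a.1 + 10) / 2 - ((l : ℕ) : ℤ)).toNat) +
      ∑ a : ↥(Alow n p), ∑ l : Fin 20, ((eM n p a.1 + 10) - (eM n p a.1 + 10) / 2 - ((l : ℕ) : ℤ)).toNat : ℕ) : ℤ) ≤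
      ∑ κ ∈ Kfull n p, T2s (eM n p κ + 10) := by
    have hK' := hK (fun e => T2s (e + 10))
    simp only at hK'
    rw [hK', ← Finset.sum_coe_sort (Alow n p) (fun a => T2s (eM n p a + 10)), ← Finset.sum_add_distrib]
    push_cast
    refine Finset.sum_le_sum fun a _ => ?_
    unfold T2s
    have t1 := sum_T1 ((eM n p a.1 + 10) / 2)
    have t2 := sum_T1 ((eM n p a.1 + 10) - (eM n p a.1 + 10) / 2)
    push_cast at t1 t2
    exact add_le_add t1 t2
  have hfin : ((p : ℚ) ^ (10 : ℤ)) ^ (2 * m) * padicNorm p ((q : ℚ) ^ (2 * m) * MD (AL n α) (BL n β) m) ≤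
      (p : ℚ) ^ (∑ κ ∈ Kfull n p, T2s (eM n p κ + 10)) := by
    refine hdet.trans ?_
    rw [← zpow_natCast]
    exact zpow_le_zpow_right₀ p_one' hexp
  have hs : ((p : ℚ) ^ (10 : ℤ)) ^ (2 * m) = (p : ℚ) ^ (20 * m : ℤ) := by
    rw [← zpow_natCast, ← zpow_mul]
    congr 1
    push_cast
    ring
  rw [hs] at hfin
  rw [zpow_add₀ hpp.ne', zpow_neg]
  rw [← div_eq_inv_mul, le_div_iff₀ (by positivity)]
  linarith [hfin]

end

end

end Pool.Agent.H574R2.D9.Two
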