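import Pool.Agent.H574R2.D9.TwoC
import Pool.Agent.H574R2.D9.D2

/-! STUBS for D3_two (NEVER import): parts P2a, P2b, P3 for helper324 -/

open Polynomial Pool.Agent.H337R2

namespace Pool.Agent.H574R2.D9.Two

noncomputable section

/-- P2a -/
theorem fk_pair (n : ℕ) (u : ℚ) (v : ℕ → ℚ) (E : ℚ[X]) (hE : E.comp (-X - C ((8 * n : ℕ) : ℚ)) = E)
    {k : ℕ} (hk : k ∈ sM n) :
    fk n u v E k + fk n u v E (8 * n - k) = Ph n k (E * Om n u v k) := by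
  sorry

/-- P2b -/
theorem split_sum {n p : ℕ} (hodd : Odd p) (h1 : 2 * n < p) (h2 : p < 4 * n) (F : ℕ → ℚ) :
    ∑ k ∈ sM n, F k = ∑ a ∈ Alow n p, ((F (a + p) + F (8 * n - (a + p))) + (F a + F (8 * n - a))) +
      ∑ k ∈ Finset.Ioo (6 * n - p) (2 * n + p), F k := by
  sorry

/-- P3 -/
theorem Kfull_sum {n p : ℕ} (hn : 1 ≤ n) (hodd : Odd p) (h1 : 2 * n < p) (h2 : p < 4 * n) (T : ℤ → ℤ) :
    ∑ κ ∈ Kfull n p, T (eM n p κ) = ∑ a ∈ Alow n p, T (eM n p a) := by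
  sorry

end

end Pool.Agent.H574R2.D9.Two
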