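import Pool.Agent.H574R2.D9.Defs

/-!
# Two-site classes: writing the kernels through one generator (helper324)

For a pair of poles `-k`, `-k'`, `k = k' + p`, put `E = X + k`, `E' = X + k'`. Modulo `E^10` the generator `Gk` is
`-1/E'`, modulo `E'^10` the generator `Gk'` is `1/E`.
-/

set_option autoImplicit false

open Polynomial Pool.Agent.H337R2

namespace Pool.Agent.H574R2.D9.TwoW

noncomputable section

/-- coefficients are `p`-integral -/
def PI (p : ℕ) (P : ℚ[X]) : Prop := ∀ c, padicNorm p (P.coeff c) ≤ 1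

/-- the generator at `k` -/
def Gk (p k : ℕ) : ℚ[X] := ∑ i ∈ Finset.Icc 1 10, C (1 / (p : ℚ) ^ i) * (X + C (k : ℚ)) ^ (i - 1)

/-- the generator at `k' = k - p` -/
def Gk' (p k : ℕ) : ℚ[X] := ∑ i ∈ Finset.Icc 1 10, C ((-1) ^ (i + 1) / (p : ℚ) ^ i) * (X + C (k : ℚ)) ^ (i - 1)

/-- the symmetrised kernel -/
def Om (n k : ℕ) : ℚ[X] :=
  ∑ i ∈ Finset.Icc 1 10, C (hs i (k - 2 * n) + (-1) ^ (i + 1) * hs i (6 * n - k)) * (X + C (k : ℚ)) ^ (i - 1)

section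

variable {p : ℕ} [hp : Fact p.Prime]

lemma PI_add {P Q : ℚ[X]} (hP : PI p P) (hQ : PI p Q) : PI p (P + Q) := by
  intro c
  rw [Polynomial.coeff_add]
  exact (padicNorm.nonarchimedean (p := p)).trans (max_le (hP c) (hQ c))

lemma PI_neg {P : ℚ[X]} (hP : PI p P) : PI p (-P) := by
  intro c
  rw [Polynomial.coeff_neg, padicNorm.neg]
  exact hP c

lemma PI_sub {P Q : ℚ[X]} (hP : PI p P) (hQ : PI p Q) : PI p (P - Q) := by
  rw [sub_eq_add_neg]
  exact PI_add hP (PI_neg hQ)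

lemma PI_C {a : ℚ} (ha : padicNorm p a ≤ 1) : PI p (C a) := by
  intro c
  rw [Polynomial.coeff_C]
  split_ifs
  · exact ha
  · simp

lemma PI_zero : PI p (0 : ℚ[X]) := by
  intro c; simp

lemma PI_one : PI p (1 : ℚ[X]) := by
  have := PI_C (p := p) (a := 1) (by simp)
  simpa using this

lemma PI_X : PI p (X : ℚ[X]) := by
  intro c
  rw [Polynomial.coeff_X]
  split_ifs <;> simp

lemma PI_mul {P Q : ℚ[X]} (hP : PI p P) (hQ : PI p Q) : PI p (P * Q) := by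
  intro c
  rw [Polynomial.coeff_mul]
  apply padicNorm.sum_le' _ zero_le_one
  intro x _
  rw [padicNorm.mul]
  exact mul_le_one₀ (hP _) (padicNorm.nonneg _) (hQ _)

lemma PI_pow {P : ℚ[X]} (hP : PI p P) (m : ℕ) : PI p (P ^ m) := by
  induction m with
  | zero => simpa using PI_one
  | succ m ih => rw [pow_succ]; exact PI_mul ih hP

lemma PI_sum {ι : Type*} (s : Finset ι) (f : ι → ℚ[X]) (h : ∀ i ∈ s, PI p (f i)) : PI p (∑ i ∈ s, f i) := by
  classical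
  induction s using Finset.induction_on with
  | empty => simpa using PI_zero
  | insert a s ha ih =>
    rw [Finset.sum_insert ha]
    exact PI_add (h a (Finset.mem_insert_self a s)) (ih fun i hi => h i (Finset.mem_insert_of_mem hi))

lemma norm_natCast_le (a : ℕ) : padicNorm p (a : ℚ) ≤ 1 := by
  have := padicNorm.of_int (p := p) (a : ℤ)
  push_cast at this
  exact this

lemma PI_lin (a : ℕ) : PI p (X + C (a : ℚ)) := PI_add PI_X (PI_C (norm_natCast_le a))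

end

/-- one term, minus sign -/
lemma term_minus (j : ℚ) (hj : j ≠ 0) (E : ℚ[X]) :
    (C j - E) * ∑ i ∈ Finset.Icc 1 10, C (1 / j ^ i) * E ^ (i - 1) = 1 - C (1 / j ^ 10) * E ^ 10 := by
  have h : ∀ i : ℕ, C (1 / j ^ (i + 1)) * C j = C (1 / j ^ i) := by
    intro i
    rw [← C_mul, pow_succ]
    congr 1
    field_simp
  have e : ∑ i ∈ Finset.Icc 1 10, C (1 / j ^ i) * E ^ (i - 1) = ∑ i ∈ Finset.range 10, C (1 / j ^ (i + 1)) * E ^ i := by
    rw [show (Finset.Icc 1 10 : Finset ℕ) = Finset.Ico (0 + 1) (10 + 1) from rfl,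
      ← Finset.sum_Ico_add' (fun i => C (1 / j ^ i) * E ^ (i - 1)) 0 10 1, Finset.range_eq_Ico]
    refine Finset.sum_congr rfl fun i _ => ?_
    rw [Nat.add_sub_cancel]
  rw [e]
  have key : ∀ N : ℕ, (C j - E) * ∑ i ∈ Finset.range N, C (1 / j ^ (i + 1)) * E ^ i = 1 - C (1 / j ^ N) * E ^ N := by
    intro N
    induction N with
    | zero => simp
    | succ N ih =>
      rw [Finset.sum_range_succ, mul_add, ih]
      linear_combination (E ^ N) * h N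
  exact key 10

/-- one term, plus sign -/
lemma term_plus (j : ℚ) (hj : j ≠ 0) (E : ℚ[X]) :
    (C j + E) * ∑ i ∈ Finset.Icc 1 10, C ((-1) ^ (i + 1) / j ^ i) * E ^ (i - 1) = 1 - C (1 / j ^ 10) * E ^ 10 := by
  have h := term_minus j hj (-E)
  have e : ∑ i ∈ Finset.Icc 1 10, C (1 / j ^ i) * (-E) ^ (i - 1) =
      ∑ i ∈ Finset.Icc 1 10, C ((-1) ^ (i + 1) / j ^ i) * E ^ (i - 1) := by
    refine Finset.sum_congr rfl fun i hi => ?_
    rw [Finset.mem_Icc] at hi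
    obtain ⟨i, rfl⟩ : ∃ r, i = r + 1 := ⟨i - 1, by omega⟩
    rw [Nat.add_sub_cancel, neg_pow]
    have : ((-1 : ℚ) ^ (i + 1 + 1)) = (-1) ^ i := by ring
    rw [this]
    have h2 : ((-1 : ℚ[X]) ^ i) = C ((-1 : ℚ) ^ i) := by simp
    rw [h2, ← mul_assoc, ← C_mul]
    congr 2
    ring
  rw [e] at h
  rw [sub_neg_eq_add] at h
  rw [h]
  ring

section

variable {p : ℕ} [hp : Fact p.Prime]

/-- integral inverse of `X + ν` -/
lemma exists_inv {k k' ν : ℕ} (h1 : ¬ (p : ℤ) ∣ (k : ℤ) - ν) (h2 : ¬ (p : ℤ) ∣ (k' : ℤ) - ν) :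
    ∃ J : ℚ[X], PI p J ∧ (X + C (k : ℚ)) ^ 10 * (X + C (k' : ℚ)) ^ 10 ∣ 1 - (X + C (ν : ℚ)) * J := by
  -- `D = D(-ν) + (X + ν) q`
  set D : ℤ[X] := (X + C (k : ℤ)) ^ 10 * (X + C (k' : ℤ)) ^ 10 with hD
  obtain ⟨q, hq⟩ : (X + C (ν : ℤ)) ∣ D - C (D.eval (-(ν : ℤ))) := by
    have := Polynomial.X_sub_C_dvd_sub_C_eval (a := -(ν : ℤ)) (p := D)
    rwa [C_neg, sub_neg_eq_add] at this
  set u : ℤ := D.eval (-(ν : ℤ)) with hu
  have hu' : u = ((k : ℤ) - ν) ^ 10 * ((k' : ℤ) - ν) ^ 10 := by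
    rw [hu, hD]
    simp
    ring
  have hpu : ¬ (p : ℤ) ∣ u := by
    rw [hu']
    intro h
    have hpp : Prime (p : ℤ) := Nat.prime_iff_prime_int.1 hp.out
    rcases hpp.dvd_or_dvd h with h | h
    · exact h1 (hpp.dvd_of_dvd_pow h)
    · exact h2 (hpp.dvd_of_dvd_pow h)
  have hu0 : (u : ℚ) ≠ 0 := by
    intro h
    apply hpu
    have : u = 0 := by exact_mod_cast h
    rw [this]
    exact dvd_zero _
  have hun : padicNorm p (u : ℚ) = 1 := (padicNorm.int_eq_one_iff u).2 hpu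
  refine ⟨C (-(1 / (u : ℚ))) * q.map (Int.castRingHom ℚ), PI_mul (PI_C ?_) ?_, ?_⟩
  · rw [padicNorm.neg, padicNorm.div, padicNorm.one, hun, div_one]
  · intro c
    rw [Polynomial.coeff_map]
    exact padicNorm.of_int _
  · refine ⟨C (1 / (u : ℚ)), ?_⟩
    have hq2 := congrArg (Polynomial.map (Int.castRingHom ℚ)) hq
    rw [hD] at hq2
    simp only [Polynomial.map_sub, Polynomial.map_mul, Polynomial.map_pow, Polynomial.map_add, Polynomial.map_X,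
      Polynomial.map_C] at hq2
    simp only [eq_intCast, Int.cast_natCast] at hq2
    have h3 : C (u : ℚ) * C (1 / (u : ℚ)) = 1 := by
      rw [← C_mul, mul_one_div_cancel hu0, C_1]
    rw [C_neg]
    have h4 : (X + C (k : ℚ)) ^ 10 * (X + C (k' : ℚ)) ^ 10 =
        C (u : ℚ) + (X + C (ν : ℚ)) * q.map (Int.castRingHom ℚ) := by
      rw [← hq2]; ring
    rw [h4]
    linear_combination (-1 : ℚ[X]) * h3

/-- the kernel `S⁻_j` at a node with an inverse -/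
lemma minus_inv {k ν : ℕ} {j : ℚ} (hj : j ≠ 0) (hν : (ν : ℚ) = k - j) (J : ℚ[X])
    (hJ : (X + C (k : ℚ)) ^ 10 ∣ 1 - (X + C (ν : ℚ)) * J) :
    (X + C (k : ℚ)) ^ 10 ∣ (∑ i ∈ Finset.Icc 1 10, C (1 / j ^ i) * (X + C (k : ℚ)) ^ (i - 1)) + J := by
  have h := term_minus j hj (X + C (k : ℚ))
  set S := ∑ i ∈ Finset.Icc 1 10, C (1 / j ^ i) * (X + C (k : ℚ)) ^ (i - 1) with hS
  obtain ⟨q, hq⟩ := hJ
  have hν' : (X + C (ν : ℚ)) = -(C j - (X + C (k : ℚ))) := by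
    rw [hν, C_sub]; ring
  rw [hν'] at hq
  refine ⟨S * q + C (1 / j ^ 10) * J, ?_⟩
  linear_combination S * hq - J * h

lemma plus_inv {k ν : ℕ} {j : ℚ} (hj : j ≠ 0) (hν : (ν : ℚ) = k + j) (J : ℚ[X])
    (hJ : (X + C (k : ℚ)) ^ 10 ∣ 1 - (X + C (ν : ℚ)) * J) :
    (X + C (k : ℚ)) ^ 10 ∣ (∑ i ∈ Finset.Icc 1 10, C ((-1) ^ (i + 1) / j ^ i) * (X + C (k : ℚ)) ^ (i - 1)) - J := by
  have h := term_plus j hj (X + C (k : ℚ))
  set S := ∑ i ∈ Finset.Icc 1 10, C ((-1) ^ (i + 1) / j ^ i) * (X + C (k : ℚ)) ^ (i - 1) with hS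
  obtain ⟨q, hq⟩ := hJ
  have hν' : (X + C (ν : ℚ)) = C j + (X + C (k : ℚ)) := by
    rw [hν, C_add]; ring
  rw [hν'] at hq
  refine ⟨S * q - C (1 / j ^ 10) * J, ?_⟩
  linear_combination S * hq + J * h

/-- the kernel as a sum over the nodes -/
lemma Om_eq (n k : ℕ) : Om n k =
    (∑ l ∈ Finset.range (k - 2 * n), ∑ i ∈ Finset.Icc 1 10, C (1 / ((l : ℚ) + 1) ^ i) * (X + C (k : ℚ)) ^ (i - 1)) +
    ∑ l ∈ Finset.range (6 * n - k), ∑ i ∈ Finset.Icc 1 10,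
      C ((-1) ^ (i + 1) / ((l : ℚ) + 1) ^ i) * (X + C (k : ℚ)) ^ (i - 1) := by
  unfold Om hs
  rw [Finset.sum_comm, Finset.sum_comm (s := Finset.range (6 * n - k)), ← Finset.sum_add_distrib]
  refine Finset.sum_congr rfl fun i _ => ?_
  rw [C_add, add_mul, map_sum, Finset.sum_mul, Finset.mul_sum, map_sum, Finset.sum_mul]
  congr 1
  refine Finset.sum_congr rfl fun l _ => ?_
  rw [mul_one_div]

/-- **W and Y for the powers (functional B)** -/
theorem TwoW_B {k k' : ℕ} (hkk : k = k' + p) (l : ℕ) :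
    ∃ W Y : ℚ[X], PI p W ∧ PI p Y ∧
      (X + C (k : ℚ)) ^ 10 ∣ (X + C (k : ℚ)) ^ (2 * l) - (W * Gk p k + Y) ∧
      (X + C (k' : ℚ)) ^ 10 ∣ (X + C (k' : ℚ)) ^ (2 * l) - (W * Gk' p k' + Y) := by
  have hp0 : (p : ℚ) ≠ 0 := by exact_mod_cast hp.out.ne_zero
  have h1 := term_minus (p : ℚ) hp0 (X + C (k : ℚ))
  have h2 := term_plus (p : ℚ) hp0 (X + C (k' : ℚ))
  have hE : (X + C (k : ℚ)) = (X + C (k' : ℚ)) + C (p : ℚ) := by
    rw [hkk]; push_cast; rw [C_add]; ring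
  have hg := geom_sum₂_mul ((X + C (k' : ℚ)) ^ 2) ((X + C (k : ℚ)) ^ 2) l
  set T : ℚ[X] := ∑ i ∈ Finset.range l, ((X + C (k' : ℚ)) ^ 2) ^ i * ((X + C (k : ℚ)) ^ 2) ^ (l - 1 - i) with hT
  have hTI : PI p T := PI_sum _ _ fun i _ => PI_mul (PI_pow (PI_pow (PI_lin _) _) _) (PI_pow (PI_pow (PI_lin _) _) _)
  have hpI : PI p (C (p : ℚ)) := PI_C (norm_natCast_le p)
  have e1 : Gk p k = ∑ i ∈ Finset.Icc 1 10, C (1 / (p : ℚ) ^ i) * (X + C (k : ℚ)) ^ (i - 1) := rfl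
  have e2 : Gk' p k' = ∑ i ∈ Finset.Icc 1 10, C ((-1) ^ (i + 1) / (p : ℚ) ^ i) * (X + C (k' : ℚ)) ^ (i - 1) := rfl
  rw [← e1] at h1
  rw [← e2] at h2
  rw [← pow_mul, ← pow_mul] at hg
  refine ⟨-(C (p : ℚ) * (X + C (k : ℚ)) * (X + C (k' : ℚ)) * T),
    (X + C (k : ℚ)) ^ (2 * l) - C (p : ℚ) * (X + C (k : ℚ)) * T, ?_, ?_, ?_, ?_⟩
  · exact PI_neg (PI_mul (PI_mul (PI_mul hpI (PI_lin _)) (PI_lin _)) hTI)
  · exact PI_sub (PI_pow (PI_lin _) _) (PI_mul (PI_mul hpI (PI_lin _)) hTI)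
  · refine ⟨C (p : ℚ) * (X + C (k : ℚ)) * T * C (1 / (p : ℚ) ^ 10), ?_⟩
    set E := X + C (k : ℚ) with hEE
    set E' := X + C (k' : ℚ) with hEE'
    -- `E' = E - p`
    have h3 : E' = E - C (p : ℚ) := by rw [hE]; ring
    rw [h3]
    linear_combination (-(C (p : ℚ) * E * T)) * h1
  · refine ⟨- (C (p : ℚ) * (X + C (k' : ℚ)) * T * C (1 / (p : ℚ) ^ 10)), ?_⟩
    set E := X + C (k : ℚ) with hEE
    set E' := X + C (k' : ℚ) with hEE'
    have h3 : C (p : ℚ) + E' = E := by rw [hE]; ring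
    rw [h3] at h2
    have h4 : C (p : ℚ) = E - E' := by rw [hE]; ring
    rw [h4]
    linear_combination (((E - E') * E' * T)) * h2 - hg

/-- **W and Y for the harmonic sums (functional A)** -/
theorem TwoW_A {n k k' : ℕ} (hp2 : p ≠ 2) (hpn : 2 * n < p) (hk' : 2 * n ≤ k') (hkk : k = k' + p) (hk : k ≤ 6 * n) :
    ∃ W Y : ℚ[X], PI p W ∧ PI p Y ∧
      (X + C (k : ℚ)) ^ 10 ∣ Om n k - (W * Gk p k + Y) ∧
      (X + C (k' : ℚ)) ^ 10 ∣ Om n k' - (W * Gk' p k' + Y) := by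
  have hp0 : (p : ℚ) ≠ 0 := by exact_mod_cast hp.out.ne_zero
  have hp1 : 2 ≤ p := hp.out.two_le
  have h1 := term_minus (p : ℚ) hp0 (X + C (k : ℚ))
  have h2 := term_plus (p : ℚ) hp0 (X + C (k' : ℚ))
  have hE : (X + C (k : ℚ)) = (X + C (k' : ℚ)) + C (p : ℚ) := by
    rw [hkk]; push_cast; rw [C_add]; ring
  have e1 : Gk p k = ∑ i ∈ Finset.Icc 1 10, C (1 / (p : ℚ) ^ i) * (X + C (k : ℚ)) ^ (i - 1) := rfl
  have e2 : Gk' p k' = ∑ i ∈ Finset.Icc 1 10, C ((-1) ^ (i + 1) / (p : ℚ) ^ i) * (X + C (k' : ℚ)) ^ (i - 1) := rfl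
  rw [← e1] at h1
  rw [← e2] at h2
  have hex : ∀ ν : ℕ, ∃ J : ℚ[X], PI p J ∧ (¬ (p : ℤ) ∣ (k : ℤ) - ν →
      (X + C (k : ℚ)) ^ 10 * (X + C (k' : ℚ)) ^ 10 ∣ 1 - (X + C (ν : ℚ)) * J) := by
    intro ν
    by_cases h : (p : ℤ) ∣ (k : ℤ) - ν
    · exact ⟨0, PI_zero, fun h' => absurd h h'⟩
    · have h' : ¬ (p : ℤ) ∣ (k' : ℤ) - ν := by
        intro h3
        apply h
        have : (k : ℤ) - ν = ((k' : ℤ) - ν) + p := by rw [hkk]; push_cast; ring
        rw [this]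
        exact dvd_add h3 dvd_rfl
      obtain ⟨J, hJ1, hJ2⟩ := exists_inv (p := p) h h'
      exact ⟨J, hJ1, fun _ => hJ2⟩
  choose J hJI hJ using hex
  -- non-divisibility
  have hnd : ∀ (a : ℤ), 0 < a → a < p → ¬ (p : ℤ) ∣ a := fun a h3 h4 h5 => by
    have := Int.le_of_dvd h3 h5
    omega
  set L := k' - 2 * n with hL
  set M := 6 * n - k with hM
  have hLp : L < p := by omega
  have hMp : M < p := by omega
  have ndA : ∀ l : ℕ, l < p - 1 → ¬ (p : ℤ) ∣ (k : ℤ) - ((k - (l + 1) : ℕ) : ℤ) := by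
    intro l hl
    have : (k : ℤ) - ((k - (l + 1) : ℕ) : ℤ) = (l : ℤ) + 1 := by
      rw [Nat.cast_sub (by omega)]; push_cast; ring
    rw [this]
    exact hnd _ (by omega) (by omega)
  have ndB : ∀ l : ℕ, l < p - 1 → ¬ (p : ℤ) ∣ (k : ℤ) - ((k' + (l + 1) : ℕ) : ℤ) := by
    intro l hl
    have : (k : ℤ) - ((k' + (l + 1) : ℕ) : ℤ) = (p : ℤ) - ((l : ℤ) + 1) := by
      rw [hkk]; push_cast; ring
    rw [this]
    exact hnd _ (by omega) (by omega)
  have ndC : ∀ l : ℕ, l < L → ¬ (p : ℤ) ∣ (k : ℤ) - ((k' - (l + 1) : ℕ) : ℤ) := by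
    intro l hl h3
    have : (k : ℤ) - ((k' - (l + 1) : ℕ) : ℤ) = p + ((l : ℤ) + 1) := by
      rw [Nat.cast_sub (by omega), hkk]; push_cast; ring
    rw [this] at h3
    exact hnd ((l : ℤ) + 1) (by omega) (by omega) ((dvd_add_right dvd_rfl).1 h3)
  have ndD : ∀ l : ℕ, l < M → ¬ (p : ℤ) ∣ (k : ℤ) - ((k + (l + 1) : ℕ) : ℤ) := by
    intro l hl h3
    have : (k : ℤ) - ((k + (l + 1) : ℕ) : ℤ) = -((l : ℤ) + 1) := by push_cast; ring
    rw [this] at h3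
    exact hnd ((l : ℤ) + 1) (by omega) (by omega) ((dvd_neg).1 h3)
  set E := X + C (k : ℚ) with hEE
  set E' := X + C (k' : ℚ) with hEE'
  have dE : ∀ P : ℚ[X], E ^ 10 * E' ^ 10 ∣ P → E ^ 10 ∣ P := fun P h => (dvd_mul_right _ _).trans h
  have dE' : ∀ P : ℚ[X], E ^ 10 * E' ^ 10 ∣ P → E' ^ 10 ∣ P := fun P h => (dvd_mul_left _ _).trans h
  -- the middle part
  set K : ℚ[X] := ∑ l ∈ Finset.range (p - 1), J (k - (l + 1)) * J (k' + (l + 1)) with hK
  set SA : ℚ[X] := ∑ l ∈ Finset.range (p - 1), J (k - (l + 1)) with hSA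
  set SB : ℚ[X] := ∑ l ∈ Finset.range (p - 1), J (k' + (l + 1)) with hSB
  have hAB : SA = SB := by
    rw [hSA, hSB, ← Finset.sum_range_reflect]
    refine Finset.sum_congr rfl fun l hl => ?_
    rw [Finset.mem_range] at hl
    congr 1
    omega
  have hmid : E ^ 10 * E' ^ 10 ∣ 2 * SA - (E + E') * K := by
    have h3 : 2 * SA - (E + E') * K = ∑ l ∈ Finset.range (p - 1),
        (J (k - (l + 1)) + J (k' + (l + 1)) - (E + E') * (J (k - (l + 1)) * J (k' + (l + 1)))) := by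
      rw [Finset.sum_sub_distrib, Finset.sum_add_distrib, ← Finset.mul_sum, ← hK, ← hSA, ← hSB, ← hAB]
      ring
    rw [h3]
    apply Finset.dvd_sum
    intro l hl
    rw [Finset.mem_range] at hl
    have ha := hJ _ (ndA l hl)
    have hb := hJ _ (ndB l hl)
    have hsum : E + E' = (X + C (((k - (l + 1) : ℕ) : ℚ))) + (X + C (((k' + (l + 1) : ℕ) : ℚ))) := by
      have : ((k : ℚ)) + k' = ((k - (l + 1) : ℕ) : ℚ) + ((k' + (l + 1) : ℕ) : ℚ) := by
        rw [Nat.cast_sub (by omega)]; push_cast; ring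
      rw [hEE, hEE']
      have h4 := congrArg C this
      rw [C_add, C_add] at h4
      linear_combination h4
    have : J (k - (l + 1)) + J (k' + (l + 1)) - (E + E') * (J (k - (l + 1)) * J (k' + (l + 1))) =
        J (k' + (l + 1)) * (1 - (X + C (((k - (l + 1) : ℕ) : ℚ))) * J (k - (l + 1))) +
        J (k - (l + 1)) * (1 - (X + C (((k' + (l + 1) : ℕ) : ℚ))) * J (k' + (l + 1))) := by
      rw [hsum]; ring
    rw [this]
    exact dvd_add (dvd_mul_of_dvd_right ha _) (dvd_mul_of_dvd_right hb _)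
  set SC : ℚ[X] := ∑ l ∈ Finset.range L, J (k' - (l + 1)) with hSC
  set SD : ℚ[X] := ∑ l ∈ Finset.range M, J (k + (l + 1)) with hSD
  have hhalf : padicNorm p ((p : ℚ) / 2) ≤ 1 := by
    rw [padicNorm.div]
    have h3 : padicNorm p (2 : ℚ) = 1 := by
      have := (padicNorm.nat_eq_one_iff (p := p) 2).2 (fun h => hp2 ((Nat.prime_dvd_prime_iff_eq hp.out Nat.prime_two).1 h))
      exact_mod_cast this
    rw [h3, div_one]
    exact norm_natCast_le p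
  refine ⟨1 + E * E' * K, C ((p : ℚ) / 2) * K - SC + SD, ?_, ?_, ?_, ?_⟩
  · exact PI_add PI_one (PI_mul (PI_mul (PI_lin _) (PI_lin _)) (PI_sum _ _ fun l _ => PI_mul (hJI _) (hJI _)))
  · exact PI_add (PI_sub (PI_mul (PI_C hhalf) (PI_sum _ _ fun l _ => PI_mul (hJI _) (hJI _)))
      (PI_sum _ _ fun l _ => hJI _)) (PI_sum _ _ fun l _ => hJI _)
  · rw [Om_eq, ← hM]
    rw [show k - 2 * n = (p - 1) + (1 + L) by omega, Finset.sum_range_add, Finset.sum_range_add _ 1 L,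
      Finset.sum_range_one]
    have hG : ∑ i ∈ Finset.Icc 1 10, C (1 / (((p - 1 + 0 : ℕ) : ℚ) + 1) ^ i) * (X + C (k : ℚ)) ^ (i - 1) = Gk p k := by
      rw [e1]
      have : (((p - 1 + 0 : ℕ) : ℚ) + 1) = p := by
        rw [add_zero, Nat.cast_sub (by omega)]; push_cast; ring
      rw [this]
    rw [hG]
    rw [← hEE]
    obtain ⟨qa, hqa⟩ : E ^ 10 ∣ ∑ l ∈ Finset.range (p - 1),
        ((∑ i ∈ Finset.Icc 1 10, C (1 / ((l : ℚ) + 1) ^ i) * E ^ (i - 1)) + J (k - (l + 1))) := by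
      apply Finset.dvd_sum
      intro l hl
      rw [Finset.mem_range] at hl
      refine minus_inv (by positivity) ?_ _ (dE _ (hJ _ (ndA l hl)))
      rw [Nat.cast_sub (by omega)]; push_cast; ring
    obtain ⟨qc, hqc⟩ : E ^ 10 ∣ ∑ l ∈ Finset.range L,
        ((∑ i ∈ Finset.Icc 1 10, C (1 / (((p - 1 + (1 + l) : ℕ) : ℚ) + 1) ^ i) * E ^ (i - 1)) + J (k' - (l + 1))) := by
      apply Finset.dvd_sum
      intro l hl
      rw [Finset.mem_range] at hl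
      refine minus_inv (by positivity) ?_ _ (dE _ (hJ _ (ndC l hl)))
      rw [show p - 1 + (1 + l) = p + l by omega, Nat.cast_sub (by omega), hkk]; push_cast; ring
    obtain ⟨qd, hqd⟩ : E ^ 10 ∣ ∑ l ∈ Finset.range M,
        ((∑ i ∈ Finset.Icc 1 10, C ((-1) ^ (i + 1) / ((l : ℚ) + 1) ^ i) * E ^ (i - 1)) - J (k + (l + 1))) := by
      apply Finset.dvd_sum
      intro l hl
      rw [Finset.mem_range] at hl
      refine plus_inv (by positivity) ?_ _ (dE _ (hJ _ (ndD l hl)))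
      push_cast; ring
    obtain ⟨qm, hqm⟩ := dE _ hmid
    rw [Finset.sum_add_distrib, ← hSA] at hqa
    rw [Finset.sum_add_distrib, ← hSC] at hqc
    rw [Finset.sum_sub_distrib, ← hSD] at hqd
    have h3 : C (p : ℚ) - E = - E' := by rw [hE]; ring
    rw [h3] at h1
    have hh : C ((p : ℚ) / 2) * 2 = E - E' := by
      have : C ((p : ℚ) / 2) * 2 = C (p : ℚ) := by
        rw [show (2 : ℚ[X]) = C 2 from rfl, ← C_mul]; congr 1; ring
      rw [this, hE]; ring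
    have hc2 : (2 : ℚ[X]) * C (1 / 2) = 1 := by
      rw [show (2 : ℚ[X]) = C 2 from rfl, ← C_mul]; norm_num
    refine ⟨qa + qc + qd - C (1 / 2) * qm - E * K * C (1 / (p : ℚ) ^ 10), ?_⟩
    linear_combination hqa + hqc + hqd + (E * K) * h1 - C (1 / 2) * hqm - (C (1 / 2) * K) * hh +
      (C ((p : ℚ) / 2) * K + SA - E * K) * hc2
  · rw [Om_eq, ← hL]
    rw [show 6 * n - k' = (p - 1) + (1 + M) by omega, Finset.sum_range_add, Finset.sum_range_add _ 1 M,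
      Finset.sum_range_one]
    have hG : ∑ i ∈ Finset.Icc 1 10, C ((-1) ^ (i + 1) / (((p - 1 + 0 : ℕ) : ℚ) + 1) ^ i) * (X + C (k' : ℚ)) ^ (i - 1) =
        Gk' p k' := by
      rw [e2]
      have : (((p - 1 + 0 : ℕ) : ℚ) + 1) = p := by
        rw [add_zero, Nat.cast_sub (by omega)]; push_cast; ring
      rw [this]
    rw [hG]
    rw [← hEE']
    obtain ⟨qb, hqb⟩ : E' ^ 10 ∣ ∑ l ∈ Finset.range (p - 1),
        ((∑ i ∈ Finset.Icc 1 10, C ((-1) ^ (i + 1) / ((l : ℚ) + 1) ^ i) * E' ^ (i - 1)) - J (k' + (l + 1))) := by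
      apply Finset.dvd_sum
      intro l hl
      rw [Finset.mem_range] at hl
      refine plus_inv (by positivity) ?_ _ (dE' _ (hJ _ (ndB l hl)))
      push_cast; ring
    obtain ⟨qc, hqc⟩ : E' ^ 10 ∣ ∑ l ∈ Finset.range L,
        ((∑ i ∈ Finset.Icc 1 10, C (1 / ((l : ℚ) + 1) ^ i) * E' ^ (i - 1)) + J (k' - (l + 1))) := by
      apply Finset.dvd_sum
      intro l hl
      rw [Finset.mem_range] at hl
      refine minus_inv (by positivity) ?_ _ (dE' _ (hJ _ (ndC l hl)))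
      rw [Nat.cast_sub (by omega)]; push_cast; ring
    obtain ⟨qd, hqd⟩ : E' ^ 10 ∣ ∑ l ∈ Finset.range M,
        ((∑ i ∈ Finset.Icc 1 10, C ((-1) ^ (i + 1) / (((p - 1 + (1 + l) : ℕ) : ℚ) + 1) ^ i) * E' ^ (i - 1)) -
          J (k + (l + 1))) := by
      apply Finset.dvd_sum
      intro l hl
      rw [Finset.mem_range] at hl
      refine plus_inv (by positivity) ?_ _ (dE' _ (hJ _ (ndD l hl)))
      rw [show p - 1 + (1 + l) = p + l by omega, hkk]; push_cast; ring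
    obtain ⟨qm, hqm⟩ := dE' _ hmid
    rw [Finset.sum_sub_distrib, ← hSB, ← hAB] at hqb
    rw [Finset.sum_add_distrib, ← hSC] at hqc
    rw [Finset.sum_sub_distrib, ← hSD] at hqd
    have h3 : C (p : ℚ) + E' = E := by rw [hE]; ring
    rw [h3] at h2
    have hh : C ((p : ℚ) / 2) * 2 = E - E' := by
      have : C ((p : ℚ) / 2) * 2 = C (p : ℚ) := by
        rw [show (2 : ℚ[X]) = C 2 from rfl, ← C_mul]; congr 1; ring
      rw [this, hE]; ring
    have hc2 : (2 : ℚ[X]) * C (1 / 2) = 1 := by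
      rw [show (2 : ℚ[X]) = C 2 from rfl, ← C_mul]; norm_num
    refine ⟨qb + qc + qd + C (1 / 2) * qm + E' * K * C (1 / (p : ℚ) ^ 10), ?_⟩
    linear_combination hqb + hqc + hqd - (E' * K) * h2 + C (1 / 2) * hqm - (C (1 / 2) * K) * hh +
      (C ((p : ℚ) / 2) * K - SA + E' * K) * hc2

end

end

end Pool.Agent.H574R2.D9.TwoW
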