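import Pool.Agent.H574R2.D9.Defs

open Polynomial Pool.Agent.H337R2

namespace Pool.Agent.H574R2.D9

noncomputable section

lemma Z1_aux_denom (u : ℕ → ℚ) (hu : ∀ i, 10 ≤ i → u i = 0) (q : ℕ)
    (hq : ∀ i < 10, (u i).den ∣ q) (hq0 : 0 < q) : UInt q u := by
  refine ⟨hq0, fun i => ?_⟩
  by_cases hi : i < 10
  · obtain ⟨k, hk⟩ := hq i hi
    refine ⟨(u i).num * k, ?_⟩
    have h1 : (u i).num = u i * ((u i).den : ℚ) := (Rat.mul_den_eq_num _).symm
    rw [hk]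
    push_cast
    rw [h1]
    ring
  · exact ⟨0, by rw [hu i (not_lt.1 hi)]; simp⟩

lemma Z1_aux (c : ℕ) (hc : c = 5 ∨ c = 7) (hirr : Irrational (zr c))
    (h : Module.finrank ℚ (Submodule.span ℚ (Set.range fun i : Fin 5 => if i.1 = 0 then (1 : ℝ) else zr (2 * i.1 + 1))) < 3) :
    ∃ (θ : ℝ) (α β : ℕ → ℚ) (q i0 : ℕ), UInt q α ∧ UInt q β ∧ (i0 = 3 ∨ i0 = 5 ∨ i0 = 7) ∧ β i0 ≠ 0 ∧
      (∀ i < i0, β i = 0) ∧ (∀ i, Odd i → 3 ≤ i → i ≤ 9 → zr i = (α i : ℝ) + θ * (β i : ℝ)) := by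
  classical
  set f : Fin 5 → ℝ := fun i => if i.1 = 0 then (1 : ℝ) else zr (2 * i.1 + 1) with hf
  set V := Submodule.span ℚ (Set.range f) with hV
  have hfin : FiniteDimensional ℚ V := by
    rw [hV]
    exact FiniteDimensional.span_of_finite ℚ (Set.finite_range f)
  have hmem : ∀ i, Odd i → 3 ≤ i → i ≤ 9 → zr i ∈ V := by
    intro i hi h3 h9
    obtain ⟨k, rfl⟩ := hi
    refine Submodule.subset_span ⟨⟨k, by omega⟩, ?_⟩
    simp only [hf]
    rw [if_neg (by omega)]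
  have h1mem : (1 : ℝ) ∈ V := Submodule.subset_span ⟨⟨0, by norm_num⟩, by simp [hf]⟩
  have hcmem : zr c ∈ V := by
    rcases hc with rfl | rfl
    · exact hmem 5 (by decide) (by norm_num) (by norm_num)
    · exact hmem 7 (by decide) (by norm_num) (by norm_num)
  have hli : LinearIndependent ℚ ![(1 : ℝ), zr c] := by
    rw [LinearIndependent.pair_iff]
    intro s t hst
    by_cases ht : t = 0
    · subst ht
      rw [zero_smul, add_zero] at hst
      refine ⟨?_, rfl⟩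
      rcases smul_eq_zero.1 hst with h0 | h0
      · exact h0
      · exact absurd h0 one_ne_zero
    · exfalso
      apply hirr
      refine ⟨-s / t, ?_⟩
      have ht' : (t : ℝ) ≠ 0 := by exact_mod_cast ht
      rw [Rat.smul_def, Rat.smul_def, mul_one] at hst
      push_cast
      field_simp
      linarith
  have hle : Submodule.span ℚ (Set.range ![(1 : ℝ), zr c]) ≤ V := by
    rw [Submodule.span_le]
    rintro _ ⟨i, rfl⟩
    fin_cases i
    · exact h1mem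
    · exact hcmem
  have heq : Submodule.span ℚ (Set.range ![(1 : ℝ), zr c]) = V := by
    apply Submodule.eq_of_le_of_finrank_le hle
    rw [finrank_span_eq_card hli, Fintype.card_fin]
    exact Nat.lt_succ_iff.1 h
  have hex : ∀ i, ∃ ab : ℚ × ℚ, (Odd i → 3 ≤ i → i ≤ 9 → zr i = (ab.1 : ℝ) + zr c * (ab.2 : ℝ)) ∧
      (¬ (Odd i ∧ 3 ≤ i ∧ i ≤ 9) → ab = 0) := by
    intro i
    by_cases hi : Odd i ∧ 3 ≤ i ∧ i ≤ 9
    · have h1 := hmem i hi.1 hi.2.1 hi.2.2
      rw [← heq] at h1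
      simp only [Matrix.range_cons, Matrix.range_empty, Set.union_empty, Set.singleton_union] at h1
      obtain ⟨a, b, hab⟩ := Submodule.mem_span_pair.1 h1
      refine ⟨(a, b), fun _ _ _ => ?_, fun hn => absurd hi hn⟩
      rw [← hab, Rat.smul_def, Rat.smul_def]
      ring
    · exact ⟨0, fun h1 h2 h3 => absurd ⟨h1, h2, h3⟩ hi, fun _ => rfl⟩
  choose ab hab hab0 using hex
  have hβc : (ab c).2 ≠ 0 := by
    intro h0
    apply hirr
    refine ⟨(ab c).1, ?_⟩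
    have h1 := hab c (by rcases hc with rfl | rfl <;> decide) (by rcases hc with rfl | rfl <;> norm_num)
      (by rcases hc with rfl | rfl <;> norm_num)
    rw [h0] at h1
    rw [h1]
    simp
  have hex0 : ∃ i, (ab i).2 ≠ 0 := ⟨c, hβc⟩
  set i0 := Nat.find hex0 with hi0
  have hi0s : (ab i0).2 ≠ 0 := Nat.find_spec hex0
  have hi0le : i0 ≤ 7 := (Nat.find_min' hex0 hβc).trans (by rcases hc with rfl | rfl <;> norm_num)
  have hi0odd : Odd i0 ∧ 3 ≤ i0 := by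
    by_contra hcon
    apply hi0s
    rw [hab0 i0 (fun h1 => hcon ⟨h1.1, h1.2.1⟩)]
    rfl
  have hout : ∀ i, 10 ≤ i → ab i = 0 := fun i hi => hab0 i (fun h1 => by omega)
  set q : ℕ := ∏ i ∈ Finset.range 10, ((ab i).1.den * (ab i).2.den) with hq
  have hq0 : 0 < q := Finset.prod_pos fun i _ => Nat.mul_pos (Rat.den_pos _) (Rat.den_pos _)
  have hdvd : ∀ i < 10, (ab i).1.den * (ab i).2.den ∣ q := fun i hi =>
    Finset.dvd_prod_of_mem (fun i => (ab i).1.den * (ab i).2.den) (Finset.mem_range.2 hi)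
  refine ⟨zr c, fun i => (ab i).1, fun i => (ab i).2, q, i0, ?_, ?_, ?_, hi0s, ?_, ?_⟩
  · exact Z1_aux_denom _ (fun i hi => by simp only [hout i hi]; rfl) q
      (fun i hi => (Dvd.intro _ rfl).trans (hdvd i hi)) hq0
  · exact Z1_aux_denom _ (fun i hi => by simp only [hout i hi]; rfl) q
      (fun i hi => (Dvd.intro_left _ rfl).trans (hdvd i hi)) hq0
  · obtain ⟨⟨k, hk⟩, h3⟩ := hi0odd
    omega
  · intro i hi
    by_contra h0
    exact Nat.find_min hex0 hi h0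
  · intro i h1 h2 h3
    exact hab i h1 h2 h3

theorem Z1_dim (h57 : Irrational (zr 5) ∨ Irrational (zr 7))
    (h : Module.finrank ℚ (Submodule.span ℚ (Set.range fun i : Fin 5 => if i.1 = 0 then (1 : ℝ) else zr (2 * i.1 + 1))) < 3) :
    ∃ (θ : ℝ) (α β : ℕ → ℚ) (q i0 : ℕ), UInt q α ∧ UInt q β ∧ (i0 = 3 ∨ i0 = 5 ∨ i0 = 7) ∧ β i0 ≠ 0 ∧
      (∀ i < i0, β i = 0) ∧ (∀ i, Odd i → 3 ≤ i → i ≤ 9 → zr i = (α i : ℝ) + θ * (β i : ℝ)) := by
  rcases h57 with h5 | h7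
  · exact Z1_aux 5 (Or.inl rfl) h5 h
  · exact Z1_aux 7 (Or.inr rfl) h7 h

end

end Pool.Agent.H574R2.D9
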