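import Pool.Agent.H574R2.D9.Defs

import Pool.Agent.H336R2.HD.A5

/-!
# Z: assembly of the proof of `dim_Q ⟨1, ζ(3), ζ(5), ζ(7), ζ(9)⟩ ≥ 3`

All results of the other tasks are hypotheses of `Z_main_of`.
-/

open Polynomial Pool.Agent.H337R2 Filter Topology

namespace Pool.Agent.H574R2.D9

noncomputable section

/-- The contradiction, all inputs as hypotheses. -/
theorem Z_contra_of
    (hPm : ∀ (q : ℕ) (α β : ℕ → ℚ), UInt q α → UInt q β → (∀ i < 3, β i = 0) →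
      ∀ᶠ n : ℕ in atTop, DD n α β ≠ 0 →
      ∑ p ∈ (Finset.range (20 * n + 1)).filter Nat.Prime,
        Real.log ((padicNorm p ((q : ℚ) ^ (10 * n - 10) * DD n α β) : ℚ) : ℝ) ≤
      -(150 * (n : ℝ) ^ 2 * Real.log n) - 439 / 10 * (n : ℝ) ^ 2)
    (hPl : ∀ (q : ℕ) (α β : ℕ → ℚ), UInt q α → UInt q β → (∀ i < 3, β i = 0) →
      ∀ n : ℕ, 1 ≤ n → ∀ p : ℕ, p.Prime → 20 * n < p →
      padicNorm p ((q : ℚ) ^ (10 * n - 10) * DD n α β) ≤ 1)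
    (α β : ℕ → ℚ) (θ : ℝ) (q i0 : ℕ) (hα : UInt q α) (hβ : UInt q β)
    (hi0 : i0 = 3 ∨ i0 = 5 ∨ i0 = 7) (hβ0 : ∀ i < i0, β i = 0)
    (hA : ∀ᶠ n : ℕ in atTop, DD n α β ≠ 0 →
      Real.log |((DD n α β : ℚ) : ℝ)| ≤ 150 * (n : ℝ) ^ 2 * Real.log n + 85 / 2 * (n : ℝ) ^ 2)
    (hH6 : ∃ p0 : ℕ, ∀ p : ℕ, p0 ≤ p → p.Prime → DD p α β ≠ 0) : False := by
  obtain ⟨p0, hp0⟩ := hH6
  have hβ3 : ∀ i < 3, β i = 0 := fun i hi => hβ0 i (by omega)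
  have hq : 0 < q := hα.1
  have hP := hPm q α β hα hβ hβ3
  have hq0 : (0 : ℝ) < q := by exact_mod_cast hq
  have hlq : 0 ≤ Real.log q := Real.log_nonneg (by exact_mod_cast hq)
  -- the power of q
  have hQ : ∀ᶠ n : ℕ in atTop, 10 * (n : ℝ) * Real.log q < (n : ℝ) ^ 2 := by
    have h1 : ∀ᶠ n : ℕ in atTop, 10 * Real.log q < (n : ℝ) :=
      (tendsto_natCast_atTop_atTop (R := ℝ)).eventually_gt_atTop _
    filter_upwards [h1, eventually_ge_atTop 1] with n h2 h3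
    have h4 : (1 : ℝ) ≤ n := by exact_mod_cast h3
    nlinarith
  obtain ⟨N, hN⟩ := eventually_atTop.1 ((hP.and hA).and (hQ.and (eventually_ge_atTop 1)))
  obtain ⟨n, hn, hnp⟩ := Nat.exists_infinite_primes (max N p0)
  have hnN : N ≤ n := (le_max_left _ _).trans hn
  obtain ⟨⟨h1, h2⟩, h3, h4⟩ := hN n hnN
  have hne := hp0 n ((le_max_right _ _).trans hn) hnp
  have h1' := h1 hne
  have h2' := h2 hne
  set z : ℚ := (q : ℚ) ^ (10 * n - 10) * DD n α β with hz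
  have hqq : (q : ℚ) ≠ 0 := by exact_mod_cast hq.ne'
  have hz0 : z ≠ 0 := mul_ne_zero (pow_ne_zero _ hqq) hne
  have hS : ∀ p ∈ (Finset.range (20 * n + 1)).filter Nat.Prime, p.Prime := fun p hp =>
    (Finset.mem_filter.1 hp).2
  have hprod := Pool.Agent.H336R2.HD.A5_prod_formula z hz0
    ((Finset.range (20 * n + 1)).filter Nat.Prime) hS
    (fun p => ((padicNorm p z : ℚ) : ℝ)) (fun p _ => le_rfl) (fun p hp hpS => by
      apply hPl q α β hα hβ hβ3 n h4 p hp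
      by_contra hlt
      apply hpS
      rw [Finset.mem_filter, Finset.mem_range]
      exact ⟨by omega, hp⟩)
  have hpos : ∀ p ∈ (Finset.range (20 * n + 1)).filter Nat.Prime,
      ((padicNorm p z : ℚ) : ℝ) ≠ 0 := by
    intro p hp
    have : Fact p.Prime := ⟨hS p hp⟩
    have h5 : padicNorm p z ≠ 0 := padicNorm.nonzero hz0
    exact_mod_cast h5
  have hDpos : 0 < |((DD n α β : ℚ) : ℝ)| := abs_pos.2 (by exact_mod_cast hne)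
  have habs : |(z : ℝ)| = (q : ℝ) ^ (10 * n - 10) * |((DD n α β : ℚ) : ℝ)| := by
    rw [hz]
    push_cast
    rw [abs_mul, abs_of_pos (pow_pos hq0 _)]
  have hlog := Real.log_nonneg hprod
  rw [habs, Real.log_mul (mul_pos (pow_pos hq0 _) hDpos).ne' (Finset.prod_ne_zero_iff.2 hpos),
    Real.log_mul (pow_pos hq0 _).ne' hDpos.ne', Real.log_pow,
    Real.log_prod (fun p hp => hpos p hp)] at hlog
  have hmq : ((10 * n - 10 : ℕ) : ℝ) * Real.log q ≤ 10 * n * Real.log q := by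
    apply mul_le_mul_of_nonneg_right _ hlq
    have : 10 * n - 10 ≤ 10 * n := Nat.sub_le _ _
    exact_mod_cast this
  have hn1 : (1 : ℝ) ≤ n := by exact_mod_cast h4
  have hn2 : (1 : ℝ) ≤ (n : ℝ) ^ 2 := by nlinarith
  linarith

/-- The conclusion, all inputs as hypotheses. -/
theorem Z_main_of
    (hPm : ∀ (q : ℕ) (α β : ℕ → ℚ), UInt q α → UInt q β → (∀ i < 3, β i = 0) →
      ∀ᶠ n : ℕ in atTop, DD n α β ≠ 0 →
      ∑ p ∈ (Finset.range (20 * n + 1)).filter Nat.Prime,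
        Real.log ((padicNorm p ((q : ℚ) ^ (10 * n - 10) * DD n α β) : ℚ) : ℝ) ≤
      -(150 * (n : ℝ) ^ 2 * Real.log n) - 439 / 10 * (n : ℝ) ^ 2)
    (hPl : ∀ (q : ℕ) (α β : ℕ → ℚ), UInt q α → UInt q β → (∀ i < 3, β i = 0) →
      ∀ n : ℕ, 1 ≤ n → ∀ p : ℕ, p.Prime → 20 * n < p →
      padicNorm p ((q : ℚ) ^ (10 * n - 10) * DD n α β) ≤ 1)
    (hA : ∀ (α β : ℕ → ℚ) (θ : ℝ),
      (∀ i, Odd i → 3 ≤ i → i ≤ 9 → zr i = (α i : ℝ) + θ * (β i : ℝ)) →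
      ∀ᶠ n : ℕ in atTop, DD n α β ≠ 0 →
      Real.log |((DD n α β : ℚ) : ℝ)| ≤ 150 * (n : ℝ) ^ 2 * Real.log n + 85 / 2 * (n : ℝ) ^ 2)
    (hH6 : ∀ (α β : ℕ → ℚ) (q : ℕ), UInt q α → UInt q β → ∀ i0 : ℕ,
      (i0 = 3 ∨ i0 = 5 ∨ i0 = 7) → (∀ i < i0, β i = 0) → β i0 ≠ 0 →
      ∃ p0 : ℕ, ∀ p : ℕ, p0 ≤ p → p.Prime → DD p α β ≠ 0)
    (hZ1 : (Irrational (zr 5) ∨ Irrational (zr 7)) →
      Module.finrank ℚ (Submodule.span ℚ
        (Set.range fun i : Fin 5 => if i.1 = 0 then (1 : ℝ) else zr (2 * i.1 + 1))) < 3 →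
      ∃ (θ : ℝ) (α β : ℕ → ℚ) (q i0 : ℕ), UInt q α ∧ UInt q β ∧ (i0 = 3 ∨ i0 = 5 ∨ i0 = 7) ∧
        β i0 ≠ 0 ∧ (∀ i < i0, β i = 0) ∧
        (∀ i, Odd i → 3 ≤ i → i ≤ 9 → zr i = (α i : ℝ) + θ * (β i : ℝ)))
    (h57 : Irrational (zr 5) ∨ Irrational (zr 7)) :
    3 ≤ Module.finrank ℚ (Submodule.span ℚ
      (Set.range fun i : Fin 5 => if i.1 = 0 then (1 : ℝ) else zr (2 * i.1 + 1))) := by
  by_contra hcon
  rw [not_le] at hcon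
  obtain ⟨θ, α, β, q, i0, hα, hβ, hi0, hβ1, hβ0, hz⟩ := hZ1 h57 hcon
  exact Z_contra_of hPm hPl α β θ q i0 hα hβ hi0 hβ0 (hA α β θ hz)
    (hH6 α β q hα hβ i0 hi0 hβ0 hβ1)

end

end Pool.Agent.H574R2.D9
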