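import Pool.Agent.H574R2.D9.AMz
import Pool.Agent.H574R2.D9.PM
import Pool.Agent.H574R2.D9.Zpre
import Pool.Agent.H574R2.D9.D4
import Pool.Agent.H574R2.D9.D3
import Pool.Agent.H574R2.D9.F2
import Pool.Agent.H574R2.D9.F3
import Pool.Agent.H574R2.D9.F4
import Pool.Agent.H574R2.D9.F5
import Pool.Agent.H574R2.D9.F6
import Pool.Agent.H574R2.D9.H6
import Pool.Agent.H574R2.D9.Z1
import Pool.Agent.H574R2.D9.E4a
import Pool.Agent.H574R2.D9.E3Az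
import Pool.Agent.H574R2.D9.E3B
import Pool.Agent.H574R2.D9.D3two

/-! Conclusion: `dim_Q ⟨1, ζ(3), ζ(5), ζ(7), ζ(9)⟩ ≥ 3`. -/

open Polynomial Pool.Agent.H337R2 Filter Topology

namespace Pool.Agent.H574R2.D9

noncomputable section

theorem E4_padic : ∃ K0 : ℝ, 0 ≤ K0 ∧ ∀ n : ℕ, 100 ≤ n → ∀ p : ℕ, p.Prime → n < 50 * p → 20 * n < p ^ 2 →
    ∀ (q : ℕ) (α β : ℕ → ℚ), UInt q α → UInt q β → (∀ i < 3, β i = 0) →
    ((padicNorm p ((q : ℚ) ^ (10 * n - 10) * DD n α β) : ℚ) : ℝ) ≤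
      if p < 4 * n then (p : ℝ) ^ (EW n p + K0) else 1 := by
  refine E4_of ?_ ?_ ?_ ?_ E3_A E3_B E3_C
  · intro n p _ hn hp2 q α β hα hβ hβ3 m a S hS h
    exact D3_det_padic hn hp2 q α β hα hβ hβ3 m a S hS h
  · intro n p _ hn hp2 hp q α β hα hβ hβ3 m
    exact D3_large hn hp2 hp q α β hα hβ hβ3 m
  · intro n p _ hn hp100 h1 h2 q α β hα hβ hβ3 m
    exact D3_two hn hp100 h1 h2 q α β hα hβ hβ3 m
  · intro n p k hp hk
    exact D2_kap_mem hp hk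

/-- **the p-adic part** -/
theorem P_main : ∀ (q : ℕ) (α β : ℕ → ℚ), UInt q α → UInt q β → (∀ i < 3, β i = 0) →
    ∀ᶠ n : ℕ in atTop, DD n α β ≠ 0 →
    ∑ p ∈ (Finset.range (20 * n + 1)).filter Nat.Prime,
      Real.log ((padicNorm p ((q : ℚ) ^ (10 * n - 10) * DD n α β) : ℚ) : ℝ) ≤
    -(150 * (n : ℝ) ^ 2 * Real.log n) - 439 / 10 * (n : ℝ) ^ 2 :=
  P_main_of (fun hn hp q α β hα hβ hβ3 m hm => D4_small_med hn hp q α β hα hβ hβ3 m hm)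
    (fun hn q α β hα hβ hβ3 m hm => D4_small_crude hn q α β hα hβ hβ3 m hm)
    E4_padic F2_A F2_B F2_C F2_U F3_numeric F4_small F5_fact F6_superfac

theorem P_large : ∀ (q : ℕ) (α β : ℕ → ℚ), UInt q α → UInt q β → (∀ i < 3, β i = 0) →
    ∀ n : ℕ, 1 ≤ n → ∀ p : ℕ, p.Prime → 20 * n < p →
    padicNorm p ((q : ℚ) ^ (10 * n - 10) * DD n α β) ≤ 1 :=
  P_large_of (fun hn hp2 hp q α β hα hβ hβ3 m => D3_large hn hp2 hp q α β hα hβ hβ3 m)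

theorem Z_main (h57 : Irrational (zr 5) ∨ Irrational (zr 7)) :
    3 ≤ Module.finrank ℚ (Submodule.span ℚ (Set.range fun i : Fin 5 => if i.1 = 0 then (1 : ℝ) else zr (2 * i.1 + 1))) :=
  Z_main_of P_main P_large A_main
    (fun α β q hα hβ i0 hi0 hβ0 hβ1 => H6_nonvanish α β q hα hβ i0 hi0 hβ0 hβ1) Z1_dim h57

end

end Pool.Agent.H574R2.D9
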